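import Mathlib
import Pool.Agent.TH278.DX.Defs
set_option autoImplicit false

/-! Hahn-Banach duality for invariant operators. -/

namespace Pool.Agent.TH496.J4448

open Pool.Agent.TH278.DX

variable {F : Type} [NormedAddCommGroup F] [InnerProductSpace ℂ F]

/-- the real part of the form is nonnegative -/
def Nn (R : F →L[ℂ] F) : Prop := ∀ y : F, 0 ≤ (inner ℂ (R y) y).re

theorem form_bound (R : F →L[ℂ] F) (y : F) : |(inner ℂ (R y) y).re| ≤ ‖R‖ * ‖y‖ ^ 2 := by
  calc |(inner ℂ (R y) y).re| ≤ ‖(inner ℂ (R y) y : ℂ)‖ := Complex.abs_re_le_norm _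
    _ ≤ ‖R y‖ * ‖y‖ := norm_inner_le_norm _ _
    _ ≤ ‖R‖ * ‖y‖ * ‖y‖ := by gcongr; exact R.le_opNorm y
    _ = _ := by ring

theorem form_smul_real (t : ℝ) (R : F →L[ℂ] F) (y : F) :
    (inner ℂ ((((t : ℂ) • R : F →L[ℂ] F)) y) y).re = t * (inner ℂ (R y) y).re := by
  rw [ContinuousLinearMap.smul_apply, inner_smul_left]
  simp

theorem form_one (y : F) : (inner ℂ ((1 : F →L[ℂ] F) y) y).re = ‖y‖ ^ 2 := by
  have h : (inner ℂ ((1 : F →L[ℂ] F) y) y : ℂ) = inner ℂ y y := rfl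
  rw [h, inner_self_eq_norm_sq_to_K]
  norm_cast

theorem form_add (R S : F →L[ℂ] F) (y : F) :
    (inner ℂ ((R + S) y) y).re = (inner ℂ (R y) y).re + (inner ℂ (S y) y).re := by
  rw [ContinuousLinearMap.add_apply, inner_add_left, Complex.add_re]

theorem form_sub (R S : F →L[ℂ] F) (y : F) :
    (inner ℂ ((R - S) y) y).re = (inner ℂ (R y) y).re - (inner ℂ (S y) y).re := by
  rw [ContinuousLinearMap.sub_apply, inner_sub_left, Complex.sub_re]

theorem form_I (y : F) : (inner ℂ ((Complex.I • (1 : F →L[ℂ] F)) y) y).re = 0 := by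
  rw [ContinuousLinearMap.smul_apply, inner_smul_left]
  have h : (inner ℂ ((1 : F →L[ℂ] F) y) y : ℂ) = inner ℂ y y := rfl
  rw [h, inner_self_eq_norm_sq_to_K]
  simp [← Complex.ofReal_pow]

theorem nn_bound (R : F →L[ℂ] F) : Nn ((‖R‖ : ℂ) • (1 : F →L[ℂ] F) + R) := by
  intro y
  have h2 := form_bound R y
  rw [form_add, form_smul_real, form_one]
  have h3 := neg_abs_le (inner ℂ (R y) y).re
  linarith

/-- a positive functional with vanishing value at `1` vanishes -/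
theorem eq_zero_of_pos (Q : (F →L[ℂ] F) →L[ℂ] ℂ) (hQ : ∀ R, Nn R → 0 ≤ (Q R).re)
    (h1 : (Q 1).re = 0) (R : F →L[ℂ] F) : Q R = 0 := by
  have key : ∀ R : F →L[ℂ] F, 0 ≤ (Q R).re + ‖R‖ * (Q 1).re := by
    intro R
    have h := hQ _ (nn_bound R)
    rw [map_add, map_smul, Complex.add_re, smul_eq_mul, Complex.re_ofReal_mul] at h
    linarith
  have key2 : ∀ R : F →L[ℂ] F, (Q R).re = 0 := by
    intro R
    have h2 := key R
    have h3 := key (-R)
    rw [map_neg, Complex.neg_re] at h3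
    rw [h1] at h2 h3
    linarith
  have h4 := key2 R
  have h5 := key2 (Complex.I • R)
  rw [map_smul, smul_eq_mul, Complex.I_mul_re] at h5
  apply Complex.ext
  · exact h4
  · simpa using h5

/-- the open cone -/
def O (F : Type) [NormedAddCommGroup F] [InnerProductSpace ℂ F] :
    Set ((F →L[ℂ] F) × (F →L[ℂ] F)) :=
  {p | ∃ ε : ℝ, 0 < ε ∧ ∀ y : F, ε * ‖y‖ ^ 2 ≤ (inner ℂ (p.1 y) y).re ∧
    ε * ‖y‖ ^ 2 ≤ (inner ℂ (p.2 y) y).re}

theorem O_convex : Convex ℝ (O F) := by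
  rintro ⟨R, S⟩ ⟨ε, hε, h⟩ ⟨R', S'⟩ ⟨ε', hε', h'⟩ a b ha hb hab
  refine ⟨min ε ε', lt_min hε hε', fun y => ?_⟩
  have e1 : ∀ (T T' : F →L[ℂ] F), (inner ℂ ((a • T + b • T') y) y).re =
      a * (inner ℂ (T y) y).re + b * (inner ℂ (T' y) y).re := by
    intro T T'
    rw [← Complex.coe_smul a T, ← Complex.coe_smul b T', form_add, form_smul_real, form_smul_real]
  have hy : 0 ≤ ‖y‖ ^ 2 := by positivity
  have g1 : min ε ε' * ‖y‖ ^ 2 ≤ ε * ‖y‖ ^ 2 := mul_le_mul_of_nonneg_right (min_le_left _ _) hy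
  have g2 : min ε ε' * ‖y‖ ^ 2 ≤ ε' * ‖y‖ ^ 2 := mul_le_mul_of_nonneg_right (min_le_right _ _) hy
  have comb : ∀ (x x' : ℝ), ε * ‖y‖ ^ 2 ≤ x → ε' * ‖y‖ ^ 2 ≤ x' →
      min ε ε' * ‖y‖ ^ 2 ≤ a * x + b * x' := by
    intro x x' hx hx'
    have k1 : a * (min ε ε' * ‖y‖ ^ 2) ≤ a * x := mul_le_mul_of_nonneg_left (g1.trans hx) ha
    have k2 : b * (min ε ε' * ‖y‖ ^ 2) ≤ b * x' := mul_le_mul_of_nonneg_left (g2.trans hx') hb
    have k3 : a * (min ε ε' * ‖y‖ ^ 2) + b * (min ε ε' * ‖y‖ ^ 2) = min ε ε' * ‖y‖ ^ 2 := by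
      rw [← add_mul, hab, one_mul]
    linarith
  constructor
  · have := comb _ _ (h y).1 (h' y).1
    rw [← e1 R R'] at this
    exact this
  · have := comb _ _ (h y).2 (h' y).2
    rw [← e1 S S'] at this
    exact this

theorem O_open : IsOpen (O F) := by
  rw [Metric.isOpen_iff]
  rintro ⟨R, S⟩ ⟨ε, hε, h⟩
  refine ⟨ε / 2, by positivity, ?_⟩
  rintro ⟨R', S'⟩ hd
  rw [Metric.mem_ball, Prod.dist_eq, max_lt_iff] at hd
  obtain ⟨hd1, hd2⟩ := hd
  rw [dist_eq_norm] at hd1 hd2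
  refine ⟨ε / 2, by positivity, fun y => ?_⟩
  have hy : 0 ≤ ‖y‖ ^ 2 := by positivity
  have comb : ∀ (T T' : F →L[ℂ] F), ‖T' - T‖ < ε / 2 → ε * ‖y‖ ^ 2 ≤ (inner ℂ (T y) y).re →
      ε / 2 * ‖y‖ ^ 2 ≤ (inner ℂ (T' y) y).re := by
    intro T T' hT hx
    have k1 := form_bound (T' - T) y
    rw [form_sub] at k1
    have k2 := neg_abs_le ((inner ℂ (T' y) y).re - (inner ℂ (T y) y).re)
    have k3 : ‖T' - T‖ * ‖y‖ ^ 2 ≤ ε / 2 * ‖y‖ ^ 2 := mul_le_mul_of_nonneg_right hT.le hy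
    linarith
  exact ⟨comb R R' hd1 (h y).1, comb S S' hd2 (h y).2⟩

/-- invariance of an operator -/
def V {K : Type} [Group K] (ρ : K →* (F →L[ℂ] F)ˣ) (A : F →L[ℂ] F) : Prop :=
  ∀ (k : K) (x y : F), inner ℂ (A (((ρ k : (F →L[ℂ] F)ˣ) : F →L[ℂ] F) x))
    (((ρ k : (F →L[ℂ] F)ˣ) : F →L[ℂ] F) y) = inner ℂ (A x) y

theorem V_smul {K : Type} [Group K] {ρ : K →* (F →L[ℂ] F)ˣ} {A : F →L[ℂ] F} (h : V ρ A) (z : ℂ) :
    V ρ (z • A) := by
  intro k x y
  rw [ContinuousLinearMap.smul_apply, ContinuousLinearMap.smul_apply, inner_smul_left,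
    inner_smul_left, h k x y]

theorem V_add {K : Type} [Group K] {ρ : K →* (F →L[ℂ] F)ˣ} {A B : F →L[ℂ] F} (h : V ρ A)
    (h' : V ρ B) : V ρ (A + B) := by
  intro k x y
  rw [ContinuousLinearMap.add_apply, ContinuousLinearMap.add_apply, inner_add_left,
    inner_add_left, h k x y, h' k x y]

/-- the symmetrisation of an invariant operator -/
theorem inv_of_V [CompleteSpace F] {K : Type} [Group K] {ρ : K →* (F →L[ℂ] F)ˣ} {A : F →L[ℂ] F}
    (h : V ρ A) {c' : ℝ} (h1 : ∀ x, ‖x‖ ^ 2 ≤ (inner ℂ (A x) x).re)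
    (h2 : ∀ x, (inner ℂ (A x) x).re ≤ c' * ‖x‖ ^ 2) : Inv ρ 1 c' := by
  have hadj : ∀ x y : F, inner ℂ ((ContinuousLinearMap.adjoint A) x) y = inner ℂ x (A y) :=
    fun x y => ContinuousLinearMap.adjoint_inner_left A y x
  have hB : ∀ x y : F, inner ℂ (((1 / 2 : ℂ) • (A + ContinuousLinearMap.adjoint A)) x) y =
      (1 / 2 : ℂ) * (inner ℂ (A x) y + inner ℂ x (A y)) := by
    intro x y
    rw [ContinuousLinearMap.smul_apply, inner_smul_left, ContinuousLinearMap.add_apply,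
      inner_add_left, hadj]
    have e2 : (1 / 2 : ℂ) = ((1 / 2 : ℝ) : ℂ) := by push_cast; rfl
    rw [e2, Complex.conj_ofReal]
  have hre : ∀ x : F, (inner ℂ (((1 / 2 : ℂ) • (A + ContinuousLinearMap.adjoint A)) x) x).re =
      (inner ℂ (A x) x).re := by
    intro x
    rw [hB]
    have e1 : (inner ℂ x (A x) : ℂ) = (starRingEnd ℂ) (inner ℂ (A x) x) :=
      (inner_conj_symm x (A x)).symm
    rw [e1]
    have e2 : (1 / 2 : ℂ) = ((1 / 2 : ℝ) : ℂ) := by push_cast; rfl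
    rw [e2, Complex.re_ofReal_mul, Complex.add_re, Complex.conj_re]
    ring
  refine ⟨(1 / 2 : ℂ) • (A + ContinuousLinearMap.adjoint A), ?_, ?_, ?_, ?_⟩
  · intro x y
    have e3 := hB y x
    rw [hB, ← inner_conj_symm x (((1 / 2 : ℂ) • (A + ContinuousLinearMap.adjoint A)) y), e3,
      map_mul, map_add, inner_conj_symm, inner_conj_symm]
    have e2 : (1 / 2 : ℂ) = ((1 / 2 : ℝ) : ℂ) := by push_cast; rfl
    rw [e2, Complex.conj_ofReal, add_comm]
  · intro x
    rw [hre, one_mul]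
    exact h1 x
  · intro x
    rw [hre]
    exact h2 x
  · intro k x y
    rw [hB, hB, h k x y]
    congr 2
    rw [← inner_conj_symm, h k y x, inner_conj_symm]

theorem dual {K F : Type} [Group K] [NormedAddCommGroup F] [InnerProductSpace ℂ F]
    [CompleteSpace F] (ρ : K →* (F →L[ℂ] F)ˣ) (c' M0 : ℝ) (h0 : Inv ρ 1 M0) (h : ¬ Inv ρ 1 c') :
    ∃ P Q : (F →L[ℂ] F) →L[ℂ] ℂ,
      (∀ R : F →L[ℂ] F, (∀ y : F, 0 ≤ (inner ℂ (R y) y).re) → 0 ≤ (P R).re) ∧
      (∀ R : F →L[ℂ] F, (∀ y : F, 0 ≤ (inner ℂ (R y) y).re) → 0 ≤ (Q R).re) ∧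
      (∀ A : F →L[ℂ] F, (∀ (k : K) (x y : F), inner ℂ (A (((ρ k : (F →L[ℂ] F)ˣ) : F →L[ℂ] F) x))
        (((ρ k : (F →L[ℂ] F)ˣ) : F →L[ℂ] F) y) = inner ℂ (A x) y) → P A = Q A) ∧
      Q 1 = 1 ∧ c' ≤ (P 1).re := by
  set W : Set ((F →L[ℂ] F) × (F →L[ℂ] F)) :=
    {p | ∃ A : F →L[ℂ] F, V ρ A ∧ p = (A - 1, (c' : ℂ) • (1 : F →L[ℂ] F) - A)} with hW
  have hWc : Convex ℝ W := by
    rintro _ ⟨A, hA, rfl⟩ _ ⟨B, hB, rfl⟩ a b ha hb hab
    refine ⟨(a : ℂ) • A + (b : ℂ) • B, V_add (V_smul hA _) (V_smul hB _), ?_⟩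
    have hb' : b = 1 - a := by linarith
    subst hb'
    rw [Prod.smul_mk, Prod.smul_mk, Prod.mk_add_mk, ← Complex.coe_smul, ← Complex.coe_smul,
      ← Complex.coe_smul, ← Complex.coe_smul]
    push_cast
    refine Prod.ext ?_ ?_
    · simp only
      module
    · simp only
      module
  have hdisj : Disjoint (O F) W := by
    rw [Set.disjoint_left]
    rintro p ⟨ε, hε, hp⟩ ⟨A, hA, rfl⟩
    apply h
    refine inv_of_V hA ?_ ?_
    · intro x
      have h1 := (hp x).1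
      simp only at h1
      rw [form_sub, form_one] at h1
      have h2 : 0 ≤ ε * ‖x‖ ^ 2 := by positivity
      linarith
    · intro x
      have h1 := (hp x).2
      simp only at h1
      rw [form_sub, form_smul_real, form_one] at h1
      have h2 : 0 ≤ ε * ‖x‖ ^ 2 := by positivity
      linarith
  obtain ⟨f, u, hf1, hf2⟩ := RCLike.geometric_hahn_banach_open (𝕜 := ℂ) O_convex O_open hWc hdisj
  simp only [RCLike.re_to_complex] at hf1 hf2
  -- the two components
  set P : (F →L[ℂ] F) →L[ℂ] ℂ := -(f.comp (ContinuousLinearMap.inl ℂ (F →L[ℂ] F) (F →L[ℂ] F)))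
    with hP
  set Q : (F →L[ℂ] F) →L[ℂ] ℂ := -(f.comp (ContinuousLinearMap.inr ℂ (F →L[ℂ] F) (F →L[ℂ] F)))
    with hQ
  have hPQ : ∀ R S : F →L[ℂ] F, f (R, S) = -(P R) - Q S := by
    intro R S
    have e1 : ((R, S) : (F →L[ℂ] F) × (F →L[ℂ] F)) = (R, 0) + (0, S) := by simp
    rw [e1, map_add, hP, hQ]
    simp
  have hcone : ∀ R S : F →L[ℂ] F, Nn R → Nn S → 0 ≤ (P R).re + (Q S).re := by
    intro R S hR hS
    by_contra hneg
    push Not at hneg
    have hall : ∀ t : ℝ, 0 ≤ t → -(t * ((P R).re + (Q S).re)) - ((P 1).re + (Q 1).re) < u := by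
      intro t ht
      have hmem : ((t : ℂ) • R + 1, (t : ℂ) • S + 1) ∈ O F := by
        refine ⟨1, one_pos, fun y => ?_⟩
        simp only
        rw [form_add, form_add, form_smul_real, form_smul_real, form_one]
        have k1 := mul_nonneg ht (hR y)
        have k2 := mul_nonneg ht (hS y)
        constructor <;> linarith
      have h1 := hf1 _ hmem
      rw [hPQ, map_add, map_add, map_smul, map_smul, Complex.sub_re, Complex.neg_re,
        Complex.add_re, Complex.add_re, smul_eq_mul, smul_eq_mul, Complex.re_ofReal_mul,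
        Complex.re_ofReal_mul] at h1
      linarith
    set r := (P R).re + (Q S).re with hr
    set s := (P 1).re + (Q 1).re with hs
    have h1 := hall ((|u| + |s|) / (-r)) (div_nonneg (by positivity) (by linarith))
    have h2 : (|u| + |s|) / (-r) * r = -(|u| + |s|) := by
      have hrne : r ≠ 0 := hneg.ne
      field_simp
    rw [h2] at h1
    have h3 := le_abs_self u
    have h4 := le_abs_self s
    linarith
  have hnn0 : Nn (0 : F →L[ℂ] F) := by intro y; simp
  have hPpos : ∀ R, Nn R → 0 ≤ (P R).re := by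
    intro R hR
    have := hcone R 0 hR hnn0
    simpa using this
  have hQpos : ∀ R, Nn R → 0 ≤ (Q R).re := by
    intro R hR
    have := hcone 0 R hnn0 hR
    simpa using this
  have hu : 0 ≤ u := by
    by_contra hneg
    push Not at hneg
    have hall : ∀ t : ℝ, 0 < t → -(t * ((P 1).re + (Q 1).re)) < u := by
      intro t ht
      have hmem : ((t : ℂ) • (1 : F →L[ℂ] F), (t : ℂ) • (1 : F →L[ℂ] F)) ∈ O F := by
        refine ⟨t, ht, fun y => ?_⟩
        simp only
        rw [form_smul_real, form_one]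
        exact ⟨le_refl _, le_refl _⟩
      have h1 := hf1 _ hmem
      rw [hPQ, map_smul, map_smul, Complex.sub_re, Complex.neg_re,
        smul_eq_mul, smul_eq_mul, Complex.re_ofReal_mul, Complex.re_ofReal_mul] at h1
      linarith
    set s := (P 1).re + (Q 1).re with hs
    have hspos : 0 < s := by
      have := hall 1 one_pos
      linarith
    have h1 := hall ((-u) / (2 * s)) (div_pos (by linarith) (by linarith))
    have h2 : (-u) / (2 * s) * s = -u / 2 := by
      field_simp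
    rw [h2] at h1
    linarith
  have hVineq : ∀ A, V ρ A → u ≤ (P 1).re - c' * (Q 1).re - ((P A).re - (Q A).re) := by
    intro A hA
    have h1 := hf2 _ ⟨A, hA, rfl⟩
    rw [hPQ, map_sub, map_sub, map_smul, Complex.sub_re, Complex.neg_re, Complex.sub_re,
      Complex.sub_re, smul_eq_mul, Complex.re_ofReal_mul] at h1
    linarith
  have hVre : ∀ A, V ρ A → (P A).re - (Q A).re = 0 := by
    intro A hA
    by_contra hne
    set d := (P A).re - (Q A).re with hd
    set C := (P 1).re - c' * (Q 1).re with hC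
    have h1 := hVineq _ (V_smul hA (((|C| + 1) / d : ℝ) : ℂ))
    rw [map_smul, map_smul, smul_eq_mul, smul_eq_mul, Complex.re_ofReal_mul,
      Complex.re_ofReal_mul, ← mul_sub, ← hd, div_mul_cancel₀ _ hne] at h1
    have h3 := le_abs_self C
    linarith
  have hVeq : ∀ A, V ρ A → P A = Q A := by
    intro A hA
    have h1 := hVre A hA
    have h2 := hVre _ (V_smul hA Complex.I)
    rw [map_smul, map_smul, smul_eq_mul, smul_eq_mul, Complex.I_mul_re, Complex.I_mul_re] at h2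
    apply Complex.ext <;> linarith
  have hnn1 : Nn (1 : F →L[ℂ] F) := by
    intro y
    rw [form_one]
    positivity
  have hC : c' * (Q 1).re ≤ (P 1).re := by
    have hV0 : V ρ (0 : F →L[ℂ] F) := by intro k x y; simp
    have h1 := hVineq 0 hV0
    simp only [map_zero, Complex.zero_re, sub_zero] at h1
    linarith
  have hQim : (Q 1).im = 0 := by
    have h1 := hQpos (Complex.I • (1 : F →L[ℂ] F)) (fun y => (form_I y).ge)
    have h2 := hQpos (-(Complex.I • (1 : F →L[ℂ] F))) (fun y => by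
      rw [ContinuousLinearMap.neg_apply, inner_neg_left, Complex.neg_re, form_I, neg_zero])
    rw [map_neg, Complex.neg_re] at h2
    rw [map_smul, smul_eq_mul, Complex.I_mul_re] at h1 h2
    linarith
  have hq0 : 0 ≤ (Q 1).re := hQpos 1 hnn1
  have hqpos : 0 < (Q 1).re := by
    rcases hq0.lt_or_eq with hlt | heq
    · exact hlt
    · exfalso
      have hQ0 := eq_zero_of_pos Q hQpos heq.symm
      obtain ⟨A0, -, hA1, -, hA3⟩ := h0
      have hVA : V ρ A0 := hA3
      have h1 : (P A0).re = 0 := by rw [hVeq A0 hVA, hQ0]; simp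
      have h2 : 0 ≤ (P (A0 - 1)).re := by
        refine hPpos _ (fun y => ?_)
        rw [form_sub, form_one]
        have := hA1 y
        linarith
      rw [map_sub, Complex.sub_re, h1] at h2
      have h3 : 0 ≤ (P 1).re := hPpos 1 hnn1
      have hP0 := eq_zero_of_pos P hPpos (by linarith)
      have h4 := hf1 (1, 1) ⟨1, one_pos, fun y => by
        simp only
        rw [form_one, one_mul]
        exact ⟨le_refl _, le_refl _⟩⟩
      have h5 := hf2 _ ⟨A0, hVA, rfl⟩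
      rw [hPQ, hP0, hQ0] at h4 h5
      linarith
  set q : ℝ := (Q 1).re with hqdef
  have hq1 : Q 1 = (q : ℂ) := by
    apply Complex.ext
    · simp [hqdef]
    · simp [hQim]
  refine ⟨((q⁻¹ : ℝ) : ℂ) • P, ((q⁻¹ : ℝ) : ℂ) • Q, ?_, ?_, ?_, ?_, ?_⟩
  · intro R hR
    rw [ContinuousLinearMap.smul_apply, smul_eq_mul, Complex.re_ofReal_mul]
    exact mul_nonneg (by positivity) (hPpos R hR)
  · intro R hR
    rw [ContinuousLinearMap.smul_apply, smul_eq_mul, Complex.re_ofReal_mul]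
    exact mul_nonneg (by positivity) (hQpos R hR)
  · intro A hA
    rw [ContinuousLinearMap.smul_apply, ContinuousLinearMap.smul_apply, hVeq A hA]
  · rw [ContinuousLinearMap.smul_apply, hq1, smul_eq_mul, ← Complex.ofReal_mul,
      inv_mul_cancel₀ hqpos.ne', Complex.ofReal_one]
  · rw [ContinuousLinearMap.smul_apply, smul_eq_mul, Complex.re_ofReal_mul, inv_mul_eq_div,
      le_div_iff₀ hqpos]
    exact hC

end Pool.Agent.TH496.J4448
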