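import Mathlib

/-! A scalar inequality: `log ((1 - q ^ x) / (1 - q))` is concave in `log x`. -/

set_option autoImplicit false

namespace Pool.Agent.TH496.J5133z

open Finset Real

lemma anti {u v : ℝ} (hu : 0 < u) (huv : u ≤ v) : v / (exp v - 1) ≤ u / (exp u - 1) := by
  have hv : 0 < v := lt_of_lt_of_le hu huv
  have h1 : 0 < exp u - 1 := by
    have := Real.add_one_lt_exp hu.ne'
    linarith
  have h2 : 0 < exp v - 1 := by
    have := Real.add_one_lt_exp hv.ne'
    linarith
  rw [div_le_div_iff₀ h2 h1]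
  have hc := convexOn_exp.2 (Set.mem_univ v) (Set.mem_univ 0) (div_nonneg hu.le hv.le)
    (sub_nonneg.2 ((div_le_one hv).2 huv)) (by ring)
  simp only [smul_eq_mul, mul_zero, add_zero, Real.exp_zero, mul_one] at hc
  have e1 : u / v * v = u := by field_simp
  rw [e1] at hc
  have h3 := mul_le_mul_of_nonneg_left hc hv.le
  have e2 : v * (u / v * exp v + (1 - u / v)) = u * exp v + (v - u) := by
    field_simp
  rw [e2] at h3
  nlinarith

/-- the function whose concavity is used -/
noncomputable def G (c s : ℝ) : ℝ := log (1 - exp (-(c * exp s)))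

lemma G_hasDeriv {c : ℝ} (hc : 0 < c) (s : ℝ) :
    HasDerivAt (G c) (c * exp s / (exp (c * exp s) - 1)) s := by
  have hv : 0 < c * exp s := mul_pos hc (exp_pos s)
  have h1 : exp (-(c * exp s)) < 1 := by
    rw [Real.exp_lt_one_iff]; linarith
  have h2 : 0 < exp (c * exp s) - 1 := by
    have := Real.add_one_lt_exp hv.ne'
    linarith
  have d1 : HasDerivAt (fun s => -(c * exp s)) (-(c * exp s)) s :=
    ((Real.hasDerivAt_exp s).const_mul c).neg
  have d2 := d1.exp
  have h4 : (1 : ℝ) - exp (-(c * exp s)) ≠ 0 := (sub_pos.2 h1).ne'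
  have d3 := (d2.const_sub 1).log h4
  refine d3.congr_deriv ?_
  have h5 := h4
  rw [Real.exp_neg] at h5 ⊢
  have h6 := (exp_pos (c * exp s)).ne'
  have h7 := h2.ne'
  rw [div_eq_div_iff h5 h7]
  field_simp

lemma G_concave {c : ℝ} (hc : 0 < c) : ConcaveOn ℝ Set.univ (G c) := by
  apply Antitone.concaveOn_univ_of_deriv
  · intro s; exact (G_hasDeriv hc s).differentiableAt
  · intro s t hst
    rw [(G_hasDeriv hc s).deriv, (G_hasDeriv hc t).deriv]
    exact anti (mul_pos hc (exp_pos s)) (mul_le_mul_of_nonneg_left (exp_le_exp.2 hst) hc.le)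

/-- slopes of a concave function at four points, here `0 < a ≤ x < y` -/
lemma slope_le {f : ℝ → ℝ} (hf : ConcaveOn ℝ Set.univ f) {a x y : ℝ} (ha : 0 < a) (hax : a ≤ x)
    (hxy : x < y) : (f y - f x) * a ≤ (f a - f 0) * (y - x) := by
  have k1 : (f y - f x) / (y - x) ≤ (f a - f 0) / (a - 0) := by
    rcases hax.eq_or_lt with h | h
    · subst h
      exact hf.slope_anti_adjacent (Set.mem_univ _) (Set.mem_univ _) ha hxy
    · exact (hf.slope_anti_adjacent (Set.mem_univ _) (Set.mem_univ _) h hxy).trans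
        (hf.slope_anti_adjacent (Set.mem_univ _) (Set.mem_univ _) ha h)
  rw [sub_zero, div_le_div_iff₀ (sub_pos.2 hxy) ha] at k1
  exact k1

lemma G_log {q : ℝ} (hq : 0 < q) {k : ℕ} (hk : 1 ≤ k) : G (-log q) (log k) = log (1 - q ^ k) := by
  have hk0 : (0 : ℝ) < k := by exact_mod_cast hk
  unfold G
  rw [Real.exp_log hk0]
  have : -(-log q * (k : ℝ)) = (k : ℝ) * log q := by ring
  rw [this, Real.exp_nat_mul, Real.exp_log hq]

theorem core (q : ℝ) (k : ℕ) (hq : 0 < q) (hq1 : q < 1) (hk : 1 ≤ k) :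
    ∑ i ∈ range (k + 1), q ^ i ≤
      (((k : ℝ) + 1) / k) ^ (Real.logb 2 (1 + q)) * ∑ i ∈ range k, q ^ i := by
  have hk0 : (0 : ℝ) < k := by exact_mod_cast hk
  have hc : 0 < -log q := by
    have := Real.log_neg hq hq1
    linarith
  have hpow : ∀ j : ℕ, 1 ≤ j → q ^ j < 1 := fun j hj => pow_lt_one₀ hq.le hq1 (by omega)
  have hp : ∀ j : ℕ, 1 ≤ j → 0 < 1 - q ^ j := fun j hj => sub_pos.2 (hpow j hj)
  have hsum : ∀ j : ℕ, ∑ i ∈ range j, q ^ i = (1 - q ^ j) / (1 - q) := by
    intro j
    rw [geom_sum_eq hq1.ne]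
    rw [← neg_div_neg_eq]
    ring_nf
  have hl2 : 0 < log 2 := Real.log_pos (by norm_num)
  rcases hk.eq_or_lt with h1 | h2
  · -- `k = 1`
    subst h1
    rw [Finset.sum_range_succ, Finset.sum_range_one]
    have : (((1 : ℕ) : ℝ) + 1) / ((1 : ℕ) : ℝ) = 2 := by norm_num
    rw [this, Real.rpow_logb (by norm_num) (by norm_num) (by linarith)]
    simp
  · have hk2 : 2 ≤ k := h2
    have hk2' : (2 : ℝ) ≤ k := by exact_mod_cast hk2
    have hxy : log (k : ℝ) < log ((k + 1 : ℕ) : ℝ) := by
      apply Real.log_lt_log hk0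
      push_cast; linarith
    have hs := slope_le (G_concave hc) hl2 (Real.log_le_log (by norm_num) hk2') hxy
    have hG2 : G (-log q) (log 2) = log (1 - q ^ 2) := by
      have := G_log hq (k := 2) (by norm_num)
      exact_mod_cast this
    have hG0 : G (-log q) 0 = log (1 - q) := by
      have := G_log hq (k := 1) (le_refl 1)
      simpa using this
    rw [G_log hq (by omega : 1 ≤ k + 1), G_log hq hk, hG2, hG0] at hs
    have e1 : log (1 - q ^ 2) - log (1 - q) = log (1 + q) := by
      rw [← Real.log_div (hp 2 (by norm_num)).ne' (by linarith : (1 : ℝ) - q ≠ 0)]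
      congr 1
      have : (1 : ℝ) - q ≠ 0 := by linarith
      field_simp
      ring
    rw [e1] at hs
    have hα : Real.logb 2 (1 + q) * log 2 = log (1 + q) := by
      unfold Real.logb
      field_simp
    have e2 : log ((k + 1 : ℕ) : ℝ) - log (k : ℝ) = log (((k : ℝ) + 1) / k) := by
      rw [← Real.log_div (by push_cast; linarith) hk0.ne']
      push_cast
      rfl
    rw [e2, ← hα] at hs
    have hs' : log (1 - q ^ (k + 1)) - log (1 - q ^ k) ≤
        Real.logb 2 (1 + q) * log (((k : ℝ) + 1) / k) := by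
      have : (log (1 - q ^ (k + 1)) - log (1 - q ^ k)) * log 2 ≤
          (Real.logb 2 (1 + q) * log (((k : ℝ) + 1) / k)) * log 2 := by
        calc _ ≤ _ := hs
          _ = _ := by ring
      exact le_of_mul_le_mul_right this hl2
    have hr : 0 < ((k : ℝ) + 1) / k := by positivity
    have hfin : 1 - q ^ (k + 1) ≤ (((k : ℝ) + 1) / k) ^ (Real.logb 2 (1 + q)) * (1 - q ^ k) := by
      have a1 : 0 < 1 - q ^ (k + 1) := hp (k + 1) (by omega)
      have a2 : 0 < 1 - q ^ k := hp k hk
      rw [Real.rpow_def_of_pos hr]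
      calc 1 - q ^ (k + 1) = exp (log (1 - q ^ (k + 1))) := (Real.exp_log a1).symm
        _ ≤ exp (log (((k : ℝ) + 1) / k) * Real.logb 2 (1 + q) + log (1 - q ^ k)) := by
            rw [Real.exp_le_exp]
            linarith
        _ = _ := by rw [Real.exp_add, Real.exp_log a2]
    rw [hsum, hsum]
    have hq' : 0 < 1 - q := by linarith
    rw [← mul_div_assoc]
    exact div_le_div_of_nonneg_right hfin hq'.le

end Pool.Agent.TH496.J5133z
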