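import Mathlib
import Pool.Agent.TH881.RK.DefsH2
import Pool.Agent.TH496.J5133z

/-! A scalar inequality: `log ((1 - q ^ x) / (1 - q))` is concave in `log x` (the proof is in
`J5133z.lean`). -/

set_option autoImplicit false

namespace Pool.Agent.TH496.J5133

open Finset Filter Topology
open Pool.Agent.TH881
open Pool.Agent.TH881.RG
open Pool.Agent.TH881.RQ
open Pool.Agent.TH881.RK
open Pool.Agent.H373R2.T7

theorem stSc : StSc := by
  intro q k hq hq1 hk
  exact Pool.Agent.TH496.J5133z.core q k hq hq1 hk

end Pool.Agent.TH496.J5133
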