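import Pool.Agent.TH161.KS.Basic
import Pool.Agent.TH740.KS_VIS

/-! Job 3057 (KS FLUC): global control of the fluctuations. -/

set_option autoImplicit false
set_option linter.unusedSectionVars false

open Finset Filter Topology
open scoped Classical

namespace Pool.Agent.TH496.KS_FLUC

open Pool.Agent.TH161.KS Pool.Agent.TH161.LW

variable {α : Type} [Fintype α] [PartialOrder α] {M : ℕ}

lemma ex_sum {ι : Type} (s : Finset ι) (X : ι → (α → ℕ) → ℝ) :
    ex α M (fun f => ∑ i ∈ s, X i f) = ∑ i ∈ s, ex α M (X i) := by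
  unfold ex
  rw [Finset.sum_comm, Finset.sum_div]

/-- mean distance of the ranks -/
lemma X_le (hS : Std α M) (x y : α) :
    ex α M (fun f => |(pos f y : ℝ) - pos f x|) ≤ 2 * rho M x y + 3 := by
  have hc := hS.cpos x y
  set X := ex α M (fun f => |(pos f y : ℝ) - pos f x|) with hX
  have hX0 : 0 ≤ X := ex_nonneg fun f _ => abs_nonneg _
  have h1 : X ≤ rho M x y + ex α M (fun f => |dd M x y f - ((pos f y : ℝ) - pos f x)|) := by
    unfold rho
    rw [← ex_add, hX]
    refine ex_mono fun f _ => ?_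
    have e : (pos f y : ℝ) - pos f x = dd M x y f - (dd M x y f - ((pos f y : ℝ) - pos f x)) := by
      ring
    calc |(pos f y : ℝ) - pos f x|
        = |dd M x y f - (dd M x y f - ((pos f y : ℝ) - pos f x))| := by rw [← e]
      _ ≤ _ := abs_sub _ _
  have h2 : √X * √X = X := Real.mul_self_sqrt hX0
  nlinarith [sq_nonneg (√X - 1)]

lemma pos_lt {f : α → ℕ} {x y : α} (h : f x < f y) : pos f x < pos f y := by
  unfold pos
  apply Finset.card_lt_card
  rw [Finset.ssubset_iff_of_subset]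
  · exact ⟨x, by simp [h], by simp⟩
  · intro z hz
    rw [mem_filter] at hz ⊢
    exact ⟨hz.1, hz.2.trans h⟩

lemma pos_inj {f : α → ℕ} (hf : Function.Injective f) : Function.Injective (pos f) := by
  intro x y h
  rcases lt_trichotomy (f x) (f y) with h1 | h1 | h1
  · have := pos_lt h1
    omega
  · exact hf h1
  · have := pos_lt h1
    omega

/-- few elements have ranks close to a given number -/
lemma close_card {f : α → ℕ} (hf : Function.Injective f) (Y : Finset α) (a : α) (T : ℕ) :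
    (Y.filter fun y => |(pos f y : ℝ) - pos f a| ≤ T).card ≤ 2 * T + 1 := by
  have h1 : (Y.filter fun y => |(pos f y : ℝ) - pos f a| ≤ T).card ≤
      (Finset.Icc ((pos f a : ℤ) - T) ((pos f a : ℤ) + T)).card := by
    apply Finset.card_le_card_of_injOn (fun y => (pos f y : ℤ))
    · intro y hy
      rw [Finset.mem_coe, mem_filter] at hy
      rw [Finset.mem_coe, Finset.mem_Icc]
      have h2 := abs_le.1 hy.2
      have h3 : (pos f a : ℝ) ≤ pos f y + T := by linarith [h2.1]
      have h4 : (pos f y : ℝ) ≤ pos f a + T := by linarith [h2.2]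
      have h5 : pos f a ≤ pos f y + T := by exact_mod_cast h3
      have h6 : pos f y ≤ pos f a + T := by exact_mod_cast h4
      show (pos f a : ℤ) - T ≤ (pos f y : ℤ) ∧ (pos f y : ℤ) ≤ (pos f a : ℤ) + T
      omega
    · intro y _ z _ h
      have h7 : (pos f y : ℤ) = (pos f z : ℤ) := h
      exact pos_inj hf (by exact_mod_cast h7)
  refine h1.trans (le_of_eq ?_)
  rw [Int.card_Icc]
  omega

lemma pointwise (Y : Finset α) (a : α) (T : ℕ) (f : α → ℕ) :
    (Y.card : ℝ) ≤ ((2 * T + 1) + (1 / ((T : ℝ) + 1)) *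
      ∑ y ∈ Y, |(pos f y : ℝ) - pos f a|) +
        Y.card * (if ¬ Function.Injective f then 1 else 0) := by
  have hT : (0 : ℝ) < (T : ℝ) + 1 := by positivity
  have hs : 0 ≤ ∑ y ∈ Y, |(pos f y : ℝ) - pos f a| := Finset.sum_nonneg fun _ _ => abs_nonneg _
  by_cases hf : Function.Injective f
  · rw [if_neg (not_not.2 hf), mul_zero, add_zero]
    have h1 := close_card hf Y a T
    have h2 := Finset.card_filter_add_card_filter_not (s := Y)
      (fun y => |(pos f y : ℝ) - pos f a| ≤ T)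
    have h3 : ((Y.filter fun y => ¬ |(pos f y : ℝ) - pos f a| ≤ T).card : ℝ) * ((T : ℝ) + 1) ≤
        ∑ y ∈ Y, |(pos f y : ℝ) - pos f a| := by
      calc ((Y.filter fun y => ¬ |(pos f y : ℝ) - pos f a| ≤ T).card : ℝ) * ((T : ℝ) + 1)
          = ∑ _y ∈ Y.filter (fun y => ¬ |(pos f y : ℝ) - pos f a| ≤ T), ((T : ℝ) + 1) := by
            rw [Finset.sum_const, nsmul_eq_mul]
        _ ≤ ∑ y ∈ Y.filter (fun y => ¬ |(pos f y : ℝ) - pos f a| ≤ T),
              |(pos f y : ℝ) - pos f a| := by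
            refine Finset.sum_le_sum fun y hy => ?_
            rw [mem_filter] at hy
            have h4 : |(pos f y : ℝ) - pos f a| = ((|(pos f y : ℤ) - pos f a| : ℤ) : ℝ) := by
              push_cast
              rfl
            rw [h4] at hy ⊢
            have h5 : (T : ℤ) < |(pos f y : ℤ) - pos f a| := by
              have := not_le.1 hy.2
              exact_mod_cast this
            exact_mod_cast h5
        _ ≤ _ := Finset.sum_le_sum_of_subset_of_nonneg (Finset.filter_subset _ _)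
            fun _ _ _ => abs_nonneg _
    have h4 : ((Y.filter fun y => ¬ |(pos f y : ℝ) - pos f a| ≤ T).card : ℝ) ≤
        (1 / ((T : ℝ) + 1)) * ∑ y ∈ Y, |(pos f y : ℝ) - pos f a| := by
      rw [one_div, inv_mul_eq_div, le_div_iff₀ hT]
      exact h3
    have h5 : (Y.card : ℝ) = ((Y.filter fun y => |(pos f y : ℝ) - pos f a| ≤ T).card : ℝ) +
        ((Y.filter fun y => ¬ |(pos f y : ℝ) - pos f a| ≤ T).card : ℝ) := by
      rw [← h2]
      push_cast
      rfl
    have h6 : ((Y.filter fun y => |(pos f y : ℝ) - pos f a| ≤ T).card : ℝ) ≤ 2 * T + 1 := by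
      exact_mod_cast h1
    rw [h5]
    linarith
  · rw [if_pos hf, mul_one]
    have : 0 ≤ (1 / ((T : ℝ) + 1)) * ∑ y ∈ Y, |(pos f y : ℝ) - pos f a| := by positivity
    have : (0 : ℝ) ≤ 2 * T + 1 := by positivity
    linarith

/-- number of elements at bounded height -/
lemma count (hS : Std α M) {c R : ℝ} (hc : 0 < c) (hc2 : c ≤ 1 / 2) (hR : 1 / c ≤ R)
    (hH : H1 α M c R) (a : α) (r : ℝ) (hr : R ≤ r) :
    ((univ.filter fun y : α => |hh M y - hh M a| ≤ r).card : ℝ) ≤ 256 * r := by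
  have hR2 : 2 ≤ R := by
    have : 2 ≤ 1 / c := by rw [le_div_iff₀ hc]; linarith
    linarith
  have hr2 : 2 ≤ r := hR2.trans hr
  set Y := univ.filter fun y : α => |hh M y - hh M a| ≤ r with hY
  have hXy : ∀ y ∈ Y, ex α M (fun f => |(pos f y : ℝ) - pos f a|) ≤ 9 / 2 * r := by
    intro y hy
    rw [hY, mem_filter] at hy
    have h1 := X_le hS a y
    have h2 := rho_le hS.ne a y
    have h3 := hH a y r hr hy.2
    have h4 : c * r ≤ 1 / 2 * r := mul_le_mul_of_nonneg_right hc2 (by linarith)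
    linarith [hy.2]
  obtain ⟨T, hT⟩ : ∃ T : ℕ, T = ⌈18 * r⌉₊ := ⟨_, rfl⟩
  have hT1 : 18 * r ≤ T := by rw [hT]; exact Nat.le_ceil _
  have hT2 : (T : ℝ) ≤ 18 * r + 1 := by
    rw [hT]
    exact (Nat.ceil_lt_add_one (by linarith)).le
  have hT0 : (0 : ℝ) < (T : ℝ) + 1 := by positivity
  have h1 := ex_mono (M := M) (fun f _ => pointwise Y a T f)
  have e2 : ex α M (fun f => if ¬ Function.Injective f then (1 : ℝ) else 0) =
      pr α M (fun f => ¬ Function.Injective f) := by
    rw [← ex_ind]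
    congr 1
    funext f
    by_cases h : Function.Injective f <;> simp [h]
  rw [ex_const hS.ne, ex_add, ex_add, ex_mul, ex_mul, ex_const hS.ne, e2, ex_sum] at h1
  have h2 : ∑ y ∈ Y, ex α M (fun f => |(pos f y : ℝ) - pos f a|) ≤ Y.card * (9 / 2 * r) := by
    calc ∑ y ∈ Y, ex α M (fun f => |(pos f y : ℝ) - pos f a|) ≤ ∑ _y ∈ Y, (9 / 2 * r) :=
          Finset.sum_le_sum hXy
      _ = _ := by rw [Finset.sum_const, nsmul_eq_mul]
  have h3 : (1 / ((T : ℝ) + 1)) * ∑ y ∈ Y, ex α M (fun f => |(pos f y : ℝ) - pos f a|) ≤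
      1 / 4 * Y.card := by
    rw [one_div, inv_mul_eq_div, div_le_iff₀ hT0]
    have : (Y.card : ℝ) * (18 * r) ≤ Y.card * ((T : ℝ) + 1) :=
      mul_le_mul_of_nonneg_left (by linarith) (by positivity)
    linarith
  have hn : (1 : ℝ) ≤ Fintype.card α := by
    have : 0 < Fintype.card α := Fintype.card_pos_iff.2 ⟨a⟩
    exact_mod_cast this
  have h4 : pr α M (fun f => ¬ Function.Injective f) ≤ 1 / 16 := by
    refine hS.ninj.trans ?_
    apply one_div_le_one_div_of_le (by norm_num)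
    have : (2 : ℝ) ^ 4 ≤ ((Fintype.card α : ℝ) + 1) ^ 4 :=
      pow_le_pow_left₀ (by norm_num) (by linarith) 4
    linarith
  have h5 : (Y.card : ℝ) * pr α M (fun f => ¬ Function.Injective f) ≤ Y.card * (1 / 16) :=
    mul_le_mul_of_nonneg_left h4 (by positivity)
  have h6 : (0 : ℝ) ≤ Y.card := by positivity
  linarith

/-- probability of the unlikely order of `a` and `y` -/
noncomputable def err (M : ℕ) (a y : α) : ℝ :=
  min (pr α M (fun f => f y < f a)) (1 - pr α M (fun f => f y < f a))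

lemma err_nonneg (a y : α) : 0 ≤ err M a y :=
  le_min (pr_nonneg _) (by linarith [pr_le_one (α := α) (M := M) (fun f => f y < f a)])

lemma err_le_one (a y : α) : err M a y ≤ 1 := (min_le_left _ _).trans (pr_le_one _)

lemma err_le (hS : Std α M) (a y : α) : err M a y ≤
    17 * Real.exp (-(|hh M y - hh M a| / (9 * (tau M a y + 1)))) := by
  have ht := hS.tail a y (hh M y - hh M a) (tau M a y) |hh M y - hh M a| le_rfl
  have hu : 0 < unit α M := unit_pos
  rcases le_or_gt 0 (hh M y - hh M a) with hm | hm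
  · refine (min_le_left _ _).trans (le_trans (pr_mono fun f _ h => ?_) ht)
    have h1 : dd M a y f ≤ 0 := by
      unfold dd
      apply div_nonpos_of_nonpos_of_nonneg _ hu.le
      have : (f y : ℝ) < f a := by exact_mod_cast h
      linarith
    rw [abs_of_nonneg hm, abs_of_nonpos (by linarith)]
    linarith
  · refine (min_le_right _ _).trans (le_trans ?_ ht)
    have h2 := pr_compl hS.ne (fun f : α → ℕ => f y < f a)
    have h3 : 1 - pr α M (fun f => f y < f a) = pr α M (fun f => ¬ f y < f a) := by linarith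
    rw [h3]
    refine pr_mono fun f _ h => ?_
    have h1 : 0 ≤ dd M a y f := by
      unfold dd
      apply div_nonneg _ hu.le
      have : (f a : ℝ) ≤ f y := by exact_mod_cast not_lt.1 h
      linarith
    rw [abs_of_neg hm, abs_of_nonneg (by linarith)]
    linarith

/-- the rank is close to a constant -/
lemma pos_dev (hS : Std α M) (a : α) :
    ∃ c : ℝ, ex α M (fun f => |(pos f a : ℝ) - c|) ≤ ∑ y, err M a y := by
  obtain ⟨χ, hχ⟩ : ∃ χ : α → ℝ, χ = fun y =>
      if pr α M (fun f => f y < f a) ≤ 1 - pr α M (fun f => f y < f a) then 0 else 1 := ⟨_, rfl⟩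
  refine ⟨∑ y, χ y, ?_⟩
  have h1 : ∀ f : α → ℕ, (pos f a : ℝ) = ∑ y, if f y < f a then (1 : ℝ) else 0 := by
    intro f
    unfold pos
    rw [Finset.card_filter]
    push_cast
    rfl
  have h2 : ex α M (fun f => |(pos f a : ℝ) - ∑ y, χ y|) ≤
      ex α M (fun f => ∑ y, |(if f y < f a then (1 : ℝ) else 0) - χ y|) := by
    refine ex_mono fun f _ => ?_
    rw [h1, ← Finset.sum_sub_distrib]
    exact Finset.abs_sum_le_sum_abs _ _
  refine h2.trans ?_
  rw [ex_sum]
  refine Finset.sum_le_sum fun y _ => ?_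
  by_cases hy : pr α M (fun f => f y < f a) ≤ 1 - pr α M (fun f => f y < f a)
  · have e1 : χ y = 0 := by rw [hχ]; simp only [if_pos hy]
    rw [e1]
    unfold err
    rw [min_eq_left hy, ← ex_ind]
    refine ex_mono fun f _ => ?_
    split_ifs <;> simp
  · have e1 : χ y = 1 := by rw [hχ]; simp only [if_neg hy]
    rw [e1]
    unfold err
    rw [min_eq_right (not_le.1 hy).le]
    have h3 := pr_compl hS.ne (fun f : α → ℕ => f y < f a)
    have h4 : 1 - pr α M (fun f => f y < f a) = pr α M (fun f => ¬ f y < f a) := by linarith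
    rw [h4, ← ex_ind]
    refine ex_mono fun f _ => ?_
    by_cases h5 : f y < f a
    · simp [h5]
    · simp [h5]

lemma tau_le (hS : Std α M) (a b : α) (E : ℝ) (hE : ∀ a : α, ∑ y, err M a y ≤ E) :
    tau M a b ≤ 8 * E + 20 * (√|hh M b - hh M a| + 1) := by
  obtain ⟨ca, hca⟩ := pos_dev hS a
  obtain ⟨cb, hcb⟩ := pos_dev hS b
  have h1 := tau_le_two hS.ne a b (cb - ca)
  have h2 : ex α M (fun f => |dd M a b f - (cb - ca)|) ≤
      ex α M (fun f => |dd M a b f - ((pos f b : ℝ) - pos f a)|) +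
        (ex α M (fun f => |(pos f b : ℝ) - cb|) + ex α M (fun f => |(pos f a : ℝ) - ca|)) := by
    rw [← ex_add, ← ex_add]
    refine ex_mono fun f _ => ?_
    have e : dd M a b f - (cb - ca) = (dd M a b f - ((pos f b : ℝ) - pos f a)) +
        (((pos f b : ℝ) - cb) - ((pos f a : ℝ) - ca)) := by ring
    rw [e]
    refine (abs_add_le _ _).trans ?_
    have := abs_sub ((pos f b : ℝ) - cb) ((pos f a : ℝ) - ca)
    linarith
  have h3 := hS.cpos a b
  have h4 := X_le hS a b
  have h5 := rho_le hS.ne a b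
  have h6 := hE a
  have h7 := hE b
  have ht0 := tau_nonneg (M := M) a b
  set X := ex α M (fun f => |(pos f b : ℝ) - pos f a|) with hX
  set d := |hh M b - hh M a| with hd
  have hd0 : 0 ≤ d := abs_nonneg _
  have h8 : √d * √d = d := Real.mul_self_sqrt hd0
  have h9 : √X ≤ 2 * √d + tau M a b / 4 + 4 := by
    rw [Real.sqrt_le_iff]
    refine ⟨by positivity, ?_⟩
    have := Real.sqrt_nonneg d
    nlinarith [mul_nonneg this ht0]
  have := Real.sqrt_nonneg d
  linarith

lemma exp_bound {x : ℝ} (hx : 0 < x) : Real.exp (-x) ≤ 24 * (1 / x) ^ 4 := by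
  have h3 := Real.pow_div_factorial_le_exp x hx.le 4
  have h4 : (Nat.factorial 4 : ℝ) = 24 := by norm_num [Nat.factorial]
  rw [h4] at h3
  rw [Real.exp_neg, one_div_pow]
  have h6 : 24 * (1 / x ^ 4) = (x ^ 4 / 24)⁻¹ := by
    rw [inv_div]
    ring
  rw [h6]
  exact inv_anti₀ (by positivity) h3

lemma four {a b c : ℝ} :
    (a + b + c) ^ 4 ≤ 27 * (a ^ 4 + b ^ 4 + c ^ 4) := by
  have h1 : (a + b + c) ^ 2 ≤ 3 * (a ^ 2 + b ^ 2 + c ^ 2) := by
    nlinarith [sq_nonneg (a - b), sq_nonneg (b - c), sq_nonneg (a - c)]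
  have h2 : ((a + b + c) ^ 2) ^ 2 ≤ (3 * (a ^ 2 + b ^ 2 + c ^ 2)) ^ 2 :=
    pow_le_pow_left₀ (by positivity) h1 2
  have h3 : (a ^ 2 + b ^ 2 + c ^ 2) ^ 2 ≤ 3 * ((a ^ 2) ^ 2 + (b ^ 2) ^ 2 + (c ^ 2) ^ 2) := by
    nlinarith [sq_nonneg (a ^ 2 - b ^ 2), sq_nonneg (b ^ 2 - c ^ 2), sq_nonneg (a ^ 2 - c ^ 2)]
  have e1 : ((a + b + c) ^ 2) ^ 2 = (a + b + c) ^ 4 := by ring
  have e2 : (3 * (a ^ 2 + b ^ 2 + c ^ 2)) ^ 2 = 9 * (a ^ 2 + b ^ 2 + c ^ 2) ^ 2 := by ring
  have e3 : 3 * ((a ^ 2) ^ 2 + (b ^ 2) ^ 2 + (c ^ 2) ^ 2) = 3 * (a ^ 4 + b ^ 4 + c ^ 4) := by ring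
  rw [e1, e2] at h2
  rw [e3] at h3
  linarith

/-- the far elements -/
lemma far_bound (hS : Std α M) (a y : α) (E : ℝ) (hE0 : 0 ≤ E)
    (hE : ∀ a : α, ∑ y, err M a y ≤ E) (r : ℝ) (hr : 1 ≤ r) (hy : r < |hh M y - hh M a|) :
    err M a y ≤ 72275976 * (4096 * E ^ 4 / r ^ 2 + 354481) *
      (1 / |hh M y - hh M a| ^ 2) := by
  have h1 := err_le hS a y
  have h2 := tau_le hS a y E hE
  have ht0 := tau_nonneg (M := M) a y
  set d := |hh M y - hh M a| with hd
  have hd0 : 0 < d := by linarith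
  have hs0 := Real.sqrt_nonneg d
  have hss : √d * √d = d := Real.mul_self_sqrt hd0.le
  have hx : 0 < d / (9 * (tau M a y + 1)) := by positivity
  have h3 := exp_bound hx
  have h4 : (1 / (d / (9 * (tau M a y + 1)))) ^ 4 ≤
      6561 * (27 * (4096 * E ^ 4 / d ^ 4 + 160000 / d ^ 2 + 194481 / d ^ 4)) := by
    rw [one_div_div, div_pow]
    have h5 : (9 * (tau M a y + 1)) ^ 4 ≤ 6561 * (27 * ((8 * E) ^ 4 + (20 * √d) ^ 4 + 21 ^ 4)) := by
      have h6 : tau M a y + 1 ≤ 8 * E + 20 * √d + 21 := by linarith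
      have h7 : (tau M a y + 1) ^ 4 ≤ (8 * E + 20 * √d + 21) ^ 4 :=
        pow_le_pow_left₀ (by positivity) h6 4
      have h8 := four (a := 8 * E) (b := 20 * √d) (c := 21)
      have e1 : (9 * (tau M a y + 1)) ^ 4 = 6561 * (tau M a y + 1) ^ 4 := by ring
      rw [e1]
      linarith
    have h6 : (20 * √d) ^ 4 = 160000 * d ^ 2 := by
      calc (20 * √d) ^ 4 = 160000 * (√d * √d) ^ 2 := by ring
        _ = _ := by rw [hss]
    rw [h6] at h5
    rw [div_le_iff₀ (by positivity)]
    refine h5.trans (le_of_eq ?_)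
    field_simp
    ring
  have h5 : 4096 * E ^ 4 / d ^ 4 + 160000 / d ^ 2 + 194481 / d ^ 4 ≤
      (4096 * E ^ 4 / r ^ 2 + 354481) * (1 / d ^ 2) := by
    have h6 : 4096 * E ^ 4 / d ^ 4 ≤ 4096 * E ^ 4 / r ^ 2 * (1 / d ^ 2) := by
      rw [div_mul_div_comm, mul_one]
      apply div_le_div_of_nonneg_left (by positivity) (by positivity)
      have : r ^ 2 ≤ d ^ 2 := pow_le_pow_left₀ (by linarith) hy.le 2
      calc r ^ 2 * d ^ 2 ≤ d ^ 2 * d ^ 2 := mul_le_mul_of_nonneg_right this (by positivity)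
        _ = d ^ 4 := by ring
    have h7 : 194481 / d ^ 4 ≤ 194481 * (1 / d ^ 2) := by
      rw [mul_one_div]
      apply div_le_div_of_nonneg_left (by norm_num) (by positivity)
      have : d ^ 2 * 1 ≤ d ^ 2 * d ^ 2 := by
        apply mul_le_mul_of_nonneg_left _ (by positivity)
        nlinarith
      calc d ^ 2 = d ^ 2 * 1 := by ring
        _ ≤ d ^ 2 * d ^ 2 := this
        _ = d ^ 4 := by ring
    have h8 : 160000 / d ^ 2 = 160000 * (1 / d ^ 2) := by rw [mul_one_div]
    rw [h8]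
    calc 4096 * E ^ 4 / d ^ 4 + 160000 * (1 / d ^ 2) + 194481 / d ^ 4 ≤
        4096 * E ^ 4 / r ^ 2 * (1 / d ^ 2) + 160000 * (1 / d ^ 2) + 194481 * (1 / d ^ 2) := by
          linarith
      _ = _ := by ring
  calc err M a y ≤ 17 * Real.exp (-(d / (9 * (tau M a y + 1)))) := h1
    _ ≤ 17 * (24 * (1 / (d / (9 * (tau M a y + 1)))) ^ 4) := by linarith
    _ ≤ 17 * (24 * (6561 * (27 * ((4096 * E ^ 4 / r ^ 2 + 354481) * (1 / d ^ 2))))) := by
        linarith
    _ = 72275976 * (4096 * E ^ 4 / r ^ 2 + 354481) * (1 / d ^ 2) := by ring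

/-- the elements at intermediate distance -/
lemma mid_bound (hS : Std α M) {R : ℝ} (hR : 10 ^ 5 ≤ R) (hH : H1 α M (1 / 10 ^ 5) R)
    (a y : α) (hy : R < |hh M y - hh M a|) :
    err M a y ≤ 1 / 10 ^ 12 := by
  have h1 := err_le hS a y
  have h2 := hH a y |hh M y - hh M a| hy.le le_rfl
  have ht0 := tau_nonneg (M := M) a y
  set d := |hh M y - hh M a| with hd
  have hd0 : 0 < d := by linarith
  have hx : 0 < d / (9 * (tau M a y + 1)) := by positivity
  have h3 := exp_bound hx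
  have h4 : 1 / (d / (9 * (tau M a y + 1))) ≤ 18 / 10 ^ 5 := by
    rw [one_div_div, div_le_iff₀ hd0]
    have : 1 ≤ 1 / 10 ^ 5 * d := by linarith
    linarith
  have h5 : (1 / (d / (9 * (tau M a y + 1)))) ^ 4 ≤ (18 / 10 ^ 5) ^ 4 :=
    pow_le_pow_left₀ (by positivity) h4 4
  calc err M a y ≤ 17 * Real.exp (-(d / (9 * (tau M a y + 1)))) := h1
    _ ≤ 17 * (24 * (18 / 10 ^ 5) ^ 4) := by linarith
    _ ≤ 1 / 10 ^ 12 := by norm_num

/-- the bootstrap -/
lemma boot (hS : Std α M) {R : ℝ} (hR : 10 ^ 5 ≤ R) (hH : H1 α M (1 / 10 ^ 5) R)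
    (E : ℝ) (hE0 : 0 ≤ E) (hE : ∀ a : α, ∑ y, err M a y ≤ E) (a : α) :
    ∑ y, err M a y ≤ 256 * R + E / 2 + 10 ^ 17 := by
  have hcount := fun a r (hr : R ≤ r) => count hS (c := 1 / 10 ^ 5) (by norm_num) (by norm_num)
    (by rw [one_div_one_div]; exact hR) hH a r hr
  obtain ⟨r0, hr0⟩ : ∃ r0 : ℝ, r0 = max R (10 ^ 6 * E) := ⟨_, rfl⟩
  have hr1 : R ≤ r0 := by rw [hr0]; exact le_max_left _ _
  have hr2 : 10 ^ 6 * E ≤ r0 := by rw [hr0]; exact le_max_right _ _
  have hr3 : 1 ≤ r0 := by linarith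
  have hr4 : 0 < r0 := by linarith
  -- the three regions
  have hsplit : ∑ y, err M a y ≤
      (∑ y ∈ univ.filter (fun y : α => |hh M y - hh M a| ≤ R), (1 : ℝ) +
      ∑ y ∈ univ.filter (fun y : α => |hh M y - hh M a| ≤ 10 ^ 6 * E ∧ R < |hh M y - hh M a|),
        (1 / 10 ^ 12 : ℝ)) +
      ∑ y ∈ univ.filter (fun y : α => r0 < |hh M y - hh M a|),
        72275976 * (4096 * E ^ 4 / r0 ^ 2 + 354481) * (1 / |hh M y - hh M a| ^ 2) := by
    rw [Finset.sum_filter, Finset.sum_filter, Finset.sum_filter, ← Finset.sum_add_distrib,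
      ← Finset.sum_add_distrib]
    refine Finset.sum_le_sum fun y _ => ?_
    have hg : 0 ≤ 72275976 * (4096 * E ^ 4 / r0 ^ 2 + 354481) * (1 / |hh M y - hh M a| ^ 2) := by
      positivity
    by_cases h1 : |hh M y - hh M a| ≤ R
    · have h2 := err_le_one (M := M) a y
      rw [if_pos h1]
      have h3 : (0 : ℝ) ≤ if |hh M y - hh M a| ≤ 10 ^ 6 * E ∧ R < |hh M y - hh M a| then
          (1 / 10 ^ 12 : ℝ) else 0 := by split_ifs <;> positivity
      have h4 : 0 ≤ if r0 < |hh M y - hh M a| then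
          72275976 * (4096 * E ^ 4 / r0 ^ 2 + 354481) * (1 / |hh M y - hh M a| ^ 2) else 0 := by
        split_ifs
        · exact hg
        · exact le_rfl
      linarith
    · rw [if_neg h1, zero_add]
      have h1' := not_le.1 h1
      by_cases h2 : |hh M y - hh M a| ≤ 10 ^ 6 * E
      · rw [if_pos ⟨h2, h1'⟩]
        have h3 := mid_bound hS hR hH a y h1'
        have h4 : 0 ≤ if r0 < |hh M y - hh M a| then
            72275976 * (4096 * E ^ 4 / r0 ^ 2 + 354481) * (1 / |hh M y - hh M a| ^ 2) else 0 := by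
          split_ifs
          · exact hg
          · exact le_rfl
        linarith
      · have h5 : r0 < |hh M y - hh M a| := by
          rw [hr0, max_lt_iff]
          exact ⟨h1', not_le.1 h2⟩
        rw [if_neg (fun h => h2 h.1), if_pos h5, zero_add]
        exact far_bound hS a y E hE0 hE r0 hr3 h5
  have s1 : ∑ y ∈ univ.filter (fun y : α => |hh M y - hh M a| ≤ R), (1 : ℝ) ≤ 256 * R := by
    rw [Finset.sum_const, nsmul_eq_mul, mul_one]
    exact hcount a R le_rfl
  have s2 : ∑ y ∈ univ.filter (fun y : α => |hh M y - hh M a| ≤ 10 ^ 6 * E ∧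
      R < |hh M y - hh M a|), (1 / 10 ^ 12 : ℝ) ≤ E / 4 := by
    rw [Finset.sum_const, nsmul_eq_mul]
    by_cases h1 : R ≤ 10 ^ 6 * E
    · have h2 := hcount a _ h1
      have h3 : ((univ.filter (fun y : α => |hh M y - hh M a| ≤ 10 ^ 6 * E ∧
          R < |hh M y - hh M a|)).card : ℝ) ≤ 256 * (10 ^ 6 * E) := by
        refine le_trans ?_ h2
        have : univ.filter (fun y : α => |hh M y - hh M a| ≤ 10 ^ 6 * E ∧
          R < |hh M y - hh M a|) ⊆ univ.filter (fun y : α => |hh M y - hh M a| ≤ 10 ^ 6 * E) := by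
          intro y hy
          rw [mem_filter] at hy ⊢
          exact ⟨hy.1, hy.2.1⟩
        exact_mod_cast Finset.card_le_card this
      calc _ ≤ 256 * (10 ^ 6 * E) * (1 / 10 ^ 12) :=
            mul_le_mul_of_nonneg_right h3 (by norm_num)
        _ ≤ E / 4 := by linarith
    · have h2 : univ.filter (fun y : α => |hh M y - hh M a| ≤ 10 ^ 6 * E ∧
          R < |hh M y - hh M a|) = ∅ := by
        rw [Finset.filter_eq_empty_iff]
        rintro y _ ⟨h3, h4⟩
        linarith [not_le.1 h1]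
      rw [h2, Finset.card_empty, Nat.cast_zero, zero_mul]
      linarith
  have s3 : ∑ y ∈ univ.filter (fun y : α => r0 < |hh M y - hh M a|),
      1 / (|hh M y - hh M a| / r0) ^ 2 ≤ 4 * (256 * r0) := by
    apply Pool.Agent.TH740.KS_VIS.dya _ (fun y => |hh M y - hh M a| / r0) (256 * r0)
      (by positivity)
    · intro y hy
      rw [mem_filter] at hy
      show 1 < |hh M y - hh M a| / r0
      rw [one_lt_div hr4]
      exact hy.2
    · intro r hr
      have h3 : R ≤ r * r0 := by nlinarith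
      have h4 := hcount a (r * r0) h3
      have h5 : (univ.filter fun y : α => |hh M y - hh M a| / r0 ≤ r) =
          univ.filter fun y : α => |hh M y - hh M a| ≤ r * r0 := by
        ext y
        simp only [mem_filter, mem_univ, true_and]
        rw [div_le_iff₀ hr4]
      rw [h5]
      refine h4.trans (le_of_eq ?_)
      ring
  have s4 : ∑ y ∈ univ.filter (fun y : α => r0 < |hh M y - hh M a|),
      1 / |hh M y - hh M a| ^ 2 ≤ 1024 / r0 := by
    have e1 : ∑ y ∈ univ.filter (fun y : α => r0 < |hh M y - hh M a|),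
        1 / (|hh M y - hh M a| / r0) ^ 2 = r0 ^ 2 *
        ∑ y ∈ univ.filter (fun y : α => r0 < |hh M y - hh M a|), 1 / |hh M y - hh M a| ^ 2 := by
      rw [Finset.mul_sum]
      refine Finset.sum_congr rfl fun y hy => ?_
      rw [mem_filter] at hy
      have : 0 < |hh M y - hh M a| := by linarith [hy.2]
      rw [div_pow, one_div_div, mul_one_div]
    rw [e1] at s3
    rw [le_div_iff₀ hr4]
    have h5 : 0 < r0 ^ 2 := by positivity
    have h6 : r0 * (∑ y ∈ univ.filter (fun y : α => r0 < |hh M y - hh M a|),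
        1 / |hh M y - hh M a| ^ 2 * r0) ≤ r0 * 1024 := by
      rw [← Finset.sum_mul]
      calc _ = r0 ^ 2 * ∑ y ∈ univ.filter (fun y : α => r0 < |hh M y - hh M a|),
            1 / |hh M y - hh M a| ^ 2 := by ring
        _ ≤ 4 * (256 * r0) := s3
        _ = r0 * 1024 := by ring
    have h7 := le_of_mul_le_mul_left h6 hr4
    rw [Finset.sum_mul]
    exact h7
  have s5 : ∑ y ∈ univ.filter (fun y : α => r0 < |hh M y - hh M a|),
        72275976 * (4096 * E ^ 4 / r0 ^ 2 + 354481) * (1 / |hh M y - hh M a| ^ 2) ≤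
        E / 4 + 10 ^ 17 := by
    rw [← Finset.mul_sum]
    calc 72275976 * (4096 * E ^ 4 / r0 ^ 2 + 354481) *
        ∑ y ∈ univ.filter (fun y : α => r0 < |hh M y - hh M a|), 1 / |hh M y - hh M a| ^ 2
        ≤ 72275976 * (4096 * E ^ 4 / r0 ^ 2 + 354481) * (1024 / r0) :=
          mul_le_mul_of_nonneg_left s4 (by positivity)
      _ = 72275976 * 4096 * 1024 * (E ^ 4 / r0 ^ 3) + 72275976 * 354481 * 1024 * (1 / r0) := by
          field_simp
      _ ≤ 72275976 * 4096 * 1024 * (E / 10 ^ 18) + 72275976 * 354481 * 1024 * 1 := by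
          have h5 : E ^ 4 / r0 ^ 3 ≤ E / 10 ^ 18 := by
            rw [div_le_div_iff₀ (by positivity) (by norm_num)]
            have h6 : (10 ^ 6 * E) ^ 3 ≤ r0 ^ 3 := pow_le_pow_left₀ (by positivity) hr2 3
            calc E ^ 4 * 10 ^ 18 = E * (10 ^ 6 * E) ^ 3 := by ring
              _ ≤ E * r0 ^ 3 := mul_le_mul_of_nonneg_left h6 hE0
          have h6 : 1 / r0 ≤ 1 := by rw [div_le_one hr4]; exact hr3
          gcongr
      _ ≤ E / 4 + 10 ^ 17 := by linarith
  linarith

theorem t_FLUC : P_FLUC := by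
  refine ⟨1 / 10 ^ 5, 10 ^ 19, by norm_num, by norm_num, by norm_num, ?_⟩
  intro α _ _ M hS R hR hH
  have hR' : 10 ^ 5 ≤ R := by rwa [one_div_one_div] at hR
  refine ⟨?_, ?_⟩
  · intro a b
    obtain ⟨a0, -, ha0⟩ := Finset.exists_max_image (univ : Finset α)
      (fun a => ∑ y, err M a y) ⟨a, mem_univ a⟩
    have hE : ∀ a : α, ∑ y, err M a y ≤ ∑ y, err M a0 y := fun a => ha0 a (mem_univ a)
    have hE0 : 0 ≤ ∑ y, err M a0 y := Finset.sum_nonneg fun y _ => err_nonneg a0 y
    have h1 := boot hS hR' hH _ hE0 hE a0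
    have h2 := tau_le hS a b _ hE
    have h3 := Real.sqrt_nonneg |hh M b - hh M a|
    linarith
  · intro a r hr
    have h1 := count hS (c := 1 / 10 ^ 5) (by norm_num) (by norm_num) hR hH a r hr
    linarith

end Pool.Agent.TH496.KS_FLUC
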