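import Pool.Agent.TH496.LS_MOD3

set_option autoImplicit false

/-! # LS-MOD, part 4: assembly -/

open MeasureTheory Set
open scoped ENNReal

namespace Pool.Agent.TH496.MOD

open Pool.Agent.TH280.LS

lemma sq_add (a b : ℂ) : ‖a + b‖ₑ ^ 2 ≤ 2 * ‖a‖ₑ ^ 2 + 2 * ‖b‖ₑ ^ 2 := by
  have h1 : ‖a + b‖ ^ 2 ≤ 2 * ‖a‖ ^ 2 + 2 * ‖b‖ ^ 2 := by
    have := norm_add_le a b
    nlinarith [norm_nonneg a, norm_nonneg b, norm_nonneg (a + b), sq_nonneg (‖a‖ - ‖b‖)]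
  have h2 := ENNReal.ofReal_le_ofReal h1
  rw [ENNReal.ofReal_add (by positivity) (by positivity), ENNReal.ofReal_mul (by norm_num),
    ENNReal.ofReal_mul (by norm_num), ENNReal.ofReal_pow (norm_nonneg _),
    ENNReal.ofReal_pow (norm_nonneg _), ENNReal.ofReal_pow (norm_nonneg _), ofReal_norm,
    ofReal_norm, ofReal_norm] at h2
  simpa using h2

lemma sq_sub (a b : ℂ) : ‖a - b‖ₑ ^ 2 ≤ 2 * ‖a‖ₑ ^ 2 + 2 * ‖b‖ₑ ^ 2 := by
  have := sq_add a (-b)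
  rw [enorm_neg] at this
  rwa [← sub_eq_add_neg] at this

section
variable {g g' : ℝ → ℝ} (h : Ev g g') {φ : ℝ → ℂ} (hm : Measurable φ)
  (h2 : MemLp φ 2 (volume.restrict (Icc (-2 : ℝ) 2)))
include h hm h2

lemma W_int : ∫⁻ s, ‖Ph (dp φ) s‖ₑ ^ 2 ≤
    ENNReal.ofReal ((4 * Real.pi) ^ 2) * ∫⁻ t in Icc (-2 : ℝ) 2, ‖φ t‖ₑ ^ 2 := by
  rw [Ph_planch (dp_meas hm) (dp_memLp hm h2)]
  exact dp_A

/-- the half line `ξ ≥ 0` -/
lemma plus {τ m n : ℝ} (hτ : 0 < τ) (hm1 : min 1 (2 * τ) ≤ m) (hn0 : 0 ≤ n)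
    (hn : 1 / 2 < τ → 12 * τ ≤ n) :
    ∫⁻ ξ in Ici (0 : ℝ), ‖Ph φ (g (ξ + τ)) - Ph φ (g ξ)‖ₑ ^ 2 ≤
      ENNReal.ofReal (m * τ * (4 * Real.pi) ^ 2 + n) * ∫⁻ t in Icc (-2 : ℝ) 2, ‖φ t‖ₑ ^ 2 := by
  have hm0 : 0 ≤ m := le_trans (le_min zero_le_one (by linarith)) hm1
  have hW : Measurable fun s => ‖Ph (dp φ) s‖ₑ ^ 2 :=
    ((continuous_Ph (dp_meas hm) (dp_memLp hm h2)).measurable.enorm).pow_const 2
  have hA := partA h hτ hW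
  obtain ⟨hB1, hB2⟩ := partB h hτ (V := fun s => ‖Ph φ s‖ₑ ^ 2) (M := 4 * ∫⁻ t in Icc (-2 : ℝ) 2, ‖φ t‖ₑ ^ 2)
    (fun s => Ph_sup hm s)
  rw [Ph_planch hm h2] at hB1 hB2
  set A := ∫⁻ t in Icc (-2 : ℝ) 2, ‖φ t‖ₑ ^ 2 with hAdef
  have hg := meas_g h
  have hPhm : Measurable (Ph φ) := (continuous_Ph hm h2).measurable
  have hD : Measurable fun ξ => g (ξ + τ) - g ξ := (hg.comp (measurable_id.add_const τ)).sub hg
  set S1 : Set ℝ := {ξ : ℝ | 0 ≤ ξ ∧ g (ξ + τ) - g ξ ≤ 1} with hS1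
  have hS1m : MeasurableSet S1 :=
    MeasurableSet.inter (measurableSet_le measurable_const measurable_id)
      (measurableSet_le hD measurable_const)
  set B : Set ℝ := {ξ : ℝ | 0 ≤ ξ ∧ 1 < g (ξ + τ) - g ξ} with hB
  have hBm : MeasurableSet B :=
    MeasurableSet.inter (measurableSet_le measurable_const measurable_id)
      (measurableSet_lt measurable_const hD)
  have hsplit : ∫⁻ ξ in Ici (0 : ℝ), ‖Ph φ (g (ξ + τ)) - Ph φ (g ξ)‖ₑ ^ 2 ≤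
      (∫⁻ ξ in S1, ‖Ph φ (g (ξ + τ)) - Ph φ (g ξ)‖ₑ ^ 2) +
        ∫⁻ ξ in B, ‖Ph φ (g (ξ + τ)) - Ph φ (g ξ)‖ₑ ^ 2 := by
    refine (lintegral_mono_set (fun ξ hξ => ?_ : Ici (0 : ℝ) ⊆ S1 ∪ B)).trans
        (lintegral_union_le _ _ _)
    rcases le_or_gt (g (ξ + τ) - g ξ) 1 with h3 | h3
    · exact Or.inl ⟨hξ, h3⟩
    · exact Or.inr ⟨hξ, h3⟩
  have hDle : ∀ ξ, g (ξ + τ) - g ξ ≤ 2 * τ := by
    intro ξ
    have := (le_abs_self _).trans (g_lip h ξ (ξ + τ))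
    rwa [add_sub_cancel_left, abs_of_pos hτ] at this
  -- small increments
  have h1 : ∫⁻ ξ in S1, ‖Ph φ (g (ξ + τ)) - Ph φ (g ξ)‖ₑ ^ 2 ≤
      ENNReal.ofReal (m * τ * (4 * Real.pi) ^ 2) * A := by
    calc ∫⁻ ξ in S1, ‖Ph φ (g (ξ + τ)) - Ph φ (g ξ)‖ₑ ^ 2
        ≤ ∫⁻ ξ in S1, ENNReal.ofReal m *
            ∫⁻ s in Icc (g ξ) (g (ξ + τ)), ‖Ph (dp φ) s‖ₑ ^ 2 := by
          refine setLIntegral_mono' hS1m fun ξ hξ => ?_
          have hle : g ξ ≤ g (ξ + τ) := g_mono h hξ.1 (by linarith)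
          refine (Ph_ftc hm h2 hle).trans ?_
          refine mul_le_mul_left (ENNReal.ofReal_le_ofReal ?_) _
          exact (le_min hξ.2 (hDle ξ)).trans hm1
      _ = ENNReal.ofReal m * ∫⁻ ξ in S1,
            ∫⁻ s in Icc (g ξ) (g (ξ + τ)), ‖Ph (dp φ) s‖ₑ ^ 2 :=
          lintegral_const_mul' _ _ ENNReal.ofReal_ne_top
      _ ≤ ENNReal.ofReal m * ∫⁻ ξ in Ici (0 : ℝ),
            ∫⁻ s in Icc (g ξ) (g (ξ + τ)), ‖Ph (dp φ) s‖ₑ ^ 2 :=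
          mul_le_mul_right (lintegral_mono_set fun ξ hξ => hξ.1) _
      _ ≤ ENNReal.ofReal m * (ENNReal.ofReal τ * (ENNReal.ofReal ((4 * Real.pi) ^ 2) * A)) :=
          mul_le_mul_right (hA.trans (mul_le_mul_right (W_int h hm h2) _)) _
      _ = _ := by
          rw [← mul_assoc, ← mul_assoc, ← ENNReal.ofReal_mul hm0,
            ← ENNReal.ofReal_mul (by positivity)]
  -- large increments
  have h3 : ∫⁻ ξ in B, ‖Ph φ (g (ξ + τ)) - Ph φ (g ξ)‖ₑ ^ 2 ≤ ENNReal.ofReal n * A := by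
    rcases le_or_gt τ (1 / 2) with h4 | h4
    · have : B = ∅ := by
        ext ξ
        simp only [hB, mem_ofPred_eq, mem_empty_iff_false, iff_false, not_and, not_lt]
        intro _
        linarith [hDle ξ]
      rw [this]; simp
    · calc ∫⁻ ξ in B, ‖Ph φ (g (ξ + τ)) - Ph φ (g ξ)‖ₑ ^ 2
          ≤ ∫⁻ ξ in B, (2 * ‖Ph φ (g (ξ + τ))‖ₑ ^ 2 + 2 * ‖Ph φ (g ξ)‖ₑ ^ 2) :=
            lintegral_mono fun ξ => sq_sub _ _
        _ = 2 * (∫⁻ ξ in B, ‖Ph φ (g (ξ + τ))‖ₑ ^ 2) + 2 * ∫⁻ ξ in B, ‖Ph φ (g ξ)‖ₑ ^ 2 := by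
            have hm3 : Measurable fun ξ => 2 * ‖Ph φ (g (ξ + τ))‖ₑ ^ 2 :=
              ((hPhm.comp (hg.comp (measurable_id.add_const τ))).enorm.pow_const 2).const_mul 2
            rw [lintegral_add_left hm3,
              lintegral_const_mul' _ _ (by norm_num), lintegral_const_mul' _ _ (by norm_num)]
        _ ≤ 2 * (ENNReal.ofReal τ * A) + 2 * (ENNReal.ofReal τ * A + 4 * A * ENNReal.ofReal τ) :=
            add_le_add (mul_le_mul_right hB1 _) (mul_le_mul_right hB2 _)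
        _ = ENNReal.ofReal (12 * τ) * A := by
            rw [ENNReal.ofReal_mul (by norm_num)]
            have : ENNReal.ofReal 12 = 12 := by norm_num
            rw [this]; ring
        _ ≤ ENNReal.ofReal n * A := mul_le_mul_left (ENNReal.ofReal_le_ofReal (hn h4)) _
  refine hsplit.trans ((add_le_add h1 h3).trans (le_of_eq ?_))
  rw [ENNReal.ofReal_add (by positivity) hn0, add_mul]

/-- the middle part -/
lemma mid {τ : ℝ} {M : ℝ≥0∞}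
    (hM : ∀ ξ, ‖Ph φ (g (ξ + τ)) - Ph φ (g ξ)‖ₑ ^ 2 ≤ M) :
    ∫⁻ ξ in Icc (-τ) 0, ‖Ph φ (g (ξ + τ)) - Ph φ (g ξ)‖ₑ ^ 2 ≤ ENNReal.ofReal τ * M := by
  calc ∫⁻ ξ in Icc (-τ) 0, ‖Ph φ (g (ξ + τ)) - Ph φ (g ξ)‖ₑ ^ 2
      ≤ ∫⁻ _ in Icc (-τ) 0, M := lintegral_mono fun ξ => hM ξ
    _ = _ := by rw [setLIntegral_const, Real.volume_Icc, zero_sub, neg_neg, mul_comm]

lemma minus {τ : ℝ} :
    ∫⁻ ξ in Iic (-τ), ‖Ph φ (g (ξ + τ)) - Ph φ (g ξ)‖ₑ ^ 2 =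
      ∫⁻ ξ in Ici (0 : ℝ), ‖Ph φ (g (ξ + τ)) - Ph φ (g ξ)‖ₑ ^ 2 := by
  rw [← lintegral_indicator measurableSet_Iic, ← lintegral_indicator measurableSet_Ici,
    ← lintegral_sub_left_eq_self _ (-τ)]
  refine lintegral_congr fun ξ => ?_
  by_cases hξ : ξ ∈ Ici (0 : ℝ)
  · have h3 : -τ - ξ ∈ Iic (-τ) := by
      show -τ - ξ ≤ -τ
      have : (0 : ℝ) ≤ ξ := hξ
      linarith
    rw [indicator_of_mem h3, indicator_of_mem hξ]
    have e1 : g (-τ - ξ + τ) = g ξ := by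
      rw [show -τ - ξ + τ = -ξ by ring]; exact h.2.2.2 ξ
    have e2 : g (-τ - ξ) = g (ξ + τ) := by
      rw [show -τ - ξ = -(ξ + τ) by ring]; exact h.2.2.2 _
    rw [e1, e2, ← enorm_neg, neg_sub]
  · have h3 : -τ - ξ ∉ Iic (-τ) := by
      intro h4
      have h5 : -τ - ξ ≤ -τ := h4
      exact hξ (show (0 : ℝ) ≤ ξ by linarith)
    rw [indicator_of_notMem h3, indicator_of_notMem hξ]

lemma total {τ m n : ℝ} {M : ℝ≥0∞} (hτ : 0 < τ) (hm1 : min 1 (2 * τ) ≤ m) (hn0 : 0 ≤ n)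
    (hn : 1 / 2 < τ → 12 * τ ≤ n)
    (hM : ∀ ξ, ‖Ph φ (g (ξ + τ)) - Ph φ (g ξ)‖ₑ ^ 2 ≤ M) :
    ∫⁻ ξ, ‖Ph φ (g (ξ + τ)) - Ph φ (g ξ)‖ₑ ^ 2 ≤
      2 * (ENNReal.ofReal (m * τ * (4 * Real.pi) ^ 2 + n) *
        ∫⁻ t in Icc (-2 : ℝ) 2, ‖φ t‖ₑ ^ 2) + ENNReal.ofReal τ * M := by
  have hp := plus h hm h2 hτ hm1 hn0 hn
  have hmi := minus h hm h2 (τ := τ)
  have hmd := mid h hm h2 hM
  set F : ℝ → ℝ≥0∞ := fun ξ => ‖Ph φ (g (ξ + τ)) - Ph φ (g ξ)‖ₑ ^ 2 with hF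
  have h1 : ∫⁻ ξ, F ξ ≤ (∫⁻ ξ in Iic (-τ), F ξ) +
      ((∫⁻ ξ in Icc (-τ) 0, F ξ) + ∫⁻ ξ in Ici (0 : ℝ), F ξ) := by
    rw [← setLIntegral_univ]
    refine (lintegral_mono_set (fun ξ _ => ?_ :
      (univ : Set ℝ) ⊆ Iic (-τ) ∪ (Icc (-τ) 0 ∪ Ici (0 : ℝ)))).trans
        ((lintegral_union_le _ _ _).trans (add_le_add le_rfl (lintegral_union_le _ _ _)))
    rcases le_total ξ (-τ) with h3 | h3
    · exact Or.inl h3
    · rcases le_total ξ 0 with h4 | h4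
      · exact Or.inr (Or.inl ⟨h3, h4⟩)
      · exact Or.inr (Or.inr h4)
  refine h1.trans ?_
  rw [hmi]
  calc (∫⁻ ξ in Ici (0 : ℝ), F ξ) + ((∫⁻ ξ in Icc (-τ) 0, F ξ) + ∫⁻ ξ in Ici (0 : ℝ), F ξ)
      = 2 * (∫⁻ ξ in Ici (0 : ℝ), F ξ) + ∫⁻ ξ in Icc (-τ) 0, F ξ := by ring
    _ ≤ _ := add_le_add (mul_le_mul_right hp _) hmd

end

/-- the part with the cutoff -/
lemma cutPart {N τ c : ℝ} (hN : 1 ≤ N) {χ : ℝ → ℂ} (hχ : Cut 2 N χ)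
    (hc : ∀ ξ, ‖χ (ξ + τ) - χ ξ‖ ≤ c) {V : ℝ → ℝ≥0∞} {M : ℝ≥0∞} (hV : ∀ ξ, V ξ ≤ M) :
    ∫⁻ ξ, ‖χ (ξ + τ) - χ ξ‖ₑ ^ 2 * V ξ ≤ ENNReal.ofReal (8 * N * c ^ 2) * M := by
  have hc0 : 0 ≤ c := (norm_nonneg _).trans (hc 0)
  set S : Set ℝ := Icc (-(2 * N)) (2 * N) ∪ Icc (-(2 * N) - τ) (2 * N - τ) with hS
  have hSm : MeasurableSet S := measurableSet_Icc.union measurableSet_Icc
  have h1 : ∀ ξ, ‖χ (ξ + τ) - χ ξ‖ₑ ^ 2 * V ξ ≤ S.indicator (fun _ => ENNReal.ofReal (c ^ 2) * M) ξ := by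
    intro ξ
    by_cases hξ : ξ ∈ S
    · rw [indicator_of_mem hξ]
      refine mul_le_mul' ?_ (hV ξ)
      rw [← ofReal_norm, ← ENNReal.ofReal_pow (norm_nonneg _)]
      exact ENNReal.ofReal_le_ofReal (pow_le_pow_left₀ (norm_nonneg _) (hc ξ) 2)
    · have h3 : 2 * N < |ξ| := by
        by_contra hcon
        push Not at hcon
        exact hξ (Or.inl (abs_le.1 hcon))
      have h4 : 2 * N < |ξ + τ| := by
        by_contra hcon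
        push Not at hcon
        have := abs_le.1 hcon
        exact hξ (Or.inr ⟨by linarith, by linarith⟩)
      rw [hχ.2.2 _ h3, hχ.2.2 _ h4]
      simp
  refine (lintegral_mono h1).trans ?_
  rw [lintegral_indicator hSm, setLIntegral_const]
  have hvol : volume S ≤ ENNReal.ofReal (8 * N) := by
    refine (measure_union_le _ _).trans ?_
    rw [Real.volume_Icc, Real.volume_Icc, ← ENNReal.ofReal_add (by linarith) (by linarith)]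
    apply ENNReal.ofReal_le_ofReal
    linarith
  calc ENNReal.ofReal (c ^ 2) * M * volume S ≤
      ENNReal.ofReal (c ^ 2) * M * ENNReal.ofReal (8 * N) := mul_le_mul_right hvol _
    _ = _ := by
        rw [ENNReal.ofReal_mul (p := 8 * N) (by linarith)]
        ring

/-- the general step -/
lemma step {N τ c m n q : ℝ} (hN : 1 ≤ N) {χ : ℝ → ℂ} (hχ : Cut 2 N χ)
    {g g' : ℝ → ℝ} (h : Ev g g') {φ : ℝ → ℂ} (hm : Measurable φ)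
    (h2 : MemLp φ 2 (volume.restrict (Icc (-2 : ℝ) 2)))
    (hτ : 0 < τ) (hm1 : min 1 (2 * τ) ≤ m) (hn0 : 0 ≤ n) (hq0 : 0 ≤ q)
    (hn : 1 / 2 < τ → 12 * τ ≤ n)
    (hM : ∀ ξ, ‖Ph φ (g (ξ + τ)) - Ph φ (g ξ)‖ₑ ^ 2 ≤
      ENNReal.ofReal q * ∫⁻ t in Icc (-2 : ℝ) 2, ‖φ t‖ₑ ^ 2)
    (hc : ∀ ξ, ‖χ (ξ + τ) - χ ξ‖ ≤ c) {K : ℝ}
    (hK : 64 * N * c ^ 2 + 4 * (m * τ * (4 * Real.pi) ^ 2 + n) + 2 * (τ * q) ≤ K) :
    ∫⁻ ξ : ℝ, ‖χ (ξ + τ) * Ph φ (g (ξ + τ)) - χ ξ * Ph φ (g ξ)‖ₑ ^ 2 ≤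
      ENNReal.ofReal K * ∫⁻ t in Icc (-2 : ℝ) 2, ‖φ t‖ₑ ^ 2 := by
  have hm0 : 0 ≤ m := le_trans (le_min zero_le_one (by linarith)) hm1
  have ht := total h hm h2 hτ hm1 hn0 hn hM
  have hcp := cutPart hN hχ hc (V := fun ξ => ‖Ph φ (g (ξ + τ))‖ₑ ^ 2)
    (fun ξ => Ph_sup hm (g (ξ + τ)))
  have hg := meas_g h
  have hPhm : Measurable (Ph φ) := (continuous_Ph hm h2).measurable
  set A := ∫⁻ t in Icc (-2 : ℝ) 2, ‖φ t‖ₑ ^ 2 with hA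
  have hFm : Measurable fun ξ => 2 * ‖Ph φ (g (ξ + τ)) - Ph φ (g ξ)‖ₑ ^ 2 :=
    ((((hPhm.comp (hg.comp (measurable_id.add_const τ))).sub
      (hPhm.comp hg)).enorm).pow_const 2).const_mul 2
  calc ∫⁻ ξ : ℝ, ‖χ (ξ + τ) * Ph φ (g (ξ + τ)) - χ ξ * Ph φ (g ξ)‖ₑ ^ 2
      ≤ ∫⁻ ξ : ℝ, (2 * (‖χ (ξ + τ) - χ ξ‖ₑ ^ 2 * ‖Ph φ (g (ξ + τ))‖ₑ ^ 2) +
          2 * ‖Ph φ (g (ξ + τ)) - Ph φ (g ξ)‖ₑ ^ 2) := by
        refine lintegral_mono fun ξ => ?_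
        have e1 : χ (ξ + τ) * Ph φ (g (ξ + τ)) - χ ξ * Ph φ (g ξ) =
          (χ (ξ + τ) - χ ξ) * Ph φ (g (ξ + τ)) + χ ξ * (Ph φ (g (ξ + τ)) - Ph φ (g ξ)) := by ring
        simp only [e1]
        refine (sq_add _ _).trans ?_
        rw [enorm_mul, mul_pow]
        refine add_le_add le_rfl (mul_le_mul_right ?_ _)
        rw [enorm_mul, mul_pow]
        have h3 : ‖χ ξ‖ₑ ^ 2 ≤ 1 := by
          rw [← ofReal_norm, ← ENNReal.ofReal_pow (norm_nonneg _)]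
          rw [ENNReal.ofReal_le_one]
          exact pow_le_one₀ (norm_nonneg _) (hχ.1 ξ)
        calc ‖χ ξ‖ₑ ^ 2 * ‖Ph φ (g (ξ + τ)) - Ph φ (g ξ)‖ₑ ^ 2
            ≤ 1 * ‖Ph φ (g (ξ + τ)) - Ph φ (g ξ)‖ₑ ^ 2 := mul_le_mul_left h3 _
          _ = _ := one_mul _
    _ = 2 * (∫⁻ ξ : ℝ, ‖χ (ξ + τ) - χ ξ‖ₑ ^ 2 * ‖Ph φ (g (ξ + τ))‖ₑ ^ 2) +
          2 * ∫⁻ ξ : ℝ, ‖Ph φ (g (ξ + τ)) - Ph φ (g ξ)‖ₑ ^ 2 := by
        rw [lintegral_add_right _ hFm, lintegral_const_mul' _ _ (by norm_num),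
          lintegral_const_mul' _ _ (by norm_num)]
    _ ≤ 2 * (ENNReal.ofReal (8 * N * c ^ 2) * (4 * A)) +
          2 * (2 * (ENNReal.ofReal (m * τ * (4 * Real.pi) ^ 2 + n) * A) +
            ENNReal.ofReal τ * (ENNReal.ofReal q * A)) :=
        add_le_add (mul_le_mul_right hcp _) (mul_le_mul_right ht _)
    _ = ENNReal.ofReal (64 * N * c ^ 2 + 4 * (m * τ * (4 * Real.pi) ^ 2 + n) + 2 * (τ * q)) *
          A := by
        have p1 : 0 ≤ 8 * N * c ^ 2 := by positivity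
        have p2 : 0 ≤ m * τ * (4 * Real.pi) ^ 2 + n := by positivity
        have p3 : 0 ≤ τ * q := by positivity
        rw [show 64 * N * c ^ 2 = 8 * (8 * N * c ^ 2) by ring]
        generalize 8 * N * c ^ 2 = u1 at p1 ⊢
        generalize m * τ * (4 * Real.pi) ^ 2 + n = u2 at p2 ⊢
        rw [ENNReal.ofReal_add (by positivity) (by positivity),
          ENNReal.ofReal_add (by positivity) (by positivity),
          ENNReal.ofReal_mul (p := 8) (by norm_num), ENNReal.ofReal_mul (p := 4) (by norm_num),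
          ENNReal.ofReal_mul (p := 2) (by norm_num), ENNReal.ofReal_mul (p := τ) hτ.le]
        have q8 : ENNReal.ofReal 8 = 8 := by norm_num
        have q4 : ENNReal.ofReal 4 = 4 := by norm_num
        have q2 : ENNReal.ofReal 2 = 2 := by norm_num
        rw [q8, q4, q2]
        ring
    _ ≤ _ := mul_le_mul_left (ENNReal.ofReal_le_ofReal hK) _

theorem mod_thm : S_MOD := by
  refine ⟨1000 + 40 * (4 * Real.pi) ^ 2, by positivity, ?_⟩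
  intro N g g' χ φ hN h hχ hm h2
  have hN0 : 0 < N := by linarith
  have hP : 0 ≤ (4 * Real.pi) ^ 2 := by positivity
  have hcut1 : ∀ τ : ℝ, 0 < τ → ∀ ξ, ‖χ (ξ + τ) - χ ξ‖ ≤ 2 / N * τ := by
    intro τ hτ ξ
    have := hχ.2.1 (ξ + τ) ξ
    rwa [add_sub_cancel_left, abs_of_pos hτ] at this
  have hcut2 : ∀ τ : ℝ, ∀ ξ, ‖χ (ξ + τ) - χ ξ‖ ≤ 2 := by
    intro τ ξ
    refine (norm_sub_le _ _).trans ?_
    linarith [hχ.1 (ξ + τ), hχ.1 ξ]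
  constructor
  · intro τ hτ
    have hM : ∀ ξ, ‖Ph φ (g (ξ + τ)) - Ph φ (g ξ)‖ₑ ^ 2 ≤
        ENNReal.ofReal 16 * ∫⁻ t in Icc (-2 : ℝ) 2, ‖φ t‖ₑ ^ 2 := by
      intro ξ
      refine (sq_sub _ _).trans ?_
      refine (add_le_add (mul_le_mul_right (Ph_sup hm _) _)
        (mul_le_mul_right (Ph_sup hm _) _)).trans (le_of_eq ?_)
      have : ENNReal.ofReal 16 = 16 := by norm_num
      rw [this]; ring
    rcases le_or_gt τ N with hle | hlt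
    · refine step hN hχ h hm h2 (m := 1) (n := 12 * τ) (q := 16) (c := 2 / N * τ) hτ
        (min_le_left _ _) (by positivity) (by norm_num) (fun _ => le_rfl) hM (hcut1 τ hτ) ?_
      have e1 : 64 * N * (2 / N * τ) ^ 2 = 256 * τ * (τ / N) := by field_simp; ring
      have e2 : τ / N ≤ 1 := by rw [div_le_one hN0]; exact hle
      have e3 : 256 * τ * (τ / N) ≤ 256 * τ := by
        have : 0 ≤ 256 * τ := by positivity
        nlinarith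
      rw [e1]
      nlinarith [mul_nonneg hτ.le hP]
    · refine step hN hχ h hm h2 (m := 1) (n := 12 * τ) (q := 16) (c := 2) hτ
        (min_le_left _ _) (by positivity) (by norm_num) (fun _ => le_rfl) hM (hcut2 τ) ?_
      nlinarith [mul_nonneg hτ.le hP]
  · intro τ hτ hτ1
    have hM : ∀ ξ, ‖Ph φ (g (ξ + τ)) - Ph φ (g ξ)‖ₑ ^ 2 ≤
        ENNReal.ofReal ((2 * τ) ^ 2 * (4 * (4 * Real.pi) ^ 2)) *
          ∫⁻ t in Icc (-2 : ℝ) 2, ‖φ t‖ₑ ^ 2 := by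
      intro ξ
      refine (Ph_lip hm h2 _ _).trans ?_
      rw [← mul_assoc, ← ENNReal.ofReal_mul (by positivity)]
      refine mul_le_mul_left (ENNReal.ofReal_le_ofReal ?_) _
      apply mul_le_mul_of_nonneg_right _ (by positivity)
      have := g_lip h ξ (ξ + τ)
      rw [add_sub_cancel_left, abs_of_pos hτ] at this
      rw [← sq_abs]
      exact pow_le_pow_left₀ (abs_nonneg _) this 2
    refine step hN hχ h hm h2 (m := 2 * τ) (n := 24 * τ ^ 2)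
      (q := (2 * τ) ^ 2 * (4 * (4 * Real.pi) ^ 2)) (c := 2 / N * τ) hτ
      (min_le_right _ _) (by positivity) (by positivity) ?_ hM (hcut1 τ hτ) ?_
    · intro h3; nlinarith
    · have e1 : 64 * N * (2 / N * τ) ^ 2 = 256 * τ ^ 2 * (1 / N) := by field_simp; ring
      have e2 : 1 / N ≤ 1 := by rw [div_le_one hN0]; exact hN
      have e3 : 256 * τ ^ 2 * (1 / N) ≤ 256 * τ ^ 2 := by
        have : 0 ≤ 256 * τ ^ 2 := by positivity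
        nlinarith
      have e4 : τ ^ 3 ≤ τ ^ 2 := by nlinarith [sq_nonneg τ]
      have e5 : 2 * (τ * ((2 * τ) ^ 2 * (4 * (4 * Real.pi) ^ 2))) =
        32 * (τ ^ 3 * (4 * Real.pi) ^ 2) := by ring
      have e6 : τ ^ 3 * (4 * Real.pi) ^ 2 ≤ τ ^ 2 * (4 * Real.pi) ^ 2 :=
        mul_le_mul_of_nonneg_right e4 hP
      have e7 : 4 * (2 * τ * τ * (4 * Real.pi) ^ 2 + 24 * τ ^ 2) =
        8 * (τ ^ 2 * (4 * Real.pi) ^ 2) + 96 * τ ^ 2 := by ring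
      rw [e1, e5, e7]
      have e8 : (1000 + 40 * (4 * Real.pi) ^ 2) * τ ^ 2 =
        1000 * τ ^ 2 + 40 * (τ ^ 2 * (4 * Real.pi) ^ 2) := by ring
      rw [e8]
      have e9 : 0 ≤ τ ^ 2 := by positivity
      linarith

end Pool.Agent.TH496.MOD
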