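import Pool.Agent.TH605.AP.WF

/-!
# Words: the discs of words
-/

set_option autoImplicit false

open Set Topology Filter

namespace Pool.Agent.TH496.J2837

open Pool.Agent.TH605.AP

theorem sg_append (u v : List (Fin 4)) (z : OnePoint ℂ) : sg (u ++ v) z = sg u (sg v z) := by
  induction u with
  | nil => rfl
  | cons i u ih =>
    show s i (sg (u ++ v) z) = s i (sg u (sg v z))
    rw [ih]

theorem sg_reverse (B : BF) (u : List (Fin 4)) (z : OnePoint ℂ) :
    sg u.reverse (sg u z) = z := by
  induction u generalizing z with
  | nil => rfl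
  | cons i u ih =>
    rw [List.reverse_cons, sg_append]
    show sg u.reverse (s i (s i (sg u z))) = z
    rw [B.s_s, ih]

theorem cont_sg (B : BF) (u : List (Fin 4)) : Continuous (sg u) := by
  induction u with
  | nil => exact continuous_id
  | cons i u ih => exact (B.cont i).comp ih

theorem DL_cons (i : Fin 4) (w : List (Fin 4)) (hw : w ≠ []) : DL (i :: w) = s i '' DL w := by
  rcases w with _ | ⟨j, w⟩
  · exact absurd rfl hw
  · rfl

theorem DLI_cons (i : Fin 4) (w : List (Fin 4)) (hw : w ≠ []) : DLI (i :: w) = s i '' DLI w := by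
  rcases w with _ | ⟨j, w⟩
  · exact absurd rfl hw
  · rfl

theorem DL_append (u v : List (Fin 4)) (hv : v ≠ []) : DL (u ++ v) = sg u '' DL v := by
  induction u with
  | nil =>
    show DL v = (fun z => z) '' DL v
    rw [image_id']
  | cons i u ih =>
    rw [List.cons_append, DL_cons i (u ++ v) (by simp [hv]), ih, ← image_comp]
    rfl

theorem DLI_append (u v : List (Fin 4)) (hv : v ≠ []) : DLI (u ++ v) = sg u '' DLI v := by
  induction u with
  | nil =>
    show DLI v = (fun z => z) '' DLI v
    rw [image_id']
  | cons i u ih =>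
    rw [List.cons_append, DLI_cons i (u ++ v) (by simp [hv]), ih, ← image_comp]
    rfl

theorem DLI_subset (B : BF) (w : List (Fin 4)) : DLI w ⊆ DL w := by
  induction w with
  | nil => exact subset_rfl
  | cons i w ih =>
    by_cases hw : w = []
    · subst hw
      exact B.sub i
    · rw [DL_cons i w hw, DLI_cons i w hw]
      exact image_mono ih

theorem IsRed_tail {i : Fin 4} {w : List (Fin 4)} (h : IsRed (i :: w)) : IsRed w := by
  unfold IsRed at h ⊢
  exact h.tail

theorem DL_head (B : BF) (i : Fin 4) (w : List (Fin 4)) (h : IsRed (i :: w)) :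
    DL (i :: w) ⊆ Disc i := by
  induction w generalizing i with
  | nil => exact subset_rfl
  | cons j w ih =>
    have hij : i ≠ j := by
      unfold IsRed at h
      rw [List.isChain_cons_cons] at h
      exact h.1
    have h1 := ih j (IsRed_tail h)
    rw [DL_cons i (j :: w) (by simp)]
    rintro _ ⟨p, hp, rfl⟩
    rw [B.s_Disc]
    exact fun hpi => (disjoint_left.1 (B.interI i j hij)) hpi (h1 hp)

theorem DLI_head (B : BF) (i : Fin 4) (w : List (Fin 4)) (h : IsRed (i :: w)) :
    DLI (i :: w) ⊆ DiscI i := by
  induction w generalizing i with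
  | nil => exact subset_rfl
  | cons j w ih =>
    have hij : i ≠ j := by
      unfold IsRed at h
      rw [List.isChain_cons_cons] at h
      exact h.1
    have h1 := ih j (IsRed_tail h)
    rw [DLI_cons i (j :: w) (by simp)]
    rintro _ ⟨p, hp, rfl⟩
    rw [B.s_DiscI]
    exact fun hpi => (disjoint_left.1 (B.interI j i hij.symm)) (h1 hp) hpi

theorem DL_prefix (B : BF) (u w : List (Fin 4)) (hw : IsRed w) (h : u <+: w) : DL w ⊆ DL u := by
  induction u generalizing w with
  | nil => exact subset_univ _
  | cons a u ih =>
    rcases w with _ | ⟨b, w⟩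
    · simp at h
    · rw [List.cons_prefix_cons] at h
      obtain ⟨rfl, h⟩ := h
      by_cases hu : u = []
      · subst hu
        exact DL_head B a w hw
      · have hw' : w ≠ [] := by
          rintro rfl
          exact hu (List.prefix_nil.1 h)
        rw [DL_cons a w hw', DL_cons a u hu]
        exact image_mono (ih w (IsRed_tail hw) h)

theorem s_inj (B : BF) (i : Fin 4) : Function.Injective (s i) := fun p q h => by
  rw [← B.s_s i p, h, B.s_s]

theorem DL_disj (B : BF) (u w : List (Fin 4)) (hu : IsRed u) (hw : IsRed w) (h1 : ¬ u <+: w)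
    (h2 : ¬ w <+: u) : Disjoint (DLI u) (DL w) := by
  induction u generalizing w with
  | nil => exact absurd List.nil_prefix h1
  | cons a u ih =>
    rcases w with _ | ⟨b, w⟩
    · exact absurd List.nil_prefix h2
    · by_cases hab : a = b
      · subst hab
        have h1' : ¬ u <+: w := fun h => h1 (List.cons_prefix_cons.2 ⟨rfl, h⟩)
        have h2' : ¬ w <+: u := fun h => h2 (List.cons_prefix_cons.2 ⟨rfl, h⟩)
        have hu' : u ≠ [] := by
          rintro rfl
          exact h1' List.nil_prefix
        have hw' : w ≠ [] := by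
          rintro rfl
          exact h2' List.nil_prefix
        rw [DLI_cons a u hu', DL_cons a w hw']
        exact (disjoint_image_iff (s_inj B a)).2 (ih w (IsRed_tail hu) (IsRed_tail hw) h1' h2')
      · exact (B.interI a b hab).mono (DLI_head B a u hu) (DL_head B b w hw)

theorem image_s (B : BF) (i : Fin 4) (S : Set (OnePoint ℂ)) : s i '' S = s i ⁻¹' S := by
  ext p
  constructor
  · rintro ⟨q, hq, rfl⟩
    show s i (s i q) ∈ S
    rwa [B.s_s]
  · intro hp
    exact ⟨s i p, hp, B.s_s i p⟩

theorem closed_DL (B : BF) (w : List (Fin 4)) : IsClosed (DL w) := by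
  induction w with
  | nil => exact isClosed_univ
  | cons i w ih =>
    by_cases hw : w = []
    · subst hw
      exact B.closedDisc i
    · rw [DL_cons i w hw, image_s B]
      exact ih.preimage (B.cont i)

theorem wf (B : BF) : WF where
  sg_append := sg_append
  sg_reverse := sg_reverse B
  cont_sg := cont_sg B
  DL_append := DL_append
  DLI_append := DLI_append
  DLI_subset := DLI_subset B
  DL_head := DL_head B
  DL_prefix := DL_prefix B
  DL_disj := DL_disj B
  closed_DL := closed_DL B

end Pool.Agent.TH496.J2837
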