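import Pool.Agent.TH496.GG5

set_option autoImplicit false
set_option linter.unusedSectionVars false

/-! The golden mean bound for virtually abelian cubic Cayley graphs. -/

namespace Pool.Agent.TH496

open Finset

open scoped DirectSum in
lemma tau_exists {Γ : Type*} [Group Γ] (H : Subgroup Γ) (hfg : Group.FG H)
    (hcomm : ∀ a ∈ H, ∀ b ∈ H, a * b = b * a) :
    ∃ τ : Γ → ℝ, (∀ a ∈ H, ∀ b ∈ H, τ (a * b) = τ a + τ b) ∧
      {a : Γ | a ∈ H ∧ τ a = 0}.Finite := by
  classical
  let : CommGroup H :=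
    { (inferInstance : Group H) with
      mul_comm := fun a b => Subtype.ext (hcomm a a.2 b b.2) }
  have : AddGroup.FG (Additive H) := by
    have := hfg
    infer_instance
  obtain ⟨n, ι, fι, p, hp, e, ⟨f⟩⟩ := AddCommGroup.equiv_free_prod_directSum_zmod (Additive H)
  have : ∀ i : ι, NeZero (p i ^ e i) := fun i => ⟨pow_ne_zero _ (hp i).ne_zero⟩
  have hfin : Finite (⨁ i : ι, ZMod (p i ^ e i)) :=
    Finite.of_equiv _ DFinsupp.equivFunOnFintype.symm
  set θ : ℝ := liouvilleNumber (2 : ℕ) with hθ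
  have htr : Transcendental ℤ θ := by
    have := transcendental_liouvilleNumber (m := 2) le_rfl
    exact this
  set L : (Fin n →₀ ℤ) → ℝ := fun x => ∑ i : Fin n, (x i : ℝ) * θ ^ (i : ℕ) with hL
  have hL0 : ∀ x, L x = 0 → x = 0 := by
    intro x hx
    set q : Polynomial ℤ := ∑ i : Fin n, Polynomial.C (x i) * Polynomial.X ^ (i : ℕ) with hq
    have h1 : Polynomial.aeval θ q = 0 := by
      rw [hq, map_sum, ← hx]
      simp only [hL]
      apply Finset.sum_congr rfl; intro i _
      simp
    have h2 : q = 0 := (transcendental_iff.mp htr) q h1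
    ext j
    have h3 : q.coeff (j : ℕ) = x j := by
      rw [hq, Polynomial.finsetSum_coeff]
      rw [Finset.sum_eq_single j]
      · simp
      · intro i _ hij
        rw [Polynomial.coeff_C_mul_X_pow, if_neg]
        intro hh; exact hij (Fin.ext hh.symm)
      · intro hh; exact absurd (Finset.mem_univ j) hh
    rw [← h3, h2]; simp
  have hLadd : ∀ x y, L (x + y) = L x + L y := by
    intro x y
    simp only [hL, Finsupp.add_apply, Int.cast_add, add_mul, Finset.sum_add_distrib]
  refine ⟨fun g => if h : g ∈ H then L (f (Additive.ofMul ⟨g, h⟩)).1 else 0, ?_, ?_⟩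
  · intro a ha b hb
    simp only [ha, hb, H.mul_mem ha hb, dif_pos]
    rw [← hLadd, ← Prod.fst_add, ← map_add]
    rfl
  · have hinj : Set.InjOn (fun a : Γ => if h : a ∈ H then (f (Additive.ofMul ⟨a, h⟩)).2 else 0)
        {a : Γ | a ∈ H ∧ (if h : a ∈ H then L (f (Additive.ofMul ⟨a, h⟩)).1 else 0) = 0} := by
      rintro a ⟨ha, ha0⟩ b ⟨hb, hb0⟩ hab
      simp only [ha, hb, dif_pos] at ha0 hb0 hab
      have h1 := hL0 _ ha0
      have h2 := hL0 _ hb0
      have h3 : f (Additive.ofMul ⟨a, ha⟩) = f (Additive.ofMul ⟨b, hb⟩) :=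
        Prod.ext (h1.trans h2.symm) hab
      have h4 := f.injective h3
      exact congrArg Subtype.val (Additive.ofMul.injective h4)
    exact Set.Finite.of_finite_image (Set.toFinite _) hinj

section
variable {Γ : Type*} [Group Γ]

theorem golden_bound [Infinite Γ] (S : Finset Γ) (hc : S.card = 3) (h1 : (1 : Γ) ∉ S)
    (hinv : ∀ s ∈ S, s⁻¹ ∈ S) (hgen : Subgroup.closure (S : Set Γ) = ⊤)
    (H : Subgroup Γ) (hH : H.FiniteIndex) (hcomm : ∀ a ∈ H, ∀ b ∈ H, a * b = b * a) (k : ℕ) :
    Real.goldenRatio ^ k ≤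
      ((Set.ncard {w : Fin (k + 1) → Γ | w 0 = 1 ∧ Function.Injective w ∧
        ∀ i : Fin k, (w i.castSucc)⁻¹ * w i.succ ∈ S} : ℕ) : ℝ) := by
  classical
  rw [ncard_eq]
  have hfgΓ : Group.FG Γ := ⟨⟨S, hgen⟩⟩
  have := hH
  have hfgH : Group.FG H := inferInstance
  obtain ⟨τ, hτ, hker⟩ := tau_exists H hfgH hcomm
  have : Finite (Γ ⧸ H) := inferInstance
  have : Fintype (Γ ⧸ H) := Fintype.ofFinite _
  obtain ⟨h, hh, hmin⟩ := exists_min H τ S hτ hgen
  set K : Finset Γ := hker.toFinset with hK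
  have hKmem : ∀ a, a ∈ K ↔ a ∈ H ∧ τ a = 0 := by
    intro a; rw [hK, Set.Finite.mem_toFinset]; rfl
  -- level sets
  have hlev : ∀ x, ∃ L : Finset Γ, (∀ y, y ∈ L ↔ h y = h x) ∧
      L.card ≤ Fintype.card (Γ ⧸ H) * K.card := by
    intro x
    refine ⟨Finset.univ.biUnion fun i : Γ ⧸ H =>
      if hy : ∃ y0, qq H y0 = i ∧ h y0 = h x then K.image (fun k => k * hy.choose) else ∅, ?_, ?_⟩
    · intro y
      rw [Finset.mem_biUnion]
      constructor
      · rintro ⟨i, _, hi⟩
        by_cases hy : ∃ y0, qq H y0 = i ∧ h y0 = h x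
        · rw [dif_pos hy, Finset.mem_image] at hi
          obtain ⟨k, hk, rfl⟩ := hi
          obtain ⟨hk1, hk2⟩ := (hKmem k).mp hk
          rw [hh k hk1, hk2, zero_add]
          exact hy.choose_spec.2
        · rw [dif_neg hy] at hi; simp at hi
      · intro hyx
        have hy : ∃ y0, qq H y0 = qq H y ∧ h y0 = h x := ⟨y, rfl, hyx⟩
        refine ⟨qq H y, Finset.mem_univ _, ?_⟩
        rw [dif_pos hy, Finset.mem_image]
        obtain ⟨g1, g2⟩ := hy.choose_spec
        set y0 := hy.choose with hy0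
        have g3 : y * y0⁻¹ ∈ H := (qq_eq H y y0).mp g1.symm
        refine ⟨y * y0⁻¹, (hKmem _).mpr ⟨g3, ?_⟩, by group⟩
        have g4 := hh _ g3 y0
        rw [inv_mul_cancel_right, hyx, g2] at g4
        linarith
    · refine (Finset.card_biUnion_le).trans ?_
      calc ∑ i : Γ ⧸ H, (if hy : ∃ y0, qq H y0 = i ∧ h y0 = h x then
            K.image (fun k => k * hy.choose) else ∅).card ≤ ∑ _i : Γ ⧸ H, K.card := by
            apply Finset.sum_le_sum
            intro i _
            split_ifs
            · exact Finset.card_image_le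
            · simp
        _ = Fintype.card (Γ ⧸ H) * K.card := by
            rw [Finset.sum_const, smul_eq_mul, Finset.card_univ]
  have hbal := balance H τ S hh hinv hmin
  have HDh : HD S h (Fintype.card (Γ ⧸ H) * K.card) := by
    refine ⟨hc, hinv, hlev, ?_, ?_, fun X hX => edge_conn S hc h1 hgen X hX⟩
    · intro U _
      have := (abs_le.mp (hbal U)).2
      have h2 : (∑ x ∈ U, (upc S h x : ℝ)) ≤ ∑ x ∈ U, (dnc S h x : ℝ) +
          ∑ x ∈ U, (lvc S h U x : ℝ) := by linarith
      exact_mod_cast h2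
    · intro U _
      have := (abs_le.mp (hbal U)).1
      have h2 : (∑ x ∈ U, (dnc S h x : ℝ)) ≤ ∑ x ∈ U, (upc S h x : ℝ) +
          ∑ x ∈ U, (lvc S h U x : ℝ) := by linarith
      exact_mod_cast h2
  apply HDh.golden
  -- an entry vertex exists
  by_contra hcon
  push Not at hcon
  have hle : ∀ x, ∀ s ∈ S, h x ≤ h (x * s) := by
    intro x s hs
    by_contra hlt
    push Not at hlt
    have h0 : dnc S h x = 0 := by have := hcon x; omega
    unfold dnc at h0
    rw [Finset.card_eq_zero] at h0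
    have : s ∈ S.filter (fun s => h (x * s) < h x) := Finset.mem_filter.mpr ⟨hs, hlt⟩
    rw [h0] at this
    simp at this
  have heq : ∀ x, ∀ s ∈ S, h (x * s) = h x := by
    intro x s hs
    apply le_antisymm _ (hle x s hs)
    have := hle (x * s) s⁻¹ (hinv s hs)
    rwa [mul_inv_cancel_right] at this
  have hconst : ∀ g : Γ, ∀ x, h (x * g) = h x := by
    intro g
    have hg : g ∈ Subgroup.closure (S : Set Γ) := by rw [hgen]; trivial
    induction hg using Subgroup.closure_induction with
    | mem s hs => exact fun x => heq x s hs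
    | one => intro x; rw [mul_one]
    | mul a b _ _ iha ihb => intro x; rw [← mul_assoc, ihb, iha]
    | inv a _ ih =>
      intro x
      have := ih (x * a⁻¹)
      rw [inv_mul_cancel_right] at this
      exact this.symm
  have hHK : ∀ a ∈ H, a ∈ K := by
    intro a ha
    refine (hKmem a).mpr ⟨ha, ?_⟩
    have g1 := hh a ha 1
    have g2 := hconst a 1
    rw [mul_one] at g1
    rw [one_mul] at g2
    linarith
  have hHfin : Finite H := by
    have : (H : Set Γ).Finite := K.finite_toSet.subset fun a ha => hHK a ha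
    exact this.to_subtype
  have hΓ : Finite Γ := (Subgroup.finite_iff_finite_and_finiteIndex (H := H)).mpr ⟨hHfin, hH⟩
  exact not_finite Γ

end

end Pool.Agent.TH496
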