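import Pool.Agent.TH168.Mil.Defs

/-!
Job 1789 (MIL-ZC): the key inequality near the wall.
-/

set_option autoImplicit false

namespace Pool.Agent.TH496.MilZC

open Set Filter Topology MeasureTheory
open Pool.Agent.TH168.Mil

theorem st_lip : ∃ K : ℝ, 0 < K ∧ ∀ a b : ℝ,
    |Real.smoothTransition a - Real.smoothTransition b| ≤ K * |a - b| := by
  have hd : ContDiff ℝ 1 Real.smoothTransition := Real.smoothTransition.contDiff
  have hcont : Continuous (deriv Real.smoothTransition) := hd.continuous_deriv le_rfl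
  obtain ⟨C, hC⟩ := (isCompact_Icc (a := (0:ℝ)) (b := 1)).exists_bound_of_continuousOn
    hcont.continuousOn
  have hC0 : 0 ≤ C := le_trans (norm_nonneg _) (hC 0 (by simp))
  have hb : ∀ x, ‖deriv Real.smoothTransition x‖ ≤ C := by
    intro x
    rcases lt_or_ge x 0 with h | h
    · have : deriv Real.smoothTransition x = 0 := by
        have he : Real.smoothTransition =ᶠ[𝓝 x] fun _ => (0:ℝ) := by
          filter_upwards [Iio_mem_nhds h] with y hy
          exact Real.smoothTransition.zero_of_nonpos (le_of_lt hy)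
        rw [he.deriv_eq]; simp
      rw [this]; simpa using hC0
    · rcases lt_or_ge 1 x with h1 | h1
      · have : deriv Real.smoothTransition x = 0 := by
          have he : Real.smoothTransition =ᶠ[𝓝 x] fun _ => (1:ℝ) := by
            filter_upwards [Ioi_mem_nhds h1] with y hy
            exact Real.smoothTransition.one_of_one_le (le_of_lt hy)
          rw [he.deriv_eq]; simp
        rw [this]; simpa using hC0
      · exact hC x ⟨h, h1⟩
  refine ⟨C + 1, by linarith, ?_⟩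
  intro a b
  have hdiff : ∀ x ∈ (univ : Set ℝ), DifferentiableAt ℝ Real.smoothTransition x :=
    fun x _ => (hd.differentiable one_ne_zero) x
  have := Convex.norm_image_sub_le_of_norm_deriv_le (f := Real.smoothTransition)
    (C := C) (s := univ) (x := b) (y := a) hdiff (fun x _ => hb x) convex_univ
    (mem_univ _) (mem_univ _)
  rw [Real.norm_eq_abs, Real.norm_eq_abs] at this
  nlinarith [abs_nonneg (a - b)]

theorem rho_lip : ∃ K : ℝ, 0 < K ∧ ∀ x r : ℝ, |rho x - rho r| ≤ K * |x - r| := by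
  obtain ⟨K, hK, h⟩ := st_lip
  refine ⟨2 * K, by linarith, ?_⟩
  intro x r
  have := h (2 * x - 5 / 2) (2 * r - 5 / 2)
  unfold rho
  have e : (2 * x - 5 / 2) - (2 * r - 5 / 2) = 2 * (x - r) := by ring
  rw [e, abs_mul, abs_of_pos (by norm_num : (0:ℝ) < 2)] at this
  linarith

theorem rho_mem (x : ℝ) : 0 ≤ rho x ∧ rho x ≤ 1 :=
  ⟨Real.smoothTransition.nonneg _, Real.smoothTransition.le_one _⟩

theorem sin_near {z : ℝ} (h : |z| ≤ 1 / 500) : |Real.sin z - z| ≤ z ^ 2 / 1000 := by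
  have h1 := Real.sin_bound (x := z) (by linarith)
  have ht : 0 ≤ |z| := abs_nonneg z
  have hz : z ^ 2 = |z| ^ 2 := (sq_abs z).symm
  have h3 : |z ^ 3 / 6| ≤ |z| ^ 2 / 3000 := by
    rw [abs_div, abs_pow, abs_of_pos (by norm_num : (0:ℝ) < 6)]
    have : |z| ^ 3 = |z| ^ 2 * |z| := by ring
    rw [this]
    have h2 : 0 ≤ |z| ^ 2 := by positivity
    nlinarith
  have h5 : |z| ^ 5 / 100 ≤ |z| ^ 2 / 3000 := by
    have : |z| ^ 5 = |z| ^ 2 * |z| ^ 3 := by ring
    rw [this]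
    have h2 : 0 ≤ |z| ^ 2 := by positivity
    have h6 : |z| ^ 3 ≤ 1 / 500 := by
      have : |z| ^ 3 ≤ |z| ^ 1 := pow_le_pow_of_le_one ht (by linarith) (by norm_num)
      simpa using this.trans (by simpa using h)
    nlinarith
  have e : Real.sin z - z = (Real.sin z - (z - z ^ 3 / 6)) - z ^ 3 / 6 := by ring
  rw [e, hz]
  have := abs_sub (Real.sin z - (z - z ^ 3 / 6)) (z ^ 3 / 6)
  have h2 : 0 ≤ |z| ^ 2 := by positivity
  linarith

/-- the bounds on `μ` -/
theorem step1 {M L x μ a b R F uv c : ℝ} (hM : 0 < M) (hL : 1 ≤ L) (hx : 1 ≤ x)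
    (hμ : |μ| ≤ 1 / 4000) (ha : 0 ≤ a) (hax : a ≤ 4000 * x) (haμ : a * |μ| ≤ 1)
    (hb : 39 / 10 ≤ b) (hb' : b ≤ 41 / 10) (hR0 : 0 ≤ R) (hR1 : R ≤ 1) (hc : |c| ≤ 1)
    (hF : |F| ≤ M / (L ^ 2 * x ^ 5))
    (huv : |uv + kap L * R / x ^ 2 * c / 4| ≤ M / (L ^ 2 * x ^ 5))
    (heq : eta * (2 * Real.sin μ * (a * Real.sin μ - b * Real.cos μ)) - 4 * uv - F = 0) :
    |μ| * (x ^ 2 * L) ≤ 1 + 10 ^ 6 * M ∧
    |2 * eta * b * (μ * (x ^ 2 * L)) - 8 * eta * (1280 * eta) * 500 / 3 * R * c| ≤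
      (5 * M + (1 + 10 ^ 6 * M) ^ 2 / 100) / L := by
  have hL0 : 0 < L := by linarith
  have hx0 : 0 < x := by linarith
  have hT : 0 < x ^ 2 * L := by positivity
  set T := x ^ 2 * L with hTdef
  set s := Real.sin μ with hs
  set k := Real.cos μ with hk
  have hs1 : |s - μ| ≤ μ ^ 2 / 1000 := sin_near (by linarith)
  have hsμ : |s| ≤ |μ| := Real.abs_sin_le_abs
  have hk1 : 1 - μ ^ 2 / 2 ≤ k := Real.one_sub_sq_div_two_le_cos
  have hk2 : k ≤ 1 := Real.cos_le_one μ
  have hμ0 : 0 ≤ |μ| := abs_nonneg _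
  have hμ2 : μ ^ 2 = |μ| ^ 2 := (sq_abs μ).symm
  have hμ3 : μ ^ 2 ≤ |μ| / 4000 := by
    rw [hμ2]
    have : |μ| * |μ| ≤ |μ| * (1 / 4000) := mul_le_mul_of_nonneg_left hμ hμ0
    linarith only [this]
  have hslow : 99 / 100 * |μ| ≤ |s| := by
    have h1 : |μ| ≤ |s| + |s - μ| := by
      have := abs_sub_abs_le_abs_sub μ s
      rw [abs_sub_comm μ s] at this
      linarith
    linarith
  -- the main equation
  set E1 := (-4 * (uv + kap L * R / x ^ 2 * c / 4) - F) * T with hE1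
  have hQ : M / (L ^ 2 * x ^ 5) * T ≤ M / L := by
    rw [div_mul_eq_mul_div, div_le_div_iff₀ (by positivity) hL0]
    have : M * T * L = M * L ^ 2 * x ^ 2 := by rw [hTdef]; ring
    rw [this]
    have e2 : M * (L ^ 2 * x ^ 5) = M * L ^ 2 * x ^ 5 := by ring
    rw [e2]
    have h25 : x ^ 2 ≤ x ^ 5 := pow_le_pow_right₀ hx (by norm_num)
    have : 0 ≤ M * L ^ 2 := by positivity
    exact mul_le_mul_of_nonneg_left h25 this
  have hE1b : |E1| ≤ 5 * M / L := by
    rw [hE1, abs_mul, abs_of_pos hT]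
    have h1 : |(-4 * (uv + kap L * R / x ^ 2 * c / 4) - F)| ≤ 5 * (M / (L ^ 2 * x ^ 5)) := by
      have h0 : |(-4 : ℝ) * (uv + kap L * R / x ^ 2 * c / 4)| =
          4 * |uv + kap L * R / x ^ 2 * c / 4| := by
        rw [abs_mul]; norm_num
      have h2 := abs_sub (-4 * (uv + kap L * R / x ^ 2 * c / 4)) F
      rw [h0] at h2
      linarith only [h2, huv, hF]
    calc |(-4 * (uv + kap L * R / x ^ 2 * c / 4) - F)| * T
        ≤ 5 * (M / (L ^ 2 * x ^ 5)) * T := mul_le_mul_of_nonneg_right h1 hT.le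
      _ = 5 * (M / (L ^ 2 * x ^ 5) * T) := by ring
      _ ≤ 5 * (M / L) := by linarith
      _ = 5 * M / L := by ring
  have hkap : kap L * R / x ^ 2 * c * T = 8 * eta * (1280 * eta) * 500 / 3 * R * c := by
    unfold kap
    rw [hTdef]
    field_simp
  have hmain : 2 * eta * (s * T) * (b * k - a * s) =
      8 * eta * (1280 * eta) * 500 / 3 * R * c + E1 := by
    rw [hE1, ← hkap]
    have : 2 * eta * (s * T) * (b * k - a * s) = -(4 * uv + F) * T := by
      have : eta * (2 * s * (a * s - b * k)) = 4 * uv + F := by linarith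
      calc 2 * eta * (s * T) * (b * k - a * s) = -(eta * (2 * s * (a * s - b * k))) * T := by ring
        _ = _ := by rw [this]
    rw [this]; ring
  have heta : eta = 1 / 10 ^ 6 := rfl
  have hRc : |R * c| ≤ 1 := by
    rw [abs_mul, abs_of_nonneg hR0]
    have := mul_le_mul hR1 hc (abs_nonneg c) zero_le_one
    linarith only [this]
  have hML : M / L ≤ M := div_le_self hM.le hL
  have hrhs : |8 * eta * (1280 * eta) * 500 / 3 * R * c + E1| ≤ 2 * eta + 5 * M := by
    have h1 : |8 * eta * (1280 * eta) * 500 / 3 * R * c| ≤ 2 * eta := by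
      have : 8 * eta * (1280 * eta) * 500 / 3 * R * c =
        (8 * eta * (1280 * eta) * 500 / 3) * (R * c) := by ring
      rw [this, abs_mul, heta]
      rw [abs_of_pos (by norm_num)]
      have h0 := abs_nonneg (R * c)
      linarith only [hRc, h0]
    have h2 : |E1| ≤ 5 * M := by
      have : 5 * M / L = 5 * (M / L) := by ring
      rw [this] at hE1b
      linarith
    linarith [abs_add_le (8 * eta * (1280 * eta) * 500 / 3 * R * c) E1]
  have has : |a * s| ≤ 1 := by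
    rw [abs_mul, abs_of_nonneg ha]
    exact (mul_le_mul_of_nonneg_left hsμ ha).trans haμ
  have hfac : 5 / 2 * (100 / 99) ≤ b * k - a * s := by
    have h1 : a * s ≤ 1 := (le_abs_self _).trans has
    have h2 : μ ^ 2 ≤ 1 / 1000 := by linarith only [hμ3, hμ]
    have h3 : 999 / 1000 ≤ k := by linarith only [hk1, h2]
    have h4 : 39 / 10 * (999 / 1000) ≤ b * k := mul_le_mul hb h3 (by norm_num) (by linarith only [hb])
    have h5 : (5:ℝ) / 2 * (100 / 99) ≤ 39 / 10 * (999 / 1000) - 1 := by norm_num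
    linarith only [h1, h4, h5]
  have hst1 : |μ| * T ≤ 1 + 10 ^ 6 * M := by
    have h1 : |2 * eta * (s * T) * (b * k - a * s)| = 2 * eta * (|s| * T) * (b * k - a * s) := by
      rw [abs_mul, abs_mul, abs_mul, abs_mul, abs_of_pos hT,
        abs_of_nonneg (by linarith : 0 ≤ b * k - a * s), heta]
      norm_num
    rw [← hmain, h1] at hrhs
    have h2 : 2 * eta * ((99 / 100 * |μ|) * T) * (5 / 2 * (100 / 99)) ≤
        2 * eta * (|s| * T) * (b * k - a * s) := by
      apply mul_le_mul _ hfac (by norm_num) (by rw [heta]; positivity)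
      apply mul_le_mul_of_nonneg_left _ (by rw [heta]; norm_num)
      exact mul_le_mul_of_nonneg_right hslow hT.le
    have h3 : 5 * eta * (|μ| * T) ≤ 2 * eta + 5 * M := by
      have e : 2 * eta * ((99 / 100 * |μ|) * T) * (5 / 2 * (100 / 99)) = 5 * eta * (|μ| * T) := by
        ring
      linarith only [e, h2, hrhs]
    rw [heta] at h3
    linarith only [h3, hM]
  refine ⟨hst1, ?_⟩
  set C := 1 + 10 ^ 6 * M with hC
  have hC0 : 0 < C := by rw [hC]; positivity
  -- `T μ² ≤ C² / L`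
  have hTmu : T * μ ^ 2 ≤ C ^ 2 / (L * x ^ 2) := by
    rw [le_div_iff₀ (by positivity), hμ2]
    calc T * |μ| ^ 2 * (L * x ^ 2) = (|μ| * T) ^ 2 := by rw [hTdef]; ring
      _ ≤ C ^ 2 := by
        apply pow_le_pow_left₀ (by positivity) hst1
  have hTmu1 : T * μ ^ 2 ≤ C ^ 2 / L := by
    refine hTmu.trans ?_
    apply div_le_div_of_nonneg_left (by positivity) hL0
    have hx2 : 1 ≤ x ^ 2 := one_le_pow₀ hx
    have := mul_le_mul_of_nonneg_left hx2 hL0.le
    linarith only [this]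
  have hTas : T * (a * s ^ 2) ≤ 4000 * C ^ 2 / L := by
    have h1 : s ^ 2 ≤ μ ^ 2 := by
      rw [hμ2, ← sq_abs s]; exact pow_le_pow_left₀ (abs_nonneg _) hsμ 2
    have h2 : T * (a * s ^ 2) ≤ a * (T * μ ^ 2) := by
      have : T * (a * s ^ 2) = a * T * s ^ 2 := by ring
      rw [this]
      have : a * (T * μ ^ 2) = a * T * μ ^ 2 := by ring
      rw [this]
      exact mul_le_mul_of_nonneg_left h1 (by positivity)
    have h3 : a * (T * μ ^ 2) ≤ 4000 * x * (C ^ 2 / (L * x ^ 2)) :=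
      mul_le_mul hax hTmu (by positivity) (by positivity)
    have h4 : 4000 * x * (C ^ 2 / (L * x ^ 2)) ≤ 4000 * C ^ 2 / L := by
      have e : 4000 * x * (C ^ 2 / (L * x ^ 2)) = 4000 * C ^ 2 / (L * x) := by
        field_simp
      rw [e]
      apply div_le_div_of_nonneg_left (by positivity) hL0
      have := mul_le_mul_of_nonneg_left hx hL0.le
      linarith only [this]
    linarith only [h2, h3, h4]
  have hdiff : |μ - s * k| ≤ μ ^ 2 := by
    have e : μ - s * k = (μ - s) + s * (1 - k) := by ring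
    rw [e]
    have h1 := abs_add_le (μ - s) (s * (1 - k))
    have h2 : |s * (1 - k)| ≤ |μ| * (μ ^ 2 / 2) := by
      rw [abs_mul, abs_of_nonneg (by linarith : 0 ≤ 1 - k)]
      apply mul_le_mul hsμ (by linarith) (by linarith) hμ0
    have h3 : |μ| * (μ ^ 2 / 2) ≤ μ ^ 2 / 2 := by
      have h0 : 0 ≤ μ ^ 2 / 2 := by positivity
      have h1 : |μ| ≤ 1 := by linarith only [hμ]
      have := mul_le_mul_of_nonneg_right h1 h0
      linarith only [this]
    rw [abs_sub_comm μ s] at h1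
    have : 0 ≤ μ ^ 2 := by positivity
    linarith
  have hid : 2 * eta * b * (μ * T) - 8 * eta * (1280 * eta) * 500 / 3 * R * c =
      E1 + 2 * eta * b * (T * (μ - s * k)) + 2 * eta * (T * (a * s ^ 2)) := by
    linear_combination hmain
  rw [hid]
  have h1 : |2 * eta * b * (T * (μ - s * k))| ≤ 2 * eta * (41 / 10) * (C ^ 2 / L) := by
    rw [abs_mul, abs_mul T, abs_of_pos hT, abs_of_pos (by rw [heta]; positivity)]
    have : T * |μ - s * k| ≤ C ^ 2 / L :=
      (mul_le_mul_of_nonneg_left hdiff hT.le).trans hTmu1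
    apply mul_le_mul _ this (by positivity) (by rw [heta]; positivity)
    rw [heta]; linarith only [hb']
  have h2 : |2 * eta * (T * (a * s ^ 2))| ≤ 2 * eta * (4000 * C ^ 2 / L) := by
    rw [abs_of_nonneg (by rw [heta]; positivity)]
    exact mul_le_mul_of_nonneg_left hTas (by rw [heta]; positivity)
  have h3 := abs_add_le (E1 + 2 * eta * b * (T * (μ - s * k))) (2 * eta * (T * (a * s ^ 2)))
  have h4 := abs_add_le E1 (2 * eta * b * (T * (μ - s * k)))
  have h5 : (5 * M + C ^ 2 / 100) / L = 5 * M / L + (C ^ 2 / L) / 100 := by ring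
  have h6 : 0 ≤ C ^ 2 / L := by positivity
  have h7 : 2 * eta * (4000 * C ^ 2 / L) = 8000 * eta * (C ^ 2 / L) := by ring
  rw [h5]
  rw [h7] at h2
  rw [heta] at h1 h2 h3 h4 ⊢
  linarith only [h1, h2, h3, h4, hE1b, h6]

theorem step3 {L x r μ C : ℝ} (hL : 1 ≤ L) (hx : 1 ≤ x) (hμ : |μ| ≤ 1 / 4000)
    (hxr : x - r = (Real.exp μ - 1) / 500) (hC : 0 < C) (h1 : |μ| * (x ^ 2 * L) ≤ C) :
    |(L * x ^ 3 - L * r ^ 3) - 3 * (μ * (x ^ 2 * L)) / 500| ≤ C ^ 2 / L ∧
    |x - r| ≤ C / L := by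
  have hL0 : 0 < L := by linarith
  have hx0 : 0 < x := by linarith
  set d := x - r with hd
  have hr : r = x - d := by rw [hd]; ring
  have hμ0 : 0 ≤ |μ| := abs_nonneg _
  have hμ2 : μ ^ 2 = |μ| ^ 2 := (sq_abs μ).symm
  have hexp := Real.abs_exp_sub_one_sub_id_le (x := μ) (by linarith)
  have hd1 : |d - μ / 500| ≤ μ ^ 2 / 500 := by
    have e : d - μ / 500 = (Real.exp μ - 1 - μ) / 500 := by rw [hxr]; ring
    rw [e, abs_div, abs_of_pos (by norm_num : (0:ℝ) < 500)]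
    linarith
  have hμ3 : μ ^ 2 ≤ |μ| / 4000 := by rw [hμ2]; nlinarith
  have hd2 : |d| ≤ |μ| / 400 := by
    have h2 : |d| ≤ |d - μ / 500| + |μ / 500| := by
      have := abs_add_le (d - μ / 500) (μ / 500)
      simpa using this
    rw [abs_div, abs_of_pos (by norm_num : (0:ℝ) < 500)] at h2
    linarith
  have hx2 : 1 ≤ x ^ 2 := one_le_pow₀ hx
  have hμL : |μ| ≤ C / L := by
    rw [le_div_iff₀ hL0]
    have : |μ| * L ≤ |μ| * (x ^ 2 * L) := by
      apply mul_le_mul_of_nonneg_left _ hμ0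
      nlinarith
    linarith
  constructor
  · have e : (L * x ^ 3 - L * r ^ 3) - 3 * (μ * (x ^ 2 * L)) / 500 =
        L * (3 * x ^ 2 * (d - μ / 500) - 3 * x * d ^ 2 + d ^ 3) := by
      rw [hr]; ring
    rw [e, abs_mul, abs_of_pos hL0]
    have hA : |3 * x ^ 2 * (d - μ / 500)| ≤ 3 * x ^ 2 * (μ ^ 2 / 500) := by
      rw [abs_mul, abs_of_pos (by positivity)]
      exact mul_le_mul_of_nonneg_left hd1 (by positivity)
    have hdd : d ^ 2 ≤ μ ^ 2 / 160000 := by
      rw [← sq_abs d, hμ2]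
      have : (|μ| / 400) ^ 2 = |μ| ^ 2 / 160000 := by ring
      rw [← this]
      exact pow_le_pow_left₀ (abs_nonneg _) hd2 2
    have hxx : x ≤ x ^ 2 := by nlinarith
    have hB : |3 * x * d ^ 2| ≤ x ^ 2 * μ ^ 2 / 4 := by
      rw [abs_of_nonneg (by positivity)]
      have : 3 * x * d ^ 2 ≤ 3 * x ^ 2 * (μ ^ 2 / 160000) := by
        apply mul_le_mul (by linarith) hdd (by positivity) (by positivity)
      have h0 : 0 ≤ x ^ 2 * μ ^ 2 := by positivity
      have e : 3 * x ^ 2 * (μ ^ 2 / 160000) = 3 / 160000 * (x ^ 2 * μ ^ 2) := by ring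
      rw [e] at this
      linarith
    have hD : |d ^ 3| ≤ x ^ 2 * μ ^ 2 / 4 := by
      have e : d ^ 3 = d ^ 2 * d := by ring
      rw [e, abs_mul, abs_of_nonneg (by positivity : 0 ≤ d ^ 2)]
      have hd3 : |d| ≤ 1 := by linarith
      have h1 : d ^ 2 * |d| ≤ μ ^ 2 / 160000 * 1 :=
        mul_le_mul hdd hd3 (abs_nonneg _) (by positivity)
      have h2 : μ ^ 2 ≤ x ^ 2 * μ ^ 2 := by
        have : 0 ≤ μ ^ 2 := by positivity
        nlinarith
      have h0 : 0 ≤ x ^ 2 * μ ^ 2 := by positivity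
      linarith
    have htot : |3 * x ^ 2 * (d - μ / 500) - 3 * x * d ^ 2 + d ^ 3| ≤ x ^ 2 * μ ^ 2 := by
      have t1 := abs_add_le (3 * x ^ 2 * (d - μ / 500) - 3 * x * d ^ 2) (d ^ 3)
      have t2 := abs_sub (3 * x ^ 2 * (d - μ / 500)) (3 * x * d ^ 2)
      have e3 : 3 * x ^ 2 * (μ ^ 2 / 500) = 3 / 500 * (x ^ 2 * μ ^ 2) := by ring
      rw [e3] at hA
      have h0 : 0 ≤ x ^ 2 * μ ^ 2 := by positivity
      linarith
    calc L * |3 * x ^ 2 * (d - μ / 500) - 3 * x * d ^ 2 + d ^ 3|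
        ≤ L * (x ^ 2 * μ ^ 2) := mul_le_mul_of_nonneg_left htot hL0.le
      _ = (|μ| * (x ^ 2 * L)) * |μ| := by rw [hμ2]; ring
      _ ≤ C * (C / L) := mul_le_mul h1 hμL hμ0 hC.le
      _ = C ^ 2 / L := by ring
  · have : 0 ≤ C / L := by positivity
    linarith

/-- the trigonometric lower bound -/
theorem step5 {R c Φ D th e : ℝ} (hR0 : 0 ≤ R) (hR1 : R ≤ 1) (hcΦ : c = Real.cos Φ)
    (hth : 1248 * eta ≤ th) (hth' : th ≤ 1320 * eta) (hD : |D - th * (R * c)| ≤ e) :
    eta * (159 / 10 * R ^ 2) - e ≤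
      1 / 10 * (R * c) * Real.sin (D / 2) -
        16 * eta * R ^ 2 * Real.cos (2 * Φ) * Real.cos D := by
  have heta : eta = 1 / 10 ^ 6 := rfl
  have he0 : 0 ≤ e := (abs_nonneg _).trans hD
  have hc1 : |c| ≤ 1 := by rw [hcΦ]; exact Real.abs_cos_le_one Φ
  have hRc : |R * c| ≤ 1 := by
    rw [abs_mul, abs_of_nonneg hR0]
    nlinarith [abs_nonneg c]
  set w := R * c with hw
  have hth0 : 0 < th := by rw [heta] at hth; linarith
  have hthw : |th * w| ≤ 132 / 10 ^ 5 := by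
    rw [abs_mul, abs_of_pos hth0]
    rw [heta] at hth'
    nlinarith [abs_nonneg w]
  -- the sine term
  have hs : |Real.sin (D / 2) - Real.sin (th * w / 2)| ≤ e / 2 := by
    have := Real.lipschitzWith_sin.dist_le_mul (D / 2) (th * w / 2)
    rw [Real.dist_eq, Real.dist_eq] at this
    have e2 : D / 2 - th * w / 2 = (D - th * w) / 2 := by ring
    rw [e2, abs_div, abs_of_pos (by norm_num : (0:ℝ) < 2)] at this
    push_cast at this
    linarith
  have hsz := sin_near (z := th * w / 2) (by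
    rw [abs_div, abs_of_pos (by norm_num : (0:ℝ) < 2)]; linarith)
  have hco : |Real.cos D - Real.cos (th * w)| ≤ e := by
    have := Real.lipschitzWith_cos.dist_le_mul D (th * w)
    rw [Real.dist_eq, Real.dist_eq] at this
    push_cast at this
    linarith
  have hcz : 1 - (th * w) ^ 2 / 2 ≤ Real.cos (th * w) := Real.one_sub_sq_div_two_le_cos
  have hthw2 : (th * w) ^ 2 ≤ 2 / 10 ^ 6 := by
    rw [← sq_abs]
    calc |th * w| ^ 2 ≤ (132 / 10 ^ 5) ^ 2 := pow_le_pow_left₀ (abs_nonneg _) hthw 2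
      _ ≤ _ := by norm_num
  have hcosD : 1 - 1 / 10 ^ 6 - e ≤ Real.cos D := by
    have := (abs_le.mp hco).1
    linarith
  have hcosD1 : Real.cos D ≤ 1 := Real.cos_le_one D
  -- second term
  have hcc : Real.cos (2 * Φ) = 2 * c ^ 2 - 1 := by rw [hcΦ]; exact Real.cos_two_mul Φ
  have hR2 : 0 ≤ R ^ 2 := by positivity
  have hR21 : R ^ 2 ≤ 1 := pow_le_one₀ hR0 hR1
  have h2nd : R ^ 2 * Real.cos (2 * Φ) * Real.cos D ≤
      R ^ 2 * (2 * c ^ 2 - 1) + R ^ 2 / 10 ^ 6 + e := by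
    have e1 : R ^ 2 * Real.cos (2 * Φ) * Real.cos D =
      R ^ 2 * (2 * c ^ 2 - 1) + R ^ 2 * Real.cos (2 * Φ) * (Real.cos D - 1) := by
      rw [hcc]; ring
    rw [e1]
    have h3 : |R ^ 2 * Real.cos (2 * Φ) * (Real.cos D - 1)| ≤ R ^ 2 * (1 / 10 ^ 6 + e) := by
      rw [abs_mul, abs_mul, abs_of_nonneg hR2]
      have h4 : |Real.cos D - 1| ≤ 1 / 10 ^ 6 + e := by
        rw [abs_sub_comm, abs_of_nonneg (by linarith)]; linarith
      have h5 : R ^ 2 * |Real.cos (2 * Φ)| ≤ R ^ 2 := by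
        have := Real.abs_cos_le_one (2 * Φ)
        nlinarith
      exact mul_le_mul h5 h4 (abs_nonneg _) hR2
    have h6 := le_abs_self (R ^ 2 * Real.cos (2 * Φ) * (Real.cos D - 1))
    have h7 : R ^ 2 * (1 / 10 ^ 6 + e) ≤ R ^ 2 / 10 ^ 6 + e := by nlinarith
    linarith
  -- first term
  have h1st : th / 2 * w ^ 2 - w ^ 2 * th / 10 ^ 4 - e / 2 ≤ w * Real.sin (D / 2) := by
    have e1 : w * Real.sin (D / 2) = w * (th * w / 2) + w * (Real.sin (th * w / 2) - th * w / 2) +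
      w * (Real.sin (D / 2) - Real.sin (th * w / 2)) := by ring
    rw [e1]
    have h3 : |w * (Real.sin (th * w / 2) - th * w / 2)| ≤ w ^ 2 * th / 10 ^ 4 := by
      rw [abs_mul]
      have h4 : |w| * |Real.sin (th * w / 2) - th * w / 2| ≤ |w| * ((th * w / 2) ^ 2 / 1000) :=
        mul_le_mul_of_nonneg_left hsz (abs_nonneg _)
      have h5 : |w| * ((th * w / 2) ^ 2 / 1000) = w ^ 2 * th * |th * w| / 4000 := by
        have e6 : |th * w| = th * |w| := by rw [abs_mul th w, abs_of_pos hth0]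
        rw [e6]; ring
      have h6 : w ^ 2 * th * |th * w| ≤ w ^ 2 * th * (132 / 10 ^ 5) :=
        mul_le_mul_of_nonneg_left hthw (by positivity)
      have h7 : 0 ≤ w ^ 2 * th := by positivity
      linarith
    have h8 : |w * (Real.sin (D / 2) - Real.sin (th * w / 2))| ≤ e / 2 := by
      rw [abs_mul]
      have := mul_le_mul hRc hs (abs_nonneg _) zero_le_one
      linarith
    have h9 := (abs_le.mp h3).1
    have h10 := (abs_le.mp h8).1
    linarith
  have hw2 : w ^ 2 = R ^ 2 * c ^ 2 := by rw [hw]; ring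
  have hw20 : 0 ≤ w ^ 2 := by positivity
  have h11 : 1248 * eta * (4998 / 10000 * w ^ 2) ≤ th * (4998 / 10000 * w ^ 2) :=
    mul_le_mul_of_nonneg_right hth (by positivity)
  have h12 : th / 2 * w ^ 2 - w ^ 2 * th / 10 ^ 4 = th * (4999 / 10000 * w ^ 2) := by ring
  have h13 : th * (4998 / 10000 * w ^ 2) ≤ th * (4999 / 10000 * w ^ 2) := by
    apply mul_le_mul_of_nonneg_left _ hth0.le
    linarith
  have hc2 : c ^ 2 ≤ 1 := by
    rw [← sq_abs]; exact pow_le_one₀ (abs_nonneg _) hc1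
  have hgoal : 1 / 10 * (R * c) * Real.sin (D / 2) -
      16 * eta * R ^ 2 * Real.cos (2 * Φ) * Real.cos D =
      1 / 10 * (w * Real.sin (D / 2)) - 16 * eta * (R ^ 2 * Real.cos (2 * Φ) * Real.cos D) := by
    rw [hw]; ring
  have hgoal' : 1 / 10 * w * Real.sin (D / 2) -
      16 * eta * R ^ 2 * Real.cos (2 * Φ) * Real.cos D =
      1 / 10 * (w * Real.sin (D / 2)) - 16 * eta * (R ^ 2 * Real.cos (2 * Φ) * Real.cos D) := by
    ring
  rw [hgoal']
  rw [heta] at *
  have h14 : R ^ 2 * (2 * c ^ 2 - 1) = 2 * w ^ 2 - R ^ 2 := by rw [hw2]; ring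
  rw [h14] at h2nd
  linarith

/-- The heart: on the wiggly curve `T1 = 0` near the distinguished wall, `T2 > 0`. -/
theorem zoneC_core (M : ℝ) (hM : 0 < M) : ∃ Λ : ℝ, 1 ≤ Λ ∧ ∀ L : ℝ, Λ ≤ L →
    ∀ x r μ a b N F uv uu vv : ℝ,
    1 ≤ x → 1 ≤ r → x - r = (Real.exp μ - 1) / 500 → |μ| ≤ 1 / 4000 →
    0 ≤ a → a ≤ 4000 * x → a * |μ| ≤ 1 → 39 / 10 ≤ b → b ≤ 41 / 10 →
    -13 ≤ N → |N| ≤ 40 → (rho x < 1 → 1 ≤ N) →
    |F| ≤ M / (L ^ 2 * x ^ 5) →
    |uv + kap L * rho x / x ^ 2 * Real.cos ((L * x ^ 3 + L * r ^ 3) / 2) / 4| ≤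
      M / (L ^ 2 * x ^ 5) →
    |uu - Up x (L * x ^ 3)| ≤ M / L →
    |vv - Um r (L * r ^ 3)| ≤ M / L →
    eta * (2 * Real.sin μ * (a * Real.sin μ - b * Real.cos μ)) - 4 * uv - F = 0 →
    0 < eta * N + 2 * (uu - vv) := by
  obtain ⟨K, hK, hlip⟩ := rho_lip
  have heta : eta = 1 / 10 ^ 6 := rfl
  obtain ⟨C, hCdef⟩ : ∃ C : ℝ, C = 1 + 10 ^ 6 * M := ⟨_, rfl⟩
  have hC0 : 0 < C := by rw [hCdef]; positivity
  obtain ⟨C2, hC2def⟩ : ∃ C2 : ℝ, C2 = 5 * M + C ^ 2 / 100 := ⟨_, rfl⟩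
  have hC20 : 0 < C2 := by rw [hC2def]; positivity
  obtain ⟨C4, hC4def⟩ : ∃ C4 : ℝ, C4 = C ^ 2 + 770 * C2 := ⟨_, rfl⟩
  have hC40 : 0 < C4 := by rw [hC4def]; positivity
  have hpos : 0 < C4 + 2 * K * C + 4 * M := by positivity
  refine ⟨1 + 10 ^ 6 * (C4 + 2 * K * C + 4 * M), by linarith, ?_⟩
  intro L hΛ x r μ a b N F uv uu vv hx hr hxr hμ ha hax haμ hb hb' hN hN40 hρN hF huv huu hvv heq
  have hL : 1 ≤ L := by linarith
  have hL0 : 0 < L := by linarith
  obtain ⟨hR0, hR1⟩ := rho_mem x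
  obtain ⟨hr0, hr1⟩ := rho_mem r
  obtain ⟨s1, s2⟩ := step1 hM hL hx hμ ha hax haμ hb hb' hR0 hR1
    (Real.abs_cos_le_one ((L * x ^ 3 + L * r ^ 3) / 2)) hF huv heq
  rw [← hCdef] at s1 s2
  rw [← hC2def] at s2
  obtain ⟨s3, s4⟩ := step3 hL hx hμ hxr hC0 s1
  generalize hR : rho x = R at *
  generalize hR' : rho r = R' at *
  generalize hΦ : (L * x ^ 3 + L * r ^ 3) / 2 = Φ at *
  generalize hDd : L * x ^ 3 - L * r ^ 3 = D at *
  generalize hm : μ * (x ^ 2 * L) = m at *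
  have hb0 : 0 < b := by linarith
  -- D
  have hD : |D - (5120 * eta / b) * (R * Real.cos Φ)| ≤ C4 / L := by
    have e1 : D - (5120 * eta / b) * (R * Real.cos Φ) = (D - 3 * m / 500) +
        3 / (1000 * eta * b) *
          (2 * eta * b * m - 8 * eta * (1280 * eta) * 500 / 3 * R * Real.cos Φ) := by
      rw [heta]; field_simp; ring
    rw [e1]
    have h1 : |3 / (1000 * eta * b) *
          (2 * eta * b * m - 8 * eta * (1280 * eta) * 500 / 3 * R * Real.cos Φ)| ≤
        770 * (C2 / L) := by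
      rw [abs_mul]
      apply mul_le_mul _ s2 (abs_nonneg _) (by norm_num)
      rw [abs_of_pos (by rw [heta]; positivity), heta, div_le_iff₀ (by positivity)]
      linarith
    have h2 := abs_add_le (D - 3 * m / 500) (3 / (1000 * eta * b) *
          (2 * eta * b * m - 8 * eta * (1280 * eta) * 500 / 3 * R * Real.cos Φ))
    have h3 : C4 / L = C ^ 2 / L + 770 * (C2 / L) := by rw [hC4def]; ring
    rw [h3]
    linarith
  have hth : 1248 * eta ≤ 5120 * eta / b := by
    rw [le_div_iff₀ hb0, heta]; linarith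
  have hth' : 5120 * eta / b ≤ 1320 * eta := by
    rw [div_le_iff₀ hb0, heta]; linarith
  have h5 := step5 hR0 hR1 rfl hth hth' hD
  -- the main part
  have hSp : L * x ^ 3 = Φ + D / 2 := by rw [← hΦ, ← hDd]; ring
  have hSm : L * r ^ 3 = Φ - D / 2 := by rw [← hΦ, ← hDd]; ring
  have hUp : Up x (L * x ^ 3) = 1 / 40 * R * Real.sin (Φ + D / 2) -
      4 * eta * R ^ 2 * Real.cos (2 * Φ + D) := by
    unfold Up; rw [hR, hSp]
    have : 2 * (Φ + D / 2) = 2 * Φ + D := by ring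
    rw [this]
  have hUm : Um r (L * r ^ 3) = 1 / 40 * R' * Real.sin (Φ - D / 2) +
      4 * eta * R' ^ 2 * Real.cos (2 * Φ - D) := by
    unfold Um; rw [hR', hSm]
    have : 2 * (Φ - D / 2) = 2 * Φ - D := by ring
    rw [this]
  have hRR : |R - R'| ≤ K * (C / L) := by
    have h6 := hlip x r
    rw [hR, hR'] at h6
    exact h6.trans (mul_le_mul_of_nonneg_left s4 hK.le)
  have hUm' : |Um r (L * r ^ 3) - (1 / 40 * R * Real.sin (Φ - D / 2) +
      4 * eta * R ^ 2 * Real.cos (2 * Φ - D))| ≤ K * (C / L) := by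
    rw [hUm]
    have e1 : 1 / 40 * R' * Real.sin (Φ - D / 2) + 4 * eta * R' ^ 2 * Real.cos (2 * Φ - D) -
        (1 / 40 * R * Real.sin (Φ - D / 2) + 4 * eta * R ^ 2 * Real.cos (2 * Φ - D)) =
        (R' - R) * (1 / 40 * Real.sin (Φ - D / 2) +
          4 * eta * (R' + R) * Real.cos (2 * Φ - D)) := by ring
    rw [e1, abs_mul, abs_sub_comm R' R]
    have h7 : |1 / 40 * Real.sin (Φ - D / 2) + 4 * eta * (R' + R) * Real.cos (2 * Φ - D)| ≤ 1 := by
      have h8 := abs_add_le (1 / 40 * Real.sin (Φ - D / 2))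
        (4 * eta * (R' + R) * Real.cos (2 * Φ - D))
      have h9 : |1 / 40 * Real.sin (Φ - D / 2)| ≤ 1 / 40 := by
        rw [abs_mul, abs_of_pos (by norm_num : (0:ℝ) < 1 / 40)]
        linarith [Real.abs_sin_le_one (Φ - D / 2)]
      have h10 : |4 * eta * (R' + R) * Real.cos (2 * Φ - D)| ≤ 8 * eta := by
        rw [abs_mul]
        have h11 : |4 * eta * (R' + R)| ≤ 8 * eta := by
          rw [abs_of_nonneg (by rw [heta]; positivity), heta]
          linarith
        have h12 := Real.abs_cos_le_one (2 * Φ - D)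
        have := mul_le_mul h11 h12 (abs_nonneg _) (by rw [heta]; positivity)
        linarith
      rw [heta] at h10
      rw [heta] at h8 ⊢
      linarith
    calc |R - R'| * |1 / 40 * Real.sin (Φ - D / 2) + 4 * eta * (R' + R) * Real.cos (2 * Φ - D)|
        ≤ |R - R'| * 1 := mul_le_mul_of_nonneg_left h7 (abs_nonneg _)
      _ ≤ K * (C / L) := by linarith
  have hsum : 2 * (Up x (L * x ^ 3) - (1 / 40 * R * Real.sin (Φ - D / 2) +
      4 * eta * R ^ 2 * Real.cos (2 * Φ - D))) =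
      1 / 10 * (R * Real.cos Φ) * Real.sin (D / 2) -
        16 * eta * R ^ 2 * Real.cos (2 * Φ) * Real.cos D := by
    rw [hUp, Real.sin_add, Real.sin_sub, Real.cos_add, Real.cos_sub]
    ring
  have hN1 : 1 ≤ N + 159 / 10 * R ^ 2 := by
    rcases lt_or_ge R 1 with h | h
    · have := hρN h
      have h2 : 0 ≤ R ^ 2 := by positivity
      linarith
    · have : R = 1 := le_antisymm hR1 h
      rw [this]; linarith
  have u1 := (abs_le.mp huu).1
  have v1 := (abs_le.mp hvv).2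
  have w1 := (abs_le.mp hUm').2
  have hfin : C4 / L + 2 * (K * (C / L)) + 4 * (M / L) < eta := by
    have e1 : C4 / L + 2 * (K * (C / L)) + 4 * (M / L) = (C4 + 2 * K * C + 4 * M) / L := by ring
    rw [e1, div_lt_iff₀ hL0, heta]
    linarith
  have hNeta : eta * 1 ≤ eta * (N + 159 / 10 * R ^ 2) :=
    mul_le_mul_of_nonneg_left hN1 (by rw [heta]; norm_num)
  have e9 : eta * (N + 159 / 10 * R ^ 2) = eta * N + eta * (159 / 10 * R ^ 2) := by ring
  rw [e9] at hNeta
  linarith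

end Pool.Agent.TH496.MilZC
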