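import Pool.Agent.TH271.CV.Inst

set_option autoImplicit false
set_option linter.unusedSectionVars false
set_option linter.unusedVariables false

namespace Pool.Agent.TH496.FFx
open Pool.Agent.Helper156.OF Pool.Agent.TH271.CU Pool.Agent.TH271.CV

section
variable {G : Type} [Group G]

lemma conj_split {u u' A A' : G} (h1 : Commute u u') (h2 : Commute u A') (h3 : Commute u' A)
    (h4 : Commute A A') :
    (u⁻¹ * A * u) * (u'⁻¹ * A' * u') = (u * u')⁻¹ * (A * A') * (u * u') := by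
  have e1 : u * u'⁻¹ = u'⁻¹ * u := (h1.inv_right).eq
  have e2 : A * u'⁻¹ = u'⁻¹ * A := (h3.symm.inv_right).eq
  have e3 : u * A' = A' * u := h2.eq
  have e4 : u⁻¹ * u'⁻¹ = u'⁻¹ * u⁻¹ := (h1.inv_inv).eq
  calc (u⁻¹ * A * u) * (u'⁻¹ * A' * u') = u⁻¹ * A * (u * u'⁻¹) * A' * u' := by group
    _ = u⁻¹ * (A * u'⁻¹) * (u * A') * u' := by rw [e1]; group
    _ = (u⁻¹ * u'⁻¹) * A * A' * u * u' := by rw [e2, e3]; group
    _ = _ := by rw [e4]; group

lemma cm_split {X Y X' Y' : G} (h1 : Commute X Y) (h2 : Commute X' Y') (h3 : Commute Y X')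
    (h4 : Commute X Y') : cm (X * Y) (X' * Y') = cm X X' * cm Y Y' := by
  unfold cm
  rw [h1.mul_inv, h2.mul_inv, h3.mul_mul_mul_comm X Y',
    ((h1.symm.mul_left h4.symm).inv_right).mul_mul_mul_comm (X * X') Y⁻¹,
    (((h3.mul_left h2.symm).mul_left h3.inv_left).inv_right).mul_mul_mul_comm (X * X' * X⁻¹) Y'⁻¹]

lemma cm_comm {X Y g : G} (h1 : Commute g X) (h2 : Commute g Y) : Commute g (cm X Y) := by
  unfold cm
  exact ((h1.mul_right h2).mul_right h1.inv_right).mul_right h2.inv_right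

lemma cm_conj (g X Y : G) : g * cm X Y * g⁻¹ = cm (g * X * g⁻¹) (g * Y * g⁻¹) := by
  unfold cm; group

end

section

variable {α P : Type} [DecidableEq α] [Fintype α] [Group P]
variable {W : SP α →* P} {E : Lt α → Lt α → P}
variable (R : Rel W E) (cb : ∀ x a : Lt α, E x a * E x a * E x a = 1)
  (hn : 5 ≤ Fintype.card α)

include R cb hn

lemma ffe_p (p a b c q : Lt α) (h1 : p.1 ≠ a.1) (h2 : p.1 ≠ b.1) (h3 : p.1 ≠ c.1)
    (h4 : a.1 ≠ b.1) (h5 : a.1 ≠ c.1) (h6 : b.1 ≠ c.1) (h7 : q.1 ≠ a.1) (h8 : q.1 ≠ b.1)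
    (h9 : q.1 ≠ c.1) (h10 : q.1 ≠ p.1) : Commute (FF E p a b c) (E q p) := by
  have hqp : q ≠ p := fun h => h10 (by rw [h])
  have hqn : q ≠ nv p := fun h => h10 (by rw [h]; rfl)
  -- commutation of the letters of `q` and of `p`
  have e : ∀ z z' : Lt α, p.1 ≠ z.1 → q.1 ≠ z'.1 → Commute (E q z) (E p z') := fun z z' k1 k2 =>
    R.e2 q p z z' hqp k2 k1
  have e' : ∀ z z' : Lt α, p.1 ≠ z.1 → q.1 ≠ z'.1 → Commute (E q z) (E (nv p) z') :=
    fun z z' k1 k2 => R.e2 q (nv p) z z' hqn k2 k1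
  set g := E q p with hg
  have c4a : ∀ z : Lt α, p.1 ≠ z.1 → q.1 ≠ z.1 → g⁻¹ * E p z * (g⁻¹)⁻¹ = E q z * E p z := by
    intro z k1 k2
    rw [inv_inv]
    exact c4 R (x := q) (y := p) (z := z) h10 k2 k1
  have c4b : ∀ z : Lt α, p.1 ≠ z.1 → q.1 ≠ z.1 → g * E (nv p) z * g⁻¹ = E q z * E (nv p) z := by
    intro z k1 k2
    have := c4 R (x := q) (y := nv p) (z := z) h10 k2 k1
    rwa [R.e1, inv_inv] at this
  have mm1 : MM E q b c = cm (E q b) (E q c) := rfl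
  have ka : g⁻¹ * TT E p a b c * (g⁻¹)⁻¹ = TT E q a b c * TT E p a b c := by
    unfold TT
    rw [cm_conj, c4a a h1 h7]
    have k1 : g⁻¹ * MM E p b c * (g⁻¹)⁻¹ = MM E q b c * MM E p b c := by
      show g⁻¹ * cm (E p b) (E p c) * (g⁻¹)⁻¹ = cm (E q b) (E q c) * cm (E p b) (E p c)
      rw [cm_conj, c4a b h2 h8, c4a c h3 h9]
      exact cm_split (e b b h2 h8) (e c c h3 h9) (e c b h3 h8).symm (e b c h2 h9)
    rw [k1]
    exact cm_split (e a a h1 h7) (cm_comm (cm_comm (e b b h2 h8).symm (e c b h3 h8).symm).symm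
      (cm_comm (e b c h2 h9).symm (e c c h3 h9).symm).symm)
      (cm_comm (e b a h2 h7).symm (e c a h3 h7).symm) (cm_comm (e a b h1 h8) (e a c h1 h9))
  have kb : g * TT E (nv p) a b c * g⁻¹ = TT E q a b c * TT E (nv p) a b c := by
    unfold TT
    rw [cm_conj, c4b a h1 h7]
    have k1 : g * MM E (nv p) b c * g⁻¹ = MM E q b c * MM E (nv p) b c := by
      show g * cm (E (nv p) b) (E (nv p) c) * g⁻¹ =
        cm (E q b) (E q c) * cm (E (nv p) b) (E (nv p) c)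
      rw [cm_conj, c4b b h2 h8, c4b c h3 h9]
      exact cm_split (e' b b h2 h8) (e' c c h3 h9) (e' c b h3 h8).symm (e' b c h2 h9)
    rw [k1]
    exact cm_split (e' a a h1 h7) (cm_comm (cm_comm (e' b b h2 h8).symm (e' c b h3 h8).symm).symm
      (cm_comm (e' b c h2 h9).symm (e' c c h3 h9).symm).symm)
      (cm_comm (e' b a h2 h7).symm (e' c a h3 h7).symm) (cm_comm (e' a b h1 h8) (e' a c h1 h9))
  have kc : Commute (TT E q a b c) g := TT_E R cb hn q a b c p h7 h8 h9 h4 h5 h6 h10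
  have kd : Commute (TT E q a b c) (TT E p a b c) := by
    unfold TT
    have x1 : ∀ z : Lt α, p.1 ≠ z.1 → q.1 ≠ z.1 → Commute (E p z) (cm (E q a) (MM E q b c)) := by
      intro z k1 k2
      refine cm_comm (e a z h1 k2).symm ?_
      exact cm_comm (e b z h2 k2).symm (e c z h3 k2).symm
    refine cm_comm (x1 a h1 h7).symm ?_
    exact cm_comm (x1 b h2 h8).symm (x1 c h3 h9).symm
  rw [FF_eq R p a b c h1 h2 h3]
  set T := TT E q a b c with hT
  set A := TT E p a b c with hA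
  set B := TT E (nv p) a b c with hB
  rw [inv_inv] at ka
  have kA : g * A * g⁻¹ = T⁻¹ * A := by
    have : A = g * (T * A) * g⁻¹ := by rw [← ka]; group
    calc g * A * g⁻¹ = T⁻¹ * (T * (g * A * g⁻¹)) := by group
      _ = T⁻¹ * ((T * g) * A * g⁻¹) := by group
      _ = T⁻¹ * ((g * T) * A * g⁻¹) := by rw [kc.eq]
      _ = T⁻¹ * (g * (T * A) * g⁻¹) := by group
      _ = T⁻¹ * A := by rw [← this]
  have kF : g * (A * B) * g⁻¹ = A * B := by
    calc g * (A * B) * g⁻¹ = (g * A * g⁻¹) * (g * B * g⁻¹) := by group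
      _ = (T⁻¹ * A) * (T * B) := by rw [kA, kb]
      _ = T⁻¹ * (A * T) * B := by group
      _ = T⁻¹ * (T * A) * B := by rw [kd.eq]
      _ = A * B := by group
  show A * B * g = g * (A * B)
  calc A * B * g = (g * (A * B) * g⁻¹) * g := by rw [kF]
    _ = _ := by group

lemma FF_E (p a b c q w : Lt α) (h1 : p.1 ≠ a.1)
    (h2 : p.1 ≠ b.1) (h3 : p.1 ≠ c.1) (h4 : a.1 ≠ b.1)
    (h5 : a.1 ≠ c.1) (h6 : b.1 ≠ c.1) (h7 : q.1 ≠ a.1)
    (h8 : q.1 ≠ b.1) (h9 : q.1 ≠ c.1) (h10 : q.1 ≠ w.1) :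
    Commute (FF E p a b c) (E q w) := by
  by_cases hqp : q.1 = p.1
  · rw [FF_eq R p a b c h1 h2 h3]
    rcases fst_eq_iff.1 hqp with rfl | rfl
    · refine (TT_E R cb hn q a b c w h7 h8 h9 h4 h5 h6 h10).mul_left ?_
      have := TT_nvE R cb hn (nv q) a b c w h7 h8 h9 h10
      rwa [nv_nv] at this
    · exact (TT_nvE R cb hn p a b c w h1 h2 h3 h10).mul_left
        (TT_E R cb hn (nv p) a b c w h1 h2 h3 h4 h5 h6 h10)
  by_cases hwp : w.1 = p.1
  · rcases fst_eq_iff.1 hwp with rfl | rfl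
    · exact ffe_p R cb hn w a b c q h1 h2 h3 h4 h5 h6 h7 h8 h9 h10
    · rw [R.e1]
      exact (ffe_p R cb hn p a b c q h1 h2 h3 h4 h5 h6 h7 h8 h9 hqp).inv_right
  · have kk : ∀ z : Lt α, q.1 ≠ z.1 → p.1 ≠ z.1 → Commute (E q w) (KK E p z) := by
      intro z k1 k2
      have hpw : p.1 ≠ w.1 := fun h => hwp h.symm
      unfold KK
      refine (R.e2 p q z w (fun h => hqp (by rw [h])) hpw k1).symm.mul_right
        (R.e2 (nv p) q z w (fun h => hqp (by rw [← h]; rfl)) hpw k1).symm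
    unfold FF DD
    exact (cm_comm (kk a h7 h1) (cm_comm (kk b h8 h2) (kk c h9 h3))).symm

omit cb hn in
lemma W_FF (σ : SP α) (p a b c : Lt α) : W σ * FF E p a b c * (W σ)⁻¹ =
    FF E ((σ : Equiv.Perm (Lt α)) p) ((σ : Equiv.Perm (Lt α)) a) ((σ : Equiv.Perm (Lt α)) b)
      ((σ : Equiv.Perm (Lt α)) c) := by
  unfold FF DD
  rw [cm_conj, cm_conj, W_KK R, W_KK R, W_KK R]

omit cb hn in
lemma FF_nvl (p a b c : Lt α) : FF E (nv p) a b c = FF E p a b c := by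
  unfold FF DD
  rw [KK_nv R, KK_nv R, KK_nv R]

lemma FF_indep (p q a b c : Lt α) (h0 : p.1 ≠ q.1) (h1 : p.1 ≠ a.1)
    (h2 : p.1 ≠ b.1) (h3 : p.1 ≠ c.1) (h4 : a.1 ≠ b.1)
    (h5 : a.1 ≠ c.1) (h6 : b.1 ≠ c.1) (h7 : q.1 ≠ a.1)
    (h8 : q.1 ≠ b.1) (h9 : q.1 ≠ c.1) :
    FF E p a b c = FF E q a b c := by
  have e := R.e4 p q (sg p q) h0 sg_left (sg_right h0) (fun c k1 k2 => sg_other k1 k2)
  have x1 := FF_E R cb hn p a b c (nv p) q h1 h2 h3 h4 h5 h6 h1 h2 h3 h0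
  have x2 := FF_E R cb hn p a b c q p h1 h2 h3 h4 h5 h6 h7 h8 h9 (Ne.symm h0)
  have x3 := FF_E R cb hn p a b c p q h1 h2 h3 h4 h5 h6 h1 h2 h3 h0
  have eW : W (sg p q) = E (nv p) q * E q p * (E p q)⁻¹ := by rw [e]; group
  have xW : Commute (FF E p a b c) (W (sg p q)) := by
    rw [eW]
    exact (x1.mul_right x2).mul_right x3.inv_right
  have k := W_FF R (sg p q) p a b c
  rw [sg_left, sg_other (Ne.symm h1) (Ne.symm h7), sg_other (Ne.symm h2) (Ne.symm h8),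
    sg_other (Ne.symm h3) (Ne.symm h9), FF_nvl R] at k
  rw [← k, ← xW.eq]
  group

/-- the first letter against a partial conjugation of it -/
lemma FF_KK_first (p a b c j : Lt α) (h1 : p.1 ≠ a.1) (h2 : p.1 ≠ b.1) (h3 : p.1 ≠ c.1)
    (h4 : a.1 ≠ b.1) (h5 : a.1 ≠ c.1) (h6 : b.1 ≠ c.1) (haj : a.1 ≠ j.1) (hpj : p.1 ≠ j.1) :
    Commute (FF E p a b c) (KK E a j) := by
  have k1 := KK_E R (x := p) (y := a) (z := j) h1 hpj haj
  have k2 := KK_E R (x := nv p) (y := a) (z := j) h1 hpj haj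
  have k3 := conj_split (u := E p j) (u' := E (nv p) j) (A := E p a) (A' := E (nv p) a)
    (cs R j _ _) (RL R hpj h1) (RL' R hpj h1) (cs R a _ _)
  have kA : KK E a j * KK E p a * (KK E a j)⁻¹ = (KK E p j)⁻¹ * KK E p a * KK E p j := by
    calc KK E a j * KK E p a * (KK E a j)⁻¹
        = (KK E a j * E p a * (KK E a j)⁻¹) * (KK E a j * E (nv p) a * (KK E a j)⁻¹) := by
          show KK E a j * (E p a * E (nv p) a) * (KK E a j)⁻¹ = _
          group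
      _ = _ := by rw [k1, k2, k3]; rfl
  have kb : ∀ z : Lt α, a.1 ≠ z.1 → Commute (KK E a j) (KK E p z) := by
    intro z hz
    show Commute (KK E a j) (E p z * E (nv p) z)
    exact (KK_E_comm R h1 hpj hz).mul_right (KK_E_comm R (x := nv p) h1 hpj hz)
  have kD : KK E a j * DD E p b c * (KK E a j)⁻¹ = DD E p b c := by
    have : Commute (KK E a j) (DD E p b c) := cm_comm (kb b h4) (kb c h5)
    rw [this.eq]; group
  set k := KK E p j with hk
  set A := KK E p a with hA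
  set D := DD E p b c with hD
  set K := KK E a j with hK
  have hfk : Commute (FF E p a b c) k := FF_self R cb hn p a b c j h1 h2 h3 h4 h5 h6 hpj
  -- conjugate of `D` by `k`
  have hconj : cm A (k * D * k⁻¹) = FF E p a b c := by
    by_cases hjb : j.1 = b.1
    · have hc : Commute D k := by
        rcases fst_eq_iff.1 hjb with rfl | rfl
        · exact DD_left R cb hn p j c h2 h3 h6
        · rw [hk, KK_nv' R]
          exact (DD_left R cb hn p b c h2 h3 h6).inv_right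
      have : k * D * k⁻¹ = D := by rw [← hc.eq]; group
      rw [this]; rfl
    by_cases hjc : j.1 = c.1
    · have hc : Commute D k := by
        rcases fst_eq_iff.1 hjc with rfl | rfl
        · exact DD_right R cb hn p b j h2 h3 h6
        · rw [hk, KK_nv' R]
          exact (DD_right R cb hn p b c h2 h3 h6).inv_right
      have : k * D * k⁻¹ = D := by rw [← hc.eq]; group
      rw [this]; rfl
    · set f' := FF E p j b c with hf'
      have e1 : k * D * k⁻¹ = f' * D := by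
        show k * D * k⁻¹ = (k * D * k⁻¹ * D⁻¹) * D
        group
      have f'K : ∀ w : Lt α, p.1 ≠ w.1 → Commute f' (KK E p w) := fun w hw =>
        FF_self R cb hn p j b c w hpj h2 h3 hjb hjc h6 hw
      have f'D : Commute f' D := cm_comm (f'K b h2) (f'K c h3)
      have f'A : Commute f' A := f'K a h1
      rw [e1]
      show A * (f' * D) * A⁻¹ * (f' * D)⁻¹ = A * D * A⁻¹ * D⁻¹
      have hh : f' * (A * D * A⁻¹ * D⁻¹) = (A * D * A⁻¹ * D⁻¹) * f' := (cm_comm f'A f'D).eq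
      calc A * (f' * D) * A⁻¹ * (f' * D)⁻¹ = (A * f') * D * A⁻¹ * (f' * D)⁻¹ := by group
        _ = (f' * A) * D * A⁻¹ * (f' * D)⁻¹ := by rw [f'A.eq]
        _ = (f' * (A * D * A⁻¹ * D⁻¹)) * f'⁻¹ := by group
        _ = ((A * D * A⁻¹ * D⁻¹) * f') * f'⁻¹ := by rw [hh]
        _ = A * D * A⁻¹ * D⁻¹ := by group
  have kF : K * FF E p a b c * K⁻¹ = FF E p a b c := by
    calc K * FF E p a b c * K⁻¹ = cm (K * A * K⁻¹) (K * D * K⁻¹) := cm_conj K A D
      _ = cm (k⁻¹ * A * k) D := by rw [kA, kD]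
      _ = k⁻¹ * cm A (k * D * k⁻¹) * k := by unfold cm; group
      _ = k⁻¹ * (FF E p a b c * k) := by rw [hconj]; group
      _ = k⁻¹ * (k * FF E p a b c) := by rw [hfk.eq]
      _ = FF E p a b c := by group
  show FF E p a b c * K = K * FF E p a b c
  calc FF E p a b c * K = (K * FF E p a b c * K⁻¹) * K := by rw [kF]
    _ = _ := by group

omit R cb in
lemma exists_out (a b c j : α) : ∃ q : α, q ≠ a ∧ q ≠ b ∧ q ≠ c ∧ q ≠ j := by
  by_contra h
  push Not at h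
  have hs : (Finset.univ : Finset α) ⊆ {a, b, c, j} := by
    intro q _
    simp only [Finset.mem_insert, Finset.mem_singleton]
    by_cases k1 : q = a
    · exact Or.inl k1
    by_cases k2 : q = b
    · exact Or.inr (Or.inl k2)
    by_cases k3 : q = c
    · exact Or.inr (Or.inr (Or.inl k3))
    · exact Or.inr (Or.inr (Or.inr (h q k1 k2 k3)))
  have h1 := Finset.card_le_card hs
  have h2 : ({a, b, c, j} : Finset α).card ≤ 4 := Finset.card_le_four
  rw [Finset.card_univ] at h1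
  omega

/-- the first letter, without condition on `p` and `j` -/
lemma FF_KK_first' (p a b c j : Lt α) (h1 : p.1 ≠ a.1) (h2 : p.1 ≠ b.1) (h3 : p.1 ≠ c.1)
    (h4 : a.1 ≠ b.1) (h5 : a.1 ≠ c.1) (h6 : b.1 ≠ c.1) (haj : a.1 ≠ j.1) :
    Commute (FF E p a b c) (KK E a j) := by
  by_cases hpj : p.1 = j.1
  · obtain ⟨q, q1, q2, q3, q4⟩ := exists_out hn a.1 b.1 c.1 j.1
    rw [FF_indep R cb hn p ((q, true) : Lt α) a b c (fun h => q4 (by rw [← hpj]; exact h.symm)) h1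
      h2 h3 h4 h5 h6 q1 q2 q3]
    exact FF_KK_first R cb hn ((q, true) : Lt α) a b c j q1 q2 q3 h4 h5 h6 haj q4
  · exact FF_KK_first R cb hn p a b c j h1 h2 h3 h4 h5 h6 haj hpj

omit cb hn in
lemma KK_of_fst {i a : Lt α} (h : i.1 = a.1) (j : Lt α) : KK E i j = KK E a j := by
  rcases fst_eq_iff.1 h with rfl | rfl
  · rfl
  · exact KK_nv R a j

lemma FF_KK (p a b c i j : Lt α) (h1 : p.1 ≠ a.1)
    (h2 : p.1 ≠ b.1) (h3 : p.1 ≠ c.1) (h4 : a.1 ≠ b.1)
    (h5 : a.1 ≠ c.1) (h6 : b.1 ≠ c.1) (hij : i.1 ≠ j.1) :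
    Commute (FF E p a b c) (KK E i j) := by
  by_cases hia : i.1 = a.1
  · rw [KK_of_fst R hia]
    exact FF_KK_first' R cb hn p a b c j h1 h2 h3 h4 h5 h6 (by rw [← hia]; exact hij)
  by_cases hib : i.1 = b.1
  · rw [KK_of_fst R hib]
    have k := FF_KK_first' R cb hn p b a c j h2 h1 h3 (Ne.symm h4) h6 h5
      (by rw [← hib]; exact hij)
    rw [FF_swap12 R cb hn p a b c h1 h2 h3 h4 h5 h6] at k
    exact inv_inv (FF E p a b c) ▸ k.inv_left
  by_cases hic : i.1 = c.1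
  · rw [KK_of_fst R hic]
    have k := FF_KK_first' R cb hn p c a b j h3 h1 h2 (Ne.symm h5) (Ne.symm h6) h4
      (by rw [← hic]; exact hij)
    rw [FF_swap12 R cb hn p a c b h1 h3 h2 h5 h4 (Ne.symm h6),
      FF_swap23 R cb hn p a b c h1 h2 h3 h4 h5 h6, inv_inv] at k
    exact k
  · unfold KK
    exact (FF_E R cb hn p a b c i j h1 h2 h3 h4 h5 h6 hia hib hic hij).mul_right
      (FF_E R cb hn p a b c (nv i) j h1 h2 h3 h4 h5 h6 hia hib hic hij)

lemma FF_conj (p a b c w : Lt α) (h1 : p.1 ≠ a.1)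
    (h2 : p.1 ≠ b.1) (h3 : p.1 ≠ c.1) (h4 : a.1 ≠ b.1)
    (h5 : a.1 ≠ c.1) (h6 : b.1 ≠ c.1) (h7 : w.1 ≠ a.1)
    (h8 : w.1 ≠ b.1) (h9 : w.1 ≠ c.1) (h10 : p.1 ≠ w.1) :
    E a w * FF E p a b c * (E a w)⁻¹ = FF E p a b c * FF E p w b c := by
  have kA := E_KK R (y := p) (z := a) (w := w) h1 h10 (Ne.symm h7)
  have kb : ∀ z : Lt α, a.1 ≠ z.1 → Commute (E a w) (KK E p z) := fun z hz =>
    (KK_E_comm R (y := p) (z := z) (x := a) (w := w) (Ne.symm h1) hz h10).symm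
  have kD : E a w * DD E p b c * (E a w)⁻¹ = DD E p b c := by
    have : Commute (E a w) (DD E p b c) := cm_comm (kb b h4) (kb c h5)
    rw [this.eq]; group
  have fK : ∀ z : Lt α, p.1 ≠ z.1 → Commute (FF E p w b c) (KK E p z) := fun z hz =>
    FF_self R cb hn p w b c z h10 h2 h3 h8 h9 h6 hz
  have fA := fK a h1
  have ff : Commute (FF E p w b c) (FF E p a b c) :=
    cm_comm fA (cm_comm (fK b h2) (fK c h3))
  have e0 : E a w * FF E p a b c * (E a w)⁻¹ = cm (KK E p a * KK E p w) (DD E p b c) := by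
    rw [← kA]
    calc E a w * FF E p a b c * (E a w)⁻¹
        = cm (E a w * KK E p a * (E a w)⁻¹) (E a w * DD E p b c * (E a w)⁻¹) := cm_conj _ _ _
      _ = _ := by rw [kD]
  have e1 : cm (KK E p a * KK E p w) (DD E p b c) =
      KK E p a * FF E p w b c * (KK E p a)⁻¹ * FF E p a b c := by
    unfold FF cm; group
  rw [e0, e1, ← fA.eq, ← ff.eq]
  group

/-- conjugation by `E a b` and `E a c` -/
lemma FF_conj_in (p a b c w : Lt α) (h1 : p.1 ≠ a.1)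
    (h2 : p.1 ≠ b.1) (h3 : p.1 ≠ c.1) (h4 : a.1 ≠ b.1)
    (h5 : a.1 ≠ c.1) (h6 : b.1 ≠ c.1) (h7 : w.1 = b.1 ∨ w.1 = c.1) :
    E a w * FF E p a b c * (E a w)⁻¹ = FF E p a b c := by
  have haw : a.1 ≠ w.1 := by rcases h7 with h | h <;> rw [h] <;> assumption
  have hpw : p.1 ≠ w.1 := by rcases h7 with h | h <;> rw [h] <;> assumption
  have kA := E_KK R (y := p) (z := a) (w := w) h1 hpw haw
  have kb : ∀ z : Lt α, a.1 ≠ z.1 → Commute (E a w) (KK E p z) := fun z hz =>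
    (KK_E_comm R (y := p) (z := z) (x := a) (w := w) (Ne.symm h1) hz hpw).symm
  have kD : E a w * DD E p b c * (E a w)⁻¹ = DD E p b c := by
    have : Commute (E a w) (DD E p b c) := cm_comm (kb b h4) (kb c h5)
    rw [this.eq]; group
  have wD : Commute (DD E p b c) (KK E p w) := by
    rcases h7 with h | h
    · rcases fst_eq_iff.1 h with rfl | rfl
      · exact DD_left R cb hn p w c h2 h3 h6
      · rw [KK_nv' R]
        exact (DD_left R cb hn p b c h2 h3 h6).inv_right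
    · rcases fst_eq_iff.1 h with rfl | rfl
      · exact DD_right R cb hn p b w h2 h3 h6
      · rw [KK_nv' R]
        exact (DD_right R cb hn p b c h2 h3 h6).inv_right
  have e0 : E a w * FF E p a b c * (E a w)⁻¹ = cm (KK E p a * KK E p w) (DD E p b c) := by
    rw [← kA]
    calc E a w * FF E p a b c * (E a w)⁻¹
        = cm (E a w * KK E p a * (E a w)⁻¹) (E a w * DD E p b c * (E a w)⁻¹) := cm_conj _ _ _
      _ = _ := by rw [kD]
  have e1 : cm (KK E p a * KK E p w) (DD E p b c) =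
      KK E p a * (KK E p w * DD E p b c) * (KK E p w)⁻¹ * (DD E p b c)⁻¹ * (KK E p a)⁻¹ *
        FF E p a b c := by
    unfold FF cm; group
  rw [e0, e1, ← wD.eq]
  group

/-- the subgroup generated by the `FF` -/
def NF {α P : Type} [Group P] (E : Lt α → Lt α → P) : Subgroup P :=
  Subgroup.closure {q | ∃ p a b c : Lt α, p.1 ≠ a.1 ∧ p.1 ≠ b.1 ∧ p.1 ≠ c.1 ∧ a.1 ≠ b.1 ∧
    a.1 ≠ c.1 ∧ b.1 ≠ c.1 ∧ q = FF E p a b c}

omit R cb hn in
lemma NF_mem (p a b c : Lt α) (h1 : p.1 ≠ a.1) (h2 : p.1 ≠ b.1) (h3 : p.1 ≠ c.1)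
    (h4 : a.1 ≠ b.1) (h5 : a.1 ≠ c.1) (h6 : b.1 ≠ c.1) : FF E p a b c ∈ NF E :=
  Subgroup.subset_closure ⟨p, a, b, c, h1, h2, h3, h4, h5, h6, rfl⟩

omit R cb hn in
lemma NF_comm {x : P} (h : ∀ p a b c : Lt α, p.1 ≠ a.1 → p.1 ≠ b.1 → p.1 ≠ c.1 → a.1 ≠ b.1 →
    a.1 ≠ c.1 → b.1 ≠ c.1 → Commute (FF E p a b c) x) {q : P} (hq : q ∈ NF E) : Commute q x := by
  unfold NF at hq
  induction hq using Subgroup.closure_induction with
  | mem y hy =>
    obtain ⟨p, a, b, c, k1, k2, k3, k4, k5, k6, rfl⟩ := hy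
    exact h p a b c k1 k2 k3 k4 k5 k6
  | one => exact Commute.one_left x
  | mul y z _ _ hy hz => exact hy.mul_left hz
  | inv y _ hy => exact hy.inv_left

lemma NF_conj_first (p a b c w : Lt α) (h1 : p.1 ≠ a.1) (h2 : p.1 ≠ b.1) (h3 : p.1 ≠ c.1)
    (h4 : a.1 ≠ b.1) (h5 : a.1 ≠ c.1) (h6 : b.1 ≠ c.1) (haw : a.1 ≠ w.1) :
    E a w * FF E p a b c * (E a w)⁻¹ ∈ NF E := by
  by_cases h7 : w.1 = b.1 ∨ w.1 = c.1
  · rw [FF_conj_in R cb hn p a b c w h1 h2 h3 h4 h5 h6 h7]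
    exact NF_mem p a b c h1 h2 h3 h4 h5 h6
  push Not at h7
  obtain ⟨q, q1, q2, q3, q4⟩ := exists_out hn a.1 b.1 c.1 w.1
  have e : FF E p a b c = FF E ((q, true) : Lt α) a b c := by
    by_cases hpq : p.1 = q
    · subst hpq
      rcases fst_eq_iff.1 (show ((p.1, true) : Lt α).1 = p.1 from rfl) with e | e
      · rw [e]
      · rw [e, FF_nvl R]
    · exact FF_indep R cb hn p ((q, true) : Lt α) a b c hpq h1 h2 h3 h4 h5 h6 q1 q2 q3
  rw [e, FF_conj R cb hn ((q, true) : Lt α) a b c w q1 q2 q3 h4 h5 h6 (Ne.symm haw) h7.1 h7.2 q4]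
  exact mul_mem (NF_mem _ a b c q1 q2 q3 h4 h5 h6)
    (NF_mem _ w b c q4 q2 q3 h7.1 h7.2 h6)

lemma NF_conj_a (p a b c i w : Lt α) (h1 : p.1 ≠ a.1) (h2 : p.1 ≠ b.1) (h3 : p.1 ≠ c.1)
    (h4 : a.1 ≠ b.1) (h5 : a.1 ≠ c.1) (h6 : b.1 ≠ c.1) (hia : i.1 = a.1) (hiw : i.1 ≠ w.1) :
    E i w * FF E p a b c * (E i w)⁻¹ ∈ NF E := by
  rcases fst_eq_iff.1 hia with rfl | rfl
  · exact NF_conj_first R cb hn p i b c w h1 h2 h3 h4 h5 h6 hiw
  · have k := NF_conj_first R cb hn p (nv a) b c w h1 h2 h3 h4 h5 h6 hiw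
    rw [FF_inv1 R cb hn p a b c h1 h2 h3 h4 h5 h6] at k
    have k' := inv_mem k
    have e : (E (nv a) w * (FF E p a b c)⁻¹ * (E (nv a) w)⁻¹)⁻¹ =
        E (nv a) w * FF E p a b c * (E (nv a) w)⁻¹ := by group
    rwa [e] at k'

lemma NF_conj (p a b c i w : Lt α) (h1 : p.1 ≠ a.1) (h2 : p.1 ≠ b.1) (h3 : p.1 ≠ c.1)
    (h4 : a.1 ≠ b.1) (h5 : a.1 ≠ c.1) (h6 : b.1 ≠ c.1) (hiw : i.1 ≠ w.1) :
    E i w * FF E p a b c * (E i w)⁻¹ ∈ NF E := by
  by_cases hia : i.1 = a.1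
  · exact NF_conj_a R cb hn p a b c i w h1 h2 h3 h4 h5 h6 hia hiw
  by_cases hib : i.1 = b.1
  · have k := NF_conj_a R cb hn p b a c i w h2 h1 h3 (Ne.symm h4) h6 h5 hib hiw
    rw [FF_swap12 R cb hn p a b c h1 h2 h3 h4 h5 h6] at k
    have k' := inv_mem k
    have e : (E i w * (FF E p a b c)⁻¹ * (E i w)⁻¹)⁻¹ =
        E i w * FF E p a b c * (E i w)⁻¹ := by group
    rwa [e] at k'
  by_cases hic : i.1 = c.1
  · have k := NF_conj_a R cb hn p c a b i w h3 h1 h2 (Ne.symm h5) (Ne.symm h6) h4 hic hiw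
    rw [FF_swap12 R cb hn p a c b h1 h3 h2 h5 h4 (Ne.symm h6),
      FF_swap23 R cb hn p a b c h1 h2 h3 h4 h5 h6, inv_inv] at k
    exact k
  · have k := FF_E R cb hn p a b c i w h1 h2 h3 h4 h5 h6 hia hib hic hiw
    rw [← k.eq]
    have e : FF E p a b c * E i w * (E i w)⁻¹ = FF E p a b c := by group
    rw [e]
    exact NF_mem p a b c h1 h2 h3 h4 h5 h6

lemma FF_MM (p a b c i j k : Lt α) (h1 : p.1 ≠ a.1)
    (h2 : p.1 ≠ b.1) (h3 : p.1 ≠ c.1) (h4 : a.1 ≠ b.1)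
    (h5 : a.1 ≠ c.1) (h6 : b.1 ≠ c.1) (hij : i.1 ≠ j.1)
    (hik : i.1 ≠ k.1) (hjk : j.1 ≠ k.1) :
    Commute (FF E p a b c) (MM E i j k) := by
  have e : MM E i j k = (E i j * KK E i k * (E i j)⁻¹) * (KK E i k)⁻¹ := by
    rw [E_KK_same R hij hik]; group
  have k1 := NF_conj R cb hn p a b c i (nv j) h1 h2 h3 h4 h5 h6 hij
  rw [R.e1, inv_inv] at k1
  have k2 : Commute ((E i j)⁻¹ * FF E p a b c * E i j) (KK E i k) :=
    NF_comm (fun p a b c l1 l2 l3 l4 l5 l6 => FF_KK R cb hn p a b c i k l1 l2 l3 l4 l5 l6 hik) k1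
  have k3 : Commute (FF E p a b c) (E i j * KK E i k * (E i j)⁻¹) := by
    set f := FF E p a b c with hf
    set g := E i j with hg
    set K := KK E i k with hK
    show f * (g * K * g⁻¹) = g * K * g⁻¹ * f
    calc f * (g * K * g⁻¹) = g * ((g⁻¹ * f * g) * K) * g⁻¹ := by group
      _ = g * (K * (g⁻¹ * f * g)) * g⁻¹ := by rw [k2.eq]
      _ = _ := by group
  rw [e]
  exact k3.mul_right (FF_KK R cb hn p a b c i k h1 h2 h3 h4 h5 h6 hik).inv_right

lemma FF_TT (p a b c i j k l : Lt α) (h1 : p.1 ≠ a.1)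
    (h2 : p.1 ≠ b.1) (h3 : p.1 ≠ c.1) (h4 : a.1 ≠ b.1)
    (h5 : a.1 ≠ c.1) (h6 : b.1 ≠ c.1) (hij : i.1 ≠ j.1)
    (hik : i.1 ≠ k.1) (hil : i.1 ≠ l.1) (hjk : j.1 ≠ k.1)
    (hjl : j.1 ≠ l.1) (hkl : k.1 ≠ l.1) :
    Commute (FF E p a b c) (TT E i j k l) := by
  have k1 := NF_conj R cb hn p a b c i (nv j) h1 h2 h3 h4 h5 h6 hij
  rw [R.e1, inv_inv] at k1
  have k2 : Commute ((E i j)⁻¹ * FF E p a b c * E i j) (MM E i k l) :=
    NF_comm (fun p a b c l1 l2 l3 l4 l5 l6 =>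
      FF_MM R cb hn p a b c i k l l1 l2 l3 l4 l5 l6 hik hil hkl) k1
  have k4 := FF_MM R cb hn p a b c i k l h1 h2 h3 h4 h5 h6 hik hil hkl
  set f := FF E p a b c with hf
  set M := MM E i k l with hM
  set g := E i j with hg
  have k3 : Commute f (g * M * g⁻¹) := by
    show f * (g * M * g⁻¹) = g * M * g⁻¹ * f
    calc f * (g * M * g⁻¹) = g * ((g⁻¹ * f * g) * M) * g⁻¹ := by group
      _ = g * (M * (g⁻¹ * f * g)) * g⁻¹ := by rw [k2.eq]
      _ = _ := by group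
  show Commute f (g * M * g⁻¹ * M⁻¹)
  exact k3.mul_right k4.inv_right

end

end Pool.Agent.TH496.FFx
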