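import Mathlib

set_option autoImplicit false

/-! Job 2365: a finite sum identity modulo `p`. -/

namespace Pool.Agent.TH317.CC

open Finset

namespace H496B

variable {R : Type*} [CommRing R]

lemma per_shift (p : ℕ) (h : ℤ → R) (hp : ∀ n, h (n + p) = h n) :
    ∑ c ∈ range p, h ((c : ℤ) + 1) = ∑ c ∈ range p, h (c : ℤ) := by
  have h1 := Finset.sum_range_succ (fun c : ℕ => h (c : ℤ)) p
  have h2 := Finset.sum_range_succ' (fun c : ℕ => h (c : ℤ)) p
  have h3 : h ((p : ℕ) : ℤ) = h 0 := by simpa using hp 0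
  rw [h1] at h2
  push_cast at h2
  rw [h3] at h2
  exact (add_right_cancel h2).symm

lemma per_neg (p : ℕ) (h : ℤ → R) (hp : ∀ n, h (n + p) = h n) :
    ∑ c ∈ range p, h (-(c : ℤ)) = ∑ c ∈ range p, h (c : ℤ) := by
  rw [← per_shift p h hp, ← Finset.sum_range_reflect (fun c : ℕ => h ((c : ℤ) + 1))]
  refine Finset.sum_congr rfl fun c hc => ?_
  have hc' : c < p := Finset.mem_range.1 hc
  rw [← hp (-(c : ℤ))]
  congr 1
  have : ((p - 1 - c : ℕ) : ℤ) = (p : ℤ) - 1 - c := by omega
  rw [this]; ring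

lemma blocks (p m : ℕ) (g : ℕ → R) :
    ∑ j ∈ range (p * m), g j = ∑ t ∈ range p, ∑ y ∈ range m, g (y + t * m) := by
  induction p with
  | zero => simp
  | succ p ih =>
    rw [Nat.succ_mul, Finset.sum_range_add, ih, Finset.sum_range_succ]
    congr 1
    exact Finset.sum_congr rfl fun y _ => by rw [add_comm]

lemma tri (n : ℕ) (F : ℤ → R) :
    ∑ t ∈ range n, ∑ s ∈ range t, F ((t : ℤ) - s) =
      ∑ c ∈ range n, ((n : R) - c) * F c - n * F 0 := by
  induction n with
  | zero => simp
  | succ n ih =>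
    rw [Finset.sum_range_succ, ih]
    have h1 : ∑ s ∈ range n, F ((n : ℤ) - s) = ∑ c ∈ range n, F ((c : ℤ) + 1) := by
      rw [← Finset.sum_range_reflect (fun c : ℕ => F ((c : ℤ) + 1))]
      refine Finset.sum_congr rfl fun c hc => ?_
      have hc' : c < n := Finset.mem_range.1 hc
      congr 1
      omega
    have h2 : ∑ c ∈ range n, F ((c : ℤ) + 1) + F 0 = ∑ c ∈ range n, F c + F n := by
      have e1 := Finset.sum_range_succ (fun c : ℕ => F (c : ℤ)) n
      have e2 := Finset.sum_range_succ' (fun c : ℕ => F (c : ℤ)) n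
      rw [e1] at e2
      push_cast at e2
      exact e2.symm
    have h3 : ∑ c ∈ range (n + 1), (((n + 1 : ℕ) : R) - c) * F c =
        ∑ c ∈ range n, ((n : R) - c) * F c + ∑ c ∈ range n, F c + F n := by
      rw [Finset.sum_range_succ, ← Finset.sum_add_distrib]
      congr 1
      · exact Finset.sum_congr rfl fun c _ => by push_cast; ring
      · push_cast; ring
    rw [h1, h3]
    push_cast
    linear_combination h2

lemma symm_split (m : ℕ) (g : ℕ → ℕ → R) :
    ∑ x ∈ range m, ∑ y ∈ range m, g x y =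
      ∑ y ∈ range m, ∑ x ∈ range y, (g x y + g y x) + ∑ x ∈ range m, g x x := by
  induction m with
  | zero => simp
  | succ m ih =>
    rw [Finset.sum_range_succ, Finset.sum_range_succ (fun x => g x x),
      Finset.sum_range_succ (fun y => ∑ x ∈ range y, (g x y + g y x)),
      Finset.sum_range_succ (fun y => g m y)]
    have h1 : ∑ x ∈ range m, ∑ y ∈ range (m + 1), g x y =
        ∑ x ∈ range m, ∑ y ∈ range m, g x y + ∑ x ∈ range m, g x m := by
      rw [← Finset.sum_add_distrib]
      exact Finset.sum_congr rfl fun x _ => Finset.sum_range_succ _ _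
    rw [h1, ih, Finset.sum_add_distrib (f := fun x => g x m)]
    ring

lemma telescope (k : ℕ) (G : ℤ → ℤ → R) :
    ∑ y ∈ range (k + 1), ∑ x ∈ range y, (G x y - G ((x : ℤ) - 1) ((y : ℤ) - 1)) =
      ∑ x ∈ range k, (G x k - G (-1) x) := by
  induction k with
  | zero => simp
  | succ k ih =>
    rw [Finset.sum_range_succ, ih, Finset.sum_range_succ' (fun x : ℕ =>
      (G x ((k + 1 : ℕ) : ℤ) - G ((x : ℤ) - 1) (((k + 1 : ℕ) : ℤ) - 1))),
      Finset.sum_sub_distrib, Finset.sum_sub_distrib, Finset.sum_sub_distrib,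
      Finset.sum_range_succ' (fun x : ℕ => G x ((k + 1 : ℕ) : ℤ)),
      Finset.sum_range_succ (fun x : ℕ => G (-1) x)]
    push_cast
    simp only [add_sub_cancel_right]
    ring

end H496B

open H496B in
theorem sumB {R : Type*} [CommRing R] (p : ℕ) [Fact p.Prime] [CharP R p] (m : ℕ) (hm : 0 < m)
    (f c e : ℤ → ℤ → R)
    (f1 : ∀ i j, f (i + p * m) j = f i j) (f2 : ∀ i j, f i (j + p * m) = f i j)
    (f3 : ∀ i j, f (i + m) (j + m) = f i j) (f4 : ∀ i j, f j i = - f i j) (f5 : ∀ i, f i i = 0)
    (f6 : ∀ i, f i (i + m) = f i (i + m))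
    (c1 : ∀ i j, c (i + m) j = c i j) (c2 : ∀ i j, c i (j + m) = c i j) (c3 : ∀ i, c i i = 0)
    (c4 : ∀ i j, c i j + c j i = e i j - e (i - 1) (j - 1))
    (e1 : ∀ i j, e (i + m) j = e i j) (e2 : ∀ i j, e i (j + m) = e i j)
    (e3 : ∀ i j, e i j = e j i) (e4 : ∀ i j, e i j * f i j = e i j * f (i + 1) (j + 1))
    (e5 : ∀ k : ℤ, ∑ c ∈ range p, f k (k + c * m) = 0) :
    ∑ j ∈ range (p * m), ∑ i ∈ range j, c i j * f i j
      + ∑ j ∈ range (p * m - 1), e (-1) j * f 0 (j + 1) = 0 := by
  have hp0 : (p : R) = 0 := CharP.cast_eq_zero R p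
  -- iterated periodicity
  have c1' : ∀ (s : ℕ) (i j : ℤ), c (i + s * m) j = c i j := by
    intro s i j
    induction s with
    | zero => simp
    | succ s ih =>
      rw [← ih, ← c1 (i + s * m) j]; congr 1; push_cast; ring
  have c2' : ∀ (s : ℕ) (i j : ℤ), c i (j + s * m) = c i j := by
    intro s i j
    induction s with
    | zero => simp
    | succ s ih =>
      rw [← ih, ← c2 i (j + s * m)]; congr 1; push_cast; ring
  have e2' : ∀ (s : ℕ) (i j : ℤ), e i (j + s * m) = e i j := by
    intro s i j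
    induction s with
    | zero => simp
    | succ s ih =>
      rw [← ih, ← e2 i (j + s * m)]; congr 1; push_cast; ring
  have f3' : ∀ (s : ℕ) (i j : ℤ), f (i + s * m) (j + s * m) = f i j := by
    intro s i j
    induction s with
    | zero => simp
    | succ s ih =>
      rw [← ih, ← f3 (i + s * m) (j + s * m)]
      congr 1
      · push_cast; ring
      · push_cast; ring
  -- the function of the shift
  have hF : ∀ x y : ℤ, ∀ n : ℤ, f x (y + (n + p) * m) = f x (y + n * m) := by
    intro x y n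
    rw [show y + (n + p) * m = (y + n * m) + p * m by ring, f2]
  have hcast : ∀ n : ℤ, ((n + p : ℤ) : R) = (n : R) := by
    intro n; push_cast; rw [hp0, add_zero]
  obtain ⟨G0, hG0⟩ : ∃ G0 : ℤ → ℤ → R, ∀ x y, G0 x y =
    ∑ c ∈ range p, ((c : ℕ) : R) * f x (y + c * m) := ⟨_, fun _ _ => rfl⟩
  have hsym : ∀ x y, G0 y x = G0 x y := by
    intro x y
    have h1 := per_neg p (fun n : ℤ => (n : R) * f x (y + n * m)) (fun n => by
      simp only [hF, hcast])
    simp only [Int.cast_neg, Int.cast_natCast] at h1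
    rw [hG0, hG0, ← h1]
    refine Finset.sum_congr rfl fun c _ => ?_
    rw [f4 (x + c * m) y]
    have h2 : f (x + c * m) y = f x (y + -(c : ℤ) * m) := by
      rw [← f3' c x (y + -(c : ℤ) * m)]; congr 1; ring
    rw [h2]; ring
  -- first sum
  have hA : ∑ j ∈ range (p * m), ∑ i ∈ range j, c i j * f i j =
      - ∑ x ∈ range m, ∑ y ∈ range m, c x y * G0 x y := by
    have h1 : ∑ j ∈ range (p * m), ∑ i ∈ range j, c i j * f i j =
        ∑ j ∈ range (p * m), ∑ i ∈ range (p * m), if i < j then c i j * f i j else 0 := by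
      refine Finset.sum_congr rfl fun j hj => ?_
      have hj' : j < p * m := Finset.mem_range.1 hj
      rw [← Finset.sum_filter]
      refine Finset.sum_congr ?_ fun _ _ => rfl
      ext i
      simp only [Finset.mem_range, Finset.mem_filter]
      omega
    rw [h1, blocks]
    have h2 : ∀ t ∈ range p, ∀ y ∈ range m,
        (∑ i ∈ range (p * m), if i < y + t * m then
          c i ((y + t * m : ℕ) : ℤ) * f i ((y + t * m : ℕ) : ℤ) else 0) =
        ∑ x ∈ range m, c x y * ((∑ s ∈ range t, f x (y + ((t : ℤ) - s) * m)) +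
          if x < y then f x y else 0) := by
      intro t ht y hy
      have ht' : t < p := Finset.mem_range.1 ht
      have hy' : y < m := Finset.mem_range.1 hy
      rw [blocks, Finset.sum_comm]
      refine Finset.sum_congr rfl fun x hx => ?_
      have hx' : x < m := Finset.mem_range.1 hx
      have h3 : ∀ s ∈ range p, (if x + s * m < y + t * m then
          c ((x + s * m : ℕ) : ℤ) ((y + t * m : ℕ) : ℤ) *
            f ((x + s * m : ℕ) : ℤ) ((y + t * m : ℕ) : ℤ) else 0) =
          c x y * ((if s < t then f x (y + ((t : ℤ) - s) * m) else 0) +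
            if s = t then (if x < y then f x y else 0) else 0) := by
        intro s _
        push_cast
        rw [c1', c2']
        have h4 : f ((x : ℤ) + s * m) (y + t * m) = f x (y + ((t : ℤ) - s) * m) := by
          rw [← f3' s x (y + ((t : ℤ) - s) * m)]; congr 1; ring
        rw [h4]
        rcases lt_trichotomy s t with hst | hst | hst
        · have h5 : x + s * m < y + t * m := by
            have : (s + 1) * m ≤ t * m := Nat.mul_le_mul_right m hst
            rw [Nat.succ_mul] at this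
            omega
          rw [if_pos h5, if_pos hst, if_neg hst.ne, add_zero]
        · subst hst
          rw [if_neg (lt_irrefl s), if_pos rfl, zero_add]
          by_cases hxy : x < y
          · rw [if_pos (by omega), if_pos hxy]
            congr 2
            ring
          · rw [if_neg (by omega), if_neg hxy, mul_zero]
        · have h5 : ¬ x + s * m < y + t * m := by
            have : (t + 1) * m ≤ s * m := Nat.mul_le_mul_right m hst
            rw [Nat.succ_mul] at this
            omega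
          rw [if_neg h5, if_neg (not_lt.2 hst.le), if_neg hst.ne', add_zero, mul_zero]
      rw [Finset.sum_congr rfl h3, ← Finset.mul_sum, Finset.sum_add_distrib]
      congr 2
      · rw [← Finset.sum_filter]
        refine Finset.sum_congr ?_ fun _ _ => rfl
        ext s
        simp only [Finset.mem_range, Finset.mem_filter]
        omega
      · rw [Finset.sum_ite_eq' (range p) t (fun _ => if x < y then f x y else 0), if_pos ht]
    rw [Finset.sum_congr rfl fun t ht => Finset.sum_congr rfl fun y hy => h2 t ht y hy]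
    have h6 : ∑ t ∈ range p, ∑ y ∈ range m, ∑ x ∈ range m,
        c x y * ((∑ s ∈ range t, f x (y + ((t : ℤ) - s) * m)) + if x < y then f x y else 0) =
        ∑ x ∈ range m, ∑ y ∈ range m, c x y * ((∑ t ∈ range p, ∑ s ∈ range t,
          f x (y + ((t : ℤ) - s) * m)) + p * if x < y then f x y else 0) := by
      rw [Finset.sum_comm]
      rw [Finset.sum_congr rfl fun y _ => Finset.sum_comm]
      rw [Finset.sum_comm]
      refine Finset.sum_congr rfl fun x _ => Finset.sum_congr rfl fun y _ => ?_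
      rw [← Finset.mul_sum, Finset.sum_add_distrib, Finset.sum_const, Finset.card_range,
        nsmul_eq_mul]
    rw [h6, ← Finset.sum_neg_distrib]
    refine Finset.sum_congr rfl fun x _ => ?_
    rw [← Finset.sum_neg_distrib]
    refine Finset.sum_congr rfl fun y _ => ?_
    rw [tri p (fun n : ℤ => f x (y + n * m)), hp0, hG0]
    simp only [zero_sub, zero_mul, add_zero, sub_zero, neg_mul, Finset.sum_neg_distrib, mul_neg]
  -- symmetrisation
  obtain ⟨G, hG⟩ : ∃ G : ℤ → ℤ → R, ∀ x y, G x y = e x y * G0 x y := ⟨_, fun _ _ => rfl⟩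
  have hshift : ∀ x y : ℤ, e (x - 1) (y - 1) * G0 x y = G (x - 1) (y - 1) := by
    intro x y
    rw [hG, hG0, hG0, Finset.mul_sum, Finset.mul_sum]
    refine Finset.sum_congr rfl fun c _ => ?_
    have h1 := e4 (x - 1) (y - 1 + c * m)
    rw [e2' c, sub_add_cancel, show y - 1 + (c : ℤ) * m + 1 = y + c * m by ring] at h1
    linear_combination (-(c : R)) * h1
  obtain ⟨k, rfl⟩ : ∃ k, m = k + 1 := ⟨m - 1, by omega⟩
  have hS : ∑ x ∈ range (k + 1), ∑ y ∈ range (k + 1), c x y * G0 x y =
      ∑ x ∈ range k, (G x k - G (-1) x) := by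
    rw [symm_split, ← telescope]
    have h1 : ∑ x ∈ range (k + 1), c x x * G0 x x = 0 :=
      Finset.sum_eq_zero fun x _ => by rw [c3, zero_mul]
    rw [h1, add_zero]
    refine Finset.sum_congr rfl fun y _ => Finset.sum_congr rfl fun x _ => ?_
    rw [← hshift, hG, hsym x y]
    linear_combination (G0 x y) * c4 x y
  -- the boundary
  have hbd : ∀ x : ℕ, G x k - G (-1) x =
      e k x * ∑ t ∈ range p, f k (x + t * ((k + 1 : ℕ) : ℤ)) := by
    intro x
    have h1 : G x k = e k x * G0 k x := by rw [hG, e3, hsym]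
    have h2 : e (-1) x = e k x := by
      rw [← e1 (-1) x]; congr 1; push_cast; ring
    have h3 : G0 (-1) x = G0 k x - ∑ t ∈ range p, f k (x + t * ((k + 1 : ℕ) : ℤ)) := by
      have h4 := per_shift p (fun n : ℤ => ((n : R) - 1) * f k (x + n * ((k + 1 : ℕ) : ℤ)))
        (fun n => by simp only [hF, hcast])
      rw [hG0, hG0, ← Finset.sum_sub_distrib]
      have h5 : ∀ t ∈ range p, ((t : ℕ) : R) * f k (x + t * ((k + 1 : ℕ) : ℤ)) -
          f k (x + t * ((k + 1 : ℕ) : ℤ)) =
          (((t : ℤ) : R) - 1) * f k (x + (t : ℤ) * ((k + 1 : ℕ) : ℤ)) := by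
        intro t _
        push_cast; ring
      rw [Finset.sum_congr rfl h5, ← h4]
      refine Finset.sum_congr rfl fun t _ => ?_
      rw [← f3 (-1) (x + t * ((k + 1 : ℕ) : ℤ))]
      have h6 : (-1 : ℤ) + ((k + 1 : ℕ) : ℤ) = k := by push_cast; ring
      rw [h6, show (x : ℤ) + t * ((k + 1 : ℕ) : ℤ) + ((k + 1 : ℕ) : ℤ) =
        x + ((t : ℤ) + 1) * ((k + 1 : ℕ) : ℤ) by ring]
      push_cast; ring
    rw [h1, hG, h2, h3]; ring
  -- the second sum
  have hsec : ∑ j ∈ range (p * (k + 1) - 1), e (-1) j * f 0 (j + 1) =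
      ∑ x ∈ range k, e k x * ∑ t ∈ range p, f k (x + t * ((k + 1 : ℕ) : ℤ)) := by
    have hp1 : 0 < p := (Fact.out : p.Prime).pos
    have hpm : 0 < p * (k + 1) := by positivity
    obtain ⟨q, hq⟩ : ∃ q, p * (k + 1) = q + 1 := ⟨p * (k + 1) - 1, by omega⟩
    have h1 : ∑ j ∈ range (p * (k + 1) - 1), e (-1) j * f 0 (j + 1) =
        ∑ j ∈ range (p * (k + 1)), e (-1) j * f 0 (j + 1) := by
      rw [hq, Nat.add_sub_cancel, Finset.sum_range_succ]
      have h2 : f 0 ((q : ℤ) + 1) = 0 := by
        have h3 : ((q : ℤ) + 1) = 0 + (p : ℤ) * ((k + 1 : ℕ) : ℤ) := by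
          rw [zero_add]
          exact_mod_cast hq.symm
        rw [h3, f2, f5]
      rw [h2, mul_zero, add_zero]
    rw [h1, blocks, Finset.sum_comm, Finset.sum_range_succ]
    have h7 : ∀ y : ℕ, ∑ t ∈ range p, e (-1) ((y + t * (k + 1) : ℕ) : ℤ) *
        f 0 (((y + t * (k + 1) : ℕ) : ℤ) + 1) =
        e k y * ∑ t ∈ range p, f k (y + t * ((k + 1 : ℕ) : ℤ)) := by
      intro y
      have h8 := per_shift p (fun n : ℤ => f k (y + n * ((k + 1 : ℕ) : ℤ)))
        (fun n => by simp only [hF])
      rw [← h8, Finset.mul_sum]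
      refine Finset.sum_congr rfl fun t _ => ?_
      have h9 : ((y + t * (k + 1) : ℕ) : ℤ) = (y : ℤ) + t * ((k + 1 : ℕ) : ℤ) := by push_cast; ring
      rw [h9]
      have h10 := e4 (-1) ((y : ℤ) + t * ((k + 1 : ℕ) : ℤ))
      rw [show (-1 : ℤ) + 1 = 0 by ring] at h10
      rw [← h10, e2', ← f3 (-1) _]
      have h6 : (-1 : ℤ) + ((k + 1 : ℕ) : ℤ) = k := by push_cast; ring
      have h2 : e (-1) y = e k y := by
        rw [← e1 (-1) y, h6]
      rw [h6, h2]
      congr 2
      ring
    rw [Finset.sum_congr rfl fun y _ => h7 y, h7 k, e5 k, mul_zero, add_zero]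
  rw [hA, hS, hsec, Finset.sum_congr rfl fun x _ => hbd x]
  ring

end Pool.Agent.TH317.CC
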