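import Pool.Agent.TH387.EI.Defs
import Pool.Agent.W658.States

/-!
# Irreducible representations of non-unital C*-algebras
(job EI-1 of helper387)
-/

set_option autoImplicit false

open scoped ComplexOrder InnerProductSpace
open UniformSpace Completion

noncomputable section

namespace Pool.Agent.TH496.EIirr

open Pool.Agent.W658.Irrep

universe u

variable {C : Type u} [CStarAlgebra C]

/-- the states which have the maximal value at `star Y * Y` -/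
def StY (Y : C) : Set (C → ℂ) :=
  {f | (∀ a b, f (a + b) = f a + f b) ∧ (∀ (c : ℂ) a, f (c • a) = c * f a) ∧
    (∀ a, 0 ≤ f (star a * a)) ∧ f 1 = 1 ∧ (∀ a, ‖f a‖ ≤ ‖a‖) ∧ ‖Y‖ ^ 2 ≤ (f (star Y * Y)).re}

lemma StY_nonempty [Nontrivial C] (Y : C) : (StY Y).Nonempty := by
  let _ := CStarAlgebra.spectralOrder C
  have _ := CStarAlgebra.spectralOrderedRing C
  set c : C := star Y * Y with hcd
  have hc : 0 ≤ c := star_mul_self_nonneg Y
  obtain ⟨l, hl, hl1⟩ := exists_dual_vector'' ℂ (1 + c)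
  have hn : 1 + ‖c‖ ≤ ‖1 + c‖ := by
    have h1 : ‖c‖ ∈ spectrum ℝ c := CStarAlgebra.norm_mem_spectrum_of_nonneg hc
    have h2 : 1 + ‖c‖ ∈ spectrum ℝ (1 + c) := by
      have := (spectrum.add_mem_add_iff (R := ℝ) (a := c) (r := ‖c‖) (s := 1)).mpr h1
      rw [map_one] at this
      rw [add_comm 1 ‖c‖]
      exact this
    have h3 := spectrum.norm_le_norm_of_mem h2
    rw [Real.norm_eq_abs] at h3
    exact (le_abs_self _).trans h3
  have hlx : ∀ x, ‖l x‖ ≤ ‖x‖ := fun x => by simpa using l.le_of_opNorm_le hl x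
  have a1 : ‖l 1‖ ≤ 1 := by simpa using hlx 1
  have a2 : ‖l c‖ ≤ ‖c‖ := hlx c
  have a3 : l 1 + l c = (‖1 + c‖ : ℂ) := by rw [← map_add, hl1]; rfl
  have a4 : (l 1).re + (l c).re = ‖1 + c‖ := by
    have := congrArg Complex.re a3
    simpa using this
  have a5 := Complex.re_le_norm (l 1)
  have a6 := Complex.re_le_norm (l c)
  have b1 : (l 1).re = 1 := by linarith
  have b2 : (l c).re = ‖c‖ := by linarith
  have c1 : l 1 = 1 := by
    have h1 : ‖l 1‖ = 1 := by linarith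
    have h2 : ‖l 1‖ ^ 2 = (l 1).re ^ 2 + (l 1).im ^ 2 := by
      rw [← Complex.normSq_eq_norm_sq, Complex.normSq_apply]; ring
    rw [h1, b1] at h2
    have h3 : (l 1).im = 0 := by
      have : (l 1).im ^ 2 = 0 := by linarith
      exact pow_eq_zero_iff (two_ne_zero) |>.mp this
    apply Complex.ext <;> simp [b1, h3]
  have hl2 : ‖l‖ = 1 := by
    apply le_antisymm hl
    have := l.le_opNorm 1
    rw [c1, norm_one, CStarRing.norm_one, mul_one] at this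
    exact this
  refine ⟨l, fun a b => map_add l a b, fun c a => by rw [map_smul, smul_eq_mul],
    fun a => pos_of_norm l hl2 c1 a, c1, hlx, ?_⟩
  rw [← hcd, b2, hcd, CStarRing.norm_star_mul_self, pow_two]

lemma StY_compact (Y : C) : IsCompact (StY Y) := by
  have h1 : IsCompact (Set.pi Set.univ (fun a : C => Metric.closedBall (0 : ℂ) ‖a‖)) :=
    isCompact_univ_pi fun a => isCompact_closedBall _ _
  refine h1.of_isClosed_subset ?_ ?_
  · have h : StY Y = {f : C → ℂ | ∀ a b, f (a + b) = f a + f b} ∩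
        {f : C → ℂ | ∀ (c : ℂ) a, f (c • a) = c * f a} ∩
        {f : C → ℂ | ∀ a, 0 ≤ f (star a * a)} ∩
        {f : C → ℂ | f 1 = 1} ∩ {f : C → ℂ | ∀ a, ‖f a‖ ≤ ‖a‖} ∩
        {f : C → ℂ | ‖Y‖ ^ 2 ≤ (f (star Y * Y)).re} := by
      ext f
      constructor
      · rintro ⟨h1, h2, h3, h4, h5, h6⟩
        exact ⟨⟨⟨⟨⟨h1, h2⟩, h3⟩, h4⟩, h5⟩, h6⟩
      · rintro ⟨⟨⟨⟨⟨h1, h2⟩, h3⟩, h4⟩, h5⟩, h6⟩
        exact ⟨h1, h2, h3, h4, h5, h6⟩
    rw [h]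
    have hev : ∀ a : C, Continuous (fun f : C → ℂ => f a) := fun a => continuous_apply a
    refine IsClosed.inter (IsClosed.inter (IsClosed.inter (IsClosed.inter
      (IsClosed.inter ?_ ?_) ?_) ?_) ?_) ?_
    · simp only [Set.ofPred_forall]
      exact isClosed_iInter fun a => isClosed_iInter fun b =>
        isClosed_eq (hev _) ((hev a).add (hev b))
    · simp only [Set.ofPred_forall]
      exact isClosed_iInter fun c => isClosed_iInter fun a =>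
        isClosed_eq (hev _) (continuous_const.mul (hev a))
    · simp only [Set.ofPred_forall]
      exact isClosed_iInter fun a => isClosed_Ici.preimage (hev (star a * a))
    · exact isClosed_eq (hev _) continuous_const
    · simp only [Set.ofPred_forall]
      exact isClosed_iInter fun a => isClosed_le (hev a).norm continuous_const
    · exact isClosed_le continuous_const (Complex.continuous_re.comp (hev _))
  · intro f hf a _
    rw [mem_closedBall_zero_iff]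
    exact hf.2.2.2.2.1 a

/-- positive operators are symmetric -/
lemma symm_of_pos {K : Type u} [NormedAddCommGroup K] [InnerProductSpace ℂ K] [CompleteSpace K]
    (S : K →L[ℂ] K) (hS0 : ∀ x, 0 ≤ ⟪S x, x⟫_ℂ) (x y : K) : ⟪S x, y⟫_ℂ = ⟪x, S y⟫_ℂ := by
  have h1 : (S : K →ₗ[ℂ] K).IsSymmetric := by
    rw [LinearMap.isSymmetric_iff_inner_map_self_real]
    intro v
    have := (Complex.le_def.1 (hS0 v)).2
    exact Complex.conj_eq_iff_im.2 this.symm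
  exact h1 x y

/-- a positive operator with value zero at `ξ` -/
lemma zero_of_pos {K : Type u} [NormedAddCommGroup K] [InnerProductSpace ℂ K] [CompleteSpace K]
    (S : K →L[ℂ] K) (hS0 : ∀ x, 0 ≤ ⟪S x, x⟫_ℂ) (ξ : K) (hz : ⟪S ξ, ξ⟫_ℂ = 0) : S ξ = 0 := by
  have hSsa := symm_of_pos S hS0
  by_contra hne
  have hq : ∀ r : ℝ, 0 ≤ (⟪S (S ξ), S ξ⟫_ℂ).re * (r * r) + (-(2 * ‖S ξ‖ ^ 2)) * r + 0 := by
    intro r
    have h1 := (Complex.le_def.1 (hS0 (ξ - (r : ℂ) • S ξ))).1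
    have h2 : ⟪S (ξ - (r : ℂ) • S ξ), ξ - (r : ℂ) • S ξ⟫_ℂ =
        ⟪S ξ, ξ⟫_ℂ - (r : ℂ) * ⟪S ξ, S ξ⟫_ℂ - (r : ℂ) * ⟪S ξ, S ξ⟫_ℂ +
          (r : ℂ) * r * ⟪S (S ξ), S ξ⟫_ℂ := by
      rw [map_sub, map_smul, inner_sub_left, inner_sub_right, inner_sub_right,
        inner_smul_left, inner_smul_right, inner_smul_left, inner_smul_right,
        Complex.conj_ofReal, hSsa (S ξ) ξ]
      ring
    rw [h2, hz, inner_self_eq_norm_sq_to_K] at h1
    have h3 : (0 - (r : ℂ) * ((‖S ξ‖ : ℂ)) ^ 2 - (r : ℂ) * ((‖S ξ‖ : ℂ)) ^ 2 +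
        (r : ℂ) * r * ⟪S (S ξ), S ξ⟫_ℂ).re =
        (⟪S (S ξ), S ξ⟫_ℂ).re * (r * r) + (-(2 * ‖S ξ‖ ^ 2)) * r + 0 := by
      have e1 : ((r : ℂ) * r * ⟪S (S ξ), S ξ⟫_ℂ).re = r * r * (⟪S (S ξ), S ξ⟫_ℂ).re := by
        rw [← Complex.ofReal_mul, Complex.re_ofReal_mul]
      have e2 : ((r : ℂ) * ((‖S ξ‖ : ℂ)) ^ 2).re = r * ‖S ξ‖ ^ 2 := by
        rw [Complex.re_ofReal_mul, ← Complex.ofReal_pow, Complex.ofReal_re]
      rw [Complex.add_re, Complex.sub_re, Complex.sub_re, e1, e2, Complex.zero_re]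
      ring
    rw [← h3]
    exact h1
  have h4 := discrim_le_zero hq
  unfold discrim at h4
  have h5 : 0 < ‖S ξ‖ ^ 2 := by positivity
  nlinarith

section abs

variable {K : Type u} [NormedAddCommGroup K] [InnerProductSpace ℂ K] [CompleteSpace K]
  (ρ : C →⋆ₙₐ[ℂ] (K →L[ℂ] K)) (ξ : K)

lemma key1 (S : K →L[ℂ] K) (hS : ∀ a x, S (ρ a x) = ρ a (S x))
    (hS0 : ∀ x, 0 ≤ ⟪S x, x⟫_ℂ) (a : C) : 0 ≤ ⟪S ξ, ρ (star a * a) ξ⟫_ℂ := by
  rw [map_mul, map_star, ContinuousLinearMap.star_eq_adjoint,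
    mul_apply_eq_comp, ContinuousLinearMap.adjoint_inner_right, ← hS]
  exact hS0 _

lemma key2 (hρ1 : ρ 1 = 1) (S : K →L[ℂ] K) (hS : ∀ a x, S (ρ a x) = ρ a (S x))
    (hS0 : ∀ x, 0 ≤ ⟪S x, x⟫_ℂ) (s : ℝ) (hs : 0 < s) (hs1 : ⟪S ξ, ξ⟫_ℂ = (s : ℂ)) :
    (∀ a b, (s : ℂ)⁻¹ * ⟪S ξ, ρ (a + b) ξ⟫_ℂ =
      (s : ℂ)⁻¹ * ⟪S ξ, ρ a ξ⟫_ℂ + (s : ℂ)⁻¹ * ⟪S ξ, ρ b ξ⟫_ℂ) ∧
    (∀ (c : ℂ) a, (s : ℂ)⁻¹ * ⟪S ξ, ρ (c • a) ξ⟫_ℂ = c * ((s : ℂ)⁻¹ * ⟪S ξ, ρ a ξ⟫_ℂ)) ∧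
    (∀ a, 0 ≤ (s : ℂ)⁻¹ * ⟪S ξ, ρ (star a * a) ξ⟫_ℂ) ∧
    (s : ℂ)⁻¹ * ⟪S ξ, ρ 1 ξ⟫_ℂ = 1 ∧
    (∀ a, ‖(s : ℂ)⁻¹ * ⟪S ξ, ρ a ξ⟫_ℂ‖ ≤ ‖a‖) := by
  have hsC : (s : ℂ) ≠ 0 := by exact_mod_cast hs.ne'
  have e1 : ∀ a b, (s : ℂ)⁻¹ * ⟪S ξ, ρ (a + b) ξ⟫_ℂ =
      (s : ℂ)⁻¹ * ⟪S ξ, ρ a ξ⟫_ℂ + (s : ℂ)⁻¹ * ⟪S ξ, ρ b ξ⟫_ℂ := by
    intro a b
    rw [map_add, add_apply, inner_add_right, mul_add]
  have e2 : ∀ (c : ℂ) a, (s : ℂ)⁻¹ * ⟪S ξ, ρ (c • a) ξ⟫_ℂ =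
      c * ((s : ℂ)⁻¹ * ⟪S ξ, ρ a ξ⟫_ℂ) := by
    intro c a
    rw [map_smul, smul_apply, inner_smul_right]
    ring
  have e3 : ∀ a, 0 ≤ (s : ℂ)⁻¹ * ⟪S ξ, ρ (star a * a) ξ⟫_ℂ := by
    intro a
    apply mul_nonneg _ (key1 ρ ξ S hS hS0 a)
    rw [← Complex.ofReal_inv]
    exact Complex.zero_le_real.2 (by positivity)
  have e4 : (s : ℂ)⁻¹ * ⟪S ξ, ρ 1 ξ⟫_ℂ = 1 := by
    rw [hρ1, one_apply_eq_self, hs1]
    exact inv_mul_cancel₀ hsC
  exact ⟨e1, e2, e3, e4, norm_bound (fun a => (s : ℂ)⁻¹ * ⟪S ξ, ρ a ξ⟫_ℂ) e1 e2 e3 e4⟩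

theorem scalar_pos {Y : C} {φ : C → ℂ} (hφ : φ ∈ Set.extremePoints ℝ (StY Y)) (hρ1 : ρ 1 = 1)
    (hξ : ‖ξ‖ = 1) (hdense : ∀ x y : K, (∀ a : C, ⟪x, ρ a ξ⟫_ℂ = ⟪y, ρ a ξ⟫_ℂ) → x = y)
    (hφξ : ∀ a, φ a = ⟪ξ, ρ a ξ⟫_ℂ) (T : K →L[ℂ] K) (hTa : ∀ a x, T (ρ a x) = ρ a (T x))
    (hT0 : ∀ x, 0 ≤ ⟪T x, x⟫_ℂ) (hT1 : ∀ x, 0 ≤ ⟪x - T x, x⟫_ℂ) :
    ∃ t : ℂ, T = t • (1 : K →L[ℂ] K) := by
  obtain ⟨⟨hadd, hsm, hpos, hone, hn, hY⟩, hext⟩ := mem_extremePoints.mp hφ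
  have hYle : ∀ g : C → ℂ, (∀ a, ‖g a‖ ≤ ‖a‖) → (g (star Y * Y)).re ≤ ‖Y‖ ^ 2 := by
    intro g hg
    refine (Complex.re_le_norm _).trans ((hg _).trans ?_)
    rw [CStarRing.norm_star_mul_self, pow_two]
  obtain ⟨R, hR⟩ : ∃ R : K →L[ℂ] K, R = 1 - T := ⟨_, rfl⟩
  have hRx : ∀ x, R x = x - T x := fun x => by rw [hR]; rfl
  have hR0 : ∀ x, 0 ≤ ⟪R x, x⟫_ℂ := fun x => by rw [hRx]; exact hT1 x
  have hRa : ∀ a x, R (ρ a x) = ρ a (R x) := by
    intro a x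
    rw [hRx, hRx, map_sub, hTa]
  obtain ⟨s1, hs1⟩ : ∃ s1 : ℝ, s1 = (⟪T ξ, ξ⟫_ℂ).re := ⟨_, rfl⟩
  have hs1C : ⟪T ξ, ξ⟫_ℂ = (s1 : ℂ) := by
    have := (Complex.le_def.1 (hT0 ξ)).2
    apply Complex.ext
    · rw [Complex.ofReal_re, hs1]
    · rw [Complex.ofReal_im]
      exact this.symm
  have hs2C : ⟪R ξ, ξ⟫_ℂ = ((1 - s1 : ℝ) : ℂ) := by
    rw [hRx, inner_sub_left, hs1C, inner_self_eq_norm_sq_to_K, hξ]
    push_cast
    ring
  have hs10 : 0 ≤ s1 := by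
    have := hT0 ξ
    rw [hs1C] at this
    exact Complex.zero_le_real.1 this
  have hs20 : 0 ≤ 1 - s1 := by
    have := hR0 ξ
    rw [hs2C] at this
    exact Complex.zero_le_real.1 this
  -- it is enough to know `T ξ`
  have hfin : ∀ t : ℝ, T ξ = (t : ℂ) • ξ → ∃ t : ℂ, T = t • (1 : K →L[ℂ] K) := by
    intro t ht
    refine ⟨t, ?_⟩
    ext z
    apply hdense
    intro a
    have e1 : ((t : ℂ) • (1 : K →L[ℂ] K)) z = (t : ℂ) • z := rfl
    rw [e1, symm_of_pos T hT0, hTa, ht, map_smul, inner_smul_right, inner_smul_left,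
      Complex.conj_ofReal]
  by_cases h0 : s1 = 0
  · refine hfin 0 ?_
    rw [Complex.ofReal_zero, zero_smul]
    apply zero_of_pos T hT0
    rw [hs1C, h0, Complex.ofReal_zero]
  by_cases h1 : 1 - s1 = 0
  · refine hfin 1 ?_
    have h2 := zero_of_pos R hR0 ξ (by rw [hs2C, h1, Complex.ofReal_zero])
    rw [hRx] at h2
    rw [Complex.ofReal_one, one_smul]
    exact (sub_eq_zero.1 h2).symm
  have hp1 : 0 < s1 := lt_of_le_of_ne hs10 (Ne.symm h0)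
  have hp2 : 0 < 1 - s1 := lt_of_le_of_ne hs20 (Ne.symm h1)
  have hc1 : (s1 : ℂ) ≠ 0 := by exact_mod_cast hp1.ne'
  have hc2 : ((1 - s1 : ℝ) : ℂ) ≠ 0 := by exact_mod_cast hp2.ne'
  obtain ⟨x1, x2, x3, x4, x5⟩ := key2 ρ ξ hρ1 T hTa hT0 s1 hp1 hs1C
  obtain ⟨y1, y2, y3, y4, y5⟩ := key2 ρ ξ hρ1 R hRa hR0 (1 - s1) hp2 hs2C
  have hcomb : ∀ a, (s1 : ℂ) * ((s1 : ℂ)⁻¹ * ⟪T ξ, ρ a ξ⟫_ℂ) +
      ((1 - s1 : ℝ) : ℂ) * (((1 - s1 : ℝ) : ℂ)⁻¹ * ⟪R ξ, ρ a ξ⟫_ℂ) = φ a := by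
    intro a
    rw [mul_inv_cancel_left₀ hc1, mul_inv_cancel_left₀ hc2, hφξ, hRx, inner_sub_left]
    ring
  have hval : s1 * ((s1 : ℂ)⁻¹ * ⟪T ξ, ρ (star Y * Y) ξ⟫_ℂ).re +
      (1 - s1) * ((((1 - s1 : ℝ) : ℂ)⁻¹ * ⟪R ξ, ρ (star Y * Y) ξ⟫_ℂ)).re =
      (φ (star Y * Y)).re := by
    rw [← hcomb, Complex.add_re, Complex.re_ofReal_mul, Complex.re_ofReal_mul]
  have v1 := hYle (fun a => (s1 : ℂ)⁻¹ * ⟪T ξ, ρ a ξ⟫_ℂ) x5
  have v2 := hYle (fun a => ((1 - s1 : ℝ) : ℂ)⁻¹ * ⟪R ξ, ρ a ξ⟫_ℂ) y5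
  have w1 : ‖Y‖ ^ 2 ≤ ((s1 : ℂ)⁻¹ * ⟪T ξ, ρ (star Y * Y) ξ⟫_ℂ).re := by
    have e1 := mul_le_mul_of_nonneg_left v2 hp2.le
    have e2 : s1 * ‖Y‖ ^ 2 ≤ s1 * ((s1 : ℂ)⁻¹ * ⟪T ξ, ρ (star Y * Y) ξ⟫_ℂ).re := by linarith
    exact le_of_mul_le_mul_left e2 hp1
  have w2 : ‖Y‖ ^ 2 ≤ ((((1 - s1 : ℝ) : ℂ)⁻¹ * ⟪R ξ, ρ (star Y * Y) ξ⟫_ℂ)).re := by
    have e1 := mul_le_mul_of_nonneg_left v1 hp1.le
    have e2 : (1 - s1) * ‖Y‖ ^ 2 ≤
        (1 - s1) * ((((1 - s1 : ℝ) : ℂ)⁻¹ * ⟪R ξ, ρ (star Y * Y) ξ⟫_ℂ)).re := by linarith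
    exact le_of_mul_le_mul_left e2 hp2
  have hseg : φ ∈ openSegment ℝ (fun a => (s1 : ℂ)⁻¹ * ⟪T ξ, ρ a ξ⟫_ℂ)
      (fun a => ((1 - s1 : ℝ) : ℂ)⁻¹ * ⟪R ξ, ρ a ξ⟫_ℂ) := by
    refine ⟨s1, 1 - s1, hp1, hp2, by ring, ?_⟩
    funext a
    rw [← hcomb a]
    simp only [Pi.add_apply, Pi.smul_apply, Complex.real_smul]
  have h6 := (hext _ ⟨x1, x2, x3, x4, x5, w1⟩ _ ⟨y1, y2, y3, y4, y5, w2⟩ hseg).1
  refine hfin s1 ?_
  apply hdense
  intro a
  have h7 := congrFun h6 a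
  rw [inner_smul_left, Complex.conj_ofReal, ← hφξ, ← h7, mul_inv_cancel_left₀ hc1]

end abs

/-- a unital C*-algebra has irreducible representations -/
theorem exists_rep [Nontrivial C] (Y : C) : ∃ (K : Type u) (_ : NormedAddCommGroup K)
    (_ : InnerProductSpace ℂ K) (_ : CompleteSpace K) (ρ : C →⋆ₙₐ[ℂ] (K →L[ℂ] K)) (ξ : K)
    (φ : C → ℂ), φ ∈ Set.extremePoints ℝ (StY Y) ∧ ρ 1 = 1 ∧ ‖ξ‖ = 1 ∧
    (∀ x y : K, (∀ a : C, ⟪x, ρ a ξ⟫_ℂ = ⟪y, ρ a ξ⟫_ℂ) → x = y) ∧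
    (∀ a, φ a = ⟪ξ, ρ a ξ⟫_ℂ) := by
  obtain ⟨φ, hφ⟩ := (StY_compact Y).extremePoints_nonempty (StY_nonempty Y)
  obtain ⟨⟨hadd, hsm, hpos, hone, hn, hY⟩, hext⟩ := mem_extremePoints.mp hφ
  let _ := CStarAlgebra.spectralOrder C
  have _ := CStarAlgebra.spectralOrderedRing C
  let f : C →ₚ[ℂ] ℂ := PositiveLinearMap.mk₀
    ({ toFun := φ, map_add' := hadd, map_smul' := fun c a => hsm c a } : C →ₗ[ℂ] ℂ) (by
      intro x hx
      obtain ⟨y, rfl⟩ := CStarAlgebra.nonneg_iff_eq_star_mul_self.1 hx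
      exact hpos y)
  have hf : ∀ x, f x = φ x := fun x => rfl
  let ρ : C →⋆ₙₐ[ℂ] (f.GNS →L[ℂ] f.GNS) := f.gnsNonUnitalStarAlgHom
  let ξ : f.GNS := (f.toPreGNS (1 : C) : f.GNS)
  have hρ : ∀ a b : C, ρ a (f.toPreGNS b : f.GNS) = (f.toPreGNS (a * b) : f.GNS) := by
    intro a b
    show f.gnsNonUnitalStarAlgHom a (f.toPreGNS b : f.GNS) = _
    rw [PositiveLinearMap.gnsNonUnitalStarAlgHom_apply_coe]
    rfl
  have hin : ∀ a b : C, ⟪(f.toPreGNS a : f.GNS), (f.toPreGNS b : f.GNS)⟫_ℂ = φ (star a * b) := by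
    intro a b
    rw [UniformSpace.Completion.inner_coe, PositiveLinearMap.preGNS_inner_def]
    rfl
  have hρξ : ∀ a, ρ a ξ = (f.toPreGNS a : f.GNS) := by
    intro a
    rw [hρ, mul_one]
  have hdense : ∀ x y : f.GNS, (∀ a : C, ⟪x, ρ a ξ⟫_ℂ = ⟪y, ρ a ξ⟫_ℂ) → x = y := by
    intro x y h
    have h2 : ∀ z : f.GNS, ⟪x, z⟫_ℂ = ⟪y, z⟫_ℂ := by
      intro z
      induction z using UniformSpace.Completion.induction_on with
      | hp => exact isClosed_eq (by fun_prop) (by fun_prop)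
      | ih z =>
        have := h (f.ofPreGNS z)
        rw [hρξ] at this
        exact this
    exact ext_inner_right ℂ h2
  have hρ1 : ρ 1 = 1 := by
    ext z
    induction z using UniformSpace.Completion.induction_on with
    | hp => exact isClosed_eq (by fun_prop) (by fun_prop)
    | ih z =>
      have := hρ 1 (f.ofPreGNS z)
      rw [one_mul] at this
      exact this
  have hξ : ‖ξ‖ = 1 := by
    have h2 := hin 1 1
    rw [star_one, one_mul, hone] at h2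
    have h3 : ⟪ξ, ξ⟫_ℂ = 1 := h2
    rw [inner_self_eq_norm_sq_to_K] at h3
    have h4 : ((‖ξ‖ ^ 2 : ℝ) : ℂ) = ((1 : ℝ) : ℂ) := by
      push_cast
      exact h3
    have h5 : ‖ξ‖ ^ 2 = 1 := Complex.ofReal_injective h4
    nlinarith [norm_nonneg ξ]
  have hφξ : ∀ a, φ a = ⟪ξ, ρ a ξ⟫_ℂ := by
    intro a
    rw [hρξ, hin, star_one, one_mul]
  exact ⟨f.GNS, inferInstance, inferInstance, inferInstance, ρ, ξ, φ, hφ, hρ1, hξ, hdense, hφξ⟩

end Pool.Agent.TH496.EIirr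

namespace Pool.Agent.TH496.EIirr

universe u

section comm

variable {C : Type u} [CStarAlgebra C] {K : Type u} [NormedAddCommGroup K]
  [InnerProductSpace ℂ K] [CompleteSpace K] (ρ : C →⋆ₙₐ[ℂ] (K →L[ℂ] K))

/-- from positive contractions to all operators -/
theorem scalar_all (h : ∀ T : K →L[ℂ] K, (∀ a x, T (ρ a x) = ρ a (T x)) →
      (∀ x, 0 ≤ ⟪T x, x⟫_ℂ) → (∀ x, 0 ≤ ⟪x - T x, x⟫_ℂ) → ∃ t : ℂ, T = t • (1 : K →L[ℂ] K))
    (T : K →L[ℂ] K) (hT : ∀ a, T * ρ a = ρ a * T) : ∃ t : ℂ, T = t • (1 : K →L[ℂ] K) := by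
  -- self-adjoint operators
  have hsa : ∀ T : K →L[ℂ] K, IsSelfAdjoint T → (∀ a, T * ρ a = ρ a * T) →
      ∃ t : ℂ, T = t • (1 : K →L[ℂ] K) := by
    intro T hTs hT
    have hTa : ∀ a x, T (ρ a x) = ρ a (T x) := by
      intro a x
      exact congrArg (fun S => S x) (hT a)
    obtain ⟨r, hr⟩ : ∃ r : ℝ, r = ‖T‖ + 1 := ⟨_, rfl⟩
    have hr0 : 0 < r := by
      have := norm_nonneg T
      linarith
    have hrC : (r : ℂ) ≠ 0 := by exact_mod_cast hr0.ne'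
    obtain ⟨S, hS⟩ : ∃ S : K →L[ℂ] K, S = (2 * (r : ℂ))⁻¹ • ((r : ℂ) • (1 : K →L[ℂ] K) + T) :=
      ⟨_, rfl⟩
    have hSx : ∀ x, S x = (2 * (r : ℂ))⁻¹ • ((r : ℂ) • x + T x) := fun x => by rw [hS]; rfl
    have hreal : ∀ x, ⟪T x, x⟫_ℂ = (((⟪T x, x⟫_ℂ).re : ℝ) : ℂ) := by
      intro x
      have h1 : (T : K →ₗ[ℂ] K).IsSymmetric := hTs.isSymmetric
      have h2 := (LinearMap.isSymmetric_iff_inner_map_self_real (T : K →ₗ[ℂ] K)).1 h1 x
      exact (Complex.conj_eq_iff_re.1 h2).symm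
    have hbd : ∀ x, |(⟪T x, x⟫_ℂ).re| ≤ r * ‖x‖ ^ 2 := by
      intro x
      refine (Complex.abs_re_le_norm _).trans ((norm_inner_le_norm _ _).trans ?_)
      have h1 : ‖T x‖ ≤ r * ‖x‖ := by
        refine (T.le_opNorm x).trans ?_
        apply mul_le_mul_of_nonneg_right _ (norm_nonneg x)
        linarith
      calc ‖T x‖ * ‖x‖ ≤ r * ‖x‖ * ‖x‖ := mul_le_mul_of_nonneg_right h1 (norm_nonneg x)
        _ = r * ‖x‖ ^ 2 := by ring
    have hin : ∀ x, ⟪S x, x⟫_ℂ = (((2 * r)⁻¹ * (r * ‖x‖ ^ 2 + (⟪T x, x⟫_ℂ).re) : ℝ) : ℂ) := by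
      intro x
      rw [hSx, inner_smul_left, inner_add_left, inner_smul_left, Complex.conj_ofReal,
        inner_self_eq_norm_sq_to_K, hreal x]
      have : (starRingEnd ℂ) ((2 * (r : ℂ))⁻¹) = (2 * (r : ℂ))⁻¹ := by
        rw [map_inv₀, map_mul, Complex.conj_ofReal, map_ofNat]
      rw [this, Complex.ofReal_re]
      push_cast
      rfl
    obtain ⟨t, ht⟩ := h S (by
      intro a x
      rw [hSx, hSx, map_smul, map_add, map_smul, hTa]) (by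
      intro x
      rw [hin x]
      apply Complex.zero_le_real.2
      apply mul_nonneg (by positivity)
      have := (abs_le.1 (hbd x)).1
      linarith) (by
      intro x
      rw [inner_sub_left, hin x, inner_self_eq_norm_sq_to_K]
      have e : ((‖x‖ : ℂ)) ^ 2 - (((2 * r)⁻¹ * (r * ‖x‖ ^ 2 + (⟪T x, x⟫_ℂ).re) : ℝ) : ℂ) =
          (((2 * r)⁻¹ * (r * ‖x‖ ^ 2 - (⟪T x, x⟫_ℂ).re) : ℝ) : ℂ) := by
        push_cast
        field_simp
        ring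
      show 0 ≤ ((‖x‖ : ℂ)) ^ 2 - (((2 * r)⁻¹ * (r * ‖x‖ ^ 2 + (⟪T x, x⟫_ℂ).re) : ℝ) : ℂ)
      rw [e]
      apply Complex.zero_le_real.2
      apply mul_nonneg (by positivity)
      have := (abs_le.1 (hbd x)).2
      linarith)
    refine ⟨2 * (r : ℂ) * t - r, ?_⟩
    ext x
    have h1 := hSx x
    rw [ht] at h1
    have h2 : t • x = (2 * (r : ℂ))⁻¹ • ((r : ℂ) • x + T x) := h1
    have h3 : (2 * (r : ℂ)) • (t • x) = (r : ℂ) • x + T x := by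
      rw [h2, smul_smul, mul_inv_cancel₀ (mul_ne_zero two_ne_zero hrC), one_smul]
    show T x = (2 * (r : ℂ) * t - r) • x
    rw [sub_smul, mul_smul, h3]
    abel
  -- the adjoint commutes as well
  have hTs : ∀ a, star T * ρ a = ρ a * star T := by
    intro a
    have h1 := congrArg star (hT (star a))
    rw [star_mul, star_mul, map_star, star_star] at h1
    exact h1.symm
  obtain ⟨t1, ht1⟩ := hsa (T + star T) (IsSelfAdjoint.add_star_self T) (by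
    intro a
    rw [add_mul, mul_add, hT, hTs])
  obtain ⟨t2, ht2⟩ := hsa (Complex.I • (T - star T)) (by
    rw [IsSelfAdjoint, star_smul, star_sub, star_star, Complex.star_def, Complex.conj_I,
      neg_smul, ← smul_neg, neg_sub]) (by
    intro a
    rw [smul_mul_assoc, mul_smul_comm, sub_mul, mul_sub, hT, hTs])
  refine ⟨(t1 - Complex.I * t2) / 2, ?_⟩
  have h1 : (2 : ℂ) • T = (t1 - Complex.I * t2) • (1 : K →L[ℂ] K) := by
    have e1 : (2 : ℂ) • T = (T + star T) - Complex.I • (Complex.I • (T - star T)) := by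
      rw [smul_smul, Complex.I_mul_I, neg_one_smul, two_smul]
      abel
    rw [e1, ht1, ht2, smul_smul, sub_smul]
  calc T = (2 : ℂ)⁻¹ • ((2 : ℂ) • T) := by
        rw [smul_smul, inv_mul_cancel₀ two_ne_zero, one_smul]
    _ = _ := by
        rw [h1, smul_smul]
        congr 1
        ring

end comm

end Pool.Agent.TH496.EIirr

namespace Pool.Agent.TH387.EI

open Pool.Agent.TH496.EIirr

universe u

variable {A : Type u} [NonUnitalCStarAlgebra A]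
  {H : Type u} [NormedAddCommGroup H] [InnerProductSpace ℂ H] [CompleteSpace H]

theorem exists_irr (hk : KapBicP.{u}) (b : A) (hb : b ≠ 0) :
    ∃ (K : Type u) (_ : NormedAddCommGroup K) (_ : InnerProductSpace ℂ K) (_ : CompleteSpace K)
      (π : A →⋆ₙₐ[ℂ] (K →L[ℂ] K)), Kap π ∧ π b ≠ 0 := by
  have hc0 : (Unitization.inr b : Unitization ℂ A) ≠ 0 := by
    intro h
    exact hb (Unitization.inr_injective (R := ℂ) h)
  obtain ⟨K, i1, i2, i3, ρ, ξ, φ, hφ, hρ1, hξ, hdense, hφξ⟩ :=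
    exists_rep (C := Unitization ℂ A) (Unitization.inr b : Unitization ℂ A)
  have hscal := scalar_all ρ (fun T hTa hT0 hT1 =>
    scalar_pos ρ ξ hφ hρ1 hξ hdense hφξ T hTa hT0 hT1)
  obtain ⟨π, hπ⟩ : ∃ π : A →⋆ₙₐ[ℂ] (K →L[ℂ] K), ∀ a, π a = ρ (Unitization.inr a) :=
    ⟨ρ.comp (Unitization.inrNonUnitalStarAlgHom ℂ A), fun a => rfl⟩
  -- `π b ≠ 0`
  have hπb : π b ≠ 0 := by
    intro h
    obtain ⟨⟨hadd, hsm, hpos, hone, hn, hY⟩, hext⟩ := mem_extremePoints.mp hφ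
    rw [hφξ, map_mul, ← hπ, h, mul_zero] at hY
    have h1 : (⟪ξ, (0 : K →L[ℂ] K) ξ⟫_ℂ).re = 0 := by
      show (⟪ξ, (0 : K)⟫_ℂ).re = 0
      rw [inner_zero_right, Complex.zero_re]
    rw [h1] at hY
    have h2 : 0 < ‖(Unitization.inr b : Unitization ℂ A)‖ := norm_pos_iff.2 hc0
    nlinarith
  -- multiplication by elements of the unitization
  have hmul : ∀ (c : Unitization ℂ A) (a : A), ∃ a' : A,
      c * Unitization.inr a = Unitization.inr a' ∧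
      ∀ x, ρ c (π a x) = π a' x := by
    intro c a
    refine ⟨c.fst • a + c.snd * a, ?_, ?_⟩
    · ext
      · simp
      · simp
    · intro x
      have e : c * Unitization.inr a = Unitization.inr (c.fst • a + c.snd * a) := by
        ext
        · simp
        · simp
      rw [hπ, hπ, ← e, map_mul]
      rfl
  -- nondegeneracy
  have hNd : Nd π := by
    let N : Submodule ℂ K :=
      { carrier := {v | ∀ a w, ⟪π a w, v⟫_ℂ = 0}
        zero_mem' := fun a w => inner_zero_right _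
        add_mem' := fun {x y} hx hy a w => by rw [inner_add_right, hx a w, hy a w, add_zero]
        smul_mem' := fun c x hx a w => by rw [inner_smul_right, hx a w, mul_zero] }
    have hNm : ∀ v, v ∈ N ↔ ∀ a w, ⟪π a w, v⟫_ℂ = 0 := fun v => Iff.rfl
    have hNc : IsClosed (N : Set K) := by
      have : (N : Set K) = ⋂ a, ⋂ w, {v | ⟪π a w, v⟫_ℂ = 0} := by
        ext v
        simp only [SetLike.mem_coe, hNm, Set.mem_iInter, Set.mem_ofPred_eq]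
      rw [this]
      exact isClosed_iInter fun a => isClosed_iInter fun w =>
        isClosed_eq (by fun_prop) continuous_const
    have : CompleteSpace N := hNc.completeSpace_coe
    have hadj : ∀ (c : Unitization ℂ A) x y, ⟪ρ c x, y⟫_ℂ = ⟪x, ρ (star c) y⟫_ℂ := by
      intro c x y
      rw [map_star, ContinuousLinearMap.star_eq_adjoint, ContinuousLinearMap.adjoint_inner_right]
    have hinv : ∀ (c : Unitization ℂ A), ∀ v ∈ N, ρ c v ∈ N := by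
      intro c v hv
      rw [hNm] at hv ⊢
      intro a w
      have h1 : ⟪π a w, ρ c v⟫_ℂ = ⟪ρ (star c) (π a w), v⟫_ℂ := by
        rw [hadj, star_star]
      obtain ⟨a', -, ha'⟩ := hmul (star c) a
      rw [h1, ha']
      exact hv a' w
    have hinv2 : ∀ (c : Unitization ℂ A), ∀ v ∈ Nᗮ, ρ c v ∈ Nᗮ := by
      intro c v hv
      rw [Submodule.mem_orthogonal'] at hv ⊢
      intro u hu
      rw [hadj]
      exact hv _ (hinv _ u hu)
    obtain ⟨t, ht⟩ := hscal N.starProjection (by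
      intro c
      ext x
      show N.starProjection (ρ c x) = ρ c (N.starProjection x)
      refine Submodule.eq_starProjection_of_mem_orthogonal
        (hinv c _ (N.starProjection_apply_mem x)) ?_
      rw [← map_sub]
      exact hinv2 c _ (N.sub_starProjection_mem_orthogonal x))
    intro v hv
    have hvN : v ∈ N := (hNm v).2 hv
    by_contra hv0
    have h1 : N.starProjection v = v := N.starProjection_eq_self_iff.2 hvN
    have h2 : t • v = v := by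
      have := congrArg (fun S => S v) ht
      rw [h1] at this
      exact this.symm
    have h3 : t = 1 := by
      have : (t - 1) • v = 0 := by rw [sub_smul, h2, one_smul, sub_self]
      rcases smul_eq_zero.1 this with h | h
      · exact sub_eq_zero.1 h
      · exact absurd h hv0
    apply hπb
    ext x
    have hall : ∀ x, x ∈ N := by
      intro x
      rw [← N.starProjection_eq_self_iff, ht, h3, one_smul]
      rfl
    have h4 := (hNm _).1 (hall (π b x)) b x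
    show π b x = 0
    exact inner_self_eq_zero.1 h4
  refine ⟨K, i1, i2, i3, π, ?_, hπb⟩
  intro T hTs hT1 F τ hτ
  apply hk A K π hNd T _ hTs hT1 F τ hτ
  -- every operator is in the bicommutant
  intro y hy
  have hya : ∀ a x, y (π a x) = π a (y x) := by
    intro a x
    exact congrArg (fun S => S x) (hy a)
  obtain ⟨t, ht⟩ := hscal y (by
    intro c
    have hD : ∀ a w, (y * ρ c - ρ c * y) (π a w) = 0 := by
      intro a w
      show y (ρ c (π a w)) - ρ c (y (π a w)) = 0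
      obtain ⟨a', -, ha'⟩ := hmul c a
      rw [ha', hya, hya, ha', sub_self]
    have hD2 : ContinuousLinearMap.adjoint (y * ρ c - ρ c * y) = 0 := by
      ext v
      apply hNd
      intro a w
      rw [ContinuousLinearMap.adjoint_inner_right, hD, inner_zero_left]
    have hD3 : y * ρ c - ρ c * y = 0 := by
      rw [← ContinuousLinearMap.adjoint_adjoint (y * ρ c - ρ c * y), hD2, map_zero]
    exact sub_eq_zero.1 hD3)
  rw [ht, smul_mul_assoc, mul_smul_comm, one_mul, mul_one]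

end Pool.Agent.TH387.EI
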