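import Pool.Agent.TH496.GM13

set_option autoImplicit false
set_option linter.unusedSectionVars false

/-! Counting self-avoiding walks on Cayley graphs by recursion. -/

namespace Pool.Agent.TH496

open Finset

section
variable {Γ : Type*} [Group Γ] [DecidableEq Γ]

/-- number of `n`-step self-avoiding walks from `x` avoiding `F` (for `x ∉ F`) -/
def sg (S : Finset Γ) : ℕ → Γ → Finset Γ → ℕ
  | 0, _, _ => 1
  | n + 1, x, F => ∑ s ∈ S, if x * s ∈ insert x F then 0 else sg S n (x * s) (insert x F)

/-- the walks themselves -/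
def WW (S : Finset Γ) : (n : ℕ) → Γ → Finset Γ → Finset (Fin (n + 1) → Γ)
  | 0, x, _ => {fun _ => x}
  | n + 1, x, F => S.biUnion fun s => if x * s ∈ insert x F then ∅ else
      (WW S n (x * s) (insert x F)).image (fun w => (Fin.cons x w : Fin (n + 2) → Γ))

lemma mem_WW (S : Finset Γ) (n : ℕ) (x : Γ) (F : Finset Γ) (hx : x ∉ F) (w : Fin (n + 1) → Γ) :
    w ∈ WW S n x F ↔ w 0 = x ∧ Function.Injective w ∧
      (∀ i : Fin n, (w i.castSucc)⁻¹ * w i.succ ∈ S) ∧ ∀ i, w i ∉ F := by
  induction n generalizing x F with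
  | zero =>
    simp only [WW, Finset.mem_singleton]
    constructor
    · rintro rfl
      exact ⟨rfl, fun a b _ => Fin.ext (by omega), fun i => i.elim0, fun _ => hx⟩
    · rintro ⟨h1, _, _, _⟩
      funext i
      have hi : i = 0 := by
        apply Fin.ext
        have := i.isLt
        simp only [Fin.val_zero]
        omega
      rw [hi, h1]
  | succ n ih =>
    simp only [WW, Finset.mem_biUnion]
    constructor
    · rintro ⟨s, hs, hw⟩
      by_cases hxs : x * s ∈ insert x F
      · rw [if_pos hxs] at hw; simp at hw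
      · rw [if_neg hxs, Finset.mem_image] at hw
        obtain ⟨w', hw', rfl⟩ := hw
        obtain ⟨h0, hinj, hst, hF⟩ := (ih (x * s) (insert x F) hxs w').mp hw'
        refine ⟨rfl, ?_, ?_, ?_⟩
        · rw [Fin.cons_injective_iff]
          refine ⟨?_, hinj⟩
          rintro ⟨i, hi⟩
          exact hF i (by rw [hi]; exact Finset.mem_insert_self _ _)
        · intro i
          refine Fin.cases ?_ (fun j => ?_) i
          · simp only [Fin.castSucc_zero, Fin.cons_zero, Fin.cons_succ, h0]
            rw [inv_mul_cancel_left]; exact hs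
          · rw [Fin.cons_succ, ← Fin.succ_castSucc, Fin.cons_succ]
            exact hst j
        · intro i
          refine Fin.cases ?_ (fun j => ?_) i
          · simpa using hx
          · rw [Fin.cons_succ]
            exact fun h => hF j (Finset.mem_insert_of_mem h)
    · rintro ⟨h0, hinj, hst, hF⟩
      refine ⟨(w 0)⁻¹ * w (Fin.succ 0), hst 0, ?_⟩
      have e1 : x * ((w 0)⁻¹ * w (Fin.succ 0)) = w (Fin.succ 0) := by
        rw [h0, mul_inv_cancel_left]
      have hns : w (Fin.succ 0) ∉ insert x F := by
        rw [Finset.mem_insert]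
        rintro (h | h)
        · rw [← h0] at h
          exact absurd (hinj h) (Fin.succ_ne_zero 0)
        · exact hF _ h
      rw [e1, if_neg hns, Finset.mem_image]
      refine ⟨Fin.tail w, ?_, ?_⟩
      · rw [ih _ _ hns]
        refine ⟨rfl, ?_, ?_, ?_⟩
        · intro i j hij
          exact Fin.succ_injective _ (hinj hij)
        · intro i
          have := hst i.succ
          rwa [← Fin.succ_castSucc] at this
        · intro i
          rw [Finset.mem_insert]
          rintro (h | h)
          · rw [← h0] at h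
            exact absurd (hinj h) (Fin.succ_ne_zero i)
          · exact hF _ h
      · rw [← h0]; exact Fin.cons_self_tail w

lemma WW_zero_val {S : Finset Γ} {n : ℕ} {x : Γ} {F : Finset Γ} {w : Fin (n + 1) → Γ}
    (h : w ∈ WW S n x F) : w 0 = x := by
  cases n with
  | zero =>
    simp only [WW, Finset.mem_singleton] at h
    rw [h]
  | succ n =>
    simp only [WW, Finset.mem_biUnion] at h
    obtain ⟨s, _, hw⟩ := h
    split_ifs at hw with h1
    · simp at hw
    · obtain ⟨w', _, rfl⟩ := Finset.mem_image.mp hw
      rfl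

lemma card_WW (S : Finset Γ) (n : ℕ) (x : Γ) (F : Finset Γ) :
    (WW S n x F).card = sg S n x F := by
  induction n generalizing x F with
  | zero => simp [WW, sg]
  | succ n ih =>
    simp only [WW, sg]
    rw [Finset.card_biUnion]
    · apply Finset.sum_congr rfl
      intro s _
      split_ifs with h
      · simp
      · rw [Finset.card_image_of_injective, ih]
        exact Fin.cons_right_injective (α := fun _ => Γ) x
    · intro s _ t _ hst
      rw [Function.onFun, Finset.disjoint_left]
      intro w hw hw'
      split_ifs at hw with h1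
      · simp at hw
      · split_ifs at hw' with h2
        · simp at hw'
        · obtain ⟨w1, hw1, rfl⟩ := Finset.mem_image.mp hw
          obtain ⟨w2, hw2, he⟩ := Finset.mem_image.mp hw'
          have := Fin.cons_right_injective (α := fun _ => Γ) x he
          subst this
          have e1 := WW_zero_val hw1
          have e2 := WW_zero_val hw2
          rw [e1] at e2
          exact hst (mul_left_cancel e2)

lemma ncard_eq (S : Finset Γ) (n : ℕ) :
    Set.ncard {w : Fin (n + 1) → Γ | w 0 = 1 ∧ Function.Injective w ∧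
      ∀ i : Fin n, (w i.castSucc)⁻¹ * w i.succ ∈ S} = sg S n 1 ∅ := by
  rw [← card_WW S n 1 ∅, ← Set.ncard_coe_finset]
  congr 1
  ext w
  rw [Finset.mem_coe, mem_WW S n 1 ∅ (by simp)]
  simp

lemma sg_mono (S : Finset Γ) (n : ℕ) (x : Γ) {F F' : Finset Γ} (h : F ⊆ F') :
    sg S n x F' ≤ sg S n x F := by
  induction n generalizing x F F' with
  | zero => simp [sg]
  | succ n ih =>
    simp only [sg]
    apply Finset.sum_le_sum
    intro s _
    have hsub : insert x F ⊆ insert x F' := Finset.insert_subset_insert x h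
    by_cases h1 : x * s ∈ insert x F'
    · rw [if_pos h1]; exact Nat.zero_le _
    · have h2 : x * s ∉ insert x F := fun hh => h1 (hsub hh)
      rw [if_neg h1, if_neg h2]
      exact ih _ hsub

lemma sg_translate (S : Finset Γ) (n : ℕ) (g x : Γ) (F : Finset Γ) :
    sg S n (g * x) (F.image (fun y => g * y)) = sg S n x F := by
  induction n generalizing x F with
  | zero => simp [sg]
  | succ n ih =>
    simp only [sg]
    apply Finset.sum_congr rfl
    intro s _
    have e1 : insert (g * x) (F.image (fun y => g * y)) = (insert x F).image (fun y => g * y) := by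
      rw [Finset.image_insert]
    have e2 : g * x * s ∈ (insert x F).image (fun y => g * y) ↔ x * s ∈ insert x F := by
      rw [Finset.mem_image]
      constructor
      · rintro ⟨y, hy, he⟩
        rw [mul_assoc] at he
        rwa [mul_left_cancel he] at hy
      · intro hh; exact ⟨x * s, hh, by rw [mul_assoc]⟩
    rw [e1]
    simp only [e2]
    rw [mul_assoc, ih]

lemma sg_root (S : Finset Γ) (n : ℕ) (x : Γ) : sg S n x ∅ = sg S n 1 ∅ := by
  have := sg_translate S n x 1 ∅
  simpa using this

lemma sg_submul (S : Finset Γ) (a b : ℕ) (x : Γ) (F : Finset Γ) :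
    sg S (a + b) x F ≤ sg S a x F * sg S b 1 ∅ := by
  induction a generalizing x F with
  | zero =>
    rw [zero_add, sg, one_mul, ← sg_root S b x]
    exact sg_mono S b x (Finset.empty_subset _)
  | succ a ih =>
    rw [Nat.succ_add]
    simp only [sg]
    rw [Finset.sum_mul]
    apply Finset.sum_le_sum
    intro s _
    split_ifs with h
    · simp
    · exact ih _ _

/-- truncated generating function at the inverse golden ratio -/
noncomputable def GG (S : Finset Γ) (n : ℕ) (x : Γ) (F : Finset Γ) : ℝ :=
  ∑ k ∈ Finset.range (n + 1), zz ^ k * (sg S k x F : ℝ)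

lemma GG_succ (S : Finset Γ) (n : ℕ) (x : Γ) (F : Finset Γ) :
    GG S (n + 1) x F = 1 + zz * ∑ s ∈ S,
      if x * s ∈ insert x F then 0 else GG S n (x * s) (insert x F) := by
  unfold GG
  rw [Finset.sum_range_succ']
  simp only [sg, pow_zero, Nat.cast_one, mul_one]
  rw [add_comm, Finset.mul_sum]
  congr 1
  have : ∀ s ∈ S, zz * (if x * s ∈ insert x F then 0 else
      ∑ k ∈ Finset.range (n + 1), zz ^ k * (sg S k (x * s) (insert x F) : ℝ)) =
      ∑ k ∈ Finset.range (n + 1), (if x * s ∈ insert x F then 0 else
        zz ^ (k + 1) * (sg S k (x * s) (insert x F) : ℝ)) := by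
    intro s _
    split_ifs with h
    · simp
    · rw [Finset.mul_sum]
      apply Finset.sum_congr rfl; intro k _
      rw [pow_succ]; ring
  rw [Finset.sum_congr rfl this, Finset.sum_comm]
  apply Finset.sum_congr rfl
  intro k _
  push_cast
  rw [Finset.mul_sum]
  apply Finset.sum_congr rfl; intro s _
  split_ifs <;> simp

lemma GG_nonneg (S : Finset Γ) (n : ℕ) (x : Γ) (F : Finset Γ) : 0 ≤ GG S n x F := by
  unfold GG
  have := zz_pos
  exact Finset.sum_nonneg fun k _ => by positivity

lemma GG_mono (S : Finset Γ) {n n' : ℕ} (h : n ≤ n') (x : Γ) (F : Finset Γ) :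
    GG S n x F ≤ GG S n' x F := by
  unfold GG
  have := zz_pos
  apply Finset.sum_le_sum_of_subset_of_nonneg
  · intro k hk; simp only [Finset.mem_range] at *; omega
  · intro k _ _; positivity

lemma GG_root (S : Finset Γ) (n : ℕ) (x : Γ) : GG S n x ∅ = GG S n 1 ∅ := by
  unfold GG
  apply Finset.sum_congr rfl; intro k _
  rw [sg_root]

/-- if some count is below the golden mean power, the generating function converges -/
lemma GG_bounded (S : Finset Γ) (k : ℕ) (h : zz ^ k * (sg S k 1 ∅ : ℝ) < 1) :
    ∃ C : ℝ, ∀ n, GG S n 1 ∅ ≤ C := by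
  set a : ℕ → ℝ := fun j => zz ^ j * (sg S j 1 ∅ : ℝ) with ha
  set q := a k with hq
  have hzp := zz_pos
  have ha0 : ∀ j, 0 ≤ a j := fun j => by simp only [ha]; positivity
  have hq1 : q < 1 := h
  have hrec : ∀ j, a (j + k) ≤ a j * q := by
    intro j
    simp only [hq, ha]
    have h1 := sg_submul S j k 1 ∅
    have h2 : (sg S (j + k) 1 ∅ : ℝ) ≤ (sg S j 1 ∅ : ℝ) * (sg S k 1 ∅ : ℝ) := by
      exact_mod_cast h1
    calc zz ^ (j + k) * (sg S (j + k) 1 ∅ : ℝ)
        ≤ zz ^ (j + k) * ((sg S j 1 ∅ : ℝ) * (sg S k 1 ∅ : ℝ)) :=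
          mul_le_mul_of_nonneg_left h2 (by positivity)
      _ = _ := by rw [pow_add]; ring
  set T : ℕ → ℝ := fun n => ∑ j ∈ Finset.range n, a j with hT
  have hTmono : ∀ n n', n ≤ n' → T n ≤ T n' := by
    intro n n' hn
    apply Finset.sum_le_sum_of_subset_of_nonneg
    · intro j hj; simp only [Finset.mem_range] at *; omega
    · intro j _ _; exact ha0 j
  have hTk : ∀ n, T (n + k) ≤ T k + q * T n := by
    intro n
    have h1 : T (n + k) = T k + ∑ j ∈ Finset.range n, a (j + k) := by
      simp only [hT]
      rw [add_comm n k, Finset.sum_range_add]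
      congr 1
      apply Finset.sum_congr rfl; intro j _
      rw [add_comm]
    have h2 : ∑ j ∈ Finset.range n, a (j + k) ≤ q * T n := by
      simp only [hT]
      rw [Finset.mul_sum]
      apply Finset.sum_le_sum; intro j _
      rw [mul_comm]; exact hrec j
    linarith
  refine ⟨T k / (1 - q), fun n => ?_⟩
  have h1 : GG S n 1 ∅ = T (n + 1) := rfl
  rw [h1, le_div_iff₀ (by linarith)]
  have h2 := hTk (n + 1)
  have h3 := hTmono (n + 1) (n + 1 + k) (by omega)
  have h4 : q * T (n + 1) = T (n + 1) * q := mul_comm _ _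
  linarith

/-- final step -/
lemma golden_of_unbounded (S : Finset Γ) (h : ∀ C : ℝ, ∃ n, C < GG S n 1 ∅) (k : ℕ) :
    Real.goldenRatio ^ k ≤ (sg S k 1 ∅ : ℝ) := by
  by_contra hcon
  push Not at hcon
  have hzp := zz_pos
  have h1 : zz ^ k * (sg S k 1 ∅ : ℝ) < 1 := by
    calc zz ^ k * (sg S k 1 ∅ : ℝ) < zz ^ k * Real.goldenRatio ^ k :=
          mul_lt_mul_of_pos_left hcon (by positivity)
      _ = 1 := by rw [← mul_pow, zz_mul, one_pow]
  obtain ⟨C, hC⟩ := GG_bounded S k h1
  obtain ⟨n, hn⟩ := h C
  exact absurd (hC n) (not_le.mpr hn)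

end

end Pool.Agent.TH496
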