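import Pool.Agent.TH496.GG1

set_option autoImplicit false
set_option linter.unusedSectionVars false

/-! From a balanced height function to divergence of the generating function. -/

namespace Pool.Agent.TH496

open Finset

section
variable {Γ : Type*} [Group Γ] [DecidableEq Γ]

/-- adjacency as multiplicity -/
def mm (S : Finset Γ) (x y : Γ) : ℕ := if x⁻¹ * y ∈ S then 1 else 0

lemma mm_symm {S : Finset Γ} (hS : ∀ s ∈ S, s⁻¹ ∈ S) (x y : Γ) : mm S x y = mm S y x := by
  unfold mm
  have : x⁻¹ * y ∈ S ↔ y⁻¹ * x ∈ S := by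
    constructor
    · intro h; have := hS _ h; rwa [mul_inv_rev, inv_inv] at this
    · intro h; have := hS _ h; rwa [mul_inv_rev, inv_inv] at this
  simp only [this]

lemma sum_mm {R : Type*} [CommSemiring R] (S : Finset Γ) (x : Γ) (Y : Finset Γ) (f : Γ → R) :
    ∑ u ∈ Y, ((mm S x u : ℕ) : R) * f u = ∑ s ∈ S, if x * s ∈ Y then f (x * s) else 0 := by
  have h1 : ∀ s ∈ S, (if x * s ∈ Y then f (x * s) else 0) =
      ∑ u ∈ Y, if x * s = u then f u else 0 := by
    intro s _
    rw [Finset.sum_ite_eq]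
  rw [Finset.sum_congr rfl h1, Finset.sum_comm]
  apply Finset.sum_congr rfl
  intro u _
  unfold mm
  have h2 : ∀ s ∈ S, (if x * s = u then f u else 0) = if s = x⁻¹ * u then f u else 0 := by
    intro s _
    have : x * s = u ↔ s = x⁻¹ * u := by
      constructor
      · rintro rfl; rw [inv_mul_cancel_left]
      · rintro rfl; rw [mul_inv_cancel_left]
    simp only [this]
  rw [Finset.sum_congr rfl h2, Finset.sum_ite_eq']
  split_ifs <;> simp

lemma sum_mm_nat (S : Finset Γ) (x : Γ) (Y : Finset Γ) :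
    ∑ u ∈ Y, mm S x u = (S.filter (fun s => x * s ∈ Y)).card := by
  have := sum_mm (R := ℕ) S x Y (fun _ => 1)
  simp only [mul_one, Nat.cast_id] at this
  rw [this, Finset.card_filter]

/-- number of up steps -/
noncomputable def upc (S : Finset Γ) (h : Γ → ℝ) (x : Γ) : ℕ :=
  (S.filter (fun s => h x < h (x * s))).card

/-- number of down steps -/
noncomputable def dnc (S : Finset Γ) (h : Γ → ℝ) (x : Γ) : ℕ :=
  (S.filter (fun s => h (x * s) < h x)).card

/-- number of level steps leaving `U` -/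
noncomputable def lvc (S : Finset Γ) (h : Γ → ℝ) (U : Finset Γ) (x : Γ) : ℕ :=
  (S.filter (fun s => h (x * s) = h x ∧ x * s ∉ U)).card

/-- balanced height functions -/
structure HD (S : Finset Γ) (h : Γ → ℝ) (M : ℕ) : Prop where
  c3 : S.card = 3
  inv : ∀ s ∈ S, s⁻¹ ∈ S
  lev : ∀ x, ∃ L : Finset Γ, (∀ y, y ∈ L ↔ h y = h x) ∧ L.card ≤ M
  bal1 : ∀ U : Finset Γ, (∀ x ∈ U, ∀ y ∈ U, h x = h y) →
    ∑ x ∈ U, upc S h x ≤ ∑ x ∈ U, dnc S h x + ∑ x ∈ U, lvc S h U x
  bal2 : ∀ U : Finset Γ, (∀ x ∈ U, ∀ y ∈ U, h x = h y) →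
    ∑ x ∈ U, dnc S h x ≤ ∑ x ∈ U, upc S h x + ∑ x ∈ U, lvc S h U x
  conn : ∀ X : Finset Γ, X.Nonempty → 3 + ee (mm S) X X ≤ 3 * X.card

lemma filter_split (S : Finset Γ) (h : Γ → ℝ) (x : Γ) {L : Finset Γ}
    (hL : ∀ y, y ∈ L ↔ h y = h x) :
    (S.filter (fun s => x * s ∈ L)).card + upc S h x + dnc S h x = S.card := by
  have e1 : (S.filter (fun s => x * s ∈ L)).card = ∑ s ∈ S, if h (x * s) = h x then 1 else 0 := by
    rw [Finset.card_filter]
    apply Finset.sum_congr rfl; intro s _
    simp only [hL]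
  rw [e1, upc, dnc, Finset.card_filter, Finset.card_filter, ← Finset.sum_add_distrib,
    ← Finset.sum_add_distrib, Finset.card_eq_sum_ones]
  apply Finset.sum_congr rfl
  intro s _
  rcases lt_trichotomy (h (x * s)) (h x) with h1 | h1 | h1
  · simp [h1, h1.ne, not_lt.mpr h1.le]
  · simp [h1]
  · simp [h1, h1.ne', not_lt.mpr h1.le]

/-- the level set system -/
lemma HD.sys {S : Finset Γ} {h : Γ → ℝ} {M : ℕ} (H : HD S h M) {x0 : Γ} {L : Finset Γ}
    (hL : ∀ y, y ∈ L ↔ h y = h x0) (hd : 1 ≤ dnc S h x0) :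
    Sys (mm S) (fun _ => 3) L x0 (upc S h) (fun _ => 0)
      (fun x => dnc S h x - (if x = x0 then 1 else 0)) ∧
    ∑ x ∈ L, upc S h x = ∑ x ∈ L, (dnc S h x - (if x = x0 then 1 else 0)) + 1 := by
  have hx0 : x0 ∈ L := (hL x0).mpr rfl
  have hLx : ∀ x ∈ L, ∀ y, y ∈ L ↔ h y = h x := by
    intro x hx y
    rw [(hL x).mp hx]; exact hL y
  have hLU : ∀ U ⊆ L, ∀ x ∈ U, ∀ y ∈ U, h x = h y := by
    intro U hU x hx y hy
    rw [(hL x).mp (hU hx), (hL y).mp (hU hy)]
  have hlv : ∀ U ⊆ L, ∑ x ∈ U, lvc S h U x = ee (mm S) U (L \ U) := by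
    intro U hU
    unfold ee
    apply Finset.sum_congr rfl
    intro x hx
    rw [sum_mm_nat, lvc]
    congr 1
    apply Finset.filter_congr
    intro s _
    rw [Finset.mem_sdiff, hLx x (hU hx)]
  have hQ : ∀ U : Finset Γ, x0 ∉ U →
      ∑ x ∈ U, (dnc S h x - (if x = x0 then 1 else 0)) = ∑ x ∈ U, dnc S h x := by
    intro U hU
    apply Finset.sum_congr rfl
    intro x hx
    have : x ≠ x0 := by rintro rfl; exact hU hx
    simp [this]
  refine ⟨⟨mm_symm H.inv, hx0, fun _ _ => Or.inr rfl, ?_, ?_, ?_, ?_, ?_⟩, ?_⟩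
  · intro x hx
    have := filter_split S h x (hLx x hx)
    rw [← sum_mm_nat, H.c3] at this
    by_cases hxx : x = x0
    · subst hxx; simp only [if_true]; omega
    · simp only [if_neg hxx]; omega
  · intro X _ hn
    have := H.conn X hn
    rw [Finset.sum_const, smul_eq_mul]; omega
  · rintro X _ ⟨x, hx, _⟩
    have := H.conn X ⟨x, hx⟩
    rw [Finset.sum_const, smul_eq_mul]; omega
  · intro X hX hv
    rw [hQ X hv, ← hlv X hX]
    exact H.bal1 X (hLU X hX)
  · intro X hX hv
    rw [hQ X hv, ← hlv X hX]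
    exact H.bal2 X (hLU X hX)
  · have b1 := H.bal1 L (hLU L (Finset.Subset.refl L))
    have b2 := H.bal2 L (hLU L (Finset.Subset.refl L))
    rw [hlv L (Finset.Subset.refl L), Finset.sdiff_self, ee_empty_right] at b1 b2
    have e1 := Finset.add_sum_erase L (dnc S h) hx0
    have e2 := Finset.add_sum_erase L (fun x => dnc S h x - (if x = x0 then 1 else 0)) hx0
    have e3 := hQ (L.erase x0) (by simp)
    simp only [if_true] at e2
    omega

/-- growth inside a level set -/
lemma growth_step {S : Finset Γ} {h : Γ → ℝ} {M : ℕ} (H : HD S h M) {N : ℕ} {r : ℝ}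
    (IH : ∀ x (F : Finset Γ), 1 ≤ dnc S h x → (∀ y ∈ F, h y < h x) → r ≤ GG S N x F)
    (A : Finset Γ) (t : ℝ) (hA : ∀ y ∈ A, h y = t) (x : Γ) (hx : x ∈ A) (F : Finset Γ)
    (hF : ∀ y ∈ F, h y ≤ t) (hFA : Disjoint F A) :
    1 + r * Sv (mm S) (fun _ => zz) (fun y => (upc S h y : ℝ)) A x ≤ GG S (N + A.card) x F := by
  induction A using set_induct generalizing x F with
  | H A ih =>
    have hc : N + A.card = (N + (A.erase x).card) + 1 := by
      rw [Finset.card_erase_of_mem hx]
      have : 0 < A.card := Finset.card_pos.mpr ⟨x, hx⟩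
      omega
    have hzp := zz_pos
    rw [hc, GG_succ, Sv_mem hx]
    have hhx : h x = t := hA x hx
    have hxF : ∀ y ∈ insert x F, h y ≤ t := by
      intro y hy
      rcases Finset.mem_insert.mp hy with rfl | hy
      · exact hhx.le
      · exact hF y hy
    have hdis : Disjoint (insert x F) (A.erase x) := by
      rw [Finset.disjoint_left]
      intro y hy hy'
      obtain ⟨h1, h2⟩ := Finset.mem_erase.mp hy'
      rcases Finset.mem_insert.mp hy with h3 | h3
      · exact h1 h3
      · exact Finset.disjoint_left.mp hFA h3 h2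
    set g : Γ → ℝ := fun u => Sv (mm S) (fun _ => zz) (fun y => (upc S h y : ℝ)) (A.erase x) u
      with hg
    have hgn : ∀ u, 0 ≤ g u := fun u =>
      Sv_nonneg _ (fun _ _ => hzp.le) (fun _ _ => Nat.cast_nonneg _) u
    have key : ∀ s ∈ S, (if h x < h (x * s) then r else 0) +
        (if x * s ∈ A.erase x then r * g (x * s) else 0) ≤
        if x * s ∈ insert x F then 0 else GG S (N + (A.erase x).card) (x * s) (insert x F) := by
      intro s hs
      by_cases h1 : h x < h (x * s)
      · have h2 : x * s ∉ A.erase x := by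
          intro hh
          have := hA _ (Finset.mem_of_mem_erase hh)
          rw [this, hhx] at h1; exact lt_irrefl _ h1
        have h3 : x * s ∉ insert x F := by
          intro hh
          have := hxF _ hh
          rw [hhx] at h1; linarith
        rw [if_pos h1, if_neg h2, if_neg h3, add_zero]
        have h4 : r ≤ GG S N (x * s) (insert x F) := by
          apply IH
          · unfold dnc
            rw [Nat.succ_le_iff, Finset.card_pos]
            refine ⟨s⁻¹, Finset.mem_filter.mpr ⟨H.inv s hs, ?_⟩⟩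
            rw [mul_inv_cancel_right]; exact h1
          · intro y hy
            have := hxF y hy
            rw [hhx] at h1; linarith
        exact h4.trans (GG_mono S (by omega) _ _)
      · rw [if_neg h1, zero_add]
        by_cases h2 : x * s ∈ A.erase x
        · have h3 : x * s ∉ insert x F := fun hh => Finset.disjoint_left.mp hdis hh h2
          rw [if_pos h2, if_neg h3]
          have := ih x hx (fun y hy => hA y (Finset.mem_of_mem_erase hy)) (x * s) h2
            (insert x F) hxF hdis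
          linarith
        · rw [if_neg h2]
          split_ifs
          · exact le_rfl
          · exact GG_nonneg _ _ _ _
    have h1 := Finset.sum_le_sum key
    rw [Finset.sum_add_distrib] at h1
    have e1 : ∑ s ∈ S, (if h x < h (x * s) then r else 0) = r * (upc S h x : ℝ) := by
      rw [← Finset.sum_filter, Finset.sum_const, upc, nsmul_eq_mul, mul_comm]
    have e2 : ∑ s ∈ S, (if x * s ∈ A.erase x then r * g (x * s) else 0) =
        r * ∑ u ∈ A.erase x, ((mm S x u : ℕ) : ℝ) * g u := by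
      rw [sum_mm (R := ℝ) S x (A.erase x) g, Finset.mul_sum]
      apply Finset.sum_congr rfl; intro s _
      split_ifs <;> simp
    rw [e1, e2] at h1
    have h2 : zz * (r * (upc S h x : ℝ) + r * ∑ u ∈ A.erase x, ((mm S x u : ℕ) : ℝ) * g u) ≤
        zz * ∑ s ∈ S, (if x * s ∈ insert x F then 0 else
          GG S (N + (A.erase x).card) (x * s) (insert x F)) :=
      mul_le_mul_of_nonneg_left h1 hzp.le
    have e3 : r * (zz * ((upc S h x : ℝ) + ∑ u ∈ A.erase x, ((mm S x u : ℕ) : ℝ) * g u)) =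
        zz * (r * (upc S h x : ℝ) + r * ∑ u ∈ A.erase x, ((mm S x u : ℕ) : ℝ) * g u) := by ring
    rw [e3]
    linarith

lemma HD.growth {S : Finset Γ} {h : Γ → ℝ} {M : ℕ} (H : HD S h M) (r : ℕ) :
    ∃ N, ∀ x (F : Finset Γ), 1 ≤ dnc S h x → (∀ y ∈ F, h y < h x) → (r : ℝ) ≤ GG S N x F := by
  induction r with
  | zero => exact ⟨0, fun x F _ _ => by simpa using GG_nonneg S 0 x F⟩
  | succ r ih =>
    obtain ⟨N, hN⟩ := ih
    refine ⟨N + M, fun x F hd hF => ?_⟩
    obtain ⟨L, hL, hcard⟩ := H.lev x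
    have hxL : x ∈ L := (hL x).mpr rfl
    have h1 := growth_step H hN L (h x) (fun y hy => (hL y).mp hy) x hxL F
      (fun y hy => (hF y hy).le)
      (by
        rw [Finset.disjoint_left]
        intro y hy hy'
        have := hF y hy
        rw [(hL y).mp hy'] at this
        exact lt_irrefl _ this)
    obtain ⟨hS, hb⟩ := H.sys hL hd
    have h2 := main_exit hS hb
    have h3 : (r : ℝ) * 1 ≤ r * Sv (mm S) (fun _ => zz) (fun y => (upc S h y : ℝ)) L x :=
      mul_le_mul_of_nonneg_left h2 (Nat.cast_nonneg r)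
    have h4 := GG_mono S (show N + L.card ≤ N + M by omega) x F
    push_cast
    linarith

theorem HD.golden {S : Finset Γ} {h : Γ → ℝ} {M : ℕ} (H : HD S h M)
    (hex : ∃ x, 1 ≤ dnc S h x) (k : ℕ) :
    Real.goldenRatio ^ k ≤ (sg S k 1 ∅ : ℝ) := by
  obtain ⟨x, hx⟩ := hex
  apply golden_of_unbounded
  intro C
  obtain ⟨r, hr⟩ := exists_nat_gt C
  obtain ⟨N, hN⟩ := H.growth r
  refine ⟨N, ?_⟩
  have := hN x ∅ hx (by simp)
  rw [GG_root] at this
  linarith

end

end Pool.Agent.TH496
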