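import Pool.Agent.TH496.GG2

set_option autoImplicit false
set_option linter.unusedSectionVars false

/-! Edge connectivity of infinite cubic Cayley graphs. -/

namespace Pool.Agent.TH496

open Finset

section
variable {Γ : Type*} [Group Γ] [DecidableEq Γ]

lemma ee_supermod {V : Type*} [DecidableEq V] (m : V → V → ℕ) (X Y : Finset V) :
    ee m X X + ee m Y Y ≤ ee m (X ∩ Y) (X ∩ Y) + ee m (X ∪ Y) (X ∪ Y) := by
  have hu : X ∪ Y = X ∪ (Y \ X) := by simp
  have hd1 : Disjoint X (Y \ X) := Finset.disjoint_sdiff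
  have hy : Y = (X ∩ Y) ∪ (Y \ X) := by
    ext x; simp only [Finset.mem_union, Finset.mem_inter, Finset.mem_sdiff]
    tauto
  have hd2 : Disjoint (X ∩ Y) (Y \ X) := by
    rw [Finset.disjoint_left]; intro x hx hx'
    exact (Finset.mem_sdiff.mp hx').2 (Finset.mem_inter.mp hx).1
  have e1 : ee m (X ∪ Y) (X ∪ Y) =
      ee m X X + ee m X (Y \ X) + (ee m (Y \ X) X + ee m (Y \ X) (Y \ X)) := by
    rw [hu, ee_union_left hd1, ee_union_right hd1, ee_union_right hd1]
  have e2 : ee m Y Y = ee m (X ∩ Y) (X ∩ Y) + ee m (X ∩ Y) (Y \ X) +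
      (ee m (Y \ X) (X ∩ Y) + ee m (Y \ X) (Y \ X)) := by
    conv_lhs => rw [hy]
    rw [ee_union_left hd2, ee_union_right hd2, ee_union_right hd2]
  have e3 : ee m (X ∩ Y) (Y \ X) ≤ ee m X (Y \ X) := ee_le_left Finset.inter_subset_left _
  have e4 : ee m (Y \ X) (X ∩ Y) ≤ ee m (Y \ X) X := ee_le_right Finset.inter_subset_left _
  omega

lemma ee_translate (S : Finset Γ) (g : Γ) (X : Finset Γ) :
    ee (mm S) (X.image (fun y => g * y)) (X.image (fun y => g * y)) = ee (mm S) X X := by
  unfold ee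
  rw [Finset.sum_image (fun a _ b _ h => mul_left_cancel h)]
  apply Finset.sum_congr rfl; intro x _
  rw [Finset.sum_image (fun a _ b _ h => mul_left_cancel h)]
  apply Finset.sum_congr rfl; intro y _
  unfold mm
  rw [mul_inv_rev, mul_assoc, inv_mul_cancel_left]

lemma ee_le_three (S : Finset Γ) (hc : S.card = 3) (X : Finset Γ) :
    ee (mm S) X X ≤ 3 * X.card := by
  unfold ee
  calc ∑ x ∈ X, ∑ y ∈ X, mm S x y ≤ ∑ x ∈ X, 3 := by
        apply Finset.sum_le_sum
        intro x _
        rw [sum_mm_nat, ← hc]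
        exact Finset.card_filter_le _ _
    _ = 3 * X.card := by rw [Finset.sum_const, smul_eq_mul, mul_comm]

theorem edge_conn [Infinite Γ] (S : Finset Γ) (hc : S.card = 3) (h1 : (1 : Γ) ∉ S)
    (hgen : Subgroup.closure (S : Set Γ) = ⊤)
    (X : Finset Γ) (hX : X.Nonempty) : 3 + ee (mm S) X X ≤ 3 * X.card := by
  classical
  by_contra hcon
  push Not at hcon
  -- boundary
  set bd : Finset Γ → ℕ := fun X => 3 * X.card - ee (mm S) X X with hbd
  have hbd' : ∀ X, bd X + ee (mm S) X X = 3 * X.card := by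
    intro X
    have := ee_le_three S hc X
    simp only [hbd]; omega
  -- minimal boundary
  have hex1 : ∃ k, ∃ X : Finset Γ, X.Nonempty ∧ bd X = k := ⟨_, X, hX, rfl⟩
  set κ := Nat.find hex1 with hκ
  obtain ⟨X1, hX1, hbX1⟩ := Nat.find_spec hex1
  have hmin1 : ∀ Y : Finset Γ, Y.Nonempty → κ ≤ bd Y := fun Y hY =>
    Nat.find_min' hex1 ⟨Y, hY, rfl⟩
  have hex2 : ∃ n, ∃ X : Finset Γ, X.Nonempty ∧ bd X = κ ∧ X.card = n :=
    ⟨_, X1, hX1, hbX1, rfl⟩
  obtain ⟨X2, hX2, hbX2, hcX2⟩ := Nat.find_spec hex2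
  have hmin2 : ∀ Y : Finset Γ, Y.Nonempty → bd Y = κ → X2.card ≤ Y.card := fun Y hY hb => by
    rw [hcX2]; exact Nat.find_min' hex2 ⟨Y, hY, hb, rfl⟩
  have hκ2 : κ ≤ 2 := by
    have h2 := hmin1 X hX
    have h3 := hbd' X
    omega
  -- translations
  have hbt : ∀ (g : Γ) (Y : Finset Γ), bd (Y.image (fun y => g * y)) = bd Y := by
    intro g Y
    simp only [hbd]
    rw [ee_translate, Finset.card_image_of_injective _ (mul_right_injective g)]
  have hct : ∀ (g : Γ) (Y : Finset Γ), (Y.image (fun y => g * y)).card = Y.card := fun g Y =>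
    Finset.card_image_of_injective _ (mul_right_injective g)
  obtain ⟨x0, hx0⟩ := hX2
  set Z := X2.image (fun y => x0⁻¹ * y) with hZ
  have h1Z : (1 : Γ) ∈ Z := by
    rw [hZ, Finset.mem_image]; exact ⟨x0, hx0, by simp⟩
  have hbZ : bd Z = κ := by rw [hZ, hbt, hbX2]
  have hcZ : Z.card = X2.card := by rw [hZ, hct]
  have htr : ∀ x ∈ Z, Z.image (fun y => x⁻¹ * y) = Z := by
    intro x hx
    set Y := Z.image (fun y => x⁻¹ * y) with hY
    have h1Y : (1 : Γ) ∈ Y := by
      rw [hY, Finset.mem_image]; exact ⟨x, hx, by simp⟩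
    have hbY : bd Y = κ := by rw [hY, hbt, hbZ]
    have hcY : Y.card = Z.card := by rw [hY, hct]
    have hi : (Z ∩ Y).Nonempty := ⟨1, Finset.mem_inter.mpr ⟨h1Z, h1Y⟩⟩
    have hun : (Z ∪ Y).Nonempty := ⟨1, Finset.mem_union_left _ h1Z⟩
    have g1 := hmin1 _ hi
    have g2 := hmin1 _ hun
    have g3 := ee_supermod (mm S) Z Y
    have g4 := Finset.card_union_add_card_inter Z Y
    have a1 := hbd' Z
    have a2 := hbd' Y
    have a3 := hbd' (Z ∩ Y)
    have a4 := hbd' (Z ∪ Y)
    have g5 : bd (Z ∩ Y) = κ := by omega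
    have g6 := hmin2 _ hi g5
    have g7 : Z ∩ Y = Z := Finset.eq_of_subset_of_card_le Finset.inter_subset_left (by omega)
    have g8 : Z ⊆ Y := by
      rw [← g7]; exact Finset.inter_subset_right
    exact (Finset.eq_of_subset_of_card_le g8 (by omega)).symm
  have hdiv : ∀ x ∈ Z, ∀ y, x⁻¹ * y ∈ Z ↔ y ∈ Z := by
    intro x hx y
    constructor
    · intro hh
      rw [← htr x hx, Finset.mem_image] at hh
      obtain ⟨y', hy', he⟩ := hh
      rwa [mul_left_cancel he] at hy'
    · intro hh
      rw [← htr x hx, Finset.mem_image]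
      exact ⟨y, hh, rfl⟩
  -- Z is a subgroup
  let K : Subgroup Γ :=
    { carrier := (Z : Set Γ)
      one_mem' := h1Z
      mul_mem' := by
        intro a b ha hb
        have ha' : a⁻¹ ∈ Z := by
          have := (hdiv a ha 1).mpr h1Z
          simpa using this
        have := (hdiv a⁻¹ ha' b).mpr hb
        simpa using this
      inv_mem' := by
        intro a ha
        have := (hdiv a ha 1).mpr h1Z
        simpa using this }
  have hrow : ∀ x ∈ Z, ∑ u ∈ Z, mm S x u = (S.filter (fun s => s ∈ Z)).card := by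
    intro x hx
    rw [sum_mm_nat]
    congr 1
    apply Finset.filter_congr
    intro s _
    rw [← hdiv x hx (x * s), inv_mul_cancel_left]
  have hee : ee (mm S) Z Z = Z.card * (S.filter (fun s => s ∈ Z)).card := by
    unfold ee
    rw [Finset.sum_congr rfl hrow, Finset.sum_const, smul_eq_mul]
  have ha3 : (S.filter (fun s => s ∈ Z)).card ≤ 3 := by
    rw [← hc]; exact Finset.card_filter_le _ _
  have hcardZ : 1 + (S.filter (fun s => s ∈ Z)).card ≤ Z.card := by
    have h2 : insert 1 (S.filter (fun s => s ∈ Z)) ⊆ Z := by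
      intro t ht
      rcases Finset.mem_insert.mp ht with rfl | ht
      · exact h1Z
      · exact (Finset.mem_filter.mp ht).2
    have h3 := Finset.card_le_card h2
    rw [Finset.card_insert_of_notMem] at h3
    · omega
    · intro hh; exact h1 (Finset.mem_filter.mp hh).1
  have hZb := hbd' Z
  rw [hbZ, hee] at hZb
  set a := (S.filter (fun s => s ∈ Z)).card with ha
  have hane : a ≠ 3 := by
    intro ha3'
    have hSZ : S.filter (fun s => s ∈ Z) = S := by
      apply Finset.eq_of_subset_of_card_le (Finset.filter_subset _ _)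
      rw [hc, ← ha, ha3']
    have hSK : (S : Set Γ) ⊆ K := by
      intro s hs
      rw [← hSZ] at hs
      exact (Finset.mem_filter.mp hs).2
    have hK : K = ⊤ := by
      rw [eq_top_iff, ← hgen]
      exact (Subgroup.closure_le K).mpr hSK
    have hfin : (Set.univ : Set Γ).Finite := by
      have : (Set.univ : Set Γ) = (Z : Set Γ) := by
        ext y
        simp only [Set.mem_univ, true_iff]
        have : y ∈ K := by rw [hK]; trivial
        exact this
      rw [this]; exact Z.finite_toSet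
    exact Set.infinite_univ hfin
  have ha2 : a ≤ 2 := by omega
  clear_value a
  interval_cases a <;> omega

end

end Pool.Agent.TH496
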