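import Pool.Agent.TH496.GG3

set_option autoImplicit false
set_option linter.unusedSectionVars false

/-! Total variation minimising equivariant height functions. -/

namespace Pool.Agent.TH496

open Finset

section
variable {Γ : Type*} [Group Γ] (H : Subgroup Γ)

/-- class of `g` in `H \ Γ` -/
def qq (g : Γ) : Γ ⧸ H := QuotientGroup.mk g⁻¹

/-- representative -/
noncomputable def rp (i : Γ ⧸ H) : Γ := (Quotient.out i)⁻¹

lemma qq_rp (i : Γ ⧸ H) : qq H (rp H i) = i := by
  unfold qq rp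
  rw [inv_inv]
  exact QuotientGroup.out_eq' i

lemma qq_eq (g g' : Γ) : qq H g = qq H g' ↔ g * g'⁻¹ ∈ H := by
  unfold qq
  rw [QuotientGroup.eq, inv_inv]

lemma qq_mul {a : Γ} (ha : a ∈ H) (g : Γ) : qq H (a * g) = qq H g := by
  rw [qq_eq]; simpa using ha

lemma rp_mem (g : Γ) : g * (rp H (qq H g))⁻¹ ∈ H := by
  rw [← qq_eq, qq_rp]

lemma qq_mul_right {g g' : Γ} (h : qq H g = qq H g') (s : Γ) : qq H (g * s) = qq H (g' * s) := by
  rw [qq_eq] at h ⊢
  have : g * s * (g' * s)⁻¹ = g * g'⁻¹ := by group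
  rwa [this]

variable (τ : Γ → ℝ)

/-- equivariant functions -/
def Equi (h : Γ → ℝ) : Prop := ∀ a ∈ H, ∀ g, h (a * g) = τ a + h g

/-- base equivariant function -/
noncomputable def base (g : Γ) : ℝ := τ (g * (rp H (qq H g))⁻¹)

lemma base_equi (hτ : ∀ a ∈ H, ∀ b ∈ H, τ (a * b) = τ a + τ b) : Equi H τ (base H τ) := by
  intro a ha g
  unfold base
  rw [qq_mul H ha, mul_assoc, hτ a ha _ (rp_mem H g)]

lemma equi_add {h : Γ → ℝ} (hh : Equi H τ h) (x : Γ ⧸ H → ℝ) :
    Equi H τ (fun g => h g + x (qq H g)) := by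
  intro a ha g
  simp only
  rw [hh a ha, qq_mul H ha]; ring

variable [Fintype (Γ ⧸ H)] (S : Finset Γ)

/-- total variation -/
noncomputable def TV (h : Γ → ℝ) : ℝ := ∑ i : Γ ⧸ H, ∑ s ∈ S, |h (rp H i * s) - h (rp H i)|

lemma TV_nonneg (h : Γ → ℝ) : 0 ≤ TV H S h :=
  Finset.sum_nonneg fun _ _ => Finset.sum_nonneg fun _ _ => abs_nonneg _

lemma TV_edge {h : Γ → ℝ} (hh : Equi H τ h) {s : Γ} (hs : s ∈ S) (g : Γ) :
    |h (g * s) - h g| ≤ TV H S h := by
  have h1 : h (g * s) - h g = h (rp H (qq H g) * s) - h (rp H (qq H g)) := by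
    have e1 : g = (g * (rp H (qq H g))⁻¹) * rp H (qq H g) := by group
    have e2 : g * s = (g * (rp H (qq H g))⁻¹) * (rp H (qq H g) * s) := by group
    have e3 := hh _ (rp_mem H g) (rp H (qq H g))
    have e4 := hh _ (rp_mem H g) (rp H (qq H g) * s)
    rw [← e1] at e3
    rw [← e2] at e4
    rw [e3, e4]; ring
  rw [h1]
  have h2 : |h (rp H (qq H g) * s) - h (rp H (qq H g))| ≤
      ∑ s ∈ S, |h (rp H (qq H g) * s) - h (rp H (qq H g))| :=
    Finset.single_le_sum (f := fun s => |h (rp H (qq H g) * s) - h (rp H (qq H g))|)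
      (fun _ _ => abs_nonneg _) hs
  refine h2.trans ?_
  exact Finset.single_le_sum (f := fun i => ∑ s ∈ S, |h (rp H i * s) - h (rp H i)|)
    (fun _ _ => Finset.sum_nonneg fun _ _ => abs_nonneg _) (Finset.mem_univ _)

lemma TV_path (hgen : Subgroup.closure (S : Set Γ) = ⊤) (g : Γ) :
    ∃ C : ℝ, 0 ≤ C ∧ ∀ h : Γ → ℝ, Equi H τ h → ∀ g0, |h (g0 * g) - h g0| ≤ C * TV H S h := by
  have hg : g ∈ Subgroup.closure (S : Set Γ) := by rw [hgen]; trivial
  induction hg using Subgroup.closure_induction with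
  | mem s hs =>
    exact ⟨1, zero_le_one, fun h hh g0 => by rw [one_mul]; exact TV_edge H τ S hh hs g0⟩
  | one => exact ⟨0, le_rfl, fun h _ g0 => by simp⟩
  | mul x y _ _ ihx ihy =>
    obtain ⟨C1, hC1, h1⟩ := ihx
    obtain ⟨C2, hC2, h2⟩ := ihy
    refine ⟨C1 + C2, by linarith, fun h hh g0 => ?_⟩
    have a1 := h1 h hh g0
    have a2 := h2 h hh (g0 * x)
    rw [← mul_assoc]
    calc |h (g0 * x * y) - h g0| = |(h (g0 * x * y) - h (g0 * x)) + (h (g0 * x) - h g0)| := by
          congr 1; ring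
      _ ≤ |h (g0 * x * y) - h (g0 * x)| + |h (g0 * x) - h g0| := abs_add_le _ _
      _ ≤ (C1 + C2) * TV H S h := by linarith
  | inv x _ ih =>
    obtain ⟨C, hC, h1⟩ := ih
    refine ⟨C, hC, fun h hh g0 => ?_⟩
    have a1 := h1 h hh (g0 * x⁻¹)
    rw [inv_mul_cancel_right] at a1
    rwa [abs_sub_comm] at a1

theorem exists_min (hτ : ∀ a ∈ H, ∀ b ∈ H, τ (a * b) = τ a + τ b)
    (hgen : Subgroup.closure (S : Set Γ) = ⊤) :
    ∃ h : Γ → ℝ, Equi H τ h ∧ ∀ f : Γ ⧸ H → ℝ, TV H S h ≤ TV H S (fun g => h g + f (qq H g)) := by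
  classical
  have hb := base_equi H τ hτ
  set hx : (Γ ⧸ H → ℝ) → Γ → ℝ := fun x g => base H τ g + x (qq H g) with hhx
  have hxe : ∀ x, Equi H τ (hx x) := fun x => equi_add H τ hb x
  have hcont : ∀ g, Continuous fun x : Γ ⧸ H → ℝ => hx x g := by
    intro g
    simp only [hhx]
    exact continuous_const.add (continuous_apply _)
  have hΦ : Continuous fun x : Γ ⧸ H → ℝ => TV H S (hx x) := by
    unfold TV
    apply continuous_finsetSum; intro i _
    apply continuous_finsetSum; intro s _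
    exact ((hcont _).sub (hcont _)).abs
  -- normalisation
  have hnorm : ∀ y : Γ ⧸ H → ℝ, ∃ y' : Γ ⧸ H → ℝ, hx y' 1 = 0 ∧ TV H S (hx y') = TV H S (hx y) := by
    intro y
    refine ⟨fun i => y i - hx y 1, ?_, ?_⟩
    · simp only [hhx]; ring
    · unfold TV
      apply Finset.sum_congr rfl; intro i _
      apply Finset.sum_congr rfl; intro s _
      congr 1
      simp only [hhx]; ring
  obtain ⟨x0, hx01, _⟩ := hnorm 0
  set K : Set (Γ ⧸ H → ℝ) := {x | hx x 1 = 0 ∧ TV H S (hx x) ≤ TV H S (hx x0)} with hK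
  have hKc : IsClosed K := by
    apply IsClosed.inter
    · exact isClosed_eq (hcont 1) continuous_const
    · exact isClosed_le hΦ continuous_const
  -- boundedness
  have hchoice : ∀ i : Γ ⧸ H, ∃ C : ℝ, 0 ≤ C ∧ ∀ h : Γ → ℝ, Equi H τ h → ∀ g0,
      |h (g0 * rp H i) - h g0| ≤ C * TV H S h := fun i => TV_path H τ S hgen (rp H i)
  choose C hC0 hC using hchoice
  have hbase : ∀ i : Γ ⧸ H, ∃ c : ℝ, ∀ x, hx x (rp H i) = c + x i := by
    intro i
    refine ⟨base H τ (rp H i), fun x => ?_⟩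
    simp only [hhx]; rw [qq_rp]
  choose cb hcb using hbase
  have hKb : Bornology.IsBounded K := by
    set T := TV H S (hx x0) with hT
    have hT0 : 0 ≤ T := TV_nonneg H S _
    set R := ∑ i : Γ ⧸ H, (C i * T + |cb i|) with hR
    rw [Metric.isBounded_iff_subset_closedBall 0]
    refine ⟨R, fun x hxK => ?_⟩
    rw [Metric.mem_closedBall, dist_zero_right, pi_norm_le_iff_of_nonneg]
    · intro i
      have a1 := hC i (hx x) (hxe x) 1
      rw [one_mul, hxK.1, sub_zero, hcb] at a1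
      have a2 : C i * TV H S (hx x) ≤ C i * T := mul_le_mul_of_nonneg_left hxK.2 (hC0 i)
      have a3 : |x i| ≤ |cb i + x i| + |cb i| := by
        have : x i = (cb i + x i) - cb i := by ring
        calc |x i| = |(cb i + x i) - cb i| := by rw [← this]
          _ ≤ |cb i + x i| + |cb i| := abs_sub _ _
      have a4 : C i * T + |cb i| ≤ R :=
        Finset.single_le_sum (f := fun i => C i * T + |cb i|)
          (fun i _ => add_nonneg (mul_nonneg (hC0 i) hT0) (abs_nonneg _)) (Finset.mem_univ i)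
      rw [Real.norm_eq_abs]
      linarith
    · exact Finset.sum_nonneg fun i _ => add_nonneg (mul_nonneg (hC0 i) hT0) (abs_nonneg _)
  have hKcomp : IsCompact K := Metric.isCompact_of_isClosed_isBounded hKc hKb
  have hKne : K.Nonempty := ⟨x0, hx01, le_rfl⟩
  obtain ⟨x, hxK, hmin⟩ := hKcomp.exists_isMinOn hKne hΦ.continuousOn
  have hglob : ∀ y, TV H S (hx x) ≤ TV H S (hx y) := by
    intro y
    obtain ⟨y', hy1, hy2⟩ := hnorm y
    rw [← hy2]
    by_cases hle : TV H S (hx y') ≤ TV H S (hx x0)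
    · exact hmin ⟨hy1, hle⟩
    · exact hxK.2.trans (not_le.mp hle).le
  refine ⟨hx x, hxe x, fun f => ?_⟩
  have := hglob (fun i => x i + f i)
  refine this.trans (le_of_eq ?_)
  congr 1
  funext g
  simp only [hhx]; ring

end

end Pool.Agent.TH496
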