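import Pool.Agent.TH496.GG4

set_option autoImplicit false
set_option linter.unusedSectionVars false

/-! Balance of minimising height functions on finite subsets of level sets. -/

namespace Pool.Agent.TH496

open Finset

section
variable {Γ : Type*} [Group Γ] [DecidableEq Γ] (H : Subgroup Γ)
variable (τ : Γ → ℝ) [Fintype (Γ ⧸ H)] (S : Finset Γ)

/-- mass transport -/
lemma mass_transport (hS : ∀ s ∈ S, s⁻¹ ∈ S) (F : Γ → Γ → ℝ)
    (hF : ∀ a ∈ H, ∀ x y, F (a * x) (a * y) = F x y) :
    ∑ i : Γ ⧸ H, ∑ s ∈ S, F (rp H i) (rp H i * s) =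
      ∑ i : Γ ⧸ H, ∑ s ∈ S, F (rp H i * s) (rp H i) := by
  have key : ∀ s : Γ, ∑ i : Γ ⧸ H, F (rp H i) (rp H i * s) =
      ∑ j : Γ ⧸ H, F (rp H j * s⁻¹) (rp H j) := by
    intro s
    have hinv : ∀ (t : Γ) (i : Γ ⧸ H), qq H (rp H (qq H (rp H i * t)) * t⁻¹) = i := by
      intro t i
      have h1 : qq H (rp H (qq H (rp H i * t))) = qq H (rp H i * t) := qq_rp H _
      have h2 := qq_mul_right H h1 t⁻¹
      rw [h2, mul_inv_cancel_right, qq_rp]
    refine Finset.sum_nbij' (fun i => qq H (rp H i * s)) (fun j => qq H (rp H j * s⁻¹))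
      (fun _ _ => Finset.mem_univ _) (fun _ _ => Finset.mem_univ _)
      (fun i _ => hinv s i) (fun j _ => ?_) (fun i _ => ?_)
    · have := hinv s⁻¹ j
      rwa [inv_inv] at this
    · set r := rp H (qq H (rp H i * s)) with hr
      have ha : r * (rp H i * s)⁻¹ ∈ H := by
        rw [← qq_eq, hr, qq_rp]
      have e1 := hF _ ha (rp H i) (rp H i * s)
      have e2 : r * (rp H i * s)⁻¹ * (rp H i * s) = r := by group
      have e3 : r * (rp H i * s)⁻¹ * rp H i = r * s⁻¹ := by group
      rw [e2, e3] at e1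
      exact e1.symm
  rw [Finset.sum_comm]
  rw [Finset.sum_congr rfl fun s _ => key s]
  rw [Finset.sum_comm (s := Finset.univ)]
  refine Finset.sum_nbij' (fun s => s⁻¹) (fun s => s⁻¹) (fun s hs => hS s hs)
    (fun s hs => hS s hs) (fun s _ => inv_inv s) (fun s _ => inv_inv s) (fun s _ => rfl)

/-- first order inequality at a minimiser -/
lemma first_order {h : Γ → ℝ} (f : Γ ⧸ H → ℝ)
    (hmin : ∀ f : Γ ⧸ H → ℝ, TV H S h ≤ TV H S (fun g => h g + f (qq H g))) :
    0 ≤ ∑ i : Γ ⧸ H, ∑ s ∈ S, (SignType.sign (h (rp H i * s) - h (rp H i)) *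
        (f (qq H (rp H i * s)) - f i) +
      (if h (rp H i * s) = h (rp H i) then |f (qq H (rp H i * s)) - f i| else 0)) := by
  set D : (Γ ⧸ H) → Γ → ℝ := fun i s => h (rp H i * s) - h (rp H i) with hD
  set δ : (Γ ⧸ H) → Γ → ℝ := fun i s => f (qq H (rp H i * s)) - f i with hδ
  -- small parameter
  obtain ⟨ε, hε, hsmall⟩ : ∃ ε : ℝ, 0 < ε ∧ ∀ i, ∀ s ∈ S, D i s ≠ 0 → ε * |δ i s| ≤ |D i s| := by
    have h1 : ∀ i, ∀ s ∈ S, ∃ e : ℝ, 0 < e ∧ ∀ ε, 0 < ε → ε ≤ e → D i s ≠ 0 →
        ε * |δ i s| ≤ |D i s| := by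
      intro i s _
      by_cases h0 : D i s = 0
      · exact ⟨1, one_pos, fun ε _ _ h => absurd h0 h⟩
      · refine ⟨|D i s| / (|δ i s| + 1), by positivity, fun ε _ he _ => ?_⟩
        have hp : 0 < |δ i s| + 1 := by positivity
        rw [le_div_iff₀ hp] at he
        nlinarith [abs_nonneg (δ i s)]
    have h2 : ∀ T : Finset ((Γ ⧸ H) × Γ), (∀ p ∈ T, p.2 ∈ S) → ∃ e : ℝ, 0 < e ∧
        ∀ p ∈ T, ∀ ε, 0 < ε → ε ≤ e → D p.1 p.2 ≠ 0 → ε * |δ p.1 p.2| ≤ |D p.1 p.2| := by
      classical
      intro T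
      induction T using Finset.induction_on with
      | empty => intro _; exact ⟨1, one_pos, by simp⟩
      | insert p T _ ih =>
        intro hT
        obtain ⟨e1, he1, h1'⟩ := ih fun q hq => hT q (Finset.mem_insert_of_mem hq)
        obtain ⟨e2, he2, h2'⟩ := h1 p.1 p.2 (hT p (Finset.mem_insert_self _ _))
        refine ⟨min e1 e2, lt_min he1 he2, ?_⟩
        intro q hq ε hε hle hne
        rcases Finset.mem_insert.mp hq with rfl | hq
        · exact h2' ε hε (hle.trans (min_le_right _ _)) hne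
        · exact h1' q hq ε hε (hle.trans (min_le_left _ _)) hne
    obtain ⟨e, he, h3⟩ := h2 (Finset.univ ×ˢ S) (by
      intro p hp; exact (Finset.mem_product.mp hp).2)
    exact ⟨e, he, fun i s hs hne => h3 (i, s) (Finset.mem_product.mpr ⟨Finset.mem_univ _, hs⟩)
      e he le_rfl hne⟩
  have h1 := hmin (fun i => ε * f i)
  have hterm : ∀ i, ∀ s ∈ S, |D i s + ε * δ i s| = |D i s| +
      ε * (SignType.sign (D i s) * δ i s + (if h (rp H i * s) = h (rp H i) then |δ i s| else 0)) := by
    intro i s hs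
    by_cases h0 : D i s = 0
    · have h0' : h (rp H i * s) = h (rp H i) := sub_eq_zero.mp h0
      rw [h0, if_pos h0', zero_add, abs_mul, abs_of_pos hε]
      simp
    · have h0' : ¬ h (rp H i * s) = h (rp H i) := fun hh => h0 (sub_eq_zero.mpr hh)
      rw [if_neg h0', add_zero]
      have hs' := hsmall i s hs h0
      have hs2 : |ε * δ i s| ≤ |D i s| := by rw [abs_mul, abs_of_pos hε]; exact hs'
      rcases lt_or_gt_of_ne h0 with hneg | hpos
      · rw [sign_neg hneg, abs_of_neg hneg] at *
        have := abs_le.mp hs2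
        rw [abs_of_nonpos (by linarith [this.2])]
        simp; ring
      · rw [sign_pos hpos, abs_of_pos hpos] at *
        have := abs_le.mp hs2
        rw [abs_of_nonneg (by linarith [this.1])]
        simp
  have h2 : TV H S (fun g => h g + ε * f (qq H g)) = TV H S h +
      ε * ∑ i : Γ ⧸ H, ∑ s ∈ S, (SignType.sign (D i s) * δ i s +
        (if h (rp H i * s) = h (rp H i) then |δ i s| else 0)) := by
    unfold TV
    rw [Finset.mul_sum, ← Finset.sum_add_distrib]
    apply Finset.sum_congr rfl; intro i _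
    rw [Finset.mul_sum, ← Finset.sum_add_distrib]
    apply Finset.sum_congr rfl; intro s hs
    rw [← hterm i s hs]
    congr 1
    simp only [hD, hδ]
    rw [qq_rp]; ring
  rw [h2] at h1
  have h3 : 0 ≤ ε * ∑ i : Γ ⧸ H, ∑ s ∈ S, (SignType.sign (D i s) * δ i s +
        (if h (rp H i * s) = h (rp H i) then |δ i s| else 0)) := by linarith
  exact nonneg_of_mul_nonneg_right h3 hε

lemma equi_diff {h : Γ → ℝ} (hh : Equi H τ h) (g s : Γ) :
    h (g * s) - h g = h (rp H (qq H g) * s) - h (rp H (qq H g)) := by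
  have e1 : g = (g * (rp H (qq H g))⁻¹) * rp H (qq H g) := by group
  have e2 : g * s = (g * (rp H (qq H g))⁻¹) * (rp H (qq H g) * s) := by group
  have e3 := hh _ (rp_mem H g) (rp H (qq H g))
  have e4 := hh _ (rp_mem H g) (rp H (qq H g) * s)
  rw [← e1] at e3
  rw [← e2] at e4
  rw [e3, e4]; ring

open scoped Classical in
/-- number of elements of `U` in a class -/
noncomputable def fU (U : Finset Γ) (i : Γ ⧸ H) : ℝ := ∑ u ∈ U, if qq H u = i then 1 else 0

lemma sum_fU (U : Finset Γ) (φ : Γ ⧸ H → ℝ) :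
    ∑ i : Γ ⧸ H, φ i * fU H U i = ∑ u ∈ U, φ (qq H u) := by
  classical
  unfold fU
  simp only [Finset.mul_sum]
  rw [Finset.sum_comm]
  apply Finset.sum_congr rfl; intro u _
  simp

lemma sum_sign (h : Γ → ℝ) (u : Γ) :
    ∑ s ∈ S, ((SignType.sign (h (u * s) - h u) : SignType) : ℝ) =
      (upc S h u : ℝ) - (dnc S h u : ℝ) := by
  unfold upc dnc
  rw [Finset.card_filter, Finset.card_filter]
  push_cast
  rw [← Finset.sum_sub_distrib]
  apply Finset.sum_congr rfl; intro s _
  rcases lt_trichotomy (h (u * s)) (h u) with h1 | h1 | h1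
  · rw [sign_neg (by linarith)]
    simp [h1, not_lt.mpr h1.le]
  · simp [h1]
  · rw [sign_pos (by linarith)]
    simp [h1, not_lt.mpr h1.le]

theorem balance {h : Γ → ℝ} (hh : Equi H τ h) (hS : ∀ s ∈ S, s⁻¹ ∈ S)
    (hmin : ∀ f : Γ ⧸ H → ℝ, TV H S h ≤ TV H S (fun g => h g + f (qq H g))) (U : Finset Γ) :
    |(∑ u ∈ U, (upc S h u : ℝ)) - ∑ u ∈ U, (dnc S h u : ℝ)| ≤ ∑ u ∈ U, (lvc S h U u : ℝ) := by
  classical
  set f := fU H U with hf
  have hdiffinv : ∀ a ∈ H, ∀ x y, h (a * y) - h (a * x) = h y - h x := by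
    intro a ha x y
    rw [hh a ha, hh a ha]; ring
  -- sign part
  have hA : ∑ i : Γ ⧸ H, ∑ s ∈ S, ((SignType.sign (h (rp H i * s) - h (rp H i)) : SignType) : ℝ) *
      f (qq H (rp H i * s)) = - ∑ i : Γ ⧸ H, ∑ s ∈ S,
        ((SignType.sign (h (rp H i * s) - h (rp H i)) : SignType) : ℝ) * f i := by
    have := mass_transport H S hS
      (fun x y => ((SignType.sign (h y - h x) : SignType) : ℝ) * f (qq H y))
      (by
        intro a ha x y
        rw [hdiffinv a ha x y, qq_mul H ha])
    rw [this, ← Finset.sum_neg_distrib]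
    apply Finset.sum_congr rfl; intro i _
    rw [← Finset.sum_neg_distrib]
    apply Finset.sum_congr rfl; intro s _
    rw [qq_rp]
    have e : h (rp H i) - h (rp H i * s) = -(h (rp H i * s) - h (rp H i)) := by ring
    rw [e, Left.sign_neg, SignType.coe_neg]
    ring
  have hB : ∑ i : Γ ⧸ H, ∑ s ∈ S,
        ((SignType.sign (h (rp H i * s) - h (rp H i)) : SignType) : ℝ) * f i =
      (∑ u ∈ U, (upc S h u : ℝ)) - ∑ u ∈ U, (dnc S h u : ℝ) := by
    rw [← Finset.sum_sub_distrib]
    have e : ∀ i : Γ ⧸ H, ∑ s ∈ S,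
        ((SignType.sign (h (rp H i * s) - h (rp H i)) : SignType) : ℝ) * f i =
        (∑ s ∈ S, ((SignType.sign (h (rp H i * s) - h (rp H i)) : SignType) : ℝ)) * f i := by
      intro i; rw [Finset.sum_mul]
    rw [Finset.sum_congr rfl fun i _ => e i, hf, sum_fU]
    apply Finset.sum_congr rfl; intro u _
    rw [← sum_sign]
    apply Finset.sum_congr rfl; intro s _
    rw [← equi_diff H τ hh u s]
  -- level part
  set Λ := ∑ i : Γ ⧸ H, ∑ s ∈ S,
    (if h (rp H i * s) = h (rp H i) then max (f i - f (qq H (rp H i * s))) 0 else 0) with hΛ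
  have hC : ∑ i : Γ ⧸ H, ∑ s ∈ S,
      (if h (rp H i * s) = h (rp H i) then |f (qq H (rp H i * s)) - f i| else 0) = 2 * Λ := by
    have h1 := mass_transport H S hS
      (fun x y => if h y = h x then max (f (qq H y) - f (qq H x)) 0 else 0)
      (by
        intro a ha x y
        have e : h (a * y) = h (a * x) ↔ h y = h x := by
          rw [hh a ha, hh a ha]; constructor
          · intro h1; linarith
          · intro h1; rw [h1]
        simp only [e]
        rw [qq_mul H ha, qq_mul H ha])
    have h2 : ∑ i : Γ ⧸ H, ∑ s ∈ S, (if h (rp H i) = h (rp H i * s) then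
        max (f (qq H (rp H i)) - f (qq H (rp H i * s))) 0 else 0) = Λ := by
      rw [hΛ]
      apply Finset.sum_congr rfl; intro i _
      apply Finset.sum_congr rfl; intro s _
      rw [qq_rp]
      have e : h (rp H i) = h (rp H i * s) ↔ h (rp H i * s) = h (rp H i) := eq_comm
      simp only [e]
    rw [h2] at h1
    have h3 : ∑ i : Γ ⧸ H, ∑ s ∈ S,
      (if h (rp H i * s) = h (rp H i) then |f (qq H (rp H i * s)) - f i| else 0) =
      ∑ i : Γ ⧸ H, ∑ s ∈ S, (if h (rp H i * s) = h (rp H i) then
        max (f (qq H (rp H i * s)) - f (qq H (rp H i))) 0 else 0) + Λ := by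
      rw [hΛ, ← Finset.sum_add_distrib]
      apply Finset.sum_congr rfl; intro i _
      rw [← Finset.sum_add_distrib]
      apply Finset.sum_congr rfl; intro s _
      rw [qq_rp]
      split_ifs
      · rcases le_total (f (qq H (rp H i * s))) (f i) with h4 | h4
        · rw [abs_of_nonpos (by linarith), max_eq_right (by linarith), max_eq_left (by linarith)]
          ring
        · rw [abs_of_nonneg (by linarith), max_eq_left (by linarith), max_eq_right (by linarith)]
          ring
      · ring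
    rw [h3, h1]; ring
  have hD : Λ ≤ ∑ u ∈ U, (lvc S h U u : ℝ) := by
    have e1 : ∀ i, ∀ s ∈ S, (if h (rp H i * s) = h (rp H i) then
        max (f i - f (qq H (rp H i * s))) 0 else 0) ≤
        ∑ u ∈ U, if qq H u = i ∧ h (u * s) = h u ∧ u * s ∉ U then 1 else 0 := by
      intro i s _
      have hnn : (0 : ℝ) ≤ ∑ u ∈ U, if qq H u = i ∧ h (u * s) = h u ∧ u * s ∉ U then 1 else 0 :=
        Finset.sum_nonneg fun u _ => by split_ifs <;> norm_num
      split_ifs with h0
      · apply max_le _ hnn
        have hinj : ∑ u ∈ U, (if qq H u = i ∧ u * s ∈ U then (1 : ℝ) else 0) ≤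
            f (qq H (rp H i * s)) := by
          rw [hf]; unfold fU
          rw [← Finset.sum_filter, ← Finset.sum_filter, Finset.sum_const, Finset.sum_const]
          simp only [nsmul_eq_mul, mul_one]
          rw [Nat.cast_le]
          apply Finset.card_le_card_of_injOn (fun u => u * s)
          · intro u hu
            have hu' := Finset.mem_filter.mp (Finset.mem_coe.mp hu)
            apply Finset.mem_coe.mpr
            refine Finset.mem_filter.mpr ⟨hu'.2.2, ?_⟩
            apply qq_mul_right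
            rw [hu'.2.1, qq_rp]
          · intro u _ u' _ he
            exact mul_right_cancel he
        have hsplit : f i ≤ ∑ u ∈ U, (if qq H u = i ∧ u * s ∈ U then (1 : ℝ) else 0) +
            ∑ u ∈ U, (if qq H u = i ∧ h (u * s) = h u ∧ u * s ∉ U then 1 else 0) := by
          rw [hf]; unfold fU
          rw [← Finset.sum_add_distrib]
          apply Finset.sum_le_sum
          intro u _
          by_cases h1 : qq H u = i
          · have h2 : h (u * s) = h u := by
              have := equi_diff H τ hh u s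
              rw [h1, h0] at this
              linarith
            by_cases h3 : u * s ∈ U
            · simp [h1, h3]
            · simp [h1, h2, h3]
          · simp [h1]
        linarith
      · exact hnn
    calc Λ ≤ ∑ i : Γ ⧸ H, ∑ s ∈ S, ∑ u ∈ U,
          (if qq H u = i ∧ h (u * s) = h u ∧ u * s ∉ U then (1 : ℝ) else 0) := by
          rw [hΛ]
          apply Finset.sum_le_sum; intro i _
          apply Finset.sum_le_sum; intro s hs
          exact e1 i s hs
      _ = ∑ u ∈ U, ∑ s ∈ S, ∑ i : Γ ⧸ H,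
          (if qq H u = i ∧ h (u * s) = h u ∧ u * s ∉ U then (1 : ℝ) else 0) := by
          rw [Finset.sum_comm]
          rw [Finset.sum_congr rfl fun s _ => Finset.sum_comm]
          rw [Finset.sum_comm]
      _ = ∑ u ∈ U, (lvc S h U u : ℝ) := by
          apply Finset.sum_congr rfl; intro u _
          unfold lvc
          rw [Finset.card_filter]
          push_cast
          apply Finset.sum_congr rfl; intro s _
          by_cases h1 : h (u * s) = h u ∧ u * s ∉ U
          · simp [h1]
          · have : ∀ i : Γ ⧸ H, ¬ (qq H u = i ∧ h (u * s) = h u ∧ u * s ∉ U) :=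
              fun i hi => h1 hi.2
            simp [h1]
  -- combine
  have hfo := first_order H S f hmin
  have hfo' := first_order H S (fun i => - f i) hmin
  set X := (∑ u ∈ U, (upc S h u : ℝ)) - ∑ u ∈ U, (dnc S h u : ℝ) with hX
  have g1 : ∑ i : Γ ⧸ H, ∑ s ∈ S, (SignType.sign (h (rp H i * s) - h (rp H i)) *
        (f (qq H (rp H i * s)) - f i) +
      (if h (rp H i * s) = h (rp H i) then |f (qq H (rp H i * s)) - f i| else 0)) =
      -2 * X + 2 * Λ := by
    simp only [mul_sub, Finset.sum_add_distrib, Finset.sum_sub_distrib]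
    rw [hA, hC, hB]; ring
  have g2 : ∑ i : Γ ⧸ H, ∑ s ∈ S, (SignType.sign (h (rp H i * s) - h (rp H i)) *
        ((fun i => - f i) (qq H (rp H i * s)) - (fun i => - f i) i) +
      (if h (rp H i * s) = h (rp H i) then
        |(fun i => - f i) (qq H (rp H i * s)) - (fun i => - f i) i| else 0)) =
      2 * X + 2 * Λ := by
    have e : ∀ i s, |(- f (qq H (rp H i * s))) - (- f i)| = |f (qq H (rp H i * s)) - f i| := by
      intro i s
      rw [← abs_neg]; congr 1; ring
    simp only [e]
    have e2 : ∀ i s, ((SignType.sign (h (rp H i * s) - h (rp H i)) : SignType) : ℝ) *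
        (- f (qq H (rp H i * s)) - - f i) =
        ((SignType.sign (h (rp H i * s) - h (rp H i)) : SignType) : ℝ) * f i -
        ((SignType.sign (h (rp H i * s) - h (rp H i)) : SignType) : ℝ) *
          f (qq H (rp H i * s)) := by
      intro i s; ring
    simp only [e2, Finset.sum_add_distrib, Finset.sum_sub_distrib]
    rw [hA, hC, hB]; ring
  rw [g1] at hfo
  rw [g2] at hfo'
  rw [abs_le]
  constructor <;> linarith

end

end Pool.Agent.TH496
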