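import Mathlib

set_option autoImplicit false

/-! Weighted sums over self-avoiding walks in a finite multigraph, evaluated by deleting the
root. Basic facts: monotonicity, linearity and the exit-once inequality. -/

namespace Pool.Agent.TH496

open Finset

/-- inverse golden ratio -/
noncomputable def zz : ℝ := Real.goldenRatio⁻¹

lemma zz_pos : 0 < zz := inv_pos.mpr Real.goldenRatio_pos

lemma zz_mul : zz * Real.goldenRatio = 1 := inv_mul_cancel₀ Real.goldenRatio_pos.ne'

lemma zz_sq : zz * zz = 1 - zz := by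
  have h := Real.goldenRatio_sq
  have h1 := zz_mul
  have h2 : zz * zz * Real.goldenRatio ^ 2 = 1 := by
    calc zz * zz * Real.goldenRatio ^ 2 = (zz * Real.goldenRatio) * (zz * Real.goldenRatio) := by
          ring
      _ = 1 := by rw [h1]; norm_num
  rw [h] at h2
  have h3 : zz * zz * Real.goldenRatio = zz := by
    rw [mul_assoc, h1, mul_one]
  linarith

lemma zz_lt : zz < 0.6181 := by
  by_contra h
  push Not at h
  have := zz_sq
  nlinarith

lemma zz_gt : 0.618 < zz := by
  by_contra h
  push Not at h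
  have := zz_sq
  have := zz_pos
  nlinarith

section
variable {V : Type*} [DecidableEq V]

/-- weighted sum over self-avoiding walks inside `A` starting at `v` -/
noncomputable def Sv (m : V → V → ℕ) (w y : V → ℝ) (A : Finset V) (v : V) : ℝ :=
  if _h : v ∈ A then w v * (y v + ∑ u ∈ A.erase v, (m v u : ℝ) * Sv m w y (A.erase v) u) else 0
termination_by A.card
decreasing_by exact Finset.card_erase_lt_of_mem _h

lemma Sv_mem {m : V → V → ℕ} {w y : V → ℝ} {A : Finset V} {v : V} (h : v ∈ A) :
    Sv m w y A v = w v * (y v + ∑ u ∈ A.erase v, (m v u : ℝ) * Sv m w y (A.erase v) u) := by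
  rw [Sv]; simp [h]

lemma Sv_not_mem {m : V → V → ℕ} {w y : V → ℝ} {A : Finset V} {v : V} (h : v ∉ A) :
    Sv m w y A v = 0 := by
  rw [Sv]; simp [h]

/-- induction on the finite set -/
lemma set_induct {P : Finset V → Prop} (H : ∀ A, (∀ v ∈ A, P (A.erase v)) → P A) (A : Finset V) :
    P A := by
  induction' hn : A.card using Nat.strong_induction_on with n ih generalizing A
  apply H
  intro v hv
  exact ih _ (by rw [← hn]; exact Finset.card_erase_lt_of_mem hv) _ rfl

lemma Sv_nonneg {m : V → V → ℕ} {w y : V → ℝ} (A : Finset V)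
    (hw : ∀ x ∈ A, 0 ≤ w x) (hy : ∀ x ∈ A, 0 ≤ y x) (v : V) : 0 ≤ Sv m w y A v := by
  induction A using set_induct generalizing v with
  | H A ih =>
    by_cases hv : v ∈ A
    · rw [Sv_mem hv]
      apply mul_nonneg (hw v hv)
      apply add_nonneg (hy v hv)
      apply Finset.sum_nonneg
      intro u _
      apply mul_nonneg (Nat.cast_nonneg _)
      exact ih v hv (fun x hx => hw x (Finset.mem_of_mem_erase hx))
        (fun x hx => hy x (Finset.mem_of_mem_erase hx)) u
    · rw [Sv_not_mem hv]

lemma Sv_congr {m m' : V → V → ℕ} {w w' y y' : V → ℝ} (A : Finset V)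
    (hm : ∀ x ∈ A, ∀ u ∈ A, m x u = m' x u)
    (hw : ∀ x ∈ A, w x = w' x) (hy : ∀ x ∈ A, y x = y' x) (v : V) :
    Sv m w y A v = Sv m' w' y' A v := by
  induction A using set_induct generalizing v with
  | H A ih =>
    by_cases hv : v ∈ A
    · rw [Sv_mem hv, Sv_mem hv, hw v hv, hy v hv]
      congr 2
      apply Finset.sum_congr rfl
      intro u hu
      rw [hm v hv u (Finset.mem_of_mem_erase hu)]
      congr 1
      exact ih v hv (fun x hx u hu => hm x (Finset.mem_of_mem_erase hx) u
        (Finset.mem_of_mem_erase hu)) (fun x hx => hw x (Finset.mem_of_mem_erase hx))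
        (fun x hx => hy x (Finset.mem_of_mem_erase hx)) u
    · rw [Sv_not_mem hv, Sv_not_mem hv]

lemma Sv_mono_y {m : V → V → ℕ} {w y y' : V → ℝ} (A : Finset V)
    (hw : ∀ x ∈ A, 0 ≤ w x) (hy : ∀ x ∈ A, y x ≤ y' x) (v : V) :
    Sv m w y A v ≤ Sv m w y' A v := by
  induction A using set_induct generalizing v with
  | H A ih =>
    by_cases hv : v ∈ A
    · rw [Sv_mem hv, Sv_mem hv]
      apply mul_le_mul_of_nonneg_left _ (hw v hv)
      apply add_le_add (hy v hv)
      apply Finset.sum_le_sum
      intro u _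
      apply mul_le_mul_of_nonneg_left _ (Nat.cast_nonneg _)
      exact ih v hv (fun x hx => hw x (Finset.mem_of_mem_erase hx))
        (fun x hx => hy x (Finset.mem_of_mem_erase hx)) u
    · rw [Sv_not_mem hv, Sv_not_mem hv]

lemma Sv_mono_A {m : V → V → ℕ} {w y : V → ℝ} (B : Finset V)
    (hw : ∀ x ∈ B, 0 ≤ w x) (hy : ∀ x ∈ B, 0 ≤ y x) (A : Finset V) (hAB : A ⊆ B) (v : V) :
    Sv m w y A v ≤ Sv m w y B v := by
  induction B using set_induct generalizing v A with
  | H B ih =>
    by_cases hv : v ∈ A
    · have hvB := hAB hv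
      rw [Sv_mem hv, Sv_mem hvB]
      apply mul_le_mul_of_nonneg_left _ (hw v hvB)
      apply add_le_add le_rfl
      have hsub : A.erase v ⊆ B.erase v := Finset.erase_subset_erase v hAB
      calc _ ≤ ∑ u ∈ A.erase v, (m v u : ℝ) * Sv m w y (B.erase v) u := by
            apply Finset.sum_le_sum
            intro u _
            apply mul_le_mul_of_nonneg_left _ (Nat.cast_nonneg _)
            exact ih v hvB (fun x hx => hw x (Finset.mem_of_mem_erase hx))
              (fun x hx => hy x (Finset.mem_of_mem_erase hx)) _ hsub u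
        _ ≤ _ := by
            apply Finset.sum_le_sum_of_subset_of_nonneg hsub
            intro u _ _
            apply mul_nonneg (Nat.cast_nonneg _)
            exact Sv_nonneg _ (fun x hx => hw x (Finset.mem_of_mem_erase hx))
              (fun x hx => hy x (Finset.mem_of_mem_erase hx)) u
    · rw [Sv_not_mem hv]
      exact Sv_nonneg _ hw hy v

lemma Sv_add_smul {m : V → V → ℕ} {w y y' : V → ℝ} (r : ℝ) (A : Finset V) (v : V) :
    Sv m w (fun x => y x + r * y' x) A v = Sv m w y A v + r * Sv m w y' A v := by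
  induction A using set_induct generalizing v with
  | H A ih =>
    by_cases hv : v ∈ A
    · rw [Sv_mem hv, Sv_mem hv, Sv_mem hv]
      have : ∑ u ∈ A.erase v, (m v u : ℝ) * Sv m w (fun x => y x + r * y' x) (A.erase v) u
          = ∑ u ∈ A.erase v, (m v u : ℝ) * Sv m w y (A.erase v) u +
            r * ∑ u ∈ A.erase v, (m v u : ℝ) * Sv m w y' (A.erase v) u := by
        rw [Finset.mul_sum, ← Finset.sum_add_distrib]
        apply Finset.sum_congr rfl
        intro u _
        rw [ih v hv u]
        ring
      rw [this]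
      ring
    · rw [Sv_not_mem hv, Sv_not_mem hv, Sv_not_mem hv]; ring

/-- the walk may leave `X` once and never return -/
lemma exit_once {m : V → V → ℕ} {w y : V → ℝ} (X : Finset V) (A : Finset V) (hX : X ⊆ A)
    (hw : ∀ x ∈ A, 0 ≤ w x) (hy : ∀ x ∈ A, 0 ≤ y x) (v : V) (hv : v ∈ X) :
    Sv m w (fun t => y t + ∑ u ∈ A \ X, (m t u : ℝ) * Sv m w y (A \ X) u) X v
      ≤ Sv m w y A v := by
  induction X using set_induct generalizing v A with
  | H X ih =>
    have hvA := hX hv
    rw [Sv_mem hv, Sv_mem hvA]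
    apply mul_le_mul_of_nonneg_left _ (hw v hvA)
    rw [add_assoc]
    apply add_le_add le_rfl
    have hw' : ∀ x ∈ A.erase v, 0 ≤ w x := fun x hx => hw x (Finset.mem_of_mem_erase hx)
    have hy' : ∀ x ∈ A.erase v, 0 ≤ y x := fun x hx => hy x (Finset.mem_of_mem_erase hx)
    have hset : A.erase v \ X.erase v = A \ X := by
      ext x; simp only [Finset.mem_sdiff, Finset.mem_erase]
      constructor
      · rintro ⟨⟨h1, h2⟩, h3⟩
        exact ⟨h2, fun h => h3 ⟨h1, h⟩⟩
      · rintro ⟨h1, h2⟩
        refine ⟨⟨?_, h1⟩, fun h => h2 h.2⟩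
        rintro rfl; exact h2 hv
    have hsplit : A.erase v = (A \ X) ∪ X.erase v := by
      ext x; simp only [Finset.mem_union, Finset.mem_sdiff, Finset.mem_erase]
      constructor
      · rintro ⟨h1, h2⟩
        by_cases h3 : x ∈ X
        · exact Or.inr ⟨h1, h3⟩
        · exact Or.inl ⟨h2, h3⟩
      · rintro (⟨h1, h2⟩ | ⟨h1, h2⟩)
        · exact ⟨by rintro rfl; exact h2 hv, h1⟩
        · exact ⟨h1, hX h2⟩
    have hdisj : Disjoint (A \ X) (X.erase v) := by
      rw [Finset.disjoint_left]
      intro x hx hx'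
      exact (Finset.mem_sdiff.mp hx).2 (Finset.mem_of_mem_erase hx')
    have key : ∑ u ∈ A.erase v, (m v u : ℝ) * Sv m w y (A.erase v) u =
        ∑ u ∈ A \ X, (m v u : ℝ) * Sv m w y (A.erase v) u +
        ∑ u ∈ X.erase v, (m v u : ℝ) * Sv m w y (A.erase v) u := by
      rw [← Finset.sum_union hdisj, ← hsplit]
    rw [key]
    apply add_le_add
    · apply Finset.sum_le_sum
      intro u _
      apply mul_le_mul_of_nonneg_left _ (Nat.cast_nonneg _)
      apply Sv_mono_A _ hw' hy'
      rw [hsplit]; exact Finset.subset_union_left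
    · apply Finset.sum_le_sum
      intro u hu
      apply mul_le_mul_of_nonneg_left _ (Nat.cast_nonneg _)
      have := ih v hv (A.erase v) (Finset.erase_subset_erase v hX) hw' hy' u hu
      rw [hset] at this
      exact this

end

end Pool.Agent.TH496
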