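import Pool.Agent.TH496.GM9

set_option autoImplicit false
set_option linter.unusedSectionVars false

/-! Deleting an edge of a strict system. -/

namespace Pool.Agent.TH496

open Finset

section
variable {V : Type*} [DecidableEq V]

lemma sum_dm {m : V → V → ℕ} {p q : V} (hpq : p ≠ q) (hs : ∀ x y, m x y = m y x)
    (h1 : m p q = 1) (x : V) (Y : Finset V) :
    ∑ u ∈ Y, dm m p q x u + (indN p x * (if q ∈ Y then 1 else 0) +
      indN q x * (if p ∈ Y then 1 else 0)) = ∑ u ∈ Y, m x u := by
  have key : ∀ u, dm m p q x u + (indN p x * indN q u + indN q x * indN p u) = m x u := by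
    intro u
    unfold dm indN
    by_cases hxp : x = p
    · subst hxp
      by_cases huq : u = q
      · subst huq; simp [Ne.symm hpq, hpq, h1]
      · simp [huq, hpq]
    · by_cases hxq : x = q
      · subst hxq
        by_cases hup : u = p
        · subst hup; simp [hpq, Ne.symm hpq, hs x u, h1]
        · simp [hup, hxp]
      · simp [hxp, hxq]
  have h2 : ∀ a, ∑ u ∈ Y, indN a u = if a ∈ Y then 1 else 0 := by
    intro a; unfold indN; simp
  rw [← h2 q, ← h2 p, Finset.mul_sum, Finset.mul_sum, ← Finset.sum_add_distrib,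
    ← Finset.sum_add_distrib]
  exact Finset.sum_congr rfl fun u _ => key u

lemma ee_dm {m : V → V → ℕ} {p q : V} (hpq : p ≠ q) (hs : ∀ x y, m x y = m y x)
    (h1 : m p q = 1) (X Y : Finset V) :
    ee (dm m p q) X Y + ((if p ∈ X then 1 else 0) * (if q ∈ Y then 1 else 0) +
      (if q ∈ X then 1 else 0) * (if p ∈ Y then 1 else 0)) = ee m X Y := by
  unfold ee
  have h2 : ∀ a, ∑ u ∈ X, indN a u = if a ∈ X then 1 else 0 := by
    intro a; unfold indN; simp
  rw [← h2 p, ← h2 q, Finset.sum_mul, Finset.sum_mul, ← Finset.sum_add_distrib,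
    ← Finset.sum_add_distrib]
  exact Finset.sum_congr rfl fun x _ => sum_dm hpq hs h1 x Y

lemma sum_ds {m : V → V → ℕ} {s : V → ℕ} {A : Finset V} {v : V} {P O Q : V → ℕ}
    (h : Strict m s A v P O Q) {p q : V} (hpq : p ≠ q) (X : Finset V) (hX : X ⊆ A) :
    ∑ x ∈ X, ds s p q x + ((if p ∈ X then 1 else 0) + (if q ∈ X then 1 else 0)) =
      3 * X.card := by
  have h2 : ∀ a, ∑ u ∈ X, indN a u = if a ∈ X then 1 else 0 := by
    intro a; unfold indN; simp
  rw [← h2 p, ← h2 q, ← Finset.sum_add_distrib, ← Finset.sum_add_distrib]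
  rw [mul_comm, ← smul_eq_mul, ← Finset.sum_const]
  apply Finset.sum_congr rfl
  intro x hx
  have hf := h.fat x (hX hx)
  unfold ds indN
  by_cases hxp : x = p
  · subst hxp; simp [hpq]
  · by_cases hxq : x = q
    · subst hxq; simp [hxp]
    · simp [hxp, hxq, hf]

lemma del_sys {m : V → V → ℕ} {s : V → ℕ} {A : Finset V} {v : V} {P O Q : V → ℕ}
    (h : Strict m s A v P O Q) {p q : V} (hp : p ∈ A) (hq : q ∈ A) (hpq : p ≠ q)
    (h1 : m p q = 1) : Sys (dm m p q) (ds s p q) A v P O Q := by
  have hsym := h.sys.symm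
  have hsfat : ∀ X ⊆ A, ∑ x ∈ X, s x = 3 * X.card := by
    intro X hX
    rw [Finset.sum_congr rfl (fun x hx => h.fat x (hX hx))]
    simp [mul_comm]
  refine ⟨?_, h.sys.hv, ?_, ?_, ?_, ?_, ?_, ?_⟩
  · intro x y
    unfold dm
    rw [hsym x y]
    by_cases h1 : (x = p ∧ y = q) ∨ (x = q ∧ y = p)
    · rw [if_pos h1, if_pos]
      rcases h1 with ⟨a, b⟩ | ⟨a, b⟩
      · exact Or.inr ⟨b, a⟩
      · exact Or.inl ⟨b, a⟩
    · rw [if_neg h1, if_neg]
      rintro (⟨a, b⟩ | ⟨a, b⟩)
      · exact h1 (Or.inr ⟨b, a⟩)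
      · exact h1 (Or.inl ⟨b, a⟩)
  · intro x hx
    unfold ds
    split_ifs
    · left; rfl
    · right; exact h.fat x hx
  · intro x hx
    have e := sum_dm hpq hsym h1 x A
    have hl := h.sys.legs x hx
    rw [h.fat x hx] at hl
    rw [if_pos hq, if_pos hp] at e
    have e2 : ds s p q x + (indN p x + indN q x) = 3 := by
      unfold ds indN
      by_cases hxp : x = p
      · subst hxp; simp [hpq]
      · by_cases hxq : x = q
        · subst hxq; simp [hxp]
        · simp [hxp, hxq, h.fat x hx]
    omega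
  · intro X hX hn
    obtain ⟨x, hx⟩ := hn
    have e1 := ee_dm hpq hsym h1 X X
    have e2 := sum_ds h hpq X hX
    have e3 := h.sys.a3 X hX ⟨x, hx, h.fat x (hX hx)⟩
    rw [hsfat X hX] at e3
    by_cases hpX : p ∈ X <;> by_cases hqX : q ∈ X <;>
      simp only [hpX, hqX, if_true, if_false] at e1 e2 <;> omega
  · rintro X hX ⟨x, hx, hsx⟩
    have e1 := ee_dm hpq hsym h1 X X
    have e2 := sum_ds h hpq X hX
    have e3 := h.sys.a3 X hX ⟨x, hx, h.fat x (hX hx)⟩
    rw [hsfat X hX] at e3
    have hxp : x ≠ p := by rintro rfl; simp [ds] at hsx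
    have hxq : x ≠ q := by rintro rfl; simp [ds] at hsx
    by_cases hpX : p ∈ X
    · by_cases hqX : q ∈ X
      · simp only [hpX, hqX, if_true] at e1 e2; omega
      · have hne : X ≠ A := by rintro rfl; exact hqX hq
        have hc : 2 ≤ X.card := by
          have : ({x, p} : Finset V) ⊆ X := by
            intro t ht
            rcases Finset.mem_insert.mp ht with rfl | ht
            · exact hx
            · rw [Finset.mem_singleton.mp ht]; exact hpX
          have := Finset.card_le_card this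
          rwa [Finset.card_pair hxp] at this
        have := h.d4 X hX hne hc
        simp only [hpX, hqX, if_true, if_false] at e1 e2; omega
    · by_cases hqX : q ∈ X
      · have hne : X ≠ A := by rintro rfl; exact hpX hp
        have hc : 2 ≤ X.card := by
          have : ({x, q} : Finset V) ⊆ X := by
            intro t ht
            rcases Finset.mem_insert.mp ht with rfl | ht
            · exact hx
            · rw [Finset.mem_singleton.mp ht]; exact hqX
          have := Finset.card_le_card this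
          rwa [Finset.card_pair hxq] at this
        have := h.d4 X hX hne hc
        simp only [hpX, hqX, if_true, if_false] at e1 e2; omega
      · simp only [hpX, hqX, if_false] at e1 e2; omega
  · intro X hX hv
    rcases X.eq_empty_or_nonempty with rfl | hn
    · simp
    · have e1 := ee_dm hpq hsym h1 X (A \ X)
      obtain ⟨c1, c2, c3⟩ := h.st X hX hn hv
      have m1 : q ∈ A \ X ↔ q ∉ X := by simp [hq]
      have m2 : p ∈ A \ X ↔ p ∉ X := by simp [hp]
      simp only [m1, m2] at e1
      by_cases hpX : p ∈ X <;> by_cases hqX : q ∈ X <;>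
        simp only [hpX, hqX, not_true, not_false_eq_true, if_true, if_false] at e1 <;> omega
  · intro X hX hv
    rcases X.eq_empty_or_nonempty with rfl | hn
    · simp
    · have e1 := ee_dm hpq hsym h1 X (A \ X)
      obtain ⟨c1, c2, c3⟩ := h.st X hX hn hv
      have m1 : q ∈ A \ X ↔ q ∉ X := by simp [hq]
      have m2 : p ∈ A \ X ↔ p ∉ X := by simp [hp]
      simp only [m1, m2] at e1
      by_cases hpX : p ∈ X <;> by_cases hqX : q ∈ X <;>
        simp only [hpX, hqX, not_true, not_false_eq_true, if_true, if_false] at e1 <;> omega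

lemma del_bound {m : V → V → ℕ} {s : V → ℕ} {A : Finset V} {v : V} {P O Q : V → ℕ} {N : ℕ}
    (h : Strict m s A v P O Q) (hN : N ≤ 2) (hbal : ∑ x ∈ A, P x + 1 = ∑ x ∈ A, Q x + N)
    (IH : Good V (3 * ∑ x ∈ A, s x + (2 - N)))
    {p q : V} (hp : p ∈ A) (hq : q ∈ A) (h1 : m p q ≠ 0) :
    zz ^ (2 - N) ≤ Sv (dm m p q) (wt (ds s p q)) (yv P O) A v := by
  have hpq : p ≠ q := by rintro rfl; exact h1 (h.sys.loop_free hp)
  have h1' : m p q = 1 := by have := h.simple hp hq; omega
  have hS := del_sys h hp hq hpq h1'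
  have hsfat : ∑ x ∈ A, s x = 3 * A.card := by
    rw [Finset.sum_congr rfl (fun x hx => h.fat x hx)]
    simp [mul_comm]
  have hds := sum_ds h hpq A (Finset.Subset.refl A)
  rw [if_pos hp, if_pos hq] at hds
  by_cases hv : v = p ∨ v = q
  · -- thin root
    have hthin : ds s p q v = 2 := by simp [ds, hv]
    obtain ⟨hPv, hOv, hQv, _⟩ := h.root
    have hl := hS.legs v hS.hv
    rw [hS.sum_erase_deg, hthin, hPv, hOv, hQv] at hl
    simp only [if_true] at hl
    obtain ⟨b, hb, hb0⟩ : ∃ b ∈ A.erase v, dm m p q v b ≠ 0 := by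
      by_contra hcon
      push Not at hcon
      have := Finset.sum_eq_zero hcon
      omega
    obtain ⟨hbv, hbA⟩ := Finset.mem_erase.mp hb
    have hbp : b ≠ p := by
      rintro rfl
      rcases hv with hv | hv
      · exact hbv hv.symm
      · apply hb0; simp [dm, hv]
    have hbq : b ≠ q := by
      rintro rfl
      rcases hv with hv | hv
      · apply hb0; simp [dm, hv]
      · exact hbv hv.symm
    have hdb : ds s p q b = 3 := by simp [ds, hbp, hbq, h.fat b hbA]
    obtain ⟨_, _, _, _, _, hS', hval⟩ := thin_root hS hthin hb (by omega)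
    rw [hval]
    have e1 := Finset.add_sum_erase A P h.sys.hv
    have e2 := Finset.add_sum_erase A Q h.sys.hv
    have e3 := Finset.add_sum_erase A (ds s p q) h.sys.hv
    have hc := IH _ _ _ b P O Q N hS' hN (by omega) (by omega)
    exact hc.2 hdb
  · have hdv : ds s p q v = 3 := by
      unfold ds; rw [if_neg hv]; exact h.fat v h.sys.hv
    have hc := IH _ _ _ v P O Q N hS hN hbal (by omega)
    exact hc.2 hdv

/-- if the target fails, the averaging inequality gives a strict upper bound -/
lemma T_fail {m : V → V → ℕ} {s : V → ℕ} {A : Finset V} {v : V} {P O Q : V → ℕ} {N : ℕ}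
    (h : Strict m s A v P O Q) (hN : N ≤ 2) (hbal : ∑ x ∈ A, P x + 1 = ∑ x ∈ A, Q x + N)
    (IH : Good V (3 * ∑ x ∈ A, s x + (2 - N))) (hc4 : 4 ≤ A.card)
    (hfail : Sv m (wt s) (yv P O) A v < zz ^ (2 - N)) :
    ∑ u ∈ A.erase v, (m v u : ℝ) * (zz * zz * ((2 - 4 * zz) * yv P O u +
      (4 - 6 * zz + 2 * zz * ((P u + O u + Q u : ℕ) : ℝ)) *
        ∑ x ∈ (A.erase v).erase u,
          (m u x : ℝ) * Sv m (wt s) (yv P O) ((A.erase v).erase u) x)) < 0 := by
  refine lt_of_le_of_lt (T_ineq h hc4) ?_
  obtain ⟨a, b, ha, hb, hab, hma, hmb, hm⟩ := h.nbrs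
  have hterm : ∀ p ∈ A, ∀ q ∈ A, (m p q : ℝ) * (Sv m (wt s) (yv P O) A v -
      Sv (dm m p q) (wt (ds s p q)) (yv P O) A v) ≤ 0 := by
    intro p hp q hq
    by_cases h0 : m p q = 0
    · rw [h0]; simp
    · have := del_bound h hN hbal IH hp hq h0
      apply mul_nonpos_of_nonneg_of_nonpos (Nat.cast_nonneg _)
      linarith
  apply Finset.sum_neg'
  · intro p hp
    exact Finset.sum_nonpos (hterm p hp)
  · refine ⟨v, h.sys.hv, ?_⟩
    apply Finset.sum_neg'
    · exact hterm v h.sys.hv
    · refine ⟨a, Finset.mem_of_mem_erase ha, ?_⟩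
      have h0 : m v a ≠ 0 := by omega
      have := del_bound h hN hbal IH h.sys.hv (Finset.mem_of_mem_erase ha) h0
      rw [hma]
      simp only [Nat.cast_one, one_mul]
      linarith

end

end Pool.Agent.TH496
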