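import Pool.Agent.TH496.GM10

set_option autoImplicit false
set_option linter.unusedSectionVars false

/-! Subsystems with two boundary slots. -/

namespace Pool.Agent.TH496

open Finset

section
variable {V : Type*} [DecidableEq V]

/-- value of a leg with label `L - 1` -/
noncomputable def FF (L : ℕ) : ℝ := if L = 2 then 1 else if L = 1 then zz else 0

variable {m : V → V → ℕ} {s : V → ℕ} {A : Finset V} {v : V} {P O Q : V → ℕ} {N : ℕ}

lemma sum_indN_mul (r : V) (X : Finset V) (c : ℕ) :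
    ∑ x ∈ X, c * indN r x = c * (if r ∈ X then 1 else 0) := by
  rw [← Finset.mul_sum]
  congr 1
  unfold indN; simp

lemma Strict.sum_s (h : Strict m s A v P O Q) {X : Finset V} (hX : X ⊆ A) :
    ∑ x ∈ X, s x = 3 * X.card := by
  rw [Finset.sum_congr rfl (fun x hx => h.fat x (hX hx))]
  simp [mul_comm]

lemma sub2 (h : Strict m s A v P O Q) (IH : Good V (3 * ∑ x ∈ A, s x + (2 - N)))
    {W : Finset V} (hW : W ⊆ A) (hvW : v ∉ W) {r1 r2 : V} (hr1 : r1 ∈ W) (hr2 : r2 ∈ W)
    (hk : ∀ x ∈ W, ∑ u ∈ A \ W, m x u = indN r1 x + indN r2 x)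
    {L1 L2 : ℕ} (hL1 : L1 ≤ 2) (hL2 : L2 ≤ 2)
    (hbalW : ∑ x ∈ W, P x + (L1 + L2) = ∑ x ∈ W, Q x + 2)
    (hb1 : ∀ X ⊆ W, r1 ∈ X → r2 ∉ X → ∑ x ∈ X, P x + L1 ≤ ∑ x ∈ X, Q x + 1 + ee m X (W \ X))
    (hb2 : ∀ X ⊆ W, r1 ∈ X → r2 ∉ X → ∑ x ∈ X, Q x + 1 ≤ ∑ x ∈ X, P x + L1 + ee m X (W \ X)) :
    zz ^ L1 ≤ Sv m (wt s) (yv P O) W r1 + FF L2 * Sv m (wt s) (ind r2) W r1 := by
  obtain ⟨p, o, q, hpoq, hpq2, hF⟩ : ∃ p o q : ℕ, p + o + q = 1 ∧ p + 1 = q + L2 ∧
      FF L2 = (p : ℝ) + zz * (o : ℝ) := by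
    interval_cases L2
    · exact ⟨0, 0, 1, by norm_num, by norm_num, by simp [FF]⟩
    · exact ⟨0, 1, 0, by norm_num, by norm_num, by simp [FF]⟩
    · exact ⟨1, 0, 0, by norm_num, by norm_num, by simp [FF]⟩
  have hcutA : ∀ X ⊆ W, ee m X (A \ X) = ee m X (W \ X) +
      ((if r1 ∈ X then 1 else 0) + (if r2 ∈ X then 1 else 0)) := by
    intro X hX
    obtain ⟨c1, _⟩ := cut_arith' h.sys.symm hW hX
    rw [c1]
    congr 1
    have e1 := sum_indN_mul r1 X 1
    have e2 := sum_indN_mul r2 X 1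
    simp only [one_mul] at e1 e2
    rw [← e1, ← e2, ← Finset.sum_add_distrib]
    exact Finset.sum_congr rfl fun x hx => hk x (hX hx)
  have hS : Sys m s W r1 (fun x => P x + p * indN r2 x) (fun x => O x + o * indN r2 x)
      (fun x => Q x + q * indN r2 x) := by
    apply h.sys.sub hW hr1
    · intro x hx
      have hl := h.sys.legs x (hW hx)
      have hkx := hk x hx
      have hsp := sum_split (f := fun u => m x u) hW
      have hxv : x ≠ v := by rintro rfl; exact hvW hx
      rw [if_neg hxv] at hl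
      have e1 : indN r1 x = if x = r1 then 1 else 0 := rfl
      have e2 : p * indN r2 x + o * indN r2 x + q * indN r2 x = indN r2 x := by
        rw [← add_mul, ← add_mul, hpoq, one_mul]
      omega
    · intro X hX hrX
      rw [Finset.sum_add_distrib, Finset.sum_add_distrib, sum_indN_mul, sum_indN_mul]
      have hvX : v ∉ X := fun hh => hvW (hX hh)
      by_cases hr2X : r2 ∈ X
      · rw [if_pos hr2X]
        have hsub : W \ X ⊆ W := Finset.sdiff_subset
        have g1 := hb1 (W \ X) hsub (Finset.mem_sdiff.mpr ⟨hr1, hrX⟩)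
          (fun hh => (Finset.mem_sdiff.mp hh).2 hr2X)
        have g2 := hb2 (W \ X) hsub (Finset.mem_sdiff.mpr ⟨hr1, hrX⟩)
          (fun hh => (Finset.mem_sdiff.mp hh).2 hr2X)
        rw [Finset.sdiff_sdiff_eq_self hX, ee_comm h.sys.symm] at g1 g2
        have f1 := sum_split (f := P) hX
        have f2 := sum_split (f := Q) hX
        omega
      · rw [if_neg hr2X]
        have c := hcutA X hX
        rw [if_neg hrX, if_neg hr2X] at c
        have := h.sys.b1 X (hX.trans hW) hvX
        omega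
    · intro X hX hrX
      rw [Finset.sum_add_distrib, Finset.sum_add_distrib, sum_indN_mul, sum_indN_mul]
      have hvX : v ∉ X := fun hh => hvW (hX hh)
      by_cases hr2X : r2 ∈ X
      · rw [if_pos hr2X]
        have hsub : W \ X ⊆ W := Finset.sdiff_subset
        have g1 := hb1 (W \ X) hsub (Finset.mem_sdiff.mpr ⟨hr1, hrX⟩)
          (fun hh => (Finset.mem_sdiff.mp hh).2 hr2X)
        have g2 := hb2 (W \ X) hsub (Finset.mem_sdiff.mpr ⟨hr1, hrX⟩)
          (fun hh => (Finset.mem_sdiff.mp hh).2 hr2X)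
        rw [Finset.sdiff_sdiff_eq_self hX, ee_comm h.sys.symm] at g1 g2
        have f1 := sum_split (f := P) hX
        have f2 := sum_split (f := Q) hX
        omega
      · rw [if_neg hr2X]
        have c := hcutA X hX
        rw [if_neg hrX, if_neg hr2X] at c
        have := h.sys.b2 X (hX.trans hW) hvX
        omega
  have hlt : ∑ x ∈ W, s x + 2 ≤ ∑ x ∈ A, s x := by
    have h1 := sum_split (f := s) hW
    have h2 : s v ≤ ∑ x ∈ A \ W, s x :=
      Finset.single_le_sum (f := s) (fun _ _ => Nat.zero_le _)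
        (Finset.mem_sdiff.mpr ⟨h.sys.hv, hvW⟩)
    have := h.sys.two_le h.sys.hv
    omega
  have hc := IH m s W r1 _ _ _ (2 - L1) hS (by omega)
    (by
      rw [Finset.sum_add_distrib, Finset.sum_add_distrib, sum_indN_mul, sum_indN_mul,
        if_pos hr2]
      omega) (by omega)
  have h1 := hc.2 (h.fat r1 (hW hr1))
  have h2 : 2 - (2 - L1) = L1 := by omega
  rw [h2] at h1
  refine h1.trans (le_of_eq ?_)
  rw [← Sv_add_smul]
  apply Sv_congr W (fun _ _ _ _ => rfl) (fun _ _ => rfl)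
  intro x _
  rw [hF]
  unfold yv ind indN
  push_cast
  ring

/-- entrance label `0` -/
lemma sub2_zero (h : Strict m s A v P O Q) (IH : Good V (3 * ∑ x ∈ A, s x + (2 - N)))
    {W : Finset V} (hW : W ⊆ A) (hvW : v ∉ W) {r1 r2 : V} (hr1 : r1 ∈ W) (hr2 : r2 ∈ W)
    (hk : ∀ x ∈ W, ∑ u ∈ A \ W, m x u = indN r1 x + indN r2 x)
    {L2 : ℕ} (hL2 : L2 ≤ 2)
    (hbalW : ∑ x ∈ W, P x + (1 + L2) = ∑ x ∈ W, Q x + 2) :
    zz ≤ Sv m (wt s) (yv P O) W r1 + FF L2 * Sv m (wt s) (ind r2) W r1 := by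
  have hcutA : ∀ X ⊆ W, ee m X (A \ X) = ee m X (W \ X) +
      ((if r1 ∈ X then 1 else 0) + (if r2 ∈ X then 1 else 0)) := by
    intro X hX
    obtain ⟨c1, _⟩ := cut_arith' h.sys.symm hW hX
    rw [c1]
    congr 1
    have e1 := sum_indN_mul r1 X 1
    have e2 := sum_indN_mul r2 X 1
    simp only [one_mul] at e1 e2
    rw [← e1, ← e2, ← Finset.sum_add_distrib]
    exact Finset.sum_congr rfl fun x hx => hk x (hX hx)
  have := sub2 h IH hW hvW hr1 hr2 hk (L1 := 1) (by norm_num) hL2 hbalW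
    (by
      intro X hX h1 h2
      have c := hcutA X hX
      rw [if_pos h1, if_neg h2] at c
      obtain ⟨_, s1, s2⟩ := h.st X (hX.trans hW) ⟨r1, h1⟩ (fun hh => hvW (hX hh))
      omega)
    (by
      intro X hX h1 h2
      have c := hcutA X hX
      rw [if_pos h1, if_neg h2] at c
      obtain ⟨_, s1, s2⟩ := h.st X (hX.trans hW) ⟨r1, h1⟩ (fun hh => hvW (hX hh))
      omega)
  simpa using this

/-- entrance label `1`, the entrance coming from a vertex with an outgoing leg -/
lemma sub2_one (h : Strict m s A v P O Q) (IH : Good V (3 * ∑ x ∈ A, s x + (2 - N)))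
    {W : Finset V} (hW : W ⊆ A) (hvW : v ∉ W) {r1 r2 : V} (hr1 : r1 ∈ W) (hr2 : r2 ∈ W)
    (hk : ∀ x ∈ W, ∑ u ∈ A \ W, m x u = indN r1 x + indN r2 x)
    {L2 : ℕ} (hL2 : L2 ≤ 2)
    (hbalW : ∑ x ∈ W, P x + (2 + L2) = ∑ x ∈ W, Q x + 2)
    {a : V} (haA : a ∈ A) (hav : a ≠ v) (haW : a ∉ W) (hPa : P a = 1) (hQa : Q a = 0)
    (hma : ∀ u ∈ A, m a u = indN v u + indN r1 u) :
    zz ^ 2 ≤ Sv m (wt s) (yv P O) W r1 + FF L2 * Sv m (wt s) (ind r2) W r1 := by
  have hsym := h.sys.symm
  have hcutA : ∀ X ⊆ W, ee m X (A \ X) = ee m X (W \ X) +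
      ((if r1 ∈ X then 1 else 0) + (if r2 ∈ X then 1 else 0)) := by
    intro X hX
    obtain ⟨c1, _⟩ := cut_arith' h.sys.symm hW hX
    rw [c1]
    congr 1
    have e1 := sum_indN_mul r1 X 1
    have e2 := sum_indN_mul r2 X 1
    simp only [one_mul] at e1 e2
    rw [← e1, ← e2, ← Finset.sum_add_distrib]
    exact Finset.sum_congr rfl fun x hx => hk x (hX hx)
  have hr1v : r1 ≠ v := by rintro rfl; exact hvW hr1
  apply sub2 h IH hW hvW hr1 hr2 hk (L1 := 2) (by norm_num) hL2 hbalW
  · intro X hX h1 h2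
    have haX : a ∉ X := fun hh => haW (hX hh)
    have hd : Disjoint {a} X := by rw [Finset.disjoint_singleton_left]; exact haX
    have hsub : {a} ∪ X ⊆ A := by
      apply Finset.union_subset _ (hX.trans hW)
      rw [Finset.singleton_subset_iff]; exact haA
    have hvX : v ∉ {a} ∪ X := by
      intro hh
      rcases Finset.mem_union.mp hh with h5 | h5
      · exact hav (Finset.mem_singleton.mp h5).symm
      · exact hvW (hX h5)
    obtain ⟨_, s1, s2⟩ := h.st ({a} ∪ X) hsub ⟨a, by simp⟩ hvX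
    rw [Finset.sum_union hd, Finset.sum_union hd, Finset.sum_singleton, Finset.sum_singleton,
      hPa, hQa] at s1
    have hcut : ee m ({a} ∪ X) (A \ ({a} ∪ X)) ≤ ee m X (W \ X) + 1 := by
      rw [ee_union_left hd]
      -- edges of a
      have g1 : ee m {a} (A \ ({a} ∪ X)) ≤ 1 := by
        rw [ee_single_left]
        have : ∑ u ∈ A \ ({a} ∪ X), m a u ≤ ∑ u ∈ A \ ({a} ∪ X), indN v u := by
          apply Finset.sum_le_sum
          intro u hu
          obtain ⟨huA, huX⟩ := Finset.mem_sdiff.mp hu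
          rw [hma u huA]
          have : indN r1 u = 0 := by
            unfold indN; rw [if_neg]; rintro rfl
            exact huX (Finset.mem_union_right _ h1)
          omega
        exact this.trans (sum_indN_le _ _)
      -- edges of X
      have g2 : ee m X (A \ ({a} ∪ X)) + ee m X {a} = ee m X (A \ X) := by
        have e : A \ X = (A \ ({a} ∪ X)) ∪ {a} := by
          ext u; simp only [Finset.mem_sdiff, Finset.mem_union, Finset.mem_singleton]
          constructor
          · rintro ⟨h3, h4⟩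
            by_cases hua : u = a
            · exact Or.inr hua
            · exact Or.inl ⟨h3, fun h5 => h5.elim hua h4⟩
          · rintro (⟨h3, h4⟩ | rfl)
            · exact ⟨h3, fun h5 => h4 (Or.inr h5)⟩
            · exact ⟨haA, haX⟩
        have d2 : Disjoint (A \ ({a} ∪ X)) {a} := by
          rw [Finset.disjoint_singleton_right]; simp
        rw [e, ee_union_right d2]
      have g3 : ee m X {a} = 1 := by
        rw [ee_comm hsym, ee_single_left]
        have : ∑ u ∈ X, m a u = ∑ u ∈ X, indN r1 u := by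
          apply Finset.sum_congr rfl
          intro u hu
          rw [hma u (hW (hX hu))]
          have : indN v u = 0 := by
            unfold indN; rw [if_neg]; rintro rfl
            exact hvW (hX hu)
          omega
        rw [this, sum_indN h1]
      have c := hcutA X hX
      rw [if_pos h1, if_neg h2] at c
      omega
    omega
  · intro X hX h1 h2
    have c := hcutA X hX
    rw [if_pos h1, if_neg h2] at c
    obtain ⟨_, s1, s2⟩ := h.st X (hX.trans hW) ⟨r1, h1⟩ (fun hh => hvW (hX hh))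
    omega

/-- exit through a single extra vertex -/
lemma exit_vertex {y : V → ℝ} (hy : ∀ x, 0 ≤ y x) {B : Finset V} {b : V} (hb : b ∈ B) {r t : V}
    (ht : t ∈ B.erase b) (hsym : ∀ x y, m x y = m y x)
    (hmb : ∀ u ∈ B.erase b, m b u = indN r u) :
    Sv m (wt s) y (B.erase b) t + wt s b * y b * Sv m (wt s) (ind r) (B.erase b) t ≤
      Sv m (wt s) y B t := by
  have h1 := exit_once (m := m) (w := wt s) (y := y) (B.erase b) B (Finset.erase_subset _ _)
    (fun x _ => wt_nonneg s x) (fun x _ => hy x) t ht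
  have e : B \ B.erase b = {b} := by
    ext x; simp only [Finset.mem_sdiff, Finset.mem_erase, Finset.mem_singleton]
    constructor
    · rintro ⟨h1, h2⟩
      by_contra h3; exact h2 ⟨h3, h1⟩
    · rintro rfl; exact ⟨hb, fun h => h.1 rfl⟩
  rw [e] at h1
  refine le_trans (le_of_eq ?_) h1
  rw [← Sv_add_smul]
  apply Sv_congr _ (fun _ _ _ _ => rfl) (fun _ _ => rfl)
  intro x hx
  rw [Finset.sum_singleton, Sv_single, hsym x b, hmb x hx]
  unfold ind indN
  push_cast
  ring

/-- a leg vertex next to the root has one further neighbour -/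
lemma Strict.leg_nbr (h : Strict m s A v P O Q) {a : V} (ha : a ∈ A.erase v) (hma : m v a = 1)
    (hk : P a + O a + Q a = 1) :
    ∃ c ∈ (A.erase v).erase a, ∀ u ∈ A, m a u = indN v u + indN c u := by
  obtain ⟨hav, haA⟩ := Finset.mem_erase.mp ha
  have hl := h.sys.legs a haA
  rw [if_neg hav, h.fat a haA, ← Finset.add_sum_erase A _ h.sys.hv, h.sys.symm a v, hma] at hl
  have hs : ∑ u ∈ A.erase v, m a u = 1 := by omega
  obtain ⟨c, hc, hc0⟩ : ∃ c ∈ A.erase v, m a c ≠ 0 := by
    by_contra hcon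
    push Not at hcon
    have := Finset.sum_eq_zero hcon
    omega
  have h2 := Finset.add_sum_erase (A.erase v) (fun u => m a u) hc
  have hca : c ≠ a := by rintro rfl; exact hc0 (h.sys.loop_free haA)
  obtain ⟨hcv, hcA⟩ := Finset.mem_erase.mp hc
  refine ⟨c, Finset.mem_erase.mpr ⟨hca, hc⟩, ?_⟩
  intro u hu
  unfold indN
  by_cases huv : u = v
  · subst huv
    rw [if_pos rfl, if_neg (Ne.symm hcv), h.sys.symm a u, hma]
  · rw [if_neg huv]
    by_cases huc : u = c
    · subst huc; rw [if_pos rfl]; omega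
    · rw [if_neg huc]
      have h3 : ∑ u ∈ (A.erase v).erase c, m a u = 0 := by omega
      exact Finset.sum_eq_zero_iff.mp h3 u (Finset.mem_erase.mpr ⟨huc, Finset.mem_erase.mpr
        ⟨huv, hu⟩⟩)

end

end Pool.Agent.TH496
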