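import Pool.Agent.TH496.GM11

set_option autoImplicit false
set_option linter.unusedSectionVars false

/-! The final case analysis and the main lemma. -/

namespace Pool.Agent.TH496

open Finset

section
variable {V : Type*} [DecidableEq V]
variable {m : V → V → ℕ} {s : V → ℕ} {A : Finset V} {v : V} {P O Q : V → ℕ} {N : ℕ}

/-- relabelling a leg with label `0` -/
lemma relabel (h : Strict m s A v P O Q) (hN : N ≤ 1)
    (hbal : ∑ x ∈ A, P x + 1 = ∑ x ∈ A, Q x + N)
    (IH : Good V (3 * ∑ x ∈ A, s x + (2 - N))) {x : V} (hx : x ∈ A) (hOx : O x ≠ 0) :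
    zz ^ (2 - N) ≤ Sv m (wt s) (yv P O) A v := by
  obtain ⟨hPv, hOv, hQv, _⟩ := h.root
  have hxv : x ≠ v := by rintro rfl; exact hOx hOv
  have hk := h.leg_le hx hxv
  have hOx1 : O x = 1 := by omega
  have hPx : P x = 0 := by omega
  have hQx : Q x = 0 := by omega
  have hsumP : ∀ X : Finset V, ∑ t ∈ X, (P t + indN x t) = ∑ t ∈ X, P t + ∑ t ∈ X, indN x t :=
    fun X => Finset.sum_add_distrib
  have hS : Sys m s A v (fun t => P t + indN x t) (fun t => if t = x then 0 else O t) Q := by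
    apply h.sys.sub (Finset.Subset.refl A) h.sys.hv
    · intro t ht
      have hl := h.sys.legs t ht
      by_cases htx : t = x
      · subst htx
        have e : indN t t = 1 := by simp [indN]
        rw [if_pos rfl]
        omega
      · have e : indN x t = 0 := by simp [indN, htx]
        rw [if_neg htx]
        omega
    · intro X hX hv
      rcases X.eq_empty_or_nonempty with rfl | hn
      · simp
      · obtain ⟨_, s1, s2⟩ := h.st X hX hn hv
        have := sum_indN_le x X
        rw [hsumP]; omega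
    · intro X hX hv
      rcases X.eq_empty_or_nonempty with rfl | hn
      · simp
      · obtain ⟨_, s1, s2⟩ := h.st X hX hn hv
        rw [hsumP]; omega
  have hc := IH m s A v _ _ Q (N + 1) hS (by omega)
    (by rw [hsumP, sum_indN hx]; omega) (by omega)
  have h1 := hc.2 (h.fat v h.sys.hv)
  have e1 : Sv m (wt s) (yv (fun t => P t + indN x t) (fun t => if t = x then 0 else O t)) A v =
      Sv m (wt s) (yv P O) A v + (1 - zz) * Sv m (wt s) (ind x) A v := by
    rw [← Sv_add_smul]
    apply Sv_congr A (fun _ _ _ _ => rfl) (fun _ _ => rfl)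
    intro t _
    unfold yv ind indN
    by_cases htx : t = x
    · subst htx; simp [hPx, hOx1]
    · simp [htx]
  rw [e1] at h1
  have h2 : zz * Sv m (wt s) (ind x) A v ≤ Sv m (wt s) (yv P O) A v := by
    have e2 : zz * Sv m (wt s) (ind x) A v =
        Sv m (wt s) (fun t => (fun _ => (0 : ℝ)) t + zz * ind x t) A v := by
      rw [Sv_add_smul, Sv_zero, zero_add]
    rw [e2]
    apply Sv_mono_y
    · intro t _; exact wt_nonneg s t
    · intro t _
      unfold yv ind
      by_cases htx : t = x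
      · subst htx; simp [hPx, hOx1]
      · simp only [htx, if_false]
        have := zz_pos
        have h3 : (0 : ℝ) ≤ P t := Nat.cast_nonneg _
        have h4 : (0 : ℝ) ≤ O t := Nat.cast_nonneg _
        have h5 : 0 ≤ zz * (O t : ℝ) := by positivity
        linarith
  set S := Sv m (wt s) (yv P O) A v with hSdef
  set Px := Sv m (wt s) (ind x) A v with hPxdef
  have hz := zz_sq
  have hzp := zz_pos
  have h3 : (1 - zz) * Px ≤ zz * S := by
    rw [← hz, mul_assoc]
    exact mul_le_mul_of_nonneg_left h2 hzp.le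
  have h4 : zz ^ (2 - (N + 1)) ≤ (1 + zz) * S := by linarith
  have h5 : zz ^ (2 - N) = zz * zz ^ (2 - (N + 1)) := by
    rw [← pow_succ']; congr 1; omega
  rw [h5]
  calc zz * zz ^ (2 - (N + 1)) ≤ zz * ((1 + zz) * S) := mul_le_mul_of_nonneg_left h4 hzp.le
    _ = (zz + zz * zz) * S := by ring
    _ = S := by rw [hz]; ring

/-- a strict system with its two root neighbours -/
structure Two (m : V → V → ℕ) (s : V → ℕ) (A : Finset V) (v : V) (P O Q : V → ℕ) (a b : V) :
    Prop where
  h : Strict m s A v P O Q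
  hc : 4 ≤ A.card
  ha : a ∈ A.erase v
  hb : b ∈ A.erase v
  hab : a ≠ b
  hma : m v a = 1
  hmb : m v b = 1
  hm : ∀ w ∈ A, w ≠ a → w ≠ b → m v w = 0

lemma Two.swap {a b : V} (t : Two m s A v P O Q a b) : Two m s A v P O Q b a :=
  ⟨t.h, t.hc, t.hb, t.ha, t.hab.symm, t.hmb, t.hma, fun w hw h1 h2 => t.hm w hw h2 h1⟩

/-- continuation value at `u` -/
noncomputable def Qs (m : V → V → ℕ) (s : V → ℕ) (A : Finset V) (v : V) (P O : V → ℕ) (u : V) :
    ℝ := ∑ x ∈ (A.erase v).erase u, (m u x : ℝ) * Sv m (wt s) (yv P O) ((A.erase v).erase u) x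

lemma Sv_nn (m : V → V → ℕ) (s : V → ℕ) (P O : V → ℕ) (A : Finset V) (v : V) :
    0 ≤ Sv m (wt s) (yv P O) A v :=
  Sv_nonneg _ (fun x _ => wt_nonneg s x) (fun x _ => yv_nonneg P O x) _

lemma Sv_ind_nn (m : V → V → ℕ) (s : V → ℕ) (b : V) (A : Finset V) (v : V) :
    0 ≤ Sv m (wt s) (ind b) A v :=
  Sv_nonneg _ (fun x _ => wt_nonneg s x) (fun x _ => by unfold ind; split_ifs <;> norm_num) _

lemma Qs_nonneg (m : V → V → ℕ) (s : V → ℕ) (A : Finset V) (v : V) (P O : V → ℕ) (u : V) :
    0 ≤ Qs m s A v P O u :=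
  Finset.sum_nonneg fun _ _ => mul_nonneg (Nat.cast_nonneg _) (Sv_nn m s P O _ _)

lemma Two.Sa {a b : V} (t : Two m s A v P O Q a b) :
    Sv m (wt s) (yv P O) (A.erase v) a = zz * (yv P O a + Qs m s A v P O a) := by
  rw [Sv_mem t.ha, t.h.wt_eq (Finset.mem_of_mem_erase t.ha)]
  rfl

lemma Two.S {a b : V} (t : Two m s A v P O Q a b) :
    Sv m (wt s) (yv P O) A v = zz * (Sv m (wt s) (yv P O) (A.erase v) a +
      Sv m (wt s) (yv P O) (A.erase v) b) := by
  obtain ⟨hPv, hOv, hQv, _⟩ := t.h.root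
  exact t.h.first t.ha t.hb t.hab t.hma t.hmb t.hm _ (by simp [yv, hPv, hOv])

lemma Two.T {a b : V} (t : Two m s A v P O Q a b) (hN : N ≤ 2)
    (hbal : ∑ x ∈ A, P x + 1 = ∑ x ∈ A, Q x + N)
    (IH : Good V (3 * ∑ x ∈ A, s x + (2 - N)))
    (hfail : Sv m (wt s) (yv P O) A v < zz ^ (2 - N)) :
    (2 - 4 * zz) * yv P O a +
      (4 - 6 * zz + 2 * zz * ((P a + O a + Q a : ℕ) : ℝ)) * Qs m s A v P O a +
    ((2 - 4 * zz) * yv P O b +
      (4 - 6 * zz + 2 * zz * ((P b + O b + Q b : ℕ) : ℝ)) * Qs m s A v P O b) < 0 := by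
  have h1 : ∑ u ∈ A.erase v, (m v u : ℝ) * (zz * zz * ((2 - 4 * zz) * yv P O u +
      (4 - 6 * zz + 2 * zz * ((P u + O u + Q u : ℕ) : ℝ)) * Qs m s A v P O u)) < 0 :=
    T_fail t.h hN hbal IH t.hc hfail
  have hb2 : b ∈ (A.erase v).erase a := Finset.mem_erase.mpr ⟨t.hab.symm, t.hb⟩
  rw [← Finset.add_sum_erase _ _ t.ha, ← Finset.add_sum_erase _ _ hb2, t.hma, t.hmb] at h1
  have h0 : ∑ u ∈ ((A.erase v).erase a).erase b, (m v u : ℝ) * (zz * zz *
      ((2 - 4 * zz) * yv P O u + (4 - 6 * zz + 2 * zz * ((P u + O u + Q u : ℕ) : ℝ)) *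
        Qs m s A v P O u)) = 0 := by
    apply Finset.sum_eq_zero
    intro x hx
    obtain ⟨h1, h2⟩ := Finset.mem_erase.mp hx
    obtain ⟨h3, h4⟩ := Finset.mem_erase.mp h2
    rw [t.hm x (Finset.mem_of_mem_erase h4) h3 h1]; simp
  rw [h0] at h1
  have hzp := zz_pos
  have hz2 : 0 < zz * zz := by positivity
  simp only [Nat.cast_one, one_mul, add_zero] at h1
  rw [← mul_add] at h1
  have := neg_of_mul_neg_right h1 hz2.le
  exact this

lemma Two.mv {a b : V} (t : Two m s A v P O Q a b) {x : V} (hx : x ∈ A) :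
    m v x = indN a x + indN b x := by
  unfold indN
  by_cases hxa : x = a
  · subst hxa; rw [t.hma]; simp [t.hab]
  · by_cases hxb : x = b
    · subst hxb; rw [t.hmb]; simp [hxa]
    · rw [t.hm x hx hxa hxb]; simp [hxa, hxb]

/-- the root neighbours are not adjacent -/
lemma Two.mab {a b : V} (t : Two m s A v P O Q a b) : m a b = 0 := by
  by_contra hcon
  obtain ⟨hav, haA⟩ := Finset.mem_erase.mp t.ha
  obtain ⟨hbv, hbA⟩ := Finset.mem_erase.mp t.hb
  have h1 : m a b = 1 := by have := t.h.simple haA hbA; omega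
  have hcard : ({v, a, b} : Finset V).card = 3 := by
    rw [Finset.card_insert_of_notMem (by simp [Ne.symm hav, Ne.symm hbv]),
      Finset.card_pair t.hab]
  have hsub : ({v, a, b} : Finset V) ⊆ A := by
    intro x hx
    rcases Finset.mem_insert.mp hx with rfl | hx
    · exact t.h.sys.hv
    · rcases Finset.mem_insert.mp hx with rfl | hx
      · exact haA
      · rw [Finset.mem_singleton.mp hx]; exact hbA
  have hd := t.h.d4 _ hsub (by rintro hh; have := t.hc; rw [← hh, hcard] at this; omega)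
    (by omega)
  have d1 : Disjoint ({v} : Finset V) {a, b} := by
    rw [Finset.disjoint_singleton_left]; simp [Ne.symm hav, Ne.symm hbv]
  have e1 : ({v, a, b} : Finset V) = {v} ∪ {a, b} := rfl
  have hsym := t.h.sys.symm
  rw [hcard, e1, ee_union_left d1, ee_union_right d1, ee_union_right d1, ee_single,
    ee_comm hsym {a, b} {v}, ee_single_left,
    ee_pair hsym t.hab (t.h.sys.loop_free haA) (t.h.sys.loop_free hbA),
    Finset.sum_pair t.hab, t.hma, t.hmb, h1] at hd
  omega

/-- lower bound for the value at a root neighbour when `n = 1` -/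
lemma Two.ge_zz {a b : V} (t : Two m s A v P O Q a b)
    (hbal : ∑ x ∈ A, P x + 1 = ∑ x ∈ A, Q x + 2)
    (IH : Good V (3 * ∑ x ∈ A, s x + (2 - 2))) :
    1 ≤ yv P O a + Qs m s A v P O a := by
  obtain ⟨hPv, hOv, hQv, _⟩ := t.h.root
  have e1 := Finset.add_sum_erase A P t.h.sys.hv
  have e2 := Finset.add_sum_erase A Q t.h.sys.hv
  have hs : A \ A.erase v = {v} := by
    ext x; simp only [Finset.mem_sdiff, Finset.mem_erase, Finset.mem_singleton]
    constructor
    · rintro ⟨h1, h2⟩
      by_contra h3; exact h2 ⟨h3, h1⟩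
    · rintro rfl; exact ⟨t.h.sys.hv, fun h => h.1 rfl⟩
  have h1 := sub2_zero t.h IH (Finset.erase_subset v A) (by simp) t.ha t.hb
    (by
      intro x hx
      rw [hs, Finset.sum_singleton, t.h.sys.symm, t.mv (Finset.mem_of_mem_erase hx)])
    (L2 := 0) (by norm_num) (by omega)
  have h2 : FF 0 = 0 := by simp [FF]
  rw [h2, zero_mul, add_zero, t.Sa] at h1
  have hzp := zz_pos
  by_contra hcon
  push Not at hcon
  have := mul_lt_mul_of_pos_left hcon hzp
  linarith

/-- the set used when both root neighbours carry a leg -/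
lemma Two.hk_both {a b c d : V} (t : Two m s A v P O Q a b)
    (hc : ∀ u ∈ A, m a u = indN v u + indN c u) (hd : ∀ u ∈ A, m b u = indN v u + indN d u) :
    ∀ x ∈ ((A.erase v).erase a).erase b,
      ∑ u ∈ A \ ((A.erase v).erase a).erase b, m x u = indN c x + indN d x := by
  obtain ⟨hav, haA⟩ := Finset.mem_erase.mp t.ha
  obtain ⟨hbv, hbA⟩ := Finset.mem_erase.mp t.hb
  intro x hx
  obtain ⟨hxb, hx1⟩ := Finset.mem_erase.mp hx
  obtain ⟨hxa, hx2⟩ := Finset.mem_erase.mp hx1
  obtain ⟨hxv, hxA⟩ := Finset.mem_erase.mp hx2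
  have e : A \ ((A.erase v).erase a).erase b = {v, a, b} := by
    ext u; simp only [Finset.mem_sdiff, Finset.mem_erase, Finset.mem_insert,
      Finset.mem_singleton]
    constructor
    · rintro ⟨h1, h2⟩
      by_contra h3
      push Not at h3
      exact h2 ⟨h3.2.2, h3.2.1, h3.1, h1⟩
    · rintro (rfl | rfl | rfl)
      · exact ⟨t.h.sys.hv, fun h => h.2.2.1 rfl⟩
      · exact ⟨haA, fun h => h.2.1 rfl⟩
      · exact ⟨hbA, fun h => h.1 rfl⟩
  have hsym := t.h.sys.symm
  rw [e, Finset.sum_insert (by simp [Ne.symm hav, Ne.symm hbv]), Finset.sum_pair t.hab,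
    hsym x v, t.hm x hxA hxa hxb, hsym x a, hc x hxA, hsym x b, hd x hxA]
  have : indN v x = 0 := by simp [indN, hxv]
  omega

/-- the set used when only `a` carries a leg -/
lemma Two.hk_one {a b c : V} (t : Two m s A v P O Q a b)
    (hc : ∀ u ∈ A, m a u = indN v u + indN c u) :
    ∀ x ∈ (A.erase v).erase a,
      ∑ u ∈ A \ (A.erase v).erase a, m x u = indN b x + indN c x := by
  obtain ⟨hav, haA⟩ := Finset.mem_erase.mp t.ha
  obtain ⟨hbv, hbA⟩ := Finset.mem_erase.mp t.hb
  intro x hx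
  obtain ⟨hxa, hx2⟩ := Finset.mem_erase.mp hx
  obtain ⟨hxv, hxA⟩ := Finset.mem_erase.mp hx2
  have e : A \ (A.erase v).erase a = {v, a} := by
    ext u; simp only [Finset.mem_sdiff, Finset.mem_erase, Finset.mem_insert,
      Finset.mem_singleton]
    constructor
    · rintro ⟨h1, h2⟩
      by_contra h3
      push Not at h3
      exact h2 ⟨h3.2, h3.1, h1⟩
    · rintro (rfl | rfl)
      · exact ⟨t.h.sys.hv, fun h => h.2.1 rfl⟩
      · exact ⟨haA, fun h => h.1 rfl⟩
  have hsym := t.h.sys.symm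
  rw [e, Finset.sum_pair (Ne.symm hav), hsym x v, t.mv hxA, hsym x a, hc x hxA]
  have h1 : indN v x = 0 := by simp [indN, hxv]
  have h2 : indN a x = 0 := by simp [indN, hxa]
  omega

/-- the second neighbour of a leg vertex is not the other root neighbour -/
lemma Two.c_ne_b {a b c : V} (t : Two m s A v P O Q a b)
    (hc : ∀ u ∈ A, m a u = indN v u + indN c u) : c ≠ b := by
  rintro rfl
  have h1 := hc c (Finset.mem_of_mem_erase t.hb)
  rw [t.mab] at h1
  have : indN c c = 1 := by simp [indN]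
  omega

lemma Two.Qs_eq {a b c : V} (_ : Two m s A v P O Q a b)
    (hcm : c ∈ (A.erase v).erase a)
    (hc : ∀ u ∈ A, m a u = indN v u + indN c u) :
    Qs m s A v P O a = Sv m (wt s) (yv P O) ((A.erase v).erase a) c := by
  unfold Qs
  rw [Finset.sum_eq_single c]
  · obtain ⟨hca, hc2⟩ := Finset.mem_erase.mp hcm
    obtain ⟨hcv, hcA⟩ := Finset.mem_erase.mp hc2
    have : m a c = 1 := by
      rw [hc c hcA]; simp [indN, hcv]
    rw [this]; simp
  · intro u hu huc
    obtain ⟨hua, hu2⟩ := Finset.mem_erase.mp hu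
    obtain ⟨huv, huA⟩ := Finset.mem_erase.mp hu2
    have : m a u = 0 := by rw [hc u huA]; simp [indN, huv, huc]
    rw [this]; simp
  · intro h; exact absurd hcm h

end

end Pool.Agent.TH496
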