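import Pool.Agent.TH496.GM12

set_option autoImplicit false
set_option linter.unusedSectionVars false

/-! The main lemma on rooted leg systems. -/

namespace Pool.Agent.TH496

open Finset

section
variable {V : Type*} [DecidableEq V]
variable {m : V → V → ℕ} {s : V → ℕ} {A : Finset V} {v : V} {P O Q : V → ℕ} {N : ℕ}

lemma Two.sums {a b : V} (t : Two m s A v P O Q a b) (f : V → ℕ) :
    ∑ x ∈ A, f x = f v + f a + ∑ x ∈ (A.erase v).erase a, f x := by
  rw [← Finset.add_sum_erase A f t.h.sys.hv, ← Finset.add_sum_erase (A.erase v) f t.ha]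
  omega

lemma Two.sums2 {a b : V} (t : Two m s A v P O Q a b) (f : V → ℕ) :
    ∑ x ∈ A, f x = f v + f a + f b + ∑ x ∈ ((A.erase v).erase a).erase b, f x := by
  have hb2 : b ∈ (A.erase v).erase a := Finset.mem_erase.mpr ⟨t.hab.symm, t.hb⟩
  rw [t.sums, ← Finset.add_sum_erase _ f hb2]
  omega

lemma Two.wa_sub {a b : V} (_ : Two m s A v P O Q a b) : (A.erase v).erase a ⊆ A :=
  (Finset.erase_subset _ _).trans (Finset.erase_subset _ _)

lemma Two.wab_sub {a b : V} (_ : Two m s A v P O Q a b) : ((A.erase v).erase a).erase b ⊆ A :=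
  (Finset.erase_subset _ _).trans ((Finset.erase_subset _ _).trans (Finset.erase_subset _ _))

lemma Two.case00 {a b : V} (t : Two m s A v P O Q a b) (hN : N ≤ 2)
    (hbal : ∑ x ∈ A, P x + 1 = ∑ x ∈ A, Q x + N)
    (IH : Good V (3 * ∑ x ∈ A, s x + (2 - N)))
    (hfail : Sv m (wt s) (yv P O) A v < zz ^ (2 - N))
    (hya : yv P O a = 0) (hyb : yv P O b = 0) : False := by
  have h := t.T hN hbal IH hfail
  rw [hya, hyb] at h
  have h1 := Qs_nonneg m s A v P O a
  have h2 := Qs_nonneg m s A v P O b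
  have hz1 := zz_gt
  have hz2 := zz_lt
  have h3 : (0 : ℝ) ≤ ((P a + O a + Q a : ℕ) : ℝ) := Nat.cast_nonneg _
  have h4 : (0 : ℝ) ≤ ((P b + O b + Q b : ℕ) : ℝ) := Nat.cast_nonneg _
  have h5 : 0 ≤ (4 - 6 * zz + 2 * zz * ((P a + O a + Q a : ℕ) : ℝ)) * Qs m s A v P O a := by
    apply mul_nonneg _ h1
    have : 0 ≤ 2 * zz * ((P a + O a + Q a : ℕ) : ℝ) := by positivity
    linarith
  have h6 : 0 ≤ (4 - 6 * zz + 2 * zz * ((P b + O b + Q b : ℕ) : ℝ)) * Qs m s A v P O b := by
    apply mul_nonneg _ h2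
    have : 0 ≤ 2 * zz * ((P b + O b + Q b : ℕ) : ℝ) := by positivity
    linarith
  linarith

/-- data at a leg neighbour -/
lemma Two.leg {a b : V} (t : Two m s A v P O Q a b) (hk : P a + O a + Q a = 1) :
    ∃ c ∈ ((A.erase v).erase a).erase b, (∀ u ∈ A, m a u = indN v u + indN c u) ∧
      Qs m s A v P O a = Sv m (wt s) (yv P O) ((A.erase v).erase a) c := by
  obtain ⟨c, hc1, hc2⟩ := t.h.leg_nbr t.ha t.hma hk
  exact ⟨c, Finset.mem_erase.mpr ⟨t.c_ne_b hc2, hc1⟩, hc2, t.Qs_eq hc1 hc2⟩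

lemma Two.exit_b {a b d : V} (t : Two m s A v P O Q a b)
    (hd : ∀ u ∈ A, m b u = indN v u + indN d u) {c : V}
    (hc : c ∈ ((A.erase v).erase a).erase b) :
    Sv m (wt s) (yv P O) (((A.erase v).erase a).erase b) c +
      zz * yv P O b * Sv m (wt s) (ind d) (((A.erase v).erase a).erase b) c ≤
    Sv m (wt s) (yv P O) ((A.erase v).erase a) c := by
  have hb2 : b ∈ (A.erase v).erase a := Finset.mem_erase.mpr ⟨t.hab.symm, t.hb⟩
  have h1 := exit_vertex (m := m) (s := s) (y := yv P O) (yv_nonneg P O) hb2 (r := d) hc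
    t.h.sys.symm (by
      intro u hu
      obtain ⟨_, hu1⟩ := Finset.mem_erase.mp hu
      obtain ⟨_, hu2⟩ := Finset.mem_erase.mp hu1
      obtain ⟨huv, huA⟩ := Finset.mem_erase.mp hu2
      rw [hd u huA]
      have : indN v u = 0 := by simp [indN, huv]
      omega)
  rw [t.h.wt_eq (Finset.mem_of_mem_erase t.hb)] at h1
  exact h1

lemma Two.exit_a {a b c : V} (t : Two m s A v P O Q a b)
    (hc : ∀ u ∈ A, m a u = indN v u + indN c u) :
    Sv m (wt s) (yv P O) ((A.erase v).erase a) b +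
      zz * yv P O a * Sv m (wt s) (ind c) ((A.erase v).erase a) b ≤
    Sv m (wt s) (yv P O) (A.erase v) b := by
  have hb2 : b ∈ (A.erase v).erase a := Finset.mem_erase.mpr ⟨t.hab.symm, t.hb⟩
  have h1 := exit_vertex (m := m) (s := s) (y := yv P O) (yv_nonneg P O) t.ha (r := c) hb2
    t.h.sys.symm (by
      intro u hu
      obtain ⟨_, hu2⟩ := Finset.mem_erase.mp hu
      obtain ⟨huv, huA⟩ := Finset.mem_erase.mp hu2
      rw [hc u huA]
      have : indN v u = 0 := by simp [indN, huv]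
      omega)
  rw [t.h.wt_eq (Finset.mem_of_mem_erase t.ha)] at h1
  exact h1

lemma num1 {Qa : ℝ} (h : zz ^ 2 ≤ Qa) : 0 < (2 - 4 * zz) + (4 - 4 * zz) * Qa := by
  have hz := zz_sq
  have hz1 := zz_gt
  have hz2 := zz_lt
  have h1 : (4 - 4 * zz) * zz ^ 2 ≤ (4 - 4 * zz) * Qa :=
    mul_le_mul_of_nonneg_left h (by linarith)
  have h2 : (4 - 4 * zz) * zz ^ 2 = 8 - 12 * zz := by
    have : zz ^ 2 = 1 - zz := by rw [sq, hz]
    rw [this]
    have : (4 - 4 * zz) * (1 - zz) = 4 - 8 * zz + 4 * (zz * zz) := by ring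
    rw [this, hz]; ring
  linarith

/-- `n = 0`, labels `1` and `-1` -/
lemma Two.n1_A {a b : V} (t : Two m s A v P O Q a b)
    (hbal : ∑ x ∈ A, P x + 1 = ∑ x ∈ A, Q x + 1)
    (IH : Good V (3 * ∑ x ∈ A, s x + (2 - 1)))
    (hfail : Sv m (wt s) (yv P O) A v < zz ^ (2 - 1))
    (hPa : P a = 1) (hOa : O a = 0) (hQa : Q a = 0) (hPb : P b = 0) (hOb : O b = 0)
    (hQb : Q b = 1) : False := by
  obtain ⟨hPv, hOv, hQv, _⟩ := t.h.root
  obtain ⟨hav, haA⟩ := Finset.mem_erase.mp t.ha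
  obtain ⟨c, hc1, hc2, hc3⟩ := t.leg (by omega)
  obtain ⟨d, hd1, hd2, hd3⟩ := t.swap.leg (by omega)
  rw [Finset.erase_right_comm] at hd1
  have s1 := t.sums2 P
  have s2 := t.sums2 Q
  have h1 := sub2_one t.h IH t.wab_sub (by simp) hc1 hd1 (t.hk_both hc2 hd2) (L2 := 0)
    (by norm_num) (by omega) haA hav (by simp) hPa hQa hc2
  have h2 : FF 0 = 0 := by simp [FF]
  rw [h2, zero_mul, add_zero] at h1
  have h3 : Sv m (wt s) (yv P O) (((A.erase v).erase a).erase b) c ≤
      Sv m (wt s) (yv P O) ((A.erase v).erase a) c :=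
    Sv_mono_A _ (fun x _ => wt_nonneg s x) (fun x _ => yv_nonneg P O x) _
      (Finset.erase_subset _ _) _
  rw [← hc3] at h3
  have h4 := t.T (by norm_num) hbal IH hfail
  have h5 := Qs_nonneg m s A v P O b
  have ya : yv P O a = 1 := by simp [yv, hPa, hOa]
  have yb : yv P O b = 0 := by simp [yv, hPb, hOb]
  have ka : ((P a + O a + Q a : ℕ) : ℝ) = 1 := by rw [hPa, hOa, hQa]; norm_num
  have kb : ((P b + O b + Q b : ℕ) : ℝ) = 1 := by rw [hPb, hOb, hQb]; norm_num
  rw [ya, yb, ka, kb] at h4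
  have h6 := num1 (h1.trans h3)
  have hz2 := zz_lt
  have h7 : 0 ≤ (4 - 4 * zz) * Qs m s A v P O b := mul_nonneg (by linarith) h5
  nlinarith

/-- `n = 0`, a single leg with label `1` -/
lemma Two.n1_B {a b : V} (t : Two m s A v P O Q a b)
    (hbal : ∑ x ∈ A, P x + 1 = ∑ x ∈ A, Q x + 1)
    (IH : Good V (3 * ∑ x ∈ A, s x + (2 - 1)))
    (hfail : Sv m (wt s) (yv P O) A v < zz ^ (2 - 1))
    (hPa : P a = 1) (hOa : O a = 0) (hQa : Q a = 0) : False := by
  obtain ⟨hPv, hOv, hQv, _⟩ := t.h.root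
  obtain ⟨hav, haA⟩ := Finset.mem_erase.mp t.ha
  obtain ⟨c, hc1, hc2, hc3⟩ := t.leg (by omega)
  have s1 := t.sums P
  have s2 := t.sums Q
  have hb2 : b ∈ (A.erase v).erase a := Finset.mem_erase.mpr ⟨t.hab.symm, t.hb⟩
  have h1 := sub2_zero t.h IH t.wa_sub (by simp) hb2 (Finset.mem_of_mem_erase hc1)
    (t.hk_one hc2) (L2 := 2) le_rfl (by omega)
  have h2 : FF 2 = 1 := by simp [FF]
  rw [h2, one_mul] at h1
  have h3 := t.exit_a hc2
  have ya : yv P O a = 1 := by simp [yv, hPa, hOa]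
  rw [ya, mul_one] at h3
  have h4 := t.Sa
  rw [ya] at h4
  have h5 := Qs_nonneg m s A v P O a
  have h6 := t.S
  have h7 := Sv_nn m s P O ((A.erase v).erase a) b
  have hz := zz_sq
  have hz1 := zz_gt
  have hz2 := zz_lt
  have hzp := zz_pos
  rw [h6, h4] at hfail
  simp only [Nat.add_one_sub_one, pow_one] at hfail
  set S1 := Sv m (wt s) (yv P O) ((A.erase v).erase a) b
  set P1 := Sv m (wt s) (ind c) ((A.erase v).erase a) b
  set Sb := Sv m (wt s) (yv P O) (A.erase v) b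
  set Qa := Qs m s A v P O a
  have g1 : zz * zz ≤ zz * (S1 + P1) := mul_le_mul_of_nonneg_left h1 hzp.le
  have g2 : zz * (S1 + P1) ≤ Sb := by
    have : zz * S1 ≤ 1 * S1 := mul_le_mul_of_nonneg_right (by linarith) h7
    linarith
  have g3 : 0 ≤ zz * Qa := by positivity
  have g4 : zz * (zz + zz * zz) ≤ zz * (zz * (1 + Qa) + Sb) := by
    apply mul_le_mul_of_nonneg_left _ hzp.le
    linarith
  have g5 : zz * (zz + zz * zz) = zz := by rw [hz]; ring
  linarith

/-- `n = 1`, a single leg with label `0` -/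
lemma Two.n2_O {a b : V} (t : Two m s A v P O Q a b)
    (hbal : ∑ x ∈ A, P x + 1 = ∑ x ∈ A, Q x + 2)
    (IH : Good V (3 * ∑ x ∈ A, s x + (2 - 2)))
    (hfail : Sv m (wt s) (yv P O) A v < zz ^ (2 - 2))
    (hPa : P a = 0) (hOa : O a = 1) (hPb : P b = 0) (hOb : O b = 0) :
    False := by
  have h4 := t.T (by norm_num) hbal IH hfail
  have h5 := Qs_nonneg m s A v P O a
  have h6 := t.swap.ge_zz hbal IH
  have ya : yv P O a = zz := by simp [yv, hPa, hOa]
  have yb : yv P O b = 0 := by simp [yv, hPb, hOb]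
  rw [yb] at h4 h6
  rw [ya] at h4
  have hz := zz_sq
  have hz1 := zz_gt
  have hz2 := zz_lt
  have k1 : (0 : ℝ) ≤ ((P a + O a + Q a : ℕ) : ℝ) := Nat.cast_nonneg _
  have k2 : (0 : ℝ) ≤ ((P b + O b + Q b : ℕ) : ℝ) := Nat.cast_nonneg _
  set Qa := Qs m s A v P O a
  set Qb := Qs m s A v P O b
  have g1 : 0 ≤ (4 - 6 * zz + 2 * zz * ((P a + O a + Q a : ℕ) : ℝ)) * Qa := by
    apply mul_nonneg _ h5
    have : 0 ≤ 2 * zz * ((P a + O a + Q a : ℕ) : ℝ) := by positivity
    linarith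
  have g2 : (4 - 6 * zz) * 1 ≤ (4 - 6 * zz + 2 * zz * ((P b + O b + Q b : ℕ) : ℝ)) * Qb := by
    have : 0 ≤ 2 * zz * ((P b + O b + Q b : ℕ) : ℝ) := by positivity
    apply mul_le_mul _ _ _ _ <;> linarith
  have g3 : (2 - 4 * zz) * zz = 2 * zz - 4 * (zz * zz) := by ring
  rw [g3, hz] at h4
  linarith

/-- `n = 1`, a single leg with label `1` -/
lemma Two.n2_P {a b : V} (t : Two m s A v P O Q a b)
    (hbal : ∑ x ∈ A, P x + 1 = ∑ x ∈ A, Q x + 2)
    (IH : Good V (3 * ∑ x ∈ A, s x + (2 - 2)))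
    (hfail : Sv m (wt s) (yv P O) A v < zz ^ (2 - 2))
    (hPa : P a = 1) (hOa : O a = 0) (hQa : Q a = 0) (hPb : P b = 0) (hOb : O b = 0)
    (hQb : Q b = 0) : False := by
  obtain ⟨hPv, hOv, hQv, _⟩ := t.h.root
  obtain ⟨hav, haA⟩ := Finset.mem_erase.mp t.ha
  obtain ⟨c, hc1, hc2, hc3⟩ := t.leg (by omega)
  have s1 := t.sums P
  have s2 := t.sums Q
  have hb2 : b ∈ (A.erase v).erase a := Finset.mem_erase.mpr ⟨t.hab.symm, t.hb⟩
  have h1 := sub2_one t.h IH t.wa_sub (by simp) (Finset.mem_of_mem_erase hc1) hb2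
    (fun x hx => by rw [t.hk_one hc2 x hx, add_comm]) (L2 := 0)
    (by norm_num) (by omega) haA hav (by simp) hPa hQa hc2
  have h2 : FF 0 = 0 := by simp [FF]
  rw [h2, zero_mul, add_zero, ← hc3] at h1
  have h4 := t.T (by norm_num) hbal IH hfail
  have h5 := Qs_nonneg m s A v P O b
  have ya : yv P O a = 1 := by simp [yv, hPa, hOa]
  have yb : yv P O b = 0 := by simp [yv, hPb, hOb]
  have ka : ((P a + O a + Q a : ℕ) : ℝ) = 1 := by rw [hPa, hOa, hQa]; norm_num
  have kb : ((P b + O b + Q b : ℕ) : ℝ) = 0 := by rw [hPb, hOb, hQb]; norm_num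
  rw [ya, yb, ka, kb] at h4
  have h6 := num1 h1
  have hz2 := zz_lt
  have h7 : 0 ≤ (4 - 6 * zz) * Qs m s A v P O b := mul_nonneg (by linarith) h5
  nlinarith

/-- `n = 1`, labels `1` and `1` -/
lemma Two.n2_PP {a b : V} (t : Two m s A v P O Q a b)
    (hbal : ∑ x ∈ A, P x + 1 = ∑ x ∈ A, Q x + 2)
    (IH : Good V (3 * ∑ x ∈ A, s x + (2 - 2)))
    (hfail : Sv m (wt s) (yv P O) A v < zz ^ (2 - 2))
    (hPa : P a = 1) (hOa : O a = 0) (hQa : Q a = 0) (hPb : P b = 1) (hOb : O b = 0)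
    (hQb : Q b = 0) : False := by
  obtain ⟨hPv, hOv, hQv, _⟩ := t.h.root
  obtain ⟨hbv, hbA⟩ := Finset.mem_erase.mp t.hb
  obtain ⟨c, hc1, hc2, hc3⟩ := t.leg (by omega)
  obtain ⟨d, hd1, hd2, hd3⟩ := t.swap.leg (by omega)
  have hcomm : ((A.erase v).erase b).erase a = ((A.erase v).erase a).erase b :=
    Finset.erase_right_comm
  have hd1' := hd1
  rw [hcomm] at hd1'
  have s1 := t.sums2 P
  have s2 := t.sums2 Q
  have hk := t.hk_both hc2 hd2
  have h1 := sub2_zero t.h IH t.wab_sub (by simp) hc1 hd1' hk (L2 := 2) le_rfl (by omega)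
  have h2 := sub2_one t.h IH t.wab_sub (by simp) hd1' hc1
    (fun x hx => by rw [hk x hx, add_comm]) (L2 := 1)
    (by norm_num) (by omega) hbA hbv (by simp) hPb hQb hd2
  have f2 : FF 2 = 1 := by simp [FF]
  have f1 : FF 1 = zz := by simp [FF]
  rw [f2, one_mul] at h1
  rw [f1] at h2
  have e1 := t.exit_b hd2 hc1
  have e2 := t.swap.exit_b hc2 hd1
  rw [hcomm] at e2
  have ya : yv P O a = 1 := by simp [yv, hPa, hOa]
  have yb : yv P O b = 1 := by simp [yv, hPb, hOb]
  rw [yb, mul_one, ← hc3] at e1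
  rw [ya, mul_one, ← hd3] at e2
  rw [t.S, t.Sa, t.swap.Sa, ya, yb] at hfail
  have n1 := Sv_nn m s P O (((A.erase v).erase a).erase b) c
  have hz := zz_sq
  have hz1 := zz_gt
  have hz2 := zz_lt
  have hzp := zz_pos
  set Sc := Sv m (wt s) (yv P O) (((A.erase v).erase a).erase b) c
  set Sd := Sv m (wt s) (yv P O) (((A.erase v).erase a).erase b) d
  set P1 := Sv m (wt s) (ind d) (((A.erase v).erase a).erase b) c
  set P2 := Sv m (wt s) (ind c) (((A.erase v).erase a).erase b) d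
  set Qa := Qs m s A v P O a
  set Qb := Qs m s A v P O b
  have g1 : zz * zz ≤ zz * (Sc + P1) := mul_le_mul_of_nonneg_left h1 hzp.le
  have g2 : zz * Sc ≤ 1 * Sc := mul_le_mul_of_nonneg_right (by linarith) n1
  have g3 : zz * zz ≤ Qa := by linarith
  have g4 : zz * zz ≤ Qb := by
    have : zz ^ 2 = zz * zz := sq zz
    linarith
  simp only [Nat.sub_self, pow_zero] at hfail
  have g5 : zz * (zz * (1 + Qa) + zz * (1 + Qb)) = zz * zz * (2 + Qa + Qb) := by ring
  rw [g5] at hfail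
  have g6 : zz * zz * (2 + zz * zz + zz * zz) ≤ zz * zz * (2 + Qa + Qb) := by
    apply mul_le_mul_of_nonneg_left _ (by positivity)
    linarith
  have g7 : zz * zz * (2 + zz * zz + zz * zz) = 4 - 4 * zz - 2 * zz + 2 * (zz * zz) := by
    rw [hz]
    have : (1 - zz) * (2 + (1 - zz) + (1 - zz)) = 4 - 6 * zz + 2 * (zz * zz) := by ring
    rw [this, hz]; ring
  rw [g7, hz] at g6
  rw [hz] at hfail
  linarith

/-- `n = 1`, labels `1` and `0` -/
lemma Two.n2_PO {a b : V} (t : Two m s A v P O Q a b)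
    (hbal : ∑ x ∈ A, P x + 1 = ∑ x ∈ A, Q x + 2)
    (IH : Good V (3 * ∑ x ∈ A, s x + (2 - 2)))
    (hfail : Sv m (wt s) (yv P O) A v < zz ^ (2 - 2))
    (hPa : P a = 1) (hOa : O a = 0) (hQa : Q a = 0) (hPb : P b = 0) (hOb : O b = 1)
    (hQb : Q b = 0) : False := by
  obtain ⟨hPv, hOv, hQv, _⟩ := t.h.root
  obtain ⟨c, hc1, hc2, hc3⟩ := t.leg (by omega)
  obtain ⟨d, hd1, hd2, hd3⟩ := t.swap.leg (by omega)
  have hcomm : ((A.erase v).erase b).erase a = ((A.erase v).erase a).erase b :=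
    Finset.erase_right_comm
  have hd1' := hd1
  rw [hcomm] at hd1'
  have s1 := t.sums2 P
  have s2 := t.sums2 Q
  have hk := t.hk_both hc2 hd2
  have h1 := sub2_zero t.h IH t.wab_sub (by simp) hc1 hd1' hk (L2 := 1) (by norm_num) (by omega)
  have h2 := sub2_zero t.h IH t.wab_sub (by simp) hd1' hc1
    (fun x hx => by rw [hk x hx, add_comm]) (L2 := 1) (by norm_num) (by omega)
  have f1 : FF 1 = zz := by simp [FF]
  rw [f1] at h1 h2
  have e1 := t.exit_b hd2 hc1
  have e2 := t.swap.exit_b hc2 hd1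
  rw [hcomm] at e2
  have ya : yv P O a = 1 := by simp [yv, hPa, hOa]
  have yb : yv P O b = zz := by simp [yv, hPb, hOb]
  rw [yb, ← hc3] at e1
  rw [ya, mul_one, ← hd3] at e2
  rw [t.S, t.Sa, t.swap.Sa, ya, yb] at hfail
  have n1 := Sv_nn m s P O (((A.erase v).erase a).erase b) c
  have hz := zz_sq
  have hz1 := zz_gt
  have hz2 := zz_lt
  have hzp := zz_pos
  set Sc := Sv m (wt s) (yv P O) (((A.erase v).erase a).erase b) c
  set Sd := Sv m (wt s) (yv P O) (((A.erase v).erase a).erase b) d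
  set P1 := Sv m (wt s) (ind d) (((A.erase v).erase a).erase b) c
  set P2 := Sv m (wt s) (ind c) (((A.erase v).erase a).erase b) d
  set Qa := Qs m s A v P O a
  set Qb := Qs m s A v P O b
  have g1 : zz * zz ≤ zz * (Sc + zz * P1) := mul_le_mul_of_nonneg_left h1 hzp.le
  have g2 : zz * Sc ≤ 1 * Sc := mul_le_mul_of_nonneg_right (by linarith) n1
  have g3 : zz * zz ≤ Qa := by
    have : zz * (Sc + zz * P1) = zz * Sc + zz * zz * P1 := by ring
    linarith
  have g4 : zz ≤ Qb := by linarith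
  simp only [Nat.sub_self, pow_zero] at hfail
  have g5 : zz * (zz * (1 + Qa) + zz * (zz + Qb)) = zz * zz * (1 + zz + Qa + Qb) := by ring
  rw [g5] at hfail
  have g6 : zz * zz * (1 + zz + zz * zz + zz) ≤ zz * zz * (1 + zz + Qa + Qb) := by
    apply mul_le_mul_of_nonneg_left _ (by positivity)
    linarith
  have g7 : zz * zz * (1 + zz + zz * zz + zz) = 1 := by
    rw [hz]
    have : (1 - zz) * (1 + zz + (1 - zz) + zz) = 2 - zz - zz * zz := by ring
    rw [this, hz]; ring
  linarith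

lemma label_cases {P O Q : ℕ} (h : P + O + Q ≤ 1) : (P = 0 ∧ O = 0 ∧ Q = 0) ∨
    (P = 1 ∧ O = 0 ∧ Q = 0) ∨ (P = 0 ∧ O = 1 ∧ Q = 0) ∨ (P = 0 ∧ O = 0 ∧ Q = 1) := by omega

/-- the strict case -/
lemma case_strict {N : ℕ} (h : Strict m s A v P O Q) (hN : N ≤ 2)
    (hbal : ∑ x ∈ A, P x + 1 = ∑ x ∈ A, Q x + N)
    (IH : Good V (3 * ∑ x ∈ A, s x + (2 - N))) (hc4 : 4 ≤ A.card)
    (hfail : Sv m (wt s) (yv P O) A v < zz ^ (2 - N)) : False := by
  obtain ⟨a, b, ha, hb, hab, hma, hmb, hm⟩ := h.nbrs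
  have t : Two m s A v P O Q a b := ⟨h, hc4, ha, hb, hab, hma, hmb, hm⟩
  obtain ⟨hav, haA⟩ := Finset.mem_erase.mp ha
  obtain ⟨hbv, hbA⟩ := Finset.mem_erase.mp hb
  have hka := h.leg_le haA hav
  have hkb := h.leg_le hbA hbv
  have hz := zz_sq
  have hz1 := zz_gt
  have hz2 := zz_lt
  have hzp := zz_pos
  have nQa := Qs_nonneg m s A v P O a
  have nQb := Qs_nonneg m s A v P O b
  have hrel : N ≤ 1 → O a = 0 ∧ O b = 0 := by
    intro hN1
    constructor
    · by_contra h0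
      exact absurd (relabel h hN1 hbal IH haA h0) (not_le.mpr hfail)
    · by_contra h0
      exact absurd (relabel h hN1 hbal IH hbA h0) (not_le.mpr hfail)
  have hSform : Sv m (wt s) (yv P O) A v =
      zz * zz * (yv P O a + yv P O b + Qs m s A v P O a + Qs m s A v P O b) := by
    rw [t.S, t.Sa, t.swap.Sa]; ring
  interval_cases N
  · -- n = -1
    obtain ⟨oa, ob⟩ := hrel (by norm_num)
    rw [hSform] at hfail
    have key : yv P O a + yv P O b < 1 := by
      by_contra hcon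
      push Not at hcon
      have : zz * zz * 1 ≤
          zz * zz * (yv P O a + yv P O b + Qs m s A v P O a + Qs m s A v P O b) :=
        mul_le_mul_of_nonneg_left (by linarith) (by positivity)
      have h2 : zz ^ (2 - 0) = zz * zz := by norm_num [sq]
      linarith
    rw [← hSform] at hfail
    have ya : yv P O a = (P a : ℝ) := by simp [yv, oa]
    have yb : yv P O b = (P b : ℝ) := by simp [yv, ob]
    rw [ya, yb] at key
    have hP : P a + P b < 1 := by exact_mod_cast key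
    exact t.case00 (by norm_num) hbal IH hfail (by rw [ya]; simp; omega) (by rw [yb]; simp; omega)
  · -- n = 0
    obtain ⟨oa, ob⟩ := hrel (by norm_num)
    rcases label_cases hka with ⟨pa, _, qa⟩ | ⟨pa, _, qa⟩ | ⟨pa, oa', qa⟩ | ⟨pa, _, qa⟩
    · rcases label_cases hkb with ⟨pb, _, qb⟩ | ⟨pb, _, qb⟩ | ⟨pb, ob', qb⟩ | ⟨pb, _, qb⟩
      · exact t.case00 (by norm_num) hbal IH hfail (by simp [yv, pa, oa]) (by simp [yv, pb, ob])
      · exact t.swap.n1_B hbal IH hfail pb ob qb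
      · omega
      · exact t.case00 (by norm_num) hbal IH hfail (by simp [yv, pa, oa]) (by simp [yv, pb, ob])
    · rcases label_cases hkb with ⟨pb, _, qb⟩ | ⟨pb, _, qb⟩ | ⟨pb, ob', qb⟩ | ⟨pb, _, qb⟩
      · exact t.n1_B hbal IH hfail pa oa qa
      · rw [hSform] at hfail
        have ya : yv P O a = 1 := by simp [yv, pa, oa]
        have yb : yv P O b = 1 := by simp [yv, pb, ob]
        rw [ya, yb] at hfail
        simp only [Nat.add_one_sub_one, pow_one] at hfail
        have : zz * zz * 2 ≤ zz * zz * (1 + 1 + Qs m s A v P O a + Qs m s A v P O b) :=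
          mul_le_mul_of_nonneg_left (by linarith) (by positivity)
        rw [hz] at this hfail
        linarith
      · omega
      · exact t.n1_A hbal IH hfail pa oa qa pb ob qb
    · omega
    · rcases label_cases hkb with ⟨pb, _, qb⟩ | ⟨pb, _, qb⟩ | ⟨pb, ob', qb⟩ | ⟨pb, _, qb⟩
      · exact t.case00 (by norm_num) hbal IH hfail (by simp [yv, pa, oa]) (by simp [yv, pb, ob])
      · exact t.swap.n1_A hbal IH hfail pb ob qb pa oa qa
      · omega
      · exact t.case00 (by norm_num) hbal IH hfail (by simp [yv, pa, oa]) (by simp [yv, pb, ob])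
  · -- n = 1
    have ga := t.ge_zz hbal IH
    have gb := t.swap.ge_zz hbal IH
    have hT := t.T (by norm_num) hbal IH hfail
    -- both legs, small values
    have both : P a + O a + Q a = 1 → P b + O b + Q b = 1 →
        yv P O a + yv P O b ≤ 1.3 → False := by
      intro h1 h2 h3
      rw [h1, h2] at hT
      simp only [Nat.cast_one, mul_one] at hT
      have e1 : (4 - 6 * zz + 2 * zz) * (1 - yv P O a) ≤
          (4 - 6 * zz + 2 * zz) * Qs m s A v P O a :=
        mul_le_mul_of_nonneg_left (by linarith) (by linarith)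
      have e2 : (4 - 6 * zz + 2 * zz) * (1 - yv P O b) ≤
          (4 - 6 * zz + 2 * zz) * Qs m s A v P O b :=
        mul_le_mul_of_nonneg_left (by linarith) (by linarith)
      nlinarith
    rcases label_cases hka with ⟨pa, oa, qa⟩ | ⟨pa, oa, qa⟩ | ⟨pa, oa, qa⟩ | ⟨pa, oa, qa⟩
    · rcases label_cases hkb with ⟨pb, ob, qb⟩ | ⟨pb, ob, qb⟩ | ⟨pb, ob, qb⟩ | ⟨pb, ob, qb⟩
      · exact t.case00 (by norm_num) hbal IH hfail (by simp [yv, pa, oa]) (by simp [yv, pb, ob])
      · exact t.swap.n2_P hbal IH hfail pb ob qb pa oa qa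
      · exact t.swap.n2_O hbal IH hfail pb ob pa oa
      · exact t.case00 (by norm_num) hbal IH hfail (by simp [yv, pa, oa]) (by simp [yv, pb, ob])
    · rcases label_cases hkb with ⟨pb, ob, qb⟩ | ⟨pb, ob, qb⟩ | ⟨pb, ob, qb⟩ | ⟨pb, ob, qb⟩
      · exact t.n2_P hbal IH hfail pa oa qa pb ob qb
      · exact t.n2_PP hbal IH hfail pa oa qa pb ob qb
      · exact t.n2_PO hbal IH hfail pa oa qa pb ob qb
      · exact both (by omega) (by omega) (by simp [yv, pa, oa, pb, ob]; norm_num)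
    · rcases label_cases hkb with ⟨pb, ob, qb⟩ | ⟨pb, ob, qb⟩ | ⟨pb, ob, qb⟩ | ⟨pb, ob, qb⟩
      · exact t.n2_O hbal IH hfail pa oa pb ob
      · exact t.swap.n2_PO hbal IH hfail pb ob qb pa oa qa
      · exact both (by omega) (by omega) (by simp [yv, pa, oa, pb, ob]; linarith)
      · exact both (by omega) (by omega) (by simp [yv, pa, oa, pb, ob]; linarith)
    · rcases label_cases hkb with ⟨pb, ob, qb⟩ | ⟨pb, ob, qb⟩ | ⟨pb, ob, qb⟩ | ⟨pb, ob, qb⟩
      · exact t.case00 (by norm_num) hbal IH hfail (by simp [yv, pa, oa]) (by simp [yv, pb, ob])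
      · exact both (by omega) (by omega) (by simp [yv, pa, oa, pb, ob]; norm_num)
      · exact both (by omega) (by omega) (by simp [yv, pa, oa, pb, ob]; linarith)
      · exact t.case00 (by norm_num) hbal IH hfail (by simp [yv, pa, oa]) (by simp [yv, pb, ob])

lemma Good.mono {M M' : ℕ} (h : Good V M) (hle : M' ≤ M) : Good V M' :=
  fun m s A v P O Q N hS hN hb hlt => h m s A v P O Q N hS hN hb (by omega)

theorem good_all (M : ℕ) : Good V M := by
  induction M with
  | zero => intro m s A v P O Q N _ _ _ hlt; omega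
  | succ M ih =>
    intro m s A v P O Q N hS hN hb hlt
    have IH : Good V (3 * ∑ x ∈ A, s x + (2 - N)) := ih.mono (by omega)
    rcases hS.hs v hS.hv with hthin | hfat
    · exact case_thin_root hS hN hb IH hthin
    · by_cases hA : A = {v}
      · exact case_single hS hN hb hfat hA
      · by_contra hnot
        have hst := make_strict hS hN hb IH hfat hA hnot
        by_cases hc : A.card = 3
        · exact hnot (case_triangle hst hN hb hc)
        · have hc4 : 4 ≤ A.card := by have := hst.card; omega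
          apply case_strict hst hN hb IH hc4
          by_contra hcon
          push Not at hcon
          exact hnot (Concl.of_fat hcon)

/-- **Main lemma.** In a system with all vertices carrying three slots and total label `1`,
the weighted number of exits is at least one. -/
theorem main_exit {m : V → V → ℕ} {A : Finset V} {v : V} {P Q : V → ℕ}
    (hS : Sys m (fun _ => 3) A v P (fun _ => 0) Q) (hb : ∑ x ∈ A, P x = ∑ x ∈ A, Q x + 1) :
    1 ≤ Sv m (fun _ => zz) (fun x => (P x : ℝ)) A v := by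
  have h := (good_all (V := V) _ m (fun _ => 3) A v P (fun _ => 0) Q 2 hS le_rfl (by omega)
    (Nat.lt_succ_self _)).2 rfl
  simp only [Nat.sub_self, pow_zero] at h
  refine h.trans (le_of_eq ?_)
  apply Sv_congr A (fun _ _ _ _ => rfl)
  · intro x _; simp [wt]
  · intro x _; simp [yv]

end

end Pool.Agent.TH496
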