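import Pool.Agent.TH496.GM1

set_option autoImplicit false
set_option linter.unusedSectionVars false

/-! Rooted leg systems and the cut case. -/

namespace Pool.Agent.TH496

open Finset

section
variable {V : Type*} [DecidableEq V]

/-- number of edges between `X` and `Y` -/
def ee (m : V → V → ℕ) (X Y : Finset V) : ℕ := ∑ x ∈ X, ∑ y ∈ Y, m x y

lemma ee_comm {m : V → V → ℕ} (hs : ∀ x y, m x y = m y x) (X Y : Finset V) :
    ee m X Y = ee m Y X := by
  unfold ee
  rw [Finset.sum_comm]
  apply Finset.sum_congr rfl; intro x _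
  apply Finset.sum_congr rfl; intro y _
  exact hs _ _

lemma ee_union_left {m : V → V → ℕ} {X X' : Finset V} (h : Disjoint X X') (Y : Finset V) :
    ee m (X ∪ X') Y = ee m X Y + ee m X' Y := by
  unfold ee; rw [Finset.sum_union h]

lemma ee_union_right {m : V → V → ℕ} {Y Y' : Finset V} (h : Disjoint Y Y') (X : Finset V) :
    ee m X (Y ∪ Y') = ee m X Y + ee m X Y' := by
  unfold ee; rw [← Finset.sum_add_distrib]
  apply Finset.sum_congr rfl; intro x _
  rw [Finset.sum_union h]

lemma ee_single_left {m : V → V → ℕ} (x : V) (Y : Finset V) :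
    ee m {x} Y = ∑ y ∈ Y, m x y := by
  unfold ee; simp

lemma ee_single {m : V → V → ℕ} (x y : V) : ee m {x} {y} = m x y := by
  unfold ee; simp

lemma ee_empty_left {m : V → V → ℕ} (Y : Finset V) : ee m ∅ Y = 0 := by
  unfold ee; simp

lemma ee_empty_right {m : V → V → ℕ} (X : Finset V) : ee m X ∅ = 0 := by
  unfold ee; simp

lemma ee_split_left {m : V → V → ℕ} {X A : Finset V} (h : X ⊆ A) (Y : Finset V) :
    ee m A Y = ee m X Y + ee m (A \ X) Y := by
  rw [← ee_union_left Finset.disjoint_sdiff, Finset.union_sdiff_of_subset h]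

lemma ee_split_right {m : V → V → ℕ} {X A : Finset V} (h : X ⊆ A) (Y : Finset V) :
    ee m Y A = ee m Y X + ee m Y (A \ X) := by
  rw [← ee_union_right Finset.disjoint_sdiff, Finset.union_sdiff_of_subset h]

lemma ee_le_left {m : V → V → ℕ} {X A : Finset V} (h : X ⊆ A) (Y : Finset V) :
    ee m X Y ≤ ee m A Y := by
  rw [ee_split_left h]; omega

lemma ee_le_right {m : V → V → ℕ} {X A : Finset V} (h : X ⊆ A) (Y : Finset V) :
    ee m Y X ≤ ee m Y A := by
  rw [ee_split_right h]; omega

lemma le_ee {m : V → V → ℕ} {X Y : Finset V} {x y : V} (hx : x ∈ X) (hy : y ∈ Y) :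
    m x y ≤ ee m X Y := by
  rw [← ee_single (m := m) x y]
  exact (ee_le_left (Finset.singleton_subset_iff.mpr hx) _).trans
    (ee_le_right (Finset.singleton_subset_iff.mpr hy) _)

lemma sum_split {f : V → ℕ} {X A : Finset V} (h : X ⊆ A) :
    ∑ x ∈ A, f x = ∑ x ∈ X, f x + ∑ x ∈ A \ X, f x := by
  rw [add_comm, Finset.sum_sdiff h]

/-- A finite rooted multigraph whose vertices carry two or three slots, the slots being used by
edges, by legs (with labels `1`, `0`, `-1`) and, at the root, by the entrance. -/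
structure Sys (m : V → V → ℕ) (s : V → ℕ) (A : Finset V) (v : V) (P O Q : V → ℕ) : Prop where
  symm : ∀ x y, m x y = m y x
  hv : v ∈ A
  hs : ∀ x ∈ A, s x = 2 ∨ s x = 3
  legs : ∀ x ∈ A, (∑ u ∈ A, m x u) + (P x + O x + Q x) + (if x = v then 1 else 0) = s x
  a2 : ∀ X ⊆ A, X.Nonempty → 2 + ee m X X ≤ ∑ x ∈ X, s x
  a3 : ∀ X ⊆ A, (∃ x ∈ X, s x = 3) → 3 + ee m X X ≤ ∑ x ∈ X, s x
  b1 : ∀ X ⊆ A, v ∉ X → ∑ x ∈ X, P x ≤ ∑ x ∈ X, Q x + ee m X (A \ X)
  b2 : ∀ X ⊆ A, v ∉ X → ∑ x ∈ X, Q x ≤ ∑ x ∈ X, P x + ee m X (A \ X)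

/-- vertex weights -/
noncomputable def wt (s : V → ℕ) (x : V) : ℝ := if s x = 3 then zz else 1

/-- terminal values -/
noncomputable def yv (P O : V → ℕ) (x : V) : ℝ := (P x : ℝ) + zz * (O x : ℝ)

lemma wt_nonneg (s : V → ℕ) (x : V) : 0 ≤ wt s x := by
  unfold wt; split_ifs
  · exact zz_pos.le
  · norm_num

lemma yv_nonneg (P O : V → ℕ) (x : V) : 0 ≤ yv P O x := by
  unfold yv
  have := zz_pos
  positivity

/-- the target value -/
noncomputable def tgt (N : ℕ) : ℝ := if N = 0 then 0 else zz ^ (2 - N)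

lemma tgt_le (N : ℕ) : tgt N ≤ zz ^ (2 - N) := by
  unfold tgt; split_ifs
  · exact pow_nonneg zz_pos.le _
  · exact le_rfl

/-- the conclusion of the main lemma -/
def Concl (m : V → V → ℕ) (s : V → ℕ) (A : Finset V) (v : V) (P O : V → ℕ) (N : ℕ) : Prop :=
  tgt N ≤ Sv m (wt s) (yv P O) A v ∧ (s v = 3 → zz ^ (2 - N) ≤ Sv m (wt s) (yv P O) A v)

lemma Concl.of_fat {m : V → V → ℕ} {s : V → ℕ} {A : Finset V} {v : V} {P O : V → ℕ} {N : ℕ}
    (h : zz ^ (2 - N) ≤ Sv m (wt s) (yv P O) A v) : Concl m s A v P O N :=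
  ⟨(tgt_le N).trans h, fun _ => h⟩

/-- the induction hypothesis -/
def Good (V : Type*) [DecidableEq V] (M : ℕ) : Prop :=
  ∀ (m : V → V → ℕ) (s : V → ℕ) (A : Finset V) (v : V) (P O Q : V → ℕ) (N : ℕ),
    Sys m s A v P O Q → N ≤ 2 → ∑ x ∈ A, P x + 1 = ∑ x ∈ A, Q x + N →
    3 * ∑ x ∈ A, s x + (2 - N) < M → Concl m s A v P O N

lemma Sys.sub {m : V → V → ℕ} {s : V → ℕ} {A : Finset V} {v : V} {P O Q : V → ℕ}
    (h : Sys m s A v P O Q) {B : Finset V} (hB : B ⊆ A) {r : V} (hr : r ∈ B) {P' O' Q' : V → ℕ}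
    (hl : ∀ x ∈ B, (∑ u ∈ B, m x u) + (P' x + O' x + Q' x) + (if x = r then 1 else 0) = s x)
    (h1 : ∀ X ⊆ B, r ∉ X → ∑ x ∈ X, P' x ≤ ∑ x ∈ X, Q' x + ee m X (B \ X))
    (h2 : ∀ X ⊆ B, r ∉ X → ∑ x ∈ X, Q' x ≤ ∑ x ∈ X, P' x + ee m X (B \ X)) :
    Sys m s B r P' O' Q' :=
  ⟨h.symm, hr, fun x hx => h.hs x (hB hx), hl, fun X hX hn => h.a2 X (hX.trans hB) hn,
    fun X hX hn => h.a3 X (hX.trans hB) hn, h1, h2⟩

/-- edges between `x` and `X` -/
def kap (m : V → V → ℕ) (X : Finset V) (x : V) : ℕ := ∑ u ∈ X, m x u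

lemma sum_kap {m : V → V → ℕ} (X Y : Finset V) : ∑ x ∈ Y, kap m X x = ee m Y X := rfl

lemma Sys.two_le {m : V → V → ℕ} {s : V → ℕ} {A : Finset V} {v : V} {P O Q : V → ℕ}
    (h : Sys m s A v P O Q) {x : V} (hx : x ∈ A) : 2 ≤ s x := by
  rcases h.hs x hx with h | h <;> omega

/-- arithmetic of cuts inside `D = A \ X` -/
lemma cut_arith {m : V → V → ℕ} (hsym : ∀ x y, m x y = m y x) {A X X' : Finset V}
    (hX : X ⊆ A) (hX' : X' ⊆ A \ X) :
    ee m X' (A \ X') = ee m X' ((A \ X) \ X') + ee m X' X ∧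
    ee m (X' ∪ X) (A \ (X' ∪ X)) + ee m X' X = ee m X' ((A \ X) \ X') + ee m X (A \ X) := by
  have hd : Disjoint X' X := by
    rw [Finset.disjoint_left]; intro x hx; exact (Finset.mem_sdiff.mp (hX' hx)).2
  have e1 : A \ X' = ((A \ X) \ X') ∪ X := by
    ext x; simp only [Finset.mem_union, Finset.mem_sdiff]
    constructor
    · rintro ⟨h1, h2⟩
      by_cases h3 : x ∈ X
      · exact Or.inr h3
      · exact Or.inl ⟨⟨h1, h3⟩, h2⟩
    · rintro (⟨⟨h1, _⟩, h3⟩ | h)
      · exact ⟨h1, h3⟩
      · exact ⟨hX h, fun h' => (Finset.disjoint_left.mp hd) h' h⟩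
  have d1 : Disjoint ((A \ X) \ X') X := by
    rw [Finset.disjoint_left]; intro x hx
    exact (Finset.mem_sdiff.mp (Finset.mem_sdiff.mp hx).1).2
  have e2 : A \ (X' ∪ X) = (A \ X) \ X' := by
    ext x; simp only [Finset.mem_union, Finset.mem_sdiff]; tauto
  refine ⟨?_, ?_⟩
  · rw [e1, ee_union_right d1]
  · rw [e2, ee_union_left hd, ee_split_right hX' X, ee_comm hsym X X']
    omega

/-- arithmetic of cuts inside `X` -/
lemma cut_arith' {m : V → V → ℕ} (hsym : ∀ x y, m x y = m y x) {A X X' : Finset V}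
    (hX : X ⊆ A) (hX' : X' ⊆ X) :
    ee m X' (A \ X') = ee m X' (X \ X') + ee m X' (A \ X) ∧
    ee m (X \ X') (A \ (X \ X')) + ee m X' (A \ X) = ee m X' (X \ X') + ee m X (A \ X) := by
  have e1 : A \ X' = (X \ X') ∪ (A \ X) := by
    ext x; simp only [Finset.mem_union, Finset.mem_sdiff]
    constructor
    · rintro ⟨h1, h2⟩
      by_cases h3 : x ∈ X
      · exact Or.inl ⟨h3, h2⟩
      · exact Or.inr ⟨h1, h3⟩
    · rintro (⟨h1, h3⟩ | ⟨h1, h3⟩)
      · exact ⟨hX h1, h3⟩
      · exact ⟨h1, fun h => h3 (hX' h)⟩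
  have d1 : Disjoint (X \ X') (A \ X) := by
    rw [Finset.disjoint_left]; intro x hx hx'
    exact (Finset.mem_sdiff.mp hx').2 (Finset.mem_sdiff.mp hx).1
  have e2 : A \ (X \ X') = X' ∪ (A \ X) := by
    ext x; simp only [Finset.mem_union, Finset.mem_sdiff]
    constructor
    · rintro ⟨h1, h2⟩
      by_cases h3 : x ∈ X
      · by_cases h4 : x ∈ X'
        · exact Or.inl h4
        · exact absurd ⟨h3, h4⟩ h2
      · exact Or.inr ⟨h1, h3⟩
    · rintro (h | ⟨h1, h3⟩)
      · exact ⟨hX (hX' h), fun h' => h'.2 h⟩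
      · exact ⟨h1, fun h => h3 h.1⟩
  have d2 : Disjoint X' (A \ X) := by
    rw [Finset.disjoint_left]; intro x hx hx'
    exact (Finset.mem_sdiff.mp hx').2 (hX' hx)
  refine ⟨?_, ?_⟩
  · rw [e1, ee_union_right d1]
  · rw [e2, ee_union_right d2, ee_comm hsym (X \ X') X', ee_split_left hX' (A \ X)]
    omega

lemma kap_split {m : V → V → ℕ} {A X : Finset V} (hX : X ⊆ A) (x : V) :
    ∑ u ∈ A, m x u = ∑ u ∈ A \ X, m x u + kap m X x := by
  unfold kap; rw [Finset.sum_sdiff hX]

lemma Sys.restrict_le {m : V → V → ℕ} {s : V → ℕ} {A : Finset V} {v : V} {P O : V → ℕ}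
    (hv : v ∈ A) {X : Finset V} (hX : X ⊆ A) (hvX : v ∉ X) {P' O' : V → ℕ}
    (hle : ∀ x ∈ A \ X, yv P' O' x ≤ yv P O x +
      ∑ u ∈ X, (m x u : ℝ) * Sv m (wt s) (yv P O) X u) :
    Sv m (wt s) (yv P' O') (A \ X) v ≤ Sv m (wt s) (yv P O) A v := by
  have hDA : A \ X ⊆ A := Finset.sdiff_subset
  have hvD : v ∈ A \ X := Finset.mem_sdiff.mpr ⟨hv, hvX⟩
  have h1 := exit_once (m := m) (w := wt s) (y := yv P O) (A \ X) A hDA
    (fun x _ => wt_nonneg s x) (fun x _ => yv_nonneg P O x) v hvD
  rw [Finset.sdiff_sdiff_eq_self hX] at h1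
  refine le_trans ?_ h1
  apply Sv_mono_y
  · intro x _; exact wt_nonneg s x
  · exact hle

/-- Cut case with all cut edges carrying flow out of the root side. -/
lemma case_cut_pos {m : V → V → ℕ} {s : V → ℕ} {A : Finset V} {v : V} {P O Q : V → ℕ} {N : ℕ}
    (h : Sys m s A v P O Q) (hN : N ≤ 2) (hbal : ∑ x ∈ A, P x + 1 = ∑ x ∈ A, Q x + N)
    (IH : Good V (3 * ∑ x ∈ A, s x + (2 - N))) (hfat : s v = 3)
    {X : Finset V} (hX : X ⊆ A) (hne : X.Nonempty) (hvX : v ∉ X)
    (hcut : ∑ x ∈ X, P x = ∑ x ∈ X, Q x + ee m X (A \ X)) : Concl m s A v P O N := by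
  have hvD : v ∈ A \ X := Finset.mem_sdiff.mpr ⟨h.hv, hvX⟩
  have hDA : A \ X ⊆ A := Finset.sdiff_subset
  have hsplitS := sum_split (f := s) hX
  have hsX : 2 ≤ ∑ x ∈ X, s x := by
    obtain ⟨x, hx⟩ := hne
    exact (h.two_le (hX hx)).trans (Finset.single_le_sum (f := s) (fun _ _ => Nat.zero_le _) hx)
  have hsD : 2 ≤ ∑ x ∈ A \ X, s x :=
    (h.two_le h.hv).trans (Finset.single_le_sum (f := s) (fun _ _ => Nat.zero_le _) hvD)
  -- root side
  have hD : Sys m s (A \ X) v (fun x => P x + kap m X x) O Q := by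
    apply h.sub hDA hvD
    · intro x hx
      have := h.legs x (hDA hx)
      rw [kap_split hX x] at this
      omega
    · intro X' hX' hv'
      obtain ⟨c1, c2⟩ := cut_arith h.symm hX hX'
      have hd : Disjoint X' X := by
        rw [Finset.disjoint_left]; intro x hx; exact (Finset.mem_sdiff.mp (hX' hx)).2
      have hu : v ∉ X' ∪ X := by simp [hv', hvX]
      have b := h.b1 (X' ∪ X) (Finset.union_subset (hX'.trans hDA) hX) hu
      rw [Finset.sum_union hd, Finset.sum_union hd] at b
      rw [Finset.sum_add_distrib, sum_kap]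
      omega
    · intro X' hX' hv'
      obtain ⟨c1, c2⟩ := cut_arith h.symm hX hX'
      have b := h.b2 X' (hX'.trans hDA) hv'
      rw [Finset.sum_add_distrib, sum_kap]
      omega
  have hDbal : ∑ x ∈ A \ X, (P x + kap m X x) + 1 = ∑ x ∈ A \ X, Q x + N := by
    have e1 := sum_split (f := P) hX
    have e2 := sum_split (f := Q) hX
    rw [Finset.sum_add_distrib, sum_kap, ee_comm h.symm (A \ X) X]
    omega
  have cD := IH m s (A \ X) v _ O Q N hD hN hDbal (by omega)
  apply Concl.of_fat
  refine (cD.2 hfat).trans ?_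
  apply Sys.restrict_le h.hv hX hvX
  intro x hx
  -- entering X
  have key : ∀ u ∈ X, (m x u : ℝ) ≤ (m x u : ℝ) * Sv m (wt s) (yv P O) X u := by
    intro u hu
    rcases Nat.eq_zero_or_pos (m x u) with h0 | hpos
    · rw [h0]; simp
    · have hmux : 1 ≤ kap m (A \ X) u := by
        have : m u x ≤ kap m (A \ X) u :=
          Finset.single_le_sum (f := fun y => m u y) (fun _ _ => Nat.zero_le _) hx
        rw [h.symm] at this
        omega
      have hSX : Sys m s X u P O
          (fun t => Q t + (kap m (A \ X) t - (if t = u then 1 else 0))) := by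
        apply h.sub hX hu
        · intro t ht
          have hl := h.legs t (hX ht)
          have hk := kap_split (m := m) (Finset.sdiff_subset : A \ X ⊆ A) t
          rw [Finset.sdiff_sdiff_eq_self hX] at hk
          have htv : t ≠ v := by rintro rfl; exact hvX ht
          rw [if_neg htv] at hl
          by_cases htu : t = u
          · subst htu; simp only [if_true]; omega
          · simp only [if_neg htu]; omega
        · intro X' hX' hu'
          obtain ⟨c1, c2⟩ := cut_arith' h.symm hX hX'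
          have hv' : v ∉ X' := fun hh => hvX (hX' hh)
          have b := h.b1 X' (hX'.trans hX) hv'
          have e : ∑ t ∈ X', (Q t + (kap m (A \ X) t - (if t = u then 1 else 0)))
              = ∑ t ∈ X', Q t + ee m X' (A \ X) := by
            rw [Finset.sum_add_distrib, ← sum_kap]
            congr 1
            apply Finset.sum_congr rfl
            intro t ht
            have : t ≠ u := by rintro rfl; exact hu' ht
            simp [this]
          rw [e]
          omega
        · intro X' hX' hu'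
          obtain ⟨c1, c2⟩ := cut_arith' h.symm hX hX'
          have hv' : v ∉ X \ X' := fun hh => hvX (Finset.mem_sdiff.mp hh).1
          have b := h.b1 (X \ X') (Finset.sdiff_subset.trans hX) hv'
          have e1 := sum_split (f := P) hX'
          have e2 := sum_split (f := Q) hX'
          have e : ∑ t ∈ X', (Q t + (kap m (A \ X) t - (if t = u then 1 else 0)))
              = ∑ t ∈ X', Q t + ee m X' (A \ X) := by
            rw [Finset.sum_add_distrib, ← sum_kap]
            congr 1
            apply Finset.sum_congr rfl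
            intro t ht
            have : t ≠ u := by rintro rfl; exact hu' ht
            simp [this]
          rw [e]
          omega
      have hbalX : ∑ t ∈ X, P t + 1 =
          ∑ t ∈ X, (Q t + (kap m (A \ X) t - (if t = u then 1 else 0))) + 2 := by
        have e3 : ∑ t ∈ X, (kap m (A \ X) t - (if t = u then 1 else 0)) + 1 =
            ∑ t ∈ X, kap m (A \ X) t := by
          rw [← Finset.add_sum_erase X _ hu, ← Finset.add_sum_erase X (fun t => kap m (A \ X) t) hu]
          have : ∑ t ∈ X.erase u, (kap m (A \ X) t - (if t = u then 1 else 0)) =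
              ∑ t ∈ X.erase u, kap m (A \ X) t := by
            apply Finset.sum_congr rfl
            intro t ht
            have : t ≠ u := (Finset.mem_erase.mp ht).1
            simp [this]
          rw [this]
          simp only [if_true]
          omega
        rw [Finset.sum_add_distrib]
        rw [sum_kap] at e3
        omega
      have cX := IH m s X u P O _ 2 hSX le_rfl hbalX (by omega)
      have h1 : (1 : ℝ) ≤ Sv m (wt s) (yv P O) X u := by
        have := cX.1
        unfold tgt at this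
        simpa using this
      exact le_mul_of_one_le_right (Nat.cast_nonneg _) h1
  calc yv (fun x => P x + kap m X x) O x = yv P O x + ∑ u ∈ X, (m x u : ℝ) := by
        unfold yv kap; push_cast; ring
    _ ≤ _ := add_le_add le_rfl (Finset.sum_le_sum key)

/-- Cut case with all cut edges carrying flow into the root side. -/
lemma case_cut_neg {m : V → V → ℕ} {s : V → ℕ} {A : Finset V} {v : V} {P O Q : V → ℕ} {N : ℕ}
    (h : Sys m s A v P O Q) (hN : N ≤ 2) (hbal : ∑ x ∈ A, P x + 1 = ∑ x ∈ A, Q x + N)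
    (IH : Good V (3 * ∑ x ∈ A, s x + (2 - N))) (hfat : s v = 3)
    {X : Finset V} (hX : X ⊆ A) (hne : X.Nonempty) (hvX : v ∉ X)
    (hcut : ∑ x ∈ X, Q x = ∑ x ∈ X, P x + ee m X (A \ X)) : Concl m s A v P O N := by
  have hvD : v ∈ A \ X := Finset.mem_sdiff.mpr ⟨h.hv, hvX⟩
  have hDA : A \ X ⊆ A := Finset.sdiff_subset
  have hsplitS := sum_split (f := s) hX
  have hsX : 2 ≤ ∑ x ∈ X, s x := by
    obtain ⟨x, hx⟩ := hne
    exact (h.two_le (hX hx)).trans (Finset.single_le_sum (f := s) (fun _ _ => Nat.zero_le _) hx)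
  have hD : Sys m s (A \ X) v P O (fun x => Q x + kap m X x) := by
    apply h.sub hDA hvD
    · intro x hx
      have := h.legs x (hDA hx)
      rw [kap_split hX x] at this
      omega
    · intro X' hX' hv'
      obtain ⟨c1, c2⟩ := cut_arith h.symm hX hX'
      have b := h.b1 X' (hX'.trans hDA) hv'
      rw [Finset.sum_add_distrib, sum_kap]
      omega
    · intro X' hX' hv'
      obtain ⟨c1, c2⟩ := cut_arith h.symm hX hX'
      have hd : Disjoint X' X := by
        rw [Finset.disjoint_left]; intro x hx; exact (Finset.mem_sdiff.mp (hX' hx)).2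
      have hu : v ∉ X' ∪ X := by simp [hv', hvX]
      have b := h.b2 (X' ∪ X) (Finset.union_subset (hX'.trans hDA) hX) hu
      rw [Finset.sum_union hd, Finset.sum_union hd] at b
      rw [Finset.sum_add_distrib, sum_kap]
      omega
  have hDbal : ∑ x ∈ A \ X, P x + 1 = ∑ x ∈ A \ X, (Q x + kap m X x) + N := by
    have e1 := sum_split (f := P) hX
    have e2 := sum_split (f := Q) hX
    rw [Finset.sum_add_distrib, sum_kap, ee_comm h.symm (A \ X) X]
    omega
  have cD := IH m s (A \ X) v P O _ N hD hN hDbal (by omega)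
  apply Concl.of_fat
  refine (cD.2 hfat).trans ?_
  apply Sys.restrict_le h.hv hX hvX
  intro x hx
  have : 0 ≤ ∑ u ∈ X, (m x u : ℝ) * Sv m (wt s) (yv P O) X u := by
    apply Finset.sum_nonneg
    intro u _
    exact mul_nonneg (Nat.cast_nonneg _)
      (Sv_nonneg _ (fun x _ => wt_nonneg s x) (fun x _ => yv_nonneg P O x) _)
  linarith

/-- Cut case: one cut edge and balanced labels. -/
lemma case_cut_zero {m : V → V → ℕ} {s : V → ℕ} {A : Finset V} {v : V} {P O Q : V → ℕ} {N : ℕ}
    (h : Sys m s A v P O Q) (hN : N ≤ 2) (hbal : ∑ x ∈ A, P x + 1 = ∑ x ∈ A, Q x + N)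
    (IH : Good V (3 * ∑ x ∈ A, s x + (2 - N))) (hfat : s v = 3)
    {X : Finset V} (hX : X ⊆ A) (hne : X.Nonempty) (hvX : v ∉ X)
    (hk : ee m X (A \ X) = 1)
    (hcut : ∑ x ∈ X, P x = ∑ x ∈ X, Q x) : Concl m s A v P O N := by
  have hvD : v ∈ A \ X := Finset.mem_sdiff.mpr ⟨h.hv, hvX⟩
  have hDA : A \ X ⊆ A := Finset.sdiff_subset
  have hsplitS := sum_split (f := s) hX
  have hsX : 2 ≤ ∑ x ∈ X, s x := by
    obtain ⟨x, hx⟩ := hne
    exact (h.two_le (hX hx)).trans (Finset.single_le_sum (f := s) (fun _ _ => Nat.zero_le _) hx)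
  have hsD : 2 ≤ ∑ x ∈ A \ X, s x :=
    (h.two_le h.hv).trans (Finset.single_le_sum (f := s) (fun _ _ => Nat.zero_le _) hvD)
  have hD : Sys m s (A \ X) v P (fun x => O x + kap m X x) Q := by
    apply h.sub hDA hvD
    · intro x hx
      have := h.legs x (hDA hx)
      rw [kap_split hX x] at this
      omega
    · intro X' hX' hv'
      obtain ⟨c1, c2⟩ := cut_arith h.symm hX hX'
      have hd : Disjoint X' X := by
        rw [Finset.disjoint_left]; intro x hx; exact (Finset.mem_sdiff.mp (hX' hx)).2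
      have hu : v ∉ X' ∪ X := by simp [hv', hvX]
      have b := h.b1 (X' ∪ X) (Finset.union_subset (hX'.trans hDA) hX) hu
      rw [Finset.sum_union hd, Finset.sum_union hd] at b
      have b' := h.b1 X' (hX'.trans hDA) hv'
      omega
    · intro X' hX' hv'
      obtain ⟨c1, c2⟩ := cut_arith h.symm hX hX'
      have hd : Disjoint X' X := by
        rw [Finset.disjoint_left]; intro x hx; exact (Finset.mem_sdiff.mp (hX' hx)).2
      have hu : v ∉ X' ∪ X := by simp [hv', hvX]
      have b := h.b2 (X' ∪ X) (Finset.union_subset (hX'.trans hDA) hX) hu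
      rw [Finset.sum_union hd, Finset.sum_union hd] at b
      have b' := h.b2 X' (hX'.trans hDA) hv'
      omega
  have hDbal : ∑ x ∈ A \ X, P x + 1 = ∑ x ∈ A \ X, Q x + N := by
    have e1 := sum_split (f := P) hX
    have e2 := sum_split (f := Q) hX
    omega
  have cD := IH m s (A \ X) v P _ Q N hD hN hDbal (by omega)
  apply Concl.of_fat
  refine (cD.2 hfat).trans ?_
  apply Sys.restrict_le h.hv hX hvX
  intro x hx
  have key : ∀ u ∈ X, (m x u : ℝ) * zz ≤ (m x u : ℝ) * Sv m (wt s) (yv P O) X u := by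
    intro u hu
    rcases Nat.eq_zero_or_pos (m x u) with h0 | hpos
    · rw [h0]; simp
    · have hmux : 1 ≤ kap m (A \ X) u := by
        have : m u x ≤ kap m (A \ X) u :=
          Finset.single_le_sum (f := fun y => m u y) (fun _ _ => Nat.zero_le _) hx
        rw [h.symm] at this
        omega
      have hksum : kap m (A \ X) u + ∑ t ∈ X.erase u, kap m (A \ X) t = 1 := by
        rw [Finset.add_sum_erase X (fun t => kap m (A \ X) t) hu, sum_kap, hk]
      have hk0 : ∀ t ∈ X, t ≠ u → kap m (A \ X) t = 0 := by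
        intro t ht htu
        have : kap m (A \ X) t ≤ ∑ t ∈ X.erase u, kap m (A \ X) t :=
          Finset.single_le_sum (f := fun t => kap m (A \ X) t) (fun _ _ => Nat.zero_le _)
            (Finset.mem_erase.mpr ⟨htu, ht⟩)
        omega
      have hk1 : kap m (A \ X) u = 1 := by omega
      have hSX : Sys m s X u P O Q := by
        apply h.sub hX hu
        · intro t ht
          have hl := h.legs t (hX ht)
          have hk := kap_split (m := m) (Finset.sdiff_subset : A \ X ⊆ A) t
          rw [Finset.sdiff_sdiff_eq_self hX] at hk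
          have htv : t ≠ v := by rintro rfl; exact hvX ht
          rw [if_neg htv] at hl
          by_cases htu : t = u
          · subst htu; simp only [if_true]; omega
          · have := hk0 t ht htu
            simp only [if_neg htu]; omega
        · intro X' hX' hu'
          obtain ⟨c1, c2⟩ := cut_arith' h.symm hX hX'
          have hv' : v ∉ X' := fun hh => hvX (hX' hh)
          have b := h.b1 X' (hX'.trans hX) hv'
          have e : ee m X' (A \ X) = 0 := by
            rw [← sum_kap]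
            apply Finset.sum_eq_zero
            intro t ht
            exact hk0 t (hX' ht) (by rintro rfl; exact hu' ht)
          omega
        · intro X' hX' hu'
          obtain ⟨c1, c2⟩ := cut_arith' h.symm hX hX'
          have hv' : v ∉ X' := fun hh => hvX (hX' hh)
          have b := h.b2 X' (hX'.trans hX) hv'
          have e : ee m X' (A \ X) = 0 := by
            rw [← sum_kap]
            apply Finset.sum_eq_zero
            intro t ht
            exact hk0 t (hX' ht) (by rintro rfl; exact hu' ht)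
          omega
      have cX := IH m s X u P O _ 1 hSX (by norm_num) (by omega) (by omega)
      have h1 : zz ≤ Sv m (wt s) (yv P O) X u := by
        have := cX.1
        unfold tgt at this
        simpa using this
      exact mul_le_mul_of_nonneg_left h1 (Nat.cast_nonneg _)
  calc yv P (fun x => O x + kap m X x) x = yv P O x + ∑ u ∈ X, (m x u : ℝ) * zz := by
        unfold yv kap; push_cast; rw [← Finset.sum_mul]; ring
    _ ≤ _ := add_le_add le_rfl (Finset.sum_le_sum key)

end

end Pool.Agent.TH496
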