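import Pool.Agent.TH496.GM2

set_option autoImplicit false
set_option linter.unusedSectionVars false

/-! Thin roots, single vertices, and the contraction of a set with three boundary slots. -/

namespace Pool.Agent.TH496

open Finset

section
variable {V : Type*} [DecidableEq V]

lemma Sys.loop_free {m : V → V → ℕ} {s : V → ℕ} {A : Finset V} {v : V} {P O Q : V → ℕ}
    (h : Sys m s A v P O Q) {x : V} (hx : x ∈ A) : m x x = 0 := by
  have e := ee_single (m := m) x x
  rcases h.hs x hx with h2 | h3
  · have := h.a2 {x} (by simpa using hx) (by simp)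
    rw [Finset.sum_singleton, h2] at this
    omega
  · have := h.a3 {x} (by simpa using hx) ⟨x, by simp, h3⟩
    rw [Finset.sum_singleton, h3] at this
    omega

lemma Sys.sum_erase_deg {m : V → V → ℕ} {s : V → ℕ} {A : Finset V} {v : V} {P O Q : V → ℕ}
    (h : Sys m s A v P O Q) : ∑ u ∈ A, m v u = ∑ u ∈ A.erase v, m v u := by
  rw [← Finset.add_sum_erase A _ h.hv, h.loop_free h.hv, zero_add]

/-- single fat vertex -/
lemma case_single {m : V → V → ℕ} {s : V → ℕ} {A : Finset V} {v : V} {P O Q : V → ℕ} {N : ℕ}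
    (h : Sys m s A v P O Q) (hN : N ≤ 2) (hbal : ∑ x ∈ A, P x + 1 = ∑ x ∈ A, Q x + N)
    (hfat : s v = 3) (hA : A = {v}) : Concl m s A v P O N := by
  have hl := h.legs v h.hv
  have hlf := h.loop_free h.hv
  subst hA
  simp only [Finset.sum_singleton, if_true, hfat, hlf] at hl hbal
  apply Concl.of_fat
  rw [Sv_mem h.hv]
  simp only [Finset.erase_singleton, Finset.sum_empty, add_zero]
  have hw : wt s v = zz := by simp [wt, hfat]
  rw [hw]
  unfold yv
  have hz := zz_sq
  have hz1 := zz_gt
  have hz2 := zz_lt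
  interval_cases N
  · have hP : P v = 0 := by omega
    have hO : O v = 1 := by omega
    rw [hP, hO]; push_cast; nlinarith
  · have : (P v = 1 ∧ O v = 0) ∨ (P v = 0 ∧ O v = 2) := by omega
    rcases this with ⟨hP, hO⟩ | ⟨hP, hO⟩
    · rw [hP, hO]; push_cast; nlinarith
    · rw [hP, hO]; push_cast; nlinarith
  · have hP : P v = 1 := by omega
    have hO : O v = 1 := by omega
    rw [hP, hO]; push_cast; nlinarith

/-- a thin root with a neighbour is skipped -/
lemma thin_root {m : V → V → ℕ} {s : V → ℕ} {A : Finset V} {v : V} {P O Q : V → ℕ}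
    (h : Sys m s A v P O Q) (hthin : s v = 2) {u : V} (hu : u ∈ A.erase v) (hm : 1 ≤ m v u) :
    P v = 0 ∧ O v = 0 ∧ Q v = 0 ∧ (∀ w ∈ A, w ≠ u → m v w = 0) ∧ m v u = 1 ∧
    Sys m s (A.erase v) u P O Q ∧
    Sv m (wt s) (yv P O) A v = Sv m (wt s) (yv P O) (A.erase v) u := by
  have hl := h.legs v h.hv
  have hlf := h.loop_free h.hv
  rw [h.sum_erase_deg, hthin, ← Finset.add_sum_erase _ _ hu] at hl
  simp only [if_true] at hl
  have h0 : ∑ x ∈ (A.erase v).erase u, m v x = 0 := by omega
  have hz : ∀ w ∈ A, w ≠ u → m v w = 0 := by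
    intro w hw hwu
    by_cases hwv : w = v
    · rw [hwv]; exact hlf
    · have := Finset.sum_eq_zero_iff.mp h0 w
        (Finset.mem_erase.mpr ⟨hwu, Finset.mem_erase.mpr ⟨hwv, hw⟩⟩)
      exact this
  have hm1 : m v u = 1 := by omega
  refine ⟨by omega, by omega, by omega, hz, hm1, ?_, ?_⟩
  · have hsub : A.erase v ⊆ A := Finset.erase_subset _ _
    have hcut : ∀ X ⊆ A.erase v, u ∉ X → ee m X (A \ X) = ee m X (A.erase v \ X) := by
      intro X hX huX
      have e1 : A \ X = insert v (A.erase v \ X) := by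
        ext x; simp only [Finset.mem_insert, Finset.mem_sdiff, Finset.mem_erase]
        constructor
        · rintro ⟨h1, h2⟩
          by_cases hx : x = v
          · exact Or.inl hx
          · exact Or.inr ⟨⟨hx, h1⟩, h2⟩
        · rintro (rfl | ⟨⟨_, h1⟩, h2⟩)
          · exact ⟨h.hv, fun hh => (Finset.mem_erase.mp (hX hh)).1 rfl⟩
          · exact ⟨h1, h2⟩
      have e2 : v ∉ A.erase v \ X := by simp
      unfold ee
      apply Finset.sum_congr rfl
      intro x hx
      rw [e1, Finset.sum_insert e2]
      have : m x v = 0 := by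
        rw [h.symm]
        exact hz x (hsub (hX hx)) (by rintro rfl; exact huX hx)
      rw [this, zero_add]
    apply h.sub hsub hu
    · intro x hx
      have hlx := h.legs x (hsub hx)
      have hxv : x ≠ v := (Finset.mem_erase.mp hx).1
      rw [if_neg hxv, ← Finset.add_sum_erase A _ h.hv] at hlx
      by_cases hxu : x = u
      · subst hxu
        rw [h.symm x v, hm1] at hlx
        simp only [if_true]; omega
      · rw [h.symm x v, hz x (hsub hx) hxu] at hlx
        simp only [if_neg hxu]; omega
    · intro X hX huX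
      rw [← hcut X hX huX]
      exact h.b1 X (hX.trans hsub) (fun hh => (Finset.mem_erase.mp (hX hh)).1 rfl)
    · intro X hX huX
      rw [← hcut X hX huX]
      exact h.b2 X (hX.trans hsub) (fun hh => (Finset.mem_erase.mp (hX hh)).1 rfl)
  · rw [Sv_mem h.hv]
    have hw : wt s v = 1 := by simp [wt, hthin]
    have hy : yv P O v = 0 := by
      unfold yv
      have h1 : P v = 0 := by omega
      have h2 : O v = 0 := by omega
      rw [h1, h2]; simp
    rw [hw, hy, zero_add, one_mul, ← Finset.add_sum_erase _ _ hu, hm1]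
    have : ∑ x ∈ (A.erase v).erase u, (m v x : ℝ) * Sv m (wt s) (yv P O) (A.erase v) x = 0 := by
      apply Finset.sum_eq_zero
      intro x hx
      rw [Finset.sum_eq_zero_iff.mp h0 x hx]; simp
    rw [this]; simp

/-- thin root case -/
lemma case_thin_root {m : V → V → ℕ} {s : V → ℕ} {A : Finset V} {v : V} {P O Q : V → ℕ} {N : ℕ}
    (h : Sys m s A v P O Q) (hN : N ≤ 2) (hbal : ∑ x ∈ A, P x + 1 = ∑ x ∈ A, Q x + N)
    (IH : Good V (3 * ∑ x ∈ A, s x + (2 - N))) (hthin : s v = 2) : Concl m s A v P O N := by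
  refine ⟨?_, fun h3 => by omega⟩
  by_cases hdeg : ∃ u ∈ A.erase v, 1 ≤ m v u
  · obtain ⟨u, hu, hm⟩ := hdeg
    obtain ⟨hP, hO, hQ, _, _, hS, hval⟩ := thin_root h hthin hu hm
    rw [hval]
    have e1 := Finset.add_sum_erase A P h.hv
    have e2 := Finset.add_sum_erase A Q h.hv
    have e3 := Finset.add_sum_erase A s h.hv
    exact (IH m s (A.erase v) u P O Q N hS hN (by omega) (by omega)).1
  · push Not at hdeg
    have hl := h.legs v h.hv
    have hd0 : ∑ u ∈ A.erase v, m v u = 0 := by
      apply Finset.sum_eq_zero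
      intro u hu
      have := hdeg u hu
      omega
    rw [h.sum_erase_deg, hthin, hd0] at hl
    simp only [if_true] at hl
    have hnv : v ∉ A.erase v := by simp
    have hc : A \ A.erase v = {v} := by
      ext x; simp only [Finset.mem_sdiff, Finset.mem_erase, Finset.mem_singleton]
      constructor
      · rintro ⟨h1, h2⟩
        by_contra h3; exact h2 ⟨h3, h1⟩
      · rintro rfl; exact ⟨h.hv, fun h => h.1 rfl⟩
    have he : ee m (A.erase v) (A \ A.erase v) = 0 := by
      rw [hc, ee_comm h.symm, ee_single_left, hd0]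
    have b1 := h.b1 _ (Finset.erase_subset v A) hnv
    have b2 := h.b2 _ (Finset.erase_subset v A) hnv
    have e1 := Finset.add_sum_erase A P h.hv
    have e2 := Finset.add_sum_erase A Q h.hv
    have hge : yv P O v ≤ Sv m (wt s) (yv P O) A v := by
      rw [Sv_mem h.hv]
      have hw : wt s v = 1 := by simp [wt, hthin]
      rw [hw, one_mul]
      have : 0 ≤ ∑ u ∈ A.erase v, (m v u : ℝ) * Sv m (wt s) (yv P O) (A.erase v) u := by
        apply Finset.sum_nonneg
        intro u _
        exact mul_nonneg (Nat.cast_nonneg _)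
          (Sv_nonneg _ (fun x _ => wt_nonneg s x) (fun x _ => yv_nonneg P O x) _)
      linarith
    refine le_trans ?_ hge
    unfold tgt yv
    have hz := zz_pos
    interval_cases N
    · simp; positivity
    · have hP : P v = 0 := by omega
      have hO : O v = 1 := by omega
      rw [hP, hO]; simp
    · have hP : P v = 1 := by omega
      have hO : O v = 0 := by omega
      rw [hP, hO]; simp

/-! ### Linear expansion -/

/-- indicator -/
noncomputable def ind (b : V) (x : V) : ℝ := if x = b then 1 else 0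

lemma Sv_zero {m : V → V → ℕ} {w : V → ℝ} (A : Finset V) (v : V) :
    Sv m w (fun _ => 0) A v = 0 := by
  have := Sv_add_smul (m := m) (w := w) (y := fun _ => 0) (y' := fun _ => 0) (1 : ℝ) A v
  simp at this
  exact this

lemma Sv_expand {m : V → V → ℕ} {w y : V → ℝ} (A : Finset V) (v : V) :
    Sv m w y A v = ∑ b ∈ A, y b * Sv m w (ind b) A v := by
  have key : ∀ T : Finset V, Sv m w (fun x => ∑ b ∈ T, y b * ind b x) A v =
      ∑ b ∈ T, y b * Sv m w (ind b) A v := by
    intro T
    induction T using Finset.induction_on with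
    | empty => simp [Sv_zero]
    | insert a T ha ih =>
      rw [Finset.sum_insert ha, ← ih]
      have := Sv_add_smul (m := m) (w := w) (y := fun x => ∑ b ∈ T, y b * ind b x)
        (y' := ind a) (y a) A v
      rw [add_comm, ← this]
      congr 1
      funext x
      rw [Finset.sum_insert ha, add_comm]
  rw [← key A]
  apply Sv_congr A (fun _ _ _ _ => rfl) (fun _ _ => rfl)
  intro x hx
  simp only [ind]
  rw [Finset.sum_eq_single x]
  · simp
  · intro b _ hb
    rw [if_neg (Ne.symm hb)]; simp
  · intro h; exact absurd hx h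

lemma Sv_ge_of_pass {m : V → V → ℕ} {w y : V → ℝ} (A : Finset V) (v : V) (c : ℝ)
    (hy : ∀ x ∈ A, 0 ≤ y x) (h : ∀ b ∈ A, y b ≠ 0 → c ≤ Sv m w (ind b) A v) :
    c * ∑ b ∈ A, y b ≤ Sv m w y A v := by
  rw [Sv_expand, Finset.mul_sum]
  apply Finset.sum_le_sum
  intro b hb
  by_cases h0 : y b = 0
  · rw [h0]; simp
  · rw [mul_comm]
    exact mul_le_mul_of_nonneg_left (h b hb h0) (hy b hb)

end

end Pool.Agent.TH496
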