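import Pool.Agent.TH496.GM3

set_option autoImplicit false
set_option linter.unusedSectionVars false

/-! Contraction of a set with three boundary slots. -/

namespace Pool.Agent.TH496

open Finset

section
variable {V : Type*} [DecidableEq V]

/-- indicator, natural number version -/
def indN (b : V) (x : V) : ℕ := if x = b then 1 else 0

lemma sum_indN {b : V} {X : Finset V} (h : b ∈ X) : ∑ x ∈ X, indN b x = 1 := by
  unfold indN; simp [h]

lemma sum_indN_le (b : V) (X : Finset V) : ∑ x ∈ X, indN b x ≤ 1 := by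
  unfold indN; simp; split_ifs <;> omega

lemma sum_indN_zero {b : V} {X : Finset V} (h : b ∉ X) : ∑ x ∈ X, indN b x = 0 := by
  unfold indN; simp [h]

/-- passing through a set with three boundary slots costs at most one vertex -/
lemma pass {m : V → V → ℕ} {s : V → ℕ} {A : Finset V} {v : V} {P O Q : V → ℕ} {N : ℕ}
    (h : Sys m s A v P O Q)
    (IH : Good V (3 * ∑ x ∈ A, s x + (2 - N)))
    {X : Finset V} (hX : X ⊆ A) (hne : X ≠ A) (hd : ∑ x ∈ X, s x = 3 + ee m X X)
    {t b : V} (ht : t ∈ X) (hb : b ∈ X)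
    (het : ∑ u ∈ X, m t u + 1 + indN b t ≤ s t) (heb : ∑ u ∈ X, m b u + 1 ≤ s b) :
    zz ≤ Sv m (wt s) (ind b) X t := by
  classical
  have hle : ∀ x ∈ X, ∑ u ∈ X, m x u + (indN t x + indN b x) ≤ s x := by
    intro x hx
    by_cases hxt : x = t
    · subst hxt
      have : indN x x = 1 := by simp [indN]
      omega
    · have h1 : indN t x = 0 := by simp [indN, hxt]
      by_cases hxb : x = b
      · subst hxb
        have : indN x x = 1 := by simp [indN]
        omega
      · have h2 : indN b x = 0 := by simp [indN, hxb]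
        have hl := h.legs x (hX hx)
        have := kap_split (m := m) hX x
        unfold kap at this
        omega
  -- the remaining slot
  set e : V → ℕ := fun x => s x - (∑ u ∈ X, m x u + (indN t x + indN b x)) with he
  have hes : ∀ x ∈ X, ∑ u ∈ X, m x u + (indN t x + indN b x) + e x = s x := by
    intro x hx
    have := hle x hx
    simp only [he]; omega
  have hsum : ∑ x ∈ X, e x = 1 := by
    have h1 : ∑ x ∈ X, s x = ee m X X + (∑ x ∈ X, indN t x + ∑ x ∈ X, indN b x)
        + ∑ x ∈ X, e x := by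
      unfold ee
      rw [← Finset.sum_add_distrib, ← Finset.sum_add_distrib, ← Finset.sum_add_distrib]
      apply Finset.sum_congr rfl
      intro x hx
      rw [← hes x hx]
    rw [sum_indN ht, sum_indN hb] at h1
    omega
  obtain ⟨g, hg, hg1⟩ : ∃ g ∈ X, e g ≠ 0 := by
    by_contra hcon
    push Not at hcon
    have : ∑ x ∈ X, e x = 0 := Finset.sum_eq_zero hcon
    omega
  have hg2 : ∀ x ∈ X, e x = indN g x := by
    have h3 := Finset.add_sum_erase X e hg
    intro x hx
    by_cases hxg : x = g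
    · subst hxg
      have : indN x x = 1 := by simp [indN]
      omega
    · have : indN g x = 0 := by simp [indN, hxg]
      have h4 : e x ≤ ∑ y ∈ X.erase g, e y :=
        Finset.single_le_sum (f := e) (fun _ _ => Nat.zero_le _) (Finset.mem_erase.mpr ⟨hxg, hx⟩)
      omega
  have hsl : ∀ x ∈ X, ∑ u ∈ X, m x u + (indN t x + indN b x + indN g x) = s x := by
    intro x hx
    have := hes x hx
    rw [hg2 x hx] at this
    omega
  have hcut : ∀ X' ⊆ X, X'.Nonempty → t ∉ X' →
      2 ≤ ee m X' (X \ X') + ∑ x ∈ X', indN b x + ∑ x ∈ X', indN g x := by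
    intro X' hX' hn ht'
    have h1 := h.a2 X' (hX'.trans hX) hn
    have h2 : ∑ x ∈ X', s x = ee m X' X + (0 + ∑ x ∈ X', indN b x + ∑ x ∈ X', indN g x) := by
      rw [← sum_indN_zero ht']
      unfold ee
      rw [← Finset.sum_add_distrib, ← Finset.sum_add_distrib, ← Finset.sum_add_distrib]
      apply Finset.sum_congr rfl
      intro x hx
      rw [← hsl x (hX' hx)]
    have h3 := ee_split_right (m := m) hX' X'
    omega
  have hS : Sys m s X t (indN b) (fun _ => 0) (indN g) := by
    apply h.sub hX ht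
    · intro x hx
      have := hsl x hx
      have e1 : indN t x = if x = t then 1 else 0 := rfl
      omega
    · intro X' hX' ht'
      rcases X'.eq_empty_or_nonempty with rfl | hn
      · simp
      · have := hcut X' hX' hn ht'
        have h1 := sum_indN_le b X'
        have h2 := sum_indN_le g X'
        omega
    · intro X' hX' ht'
      rcases X'.eq_empty_or_nonempty with rfl | hn
      · simp
      · have := hcut X' hX' hn ht'
        have h1 := sum_indN_le b X'
        have h2 := sum_indN_le g X'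
        omega
  have hlt : ∑ x ∈ X, s x + 2 ≤ ∑ x ∈ A, s x := by
    obtain ⟨y, hy, hyX⟩ : ∃ y ∈ A, y ∉ X := by
      by_contra hcon
      push Not at hcon
      exact hne (Finset.Subset.antisymm hX hcon)
    have h1 := sum_split (f := s) hX
    have h2 : s y ≤ ∑ x ∈ A \ X, s x :=
      Finset.single_le_sum (f := s) (fun _ _ => Nat.zero_le _) (Finset.mem_sdiff.mpr ⟨hy, hyX⟩)
    have := h.two_le hy
    omega
  have hc := IH m s X t (indN b) (fun _ => 0) (indN g) 1 hS (by norm_num)
    (by rw [sum_indN hb, sum_indN hg]) (by omega)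
  have h1 := hc.1
  have h2 : tgt 1 = zz := by simp [tgt]
  rw [h2] at h1
  refine h1.trans (le_of_eq ?_)
  apply Sv_congr X (fun _ _ _ _ => rfl) (fun _ _ => rfl)
  intro x _
  simp [yv, indN, ind]

/-- contracted multiplicities -/
def cm (m : V → V → ℕ) (X : Finset V) (u0 : V) (x y : V) : ℕ :=
  if x ∈ X then (if x = u0 ∧ y ∉ X then kap m X y else 0)
  else (if y ∈ X then (if y = u0 then kap m X x else 0) else m x y)

/-- contracted data -/
def cf (X : Finset V) (u0 : V) (f : V → ℕ) (x : V) : ℕ := if x = u0 then ∑ y ∈ X, f y else f x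

/-- contracted slots -/
def cs (s : V → ℕ) (u0 : V) (x : V) : ℕ := if x = u0 then 3 else s x

lemma cm_out {m : V → V → ℕ} {X : Finset V} {u0 x y : V} (hx : x ∉ X) (hy : y ∉ X) :
    cm m X u0 x y = m x y := by simp [cm, hx, hy]

lemma cm_u0_right {m : V → V → ℕ} {X : Finset V} {u0 x : V} (hu : u0 ∈ X) (hx : x ∉ X) :
    cm m X u0 x u0 = kap m X x := by simp [cm, hx, hu]

lemma cm_u0_left {m : V → V → ℕ} {X : Finset V} {u0 x : V} (hu : u0 ∈ X) (hx : x ∉ X) :
    cm m X u0 u0 x = kap m X x := by simp [cm, hx, hu]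

lemma cm_u0_u0 {m : V → V → ℕ} {X : Finset V} {u0 : V} (hu : u0 ∈ X) :
    cm m X u0 u0 u0 = 0 := by simp [cm, hu]

lemma cm_symm {m : V → V → ℕ} (hs : ∀ x y, m x y = m y x) (X : Finset V) (u0 x y : V) :
    cm m X u0 x y = cm m X u0 y x := by
  unfold cm
  by_cases hx : x ∈ X <;> by_cases hy : y ∈ X
  · simp [hx, hy]
  · simp only [hx, hy, if_true, if_false, not_false_eq_true, and_true]
  · simp only [hx, hy, if_true, if_false, not_false_eq_true, and_true]
  · simp only [hx, hy, if_false, hs x y]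

lemma cf_out {X : Finset V} {u0 : V} {f : V → ℕ} {x : V} (hu : u0 ∈ X) (hx : x ∉ X) :
    cf X u0 f x = f x := by
  have : x ≠ u0 := by rintro rfl; exact hx hu
  simp [cf, this]

lemma cf_u0 {X : Finset V} {u0 : V} {f : V → ℕ} : cf X u0 f u0 = ∑ y ∈ X, f y := by simp [cf]

lemma cs_out {X : Finset V} {s : V → ℕ} {u0 x : V} (hu : u0 ∈ X) (hx : x ∉ X) :
    cs s u0 x = s x := by
  have : x ≠ u0 := by rintro rfl; exact hx hu
  simp [cs, this]

lemma cs_u0 {s : V → ℕ} {u0 : V} : cs s u0 u0 = 3 := by simp [cs]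

lemma ee_cm_out {m : V → V → ℕ} {X : Finset V} {u0 : V} {Y Z : Finset V}
    (hY : Disjoint Y X) (hZ : Disjoint Z X) : ee (cm m X u0) Y Z = ee m Y Z := by
  unfold ee
  apply Finset.sum_congr rfl; intro x hx
  apply Finset.sum_congr rfl; intro y hy
  exact cm_out (Finset.disjoint_left.mp hY hx) (Finset.disjoint_left.mp hZ hy)

lemma ee_cm_u0 {m : V → V → ℕ} (hs : ∀ x y, m x y = m y x)
    {X : Finset V} {u0 : V} {Z : Finset V} (hu : u0 ∈ X)
    (hZ : Disjoint Z X) : ee (cm m X u0) {u0} Z = ee m X Z := by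
  rw [ee_comm hs X Z, ee_single_left]
  unfold ee
  apply Finset.sum_congr rfl; intro y hy
  rw [cm_u0_left hu (Finset.disjoint_left.mp hZ hy)]
  rfl

lemma sum_cf_out {X : Finset V} {u0 : V} {f : V → ℕ} {Y : Finset V} (hu : u0 ∈ X)
    (hY : Disjoint Y X) : ∑ x ∈ Y, cf X u0 f x = ∑ x ∈ Y, f x :=
  Finset.sum_congr rfl fun _ hx => cf_out hu (Finset.disjoint_left.mp hY hx)

lemma sum_cs_out {X : Finset V} {u0 : V} {s : V → ℕ} {Y : Finset V} (hu : u0 ∈ X)
    (hY : Disjoint Y X) : ∑ x ∈ Y, cs s u0 x = ∑ x ∈ Y, s x :=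
  Finset.sum_congr rfl fun _ hx => cs_out (X := X) hu (Finset.disjoint_left.mp hY hx)

/-- the contracted system -/
lemma contract_sys {m : V → V → ℕ} {s : V → ℕ} {A : Finset V} {v : V} {P O Q : V → ℕ}
    (h : Sys m s A v P O Q) (hfat : s v = 3)
    {X : Finset V} (hX : X ⊆ A) (hf : ∃ x ∈ X, s x = 3) (hd : ∑ x ∈ X, s x = 3 + ee m X X)
    {u0 : V} (hu : u0 ∈ X) (hvu : v ∈ X → u0 = v) :
    Sys (cm m X u0) (cs s u0) (insert u0 (A \ X)) v (cf X u0 P) (cf X u0 O) (cf X u0 Q) := by
  have hD : Disjoint (A \ X) X := Finset.sdiff_disjoint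
  have hu0 : u0 ∉ A \ X := by simp [hu]
  -- decomposition of subsets
  have hdec : ∀ X' ⊆ insert u0 (A \ X), u0 ∈ X' →
      X'.erase u0 ⊆ A \ X ∧ X' = {u0} ∪ X'.erase u0 ∧ Disjoint {u0} (X'.erase u0) ∧
      Disjoint (X'.erase u0) X := by
    intro X' hX' hu'
    have h1 : X'.erase u0 ⊆ A \ X := by
      intro x hx
      obtain ⟨h1, h2⟩ := Finset.mem_erase.mp hx
      rcases Finset.mem_insert.mp (hX' h2) with h3 | h3
      · exact absurd h3 h1
      · exact h3
    refine ⟨h1, ?_, by simp, hD.mono_left h1⟩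
    rw [← Finset.insert_eq, Finset.insert_erase hu']
  have hdec0 : ∀ X' ⊆ insert u0 (A \ X), u0 ∉ X' → X' ⊆ A \ X := by
    intro X' hX' hu' x hx
    rcases Finset.mem_insert.mp (hX' hx) with h3 | h3
    · subst h3; exact absurd hx hu'
    · exact h3
  have hsymm := cm_symm h.symm X u0
  have hcc : ∀ Y ⊆ A \ X, ee (cm m X u0) ({u0} ∪ Y) ({u0} ∪ Y) = ee m Y Y + 2 * ee m X Y := by
    intro Y hY
    have d1 : Disjoint {u0} Y := by
      rw [Finset.disjoint_singleton_left]; exact fun hh => hu0 (hY hh)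
    have d2 := hD.mono_left hY
    rw [ee_union_left d1, ee_union_right d1, ee_union_right d1, ee_cm_u0 h.symm hu d2,
      ee_cm_out d2 d2, ee_comm hsymm Y {u0}, ee_cm_u0 h.symm hu d2, ee_single, cm_u0_u0 hu]
    omega
  have hYX : ∀ Y ⊆ A \ X, ee m (Y ∪ X) (Y ∪ X) = ee m Y Y + 2 * ee m X Y + ee m X X := by
    intro Y hY
    have d2 := hD.mono_left hY
    rw [ee_union_left d2, ee_union_right d2, ee_union_right d2, ee_comm h.symm Y X]
    omega
  have ha3 : ∀ X' ⊆ insert u0 (A \ X), u0 ∈ X' →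
      3 + ee (cm m X u0) X' X' ≤ ∑ x ∈ X', cs s u0 x := by
    intro X' hX' hu'
    obtain ⟨h1, h2, h3, h4⟩ := hdec X' hX' hu'
    set Y := X'.erase u0 with hY
    rw [h2, hcc Y h1, Finset.sum_union h3, Finset.sum_singleton, cs_u0, sum_cs_out hu h4]
    have hYA : Y ∪ X ⊆ A := Finset.union_subset (h1.trans Finset.sdiff_subset) hX
    obtain ⟨x0, hx0, hs0⟩ := hf
    have := h.a3 (Y ∪ X) hYA ⟨x0, Finset.mem_union_right _ hx0, hs0⟩
    rw [hYX Y h1, Finset.sum_union h4] at this
    omega
  refine ⟨hsymm, ?_, ?_, ?_, ?_, ?_, ?_, ?_⟩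
  · by_cases hvX : v ∈ X
    · rw [hvu hvX]; exact Finset.mem_insert_self _ _
    · exact Finset.mem_insert_of_mem (Finset.mem_sdiff.mpr ⟨h.hv, hvX⟩)
  · intro x hx
    rcases Finset.mem_insert.mp hx with rfl | hx
    · right; exact cs_u0
    · rw [cs_out hu (Finset.mem_sdiff.mp hx).2]
      exact h.hs x (Finset.mem_sdiff.mp hx).1
  · intro x hx
    rw [Finset.sum_insert hu0]
    rcases Finset.mem_insert.mp hx with rfl | hx
    · rw [cm_u0_u0 hu, cf_u0, cf_u0, cf_u0, cs_u0]
      have e1 : ∑ u ∈ A \ X, cm m X x x u = ee m X (A \ X) := by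
        rw [← ee_single_left (m := cm m X x), ee_cm_u0 h.symm hu hD]
      have e2 : ∑ t ∈ X, ((∑ u ∈ A, m t u) + (P t + O t + Q t) + (if t = v then 1 else 0)) =
          ∑ t ∈ X, s t := Finset.sum_congr rfl fun t ht => h.legs t (hX ht)
      rw [Finset.sum_add_distrib, Finset.sum_add_distrib, Finset.sum_add_distrib,
        Finset.sum_add_distrib] at e2
      have e3 : ∑ t ∈ X, (if t = v then 1 else 0) = if x = v then 1 else 0 := by
        by_cases hvX : v ∈ X
        · have := hvu hvX
          simp [hvX, this]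
        · have : x ≠ v := by rintro rfl; exact hvX hu
          simp [hvX, this]
      have e4 : ∑ t ∈ X, ∑ u ∈ A, m t u = ee m X A := rfl
      have e5 := ee_split_right (m := m) hX X
      rw [e1]
      rw [e3, e4] at e2
      omega
    · obtain ⟨hxA, hxX⟩ := Finset.mem_sdiff.mp hx
      have hxu : x ≠ u0 := by rintro rfl; exact hxX hu
      rw [cm_u0_right hu hxX, cf_out hu hxX, cf_out hu hxX, cf_out hu hxX, cs_out hu hxX,
        ← h.legs x hxA, kap_split hX x]
      have : ∑ u ∈ A \ X, cm m X u0 x u = ∑ u ∈ A \ X, m x u :=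
        Finset.sum_congr rfl fun u hu' => cm_out hxX (Finset.mem_sdiff.mp hu').2
      rw [this]; omega
  · intro X' hX' hn
    by_cases hu' : u0 ∈ X'
    · have := ha3 X' hX' hu'; omega
    · have hX2 := hdec0 X' hX' hu'
      have d2 := hD.mono_left hX2
      rw [ee_cm_out d2 d2, sum_cs_out hu d2]
      exact h.a2 X' (hX2.trans Finset.sdiff_subset) hn
  · rintro X' hX' ⟨x, hx, hs⟩
    by_cases hu' : u0 ∈ X'
    · exact ha3 X' hX' hu'
    · have hX2 := hdec0 X' hX' hu'
      have d2 := hD.mono_left hX2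
      rw [ee_cm_out d2 d2, sum_cs_out hu d2]
      refine h.a3 X' (hX2.trans Finset.sdiff_subset) ⟨x, hx, ?_⟩
      rwa [cs_out hu (Finset.disjoint_left.mp d2 hx)] at hs
  all_goals
    intro X' hX' hv'
    by_cases hu' : u0 ∈ X'
    · obtain ⟨h1, h2, h3, h4⟩ := hdec X' hX' hu'
      have hvX : v ∉ X := fun hh => hv' (hvu hh ▸ hu')
      set Y := X'.erase u0 with hY
      have e1 : insert u0 (A \ X) \ X' = (A \ X) \ Y := by
        ext x; simp only [Finset.mem_sdiff, Finset.mem_insert, hY, Finset.mem_erase]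
        constructor
        · rintro ⟨rfl | h5, h6⟩
          · exact absurd hu' h6
          · exact ⟨h5, fun h7 => h6 h7.2⟩
        · rintro ⟨h5, h6⟩
          refine ⟨Or.inr h5, fun h7 => h6 ⟨?_, h7⟩⟩
          rintro rfl; exact h5.2 hu
      have d3 : Disjoint ((A \ X) \ Y) X := hD.mono_left Finset.sdiff_subset
      have hvY : v ∉ Y ∪ X := by
        intro hh
        rcases Finset.mem_union.mp hh with h5 | h5
        · exact hv' (Finset.mem_of_mem_erase h5)
        · exact hvX h5
      obtain ⟨c1, c2⟩ := cut_arith h.symm hX h1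
      have c3 := ee_split_right (m := m) h1 X
      rw [ee_comm h.symm X Y] at c3
      rw [e1, h2, Finset.sum_union h3, Finset.sum_union h3, Finset.sum_singleton,
        Finset.sum_singleton, cf_u0, cf_u0, sum_cf_out hu h4, sum_cf_out hu h4,
        ee_union_left h3, ee_cm_u0 h.symm hu d3, ee_cm_out h4 d3]
      have b1 := h.b1 (Y ∪ X) (Finset.union_subset (h1.trans Finset.sdiff_subset) hX) hvY
      have b2 := h.b2 (Y ∪ X) (Finset.union_subset (h1.trans Finset.sdiff_subset) hX) hvY
      rw [Finset.sum_union h4, Finset.sum_union h4] at b1 b2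
      omega
    · have hX2 := hdec0 X' hX' hu'
      have d2 := hD.mono_left hX2
      have e1 : insert u0 (A \ X) \ X' = {u0} ∪ ((A \ X) \ X') := by
        ext x; simp only [Finset.mem_sdiff, Finset.mem_insert, Finset.mem_union,
          Finset.mem_singleton]
        constructor
        · rintro ⟨rfl | h5, h6⟩
          · exact Or.inl rfl
          · exact Or.inr ⟨h5, h6⟩
        · rintro (rfl | ⟨h5, h6⟩)
          · exact ⟨Or.inl rfl, hu'⟩
          · exact ⟨Or.inr h5, h6⟩
      have d1 : Disjoint {u0} ((A \ X) \ X') := by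
        rw [Finset.disjoint_singleton_left]
        exact fun hh => hu0 (Finset.mem_sdiff.mp hh).1
      have d3 : Disjoint ((A \ X) \ X') X := hD.mono_left Finset.sdiff_subset
      obtain ⟨c1, c2⟩ := cut_arith h.symm hX hX2
      rw [e1, ee_union_right d1, ee_comm hsymm X' {u0}, ee_cm_u0 h.symm hu d2,
        ee_cm_out d2 d3, sum_cf_out hu d2, sum_cf_out hu d2, ee_comm h.symm X X']
      have b1 := h.b1 X' (hX2.trans Finset.sdiff_subset) hv'
      have b2 := h.b2 X' (hX2.trans Finset.sdiff_subset) hv'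
      omega

end

end Pool.Agent.TH496
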