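import Pool.Agent.TH496.GM4

set_option autoImplicit false
set_option linter.unusedSectionVars false

/-! The contraction inequality and the contraction case. -/

namespace Pool.Agent.TH496

open Finset

section
variable {V : Type*} [DecidableEq V]

/-- entering `X` at `t` when a slot of `t` outside `B` has been used -/
lemma enter_contract {m : V → V → ℕ} {s : V → ℕ} {A : Finset V} {v : V} {P O Q : V → ℕ} {N : ℕ}
    (h : Sys m s A v P O Q)
    (IH : Good V (3 * ∑ x ∈ A, s x + (2 - N)))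
    {X : Finset V} (hX : X ⊆ A) (hne : X ≠ A) (hd : ∑ x ∈ X, s x = 3 + ee m X X)
    {u0 : V} (hu : u0 ∈ X) {B : Finset V} (hBA : B ⊆ A) (hXB : X ⊆ B) {t : V} (ht : t ∈ X)
    (hslot : ∑ u ∈ B, m t u + 1 + P t + O t ≤ s t) :
    Sv (cm m X u0) (wt (cs s u0)) (yv (cf X u0 P) (cf X u0 O)) (insert u0 (B \ X)) u0 ≤
      Sv m (wt s) (yv P O) B t := by
  have hu0 : u0 ∉ B \ X := by simp [hu]
  set yp : V → ℝ := fun t => yv P O t + ∑ u ∈ B \ X, (m t u : ℝ) * Sv m (wt s) (yv P O) (B \ X) u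
    with hyp
  have hSnn : ∀ u, 0 ≤ Sv m (wt s) (yv P O) (B \ X) u := fun u =>
    Sv_nonneg _ (fun x _ => wt_nonneg s x) (fun x _ => yv_nonneg P O x) u
  have hypn : ∀ x ∈ X, 0 ≤ yp x := by
    intro x _
    apply add_nonneg (yv_nonneg _ _ _)
    exact Finset.sum_nonneg fun u _ => mul_nonneg (Nat.cast_nonneg _) (hSnn u)
  have hlhs : Sv (cm m X u0) (wt (cs s u0)) (yv (cf X u0 P) (cf X u0 O)) (insert u0 (B \ X)) u0 =
      zz * ∑ b ∈ X, yp b := by
    rw [Sv_mem (Finset.mem_insert_self _ _), Finset.erase_insert hu0]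
    have e1 : wt (cs s u0) u0 = zz := by simp [wt, cs_u0]
    rw [e1]
    congr 1
    rw [hyp, Finset.sum_add_distrib]
    congr 1
    · unfold yv
      rw [cf_u0, cf_u0, Finset.sum_add_distrib, ← Finset.mul_sum]
      push_cast; rfl
    · rw [Finset.sum_comm]
      apply Finset.sum_congr rfl
      intro w hw
      obtain ⟨hwB, hwX⟩ := Finset.mem_sdiff.mp hw
      rw [cm_u0_left hu hwX]
      have e2 : Sv (cm m X u0) (wt (cs s u0)) (yv (cf X u0 P) (cf X u0 O)) (B \ X) w =
          Sv m (wt s) (yv P O) (B \ X) w := by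
        apply Sv_congr
        · intro x hx y hy
          exact cm_out (Finset.mem_sdiff.mp hx).2 (Finset.mem_sdiff.mp hy).2
        · intro x hx
          unfold wt; rw [cs_out hu (Finset.mem_sdiff.mp hx).2]
        · intro x hx
          unfold yv
          rw [cf_out hu (Finset.mem_sdiff.mp hx).2, cf_out hu (Finset.mem_sdiff.mp hx).2]
      rw [e2, ← Finset.sum_mul]
      congr 1
      unfold kap
      push_cast
      apply Finset.sum_congr rfl
      intro x _
      rw [h.symm w x]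
  rw [hlhs]
  have h1 : Sv m (wt s) yp X t ≤ Sv m (wt s) (yv P O) B t :=
    exit_once X B hXB (fun x _ => wt_nonneg s x) (fun x _ => yv_nonneg P O x) t ht
  refine le_trans ?_ h1
  apply Sv_ge_of_pass X t zz hypn
  intro b hb hyb
  -- slots
  have hsub : ∀ x, ∑ u ∈ B, m x u = ∑ u ∈ X, m x u + ∑ u ∈ B \ X, m x u := by
    intro x; exact sum_split hXB
  have hpos : 1 ≤ P b + O b + ∑ u ∈ B \ X, m b u := by
    by_contra hcon
    have hP : P b = 0 := by omega
    have hO : O b = 0 := by omega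
    have hM : ∑ u ∈ B \ X, m b u = 0 := by omega
    apply hyb
    have e1 : yv P O b = 0 := by unfold yv; rw [hP, hO]; simp
    have e2 : ∑ u ∈ B \ X, (m b u : ℝ) * Sv m (wt s) (yv P O) (B \ X) u = 0 := by
      apply Finset.sum_eq_zero
      intro u hu'
      rw [Finset.sum_eq_zero_iff.mp hM u hu']; simp
    simp only [hyp]
    rw [e1, e2]; simp
  have hlb := h.legs b (hX hb)
  have hBle : ∑ u ∈ B, m b u ≤ ∑ u ∈ A, m b u := by
    rw [sum_split (f := fun u => m b u) hBA]; omega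
  have hs1 := hsub b
  have hs2 := hsub t
  apply pass h IH hX hne hd ht hb
  · by_cases hbt : b = t
    · subst hbt
      have : indN b b = 1 := by simp [indN]
      omega
    · have : indN b t = 0 := by simp [indN, Ne.symm hbt]
      omega
  · omega

lemma walk_contract {m : V → V → ℕ} {s : V → ℕ} {A : Finset V} {v : V} {P O Q : V → ℕ} {N : ℕ}
    (h : Sys m s A v P O Q)
    (IH : Good V (3 * ∑ x ∈ A, s x + (2 - N)))
    {X : Finset V} (hX : X ⊆ A) (hne : X ≠ A) (hd : ∑ x ∈ X, s x = 3 + ee m X X)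
    {u0 : V} (hu : u0 ∈ X) (B : Finset V) (hBA : B ⊆ A) (hXB : X ⊆ B) (r : V) (hr : r ∈ B \ X) :
    Sv (cm m X u0) (wt (cs s u0)) (yv (cf X u0 P) (cf X u0 O)) (insert u0 (B \ X)) r ≤
      Sv m (wt s) (yv P O) B r := by
  induction B using set_induct generalizing r with
  | H B ih =>
    obtain ⟨hrB, hrX⟩ := Finset.mem_sdiff.mp hr
    have hru : r ≠ u0 := by rintro rfl; exact hrX hu
    have hu0 : u0 ∉ B \ X := by simp [hu]
    rw [Sv_mem hrB, Sv_mem (Finset.mem_insert_of_mem hr)]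
    have e1 : wt (cs s u0) r = wt s r := by unfold wt; rw [cs_out hu hrX]
    have e2 : yv (cf X u0 P) (cf X u0 O) r = yv P O r := by
      unfold yv; rw [cf_out hu hrX, cf_out hu hrX]
    rw [e1, e2]
    apply mul_le_mul_of_nonneg_left _ (wt_nonneg s r)
    apply add_le_add le_rfl
    have hXB' : X ⊆ B.erase r := by
      intro x hx
      exact Finset.mem_erase.mpr ⟨by rintro rfl; exact hrX hx, hXB hx⟩
    have e3 : (insert u0 (B \ X)).erase r = insert u0 ((B.erase r) \ X) := by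
      ext x; simp only [Finset.mem_erase, Finset.mem_insert, Finset.mem_sdiff]
      constructor
      · rintro ⟨h1, h2 | ⟨h2, h3⟩⟩
        · exact Or.inl h2
        · exact Or.inr ⟨⟨h1, h2⟩, h3⟩
      · rintro (rfl | ⟨⟨h1, h2⟩, h3⟩)
        · exact ⟨Ne.symm hru, Or.inl rfl⟩
        · exact ⟨h1, Or.inr ⟨h2, h3⟩⟩
    have hu1 : u0 ∉ (B.erase r) \ X := by simp [hu]
    rw [e3, Finset.sum_insert hu1]
    have e4 : ∑ u ∈ B.erase r, (m r u : ℝ) * Sv m (wt s) (yv P O) (B.erase r) u =
        ∑ u ∈ X, (m r u : ℝ) * Sv m (wt s) (yv P O) (B.erase r) u +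
        ∑ u ∈ (B.erase r) \ X, (m r u : ℝ) * Sv m (wt s) (yv P O) (B.erase r) u := by
      rw [add_comm, Finset.sum_sdiff hXB']
    rw [e4]
    apply add_le_add
    · rw [cm_u0_right hu hrX]
      unfold kap
      push_cast
      rw [Finset.sum_mul]
      apply Finset.sum_le_sum
      intro t ht
      rcases Nat.eq_zero_or_pos (m r t) with h0 | hpos
      · rw [h0]; simp
      · apply mul_le_mul_of_nonneg_left _ (Nat.cast_nonneg _)
        apply enter_contract h IH hX hne hd hu ((Finset.erase_subset _ _).trans hBA) hXB' ht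
        have hl := h.legs t (hX ht)
        have h1 : m t r + ∑ u ∈ B.erase r, m t u = ∑ u ∈ B, m t u :=
          Finset.add_sum_erase B (fun u => m t u) hrB
        have h2 : ∑ u ∈ B, m t u ≤ ∑ u ∈ A, m t u := by
          rw [sum_split (f := fun u => m t u) hBA]; omega
        rw [h.symm t r] at h1
        omega
    · apply Finset.sum_le_sum
      intro u hu'
      rw [cm_out hrX (Finset.mem_sdiff.mp hu').2]
      apply mul_le_mul_of_nonneg_left _ (Nat.cast_nonneg _)
      exact ih r hrB ((Finset.erase_subset _ _).trans hBA) hXB' u hu'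

/-- the contraction case -/
lemma case_contract {m : V → V → ℕ} {s : V → ℕ} {A : Finset V} {v : V} {P O Q : V → ℕ} {N : ℕ}
    (h : Sys m s A v P O Q) (hN : N ≤ 2) (hbal : ∑ x ∈ A, P x + 1 = ∑ x ∈ A, Q x + N)
    (IH : Good V (3 * ∑ x ∈ A, s x + (2 - N))) (hfat : s v = 3)
    {X : Finset V} (hX : X ⊆ A) (hne : X ≠ A) (hcard : 2 ≤ X.card)
    (hf : ∃ x ∈ X, s x = 3) (hd : ∑ x ∈ X, s x = 3 + ee m X X) : Concl m s A v P O N := by
  obtain ⟨u0, hu, hvu⟩ : ∃ u0 ∈ X, (v ∈ X → u0 = v) := by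
    by_cases hvX : v ∈ X
    · exact ⟨v, hvX, fun _ => rfl⟩
    · obtain ⟨x, hx, _⟩ := hf
      exact ⟨x, hx, fun hh => absurd hh hvX⟩
  have hS := contract_sys h hfat hX hf hd hu hvu
  have hu0 : u0 ∉ A \ X := by simp [hu]
  have hD : Disjoint (A \ X) X := Finset.sdiff_disjoint
  have hsumX : 4 ≤ ∑ x ∈ X, s x := by
    have : ∑ x ∈ X, 2 ≤ ∑ x ∈ X, s x := Finset.sum_le_sum fun x hx => h.two_le (hX hx)
    rw [Finset.sum_const, smul_eq_mul] at this
    omega
  have hs1 : ∑ x ∈ insert u0 (A \ X), cs s u0 x = 3 + ∑ x ∈ A \ X, s x := by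
    rw [Finset.sum_insert hu0, cs_u0, sum_cs_out hu hD]
  have hs2 := sum_split (f := s) hX
  have hP1 : ∑ x ∈ insert u0 (A \ X), cf X u0 P x = ∑ x ∈ A, P x := by
    rw [Finset.sum_insert hu0, cf_u0, sum_cf_out hu hD, sum_split (f := P) hX]
  have hQ1 : ∑ x ∈ insert u0 (A \ X), cf X u0 Q x = ∑ x ∈ A, Q x := by
    rw [Finset.sum_insert hu0, cf_u0, sum_cf_out hu hD, sum_split (f := Q) hX]
  have hc := IH _ _ _ v _ _ _ N hS hN (by rw [hP1, hQ1]; exact hbal) (by omega)
  have hsv : cs s u0 v = 3 := by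
    by_cases hvX : v ∈ X
    · rw [← hvu hvX]; exact cs_u0
    · rw [cs_out hu hvX]; exact hfat
  apply Concl.of_fat
  refine (hc.2 hsv).trans ?_
  by_cases hvX : v ∈ X
  · have := hvu hvX
    subst this
    apply enter_contract h IH hX hne hd hu (Finset.Subset.refl A) hX hvX
    have hl := h.legs u0 h.hv
    simp only [if_true] at hl
    omega
  · exact walk_contract h IH hX hne hd hu A (Finset.Subset.refl A) hX v
      (Finset.mem_sdiff.mpr ⟨h.hv, hvX⟩)

end

end Pool.Agent.TH496
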