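import Pool.Agent.TH496.GM5

set_option autoImplicit false
set_option linter.unusedSectionVars false

/-! Strict systems: all vertices fat, no tight cuts, no three-slot sets. -/

namespace Pool.Agent.TH496

open Finset

section
variable {V : Type*} [DecidableEq V]

/-- strict systems -/
structure Strict (m : V → V → ℕ) (s : V → ℕ) (A : Finset V) (v : V) (P O Q : V → ℕ) : Prop where
  sys : Sys m s A v P O Q
  fat : ∀ x ∈ A, s x = 3
  card : 3 ≤ A.card
  st : ∀ X ⊆ A, X.Nonempty → v ∉ X → 2 ≤ ee m X (A \ X) ∧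
    ∑ x ∈ X, P x + 1 ≤ ∑ x ∈ X, Q x + ee m X (A \ X) ∧
    ∑ x ∈ X, Q x + 1 ≤ ∑ x ∈ X, P x + ee m X (A \ X)
  d4 : ∀ X ⊆ A, X ≠ A → 2 ≤ X.card → 4 + ee m X X ≤ 3 * X.card

lemma ee_pair {m : V → V → ℕ} (hs : ∀ x y, m x y = m y x) {x y : V} (hxy : x ≠ y)
    (hx : m x x = 0) (hy : m y y = 0) : ee m {x, y} {x, y} = 2 * m x y := by
  unfold ee
  rw [Finset.sum_pair hxy, Finset.sum_pair hxy, Finset.sum_pair hxy, hx, hy, hs y x]
  omega

lemma make_strict {m : V → V → ℕ} {s : V → ℕ} {A : Finset V} {v : V} {P O Q : V → ℕ} {N : ℕ}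
    (h : Sys m s A v P O Q) (hN : N ≤ 2) (hbal : ∑ x ∈ A, P x + 1 = ∑ x ∈ A, Q x + N)
    (IH : Good V (3 * ∑ x ∈ A, s x + (2 - N))) (hfat : s v = 3) (hA : A ≠ {v})
    (hnot : ¬ Concl m s A v P O N) : Strict m s A v P O Q := by
  have st : ∀ X ⊆ A, X.Nonempty → v ∉ X → 2 ≤ ee m X (A \ X) ∧
    ∑ x ∈ X, P x + 1 ≤ ∑ x ∈ X, Q x + ee m X (A \ X) ∧
    ∑ x ∈ X, Q x + 1 ≤ ∑ x ∈ X, P x + ee m X (A \ X) := by
    intro X hX hn hv
    have b1 := h.b1 X hX hv
    have b2 := h.b2 X hX hv
    have n1 : ¬ ∑ x ∈ X, P x = ∑ x ∈ X, Q x + ee m X (A \ X) := fun hh =>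
      hnot (case_cut_pos h hN hbal IH hfat hX hn hv hh)
    have n2 : ¬ ∑ x ∈ X, Q x = ∑ x ∈ X, P x + ee m X (A \ X) := fun hh =>
      hnot (case_cut_neg h hN hbal IH hfat hX hn hv hh)
    have n3 : ¬ (ee m X (A \ X) = 1 ∧ ∑ x ∈ X, P x = ∑ x ∈ X, Q x) := fun hh =>
      hnot (case_cut_zero h hN hbal IH hfat hX hn hv hh.1 hh.2)
    omega
  have d4' : ∀ X ⊆ A, X ≠ A → 2 ≤ X.card → (∃ x ∈ X, s x = 3) →
      4 + ee m X X ≤ ∑ x ∈ X, s x := by
    intro X hX hne hc hf
    have h3 := h.a3 X hX hf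
    have : ¬ ∑ x ∈ X, s x = 3 + ee m X X := fun hh =>
      hnot (case_contract h hN hbal IH hfat hX hne hc hf hh)
    omega
  obtain ⟨x1, hx1, hx1v⟩ : ∃ x ∈ A, x ≠ v := by
    by_contra hcon
    push Not at hcon
    apply hA
    ext x; rw [Finset.mem_singleton]
    exact ⟨hcon x, fun hh => hh ▸ h.hv⟩
  have hfatall : ∀ x ∈ A, s x = 3 := by
    by_contra hcon
    push Not at hcon
    obtain ⟨x0, hx0, hs0⟩ := hcon
    have hs0' : s x0 = 2 := by
      rcases h.hs x0 hx0 with h | h
      · exact h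
      · exact absurd h hs0
    set Th := A.filter (fun x => s x = 2) with hTh
    have hThA : Th ⊆ A := Finset.filter_subset _ _
    have hvTh : v ∉ Th := by
      intro hh; have := (Finset.mem_filter.mp hh).2; omega
    have h2 := (st Th hThA ⟨x0, Finset.mem_filter.mpr ⟨hx0, hs0'⟩⟩ hvTh).1
    obtain ⟨x, hx, p, hp, hm⟩ : ∃ x ∈ Th, ∃ p ∈ A \ Th, m x p ≠ 0 := by
      by_contra hcon
      push Not at hcon
      have : ee m Th (A \ Th) = 0 := by
        unfold ee
        apply Finset.sum_eq_zero; intro x hx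
        apply Finset.sum_eq_zero; intro p hp
        exact hcon x hx p hp
      omega
    obtain ⟨hxA, hsx⟩ := Finset.mem_filter.mp hx
    obtain ⟨hpA, hpTh⟩ := Finset.mem_sdiff.mp hp
    have hsp : s p = 3 := by
      rcases h.hs p hpA with h | h
      · exact absurd (Finset.mem_filter.mpr ⟨hpA, h⟩) hpTh
      · exact h
    have hxp : x ≠ p := by rintro rfl; omega
    have hsub : ({x, p} : Finset V) ⊆ A := by
      intro t ht
      rcases Finset.mem_insert.mp ht with rfl | ht
      · exact hxA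
      · rw [Finset.mem_singleton.mp ht]; exact hpA
    have he := ee_pair h.symm hxp (h.loop_free hxA) (h.loop_free hpA)
    have hsum : ∑ t ∈ ({x, p} : Finset V), s t = 5 := by
      rw [Finset.sum_pair hxp]; omega
    have hf : ∃ t ∈ ({x, p} : Finset V), s t = 3 := ⟨p, by simp, hsp⟩
    have h3 := h.a3 _ hsub hf
    by_cases hne : ({x, p} : Finset V) = A
    · have hvm : v ∈ ({x, p} : Finset V) := by rw [hne]; exact h.hv
      have hvp : v = p := by
        rcases Finset.mem_insert.mp hvm with hh | hh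
        · rw [hh] at hfat; omega
        · exact Finset.mem_singleton.mp hh
      have h4 := (st {x} (by simpa using hxA) (by simp)
        (by rw [Finset.mem_singleton, hvp]; exact Ne.symm hxp)).1
      have e1 : A \ {x} = {p} := by
        rw [← hne]; ext t
        simp only [Finset.mem_sdiff, Finset.mem_insert, Finset.mem_singleton]
        constructor
        · rintro ⟨h1 | h1, h2⟩
          · exact absurd h1 h2
          · exact h1
        · rintro rfl; exact ⟨Or.inr rfl, Ne.symm hxp⟩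
      rw [e1, ee_single] at h4
      omega
    · have h4 := d4' _ hsub hne (by rw [Finset.card_pair hxp]) hf
      omega
  have hsumfat : ∀ X ⊆ A, ∑ x ∈ X, s x = 3 * X.card := by
    intro X hX
    rw [Finset.sum_congr rfl (fun x hx => hfatall x (hX hx))]
    simp [mul_comm]
  have hcard2 : 2 ≤ A.card := by
    have : ({x1, v} : Finset V) ⊆ A := by
      intro t ht
      rcases Finset.mem_insert.mp ht with rfl | ht
      · exact hx1
      · rw [Finset.mem_singleton.mp ht]; exact h.hv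
    have := Finset.card_le_card this
    rwa [Finset.card_pair hx1v] at this
  refine ⟨h, hfatall, ?_, st, ?_⟩
  · by_contra hcon
    have hc : A.card = 2 := by omega
    have hA2 : A = {v, x1} := by
      symm
      apply Finset.eq_of_subset_of_card_le
      · intro t ht
        rcases Finset.mem_insert.mp ht with rfl | ht
        · exact h.hv
        · rw [Finset.mem_singleton.mp ht]; exact hx1
      · rw [Finset.card_pair (Ne.symm hx1v), hc]
    have h4 := (st {x1} (by simpa using hx1) (by simp) (by simp [Ne.symm hx1v])).1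
    have e1 : A \ {x1} = {v} := by
      rw [hA2]; ext t
      simp only [Finset.mem_sdiff, Finset.mem_insert, Finset.mem_singleton]
      constructor
      · rintro ⟨h1 | h1, h2⟩
        · exact h1
        · exact absurd h1 h2
      · rintro rfl; exact ⟨Or.inl rfl, Ne.symm hx1v⟩
    rw [e1, ee_single] at h4
    have h3 := h.a3 A (Finset.Subset.refl A) ⟨v, h.hv, hfat⟩
    rw [hsumfat A (Finset.Subset.refl A), hc, hA2,
      ee_pair h.symm (Ne.symm hx1v) (h.loop_free h.hv) (h.loop_free hx1), h.symm v x1] at h3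
    omega
  · intro X hX hne hc
    rw [← hsumfat X hX]
    apply d4' X hX hne hc
    have : X.Nonempty := Finset.card_pos.mp (by omega)
    obtain ⟨x, hx⟩ := this
    exact ⟨x, hx, hfatall x (hX hx)⟩

variable {m : V → V → ℕ} {s : V → ℕ} {A : Finset V} {v : V} {P O Q : V → ℕ}

lemma Strict.simple (h : Strict m s A v P O Q) {x y : V} (hx : x ∈ A) (hy : y ∈ A) :
    m x y ≤ 1 := by
  by_cases hxy : x = y
  · subst hxy; rw [h.sys.loop_free hx]; omega
  · have hsub : ({x, y} : Finset V) ⊆ A := by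
      intro t ht
      rcases Finset.mem_insert.mp ht with rfl | ht
      · exact hx
      · rw [Finset.mem_singleton.mp ht]; exact hy
    have hc := Finset.card_pair hxy
    have := h.d4 _ hsub (by rintro hh; have := h.card; rw [← hh] at this; omega) (by omega)
    rw [ee_pair h.sys.symm hxy (h.sys.loop_free hx) (h.sys.loop_free hy), hc] at this
    omega

lemma Strict.erase_nonempty (h : Strict m s A v P O Q) : (A.erase v).Nonempty := by
  apply Finset.card_pos.mp
  rw [Finset.card_erase_of_mem h.sys.hv]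
  have := h.card
  omega

lemma Strict.root (h : Strict m s A v P O Q) :
    P v = 0 ∧ O v = 0 ∧ Q v = 0 ∧ ∑ u ∈ A.erase v, m v u = 2 := by
  have h1 := (h.st (A.erase v) (Finset.erase_subset _ _) h.erase_nonempty (by simp)).1
  have hc : A \ A.erase v = {v} := by
    ext x; simp only [Finset.mem_sdiff, Finset.mem_erase, Finset.mem_singleton]
    constructor
    · rintro ⟨h1, h2⟩
      by_contra h3; exact h2 ⟨h3, h1⟩
    · rintro rfl; exact ⟨h.sys.hv, fun h => h.1 rfl⟩
  rw [hc, ee_comm h.sys.symm, ee_single_left] at h1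
  have hl := h.sys.legs v h.sys.hv
  rw [h.sys.sum_erase_deg, h.fat v h.sys.hv] at hl
  simp only [if_true] at hl
  omega

lemma Strict.leg_le (h : Strict m s A v P O Q) {x : V} (hx : x ∈ A) (hxv : x ≠ v) :
    P x + O x + Q x ≤ 1 := by
  have h1 := (h.st {x} (by simpa using hx) (by simp) (by simp [Ne.symm hxv])).1
  have hl := h.sys.legs x hx
  rw [if_neg hxv, h.fat x hx, sum_split (f := fun u => m x u) (X := {x}) (by simpa using hx)] at hl
  rw [ee_single_left] at h1
  omega

lemma Strict.nbrs (h : Strict m s A v P O Q) : ∃ a b, a ∈ A.erase v ∧ b ∈ A.erase v ∧ a ≠ b ∧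
    m v a = 1 ∧ m v b = 1 ∧ ∀ w ∈ A, w ≠ a → w ≠ b → m v w = 0 := by
  obtain ⟨_, _, _, hsum⟩ := h.root
  have hsub : ∀ w ∈ A.erase v, m v w ≤ 1 := fun w hw =>
    h.simple h.sys.hv (Finset.mem_of_mem_erase hw)
  obtain ⟨a, ha, ha0⟩ : ∃ a ∈ A.erase v, m v a ≠ 0 := by
    by_contra hcon
    push Not at hcon
    have := Finset.sum_eq_zero hcon
    omega
  have h1 := Finset.add_sum_erase (A.erase v) (fun u => m v u) ha
  have ha1 := hsub a ha
  obtain ⟨b, hb, hb0⟩ : ∃ b ∈ (A.erase v).erase a, m v b ≠ 0 := by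
    by_contra hcon
    push Not at hcon
    have := Finset.sum_eq_zero hcon
    omega
  obtain ⟨hba, hb'⟩ := Finset.mem_erase.mp hb
  have h2 := Finset.add_sum_erase ((A.erase v).erase a) (fun u => m v u) hb
  have hb1 := hsub b hb'
  refine ⟨a, b, ha, hb', Ne.symm hba, by omega, by omega, ?_⟩
  intro w hw hwa hwb
  by_cases hwv : w = v
  · rw [hwv]; exact h.sys.loop_free h.sys.hv
  · have h3 : ∑ u ∈ ((A.erase v).erase a).erase b, m v u = 0 := by omega
    exact Finset.sum_eq_zero_iff.mp h3 w (Finset.mem_erase.mpr ⟨hwb, Finset.mem_erase.mpr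
      ⟨hwa, Finset.mem_erase.mpr ⟨hwv, hw⟩⟩⟩)

/-- first step of the walk -/
lemma Strict.first (h : Strict m s A v P O Q) {a b : V} (ha : a ∈ A.erase v) (hb : b ∈ A.erase v)
    (hab : a ≠ b) (hma : m v a = 1) (hmb : m v b = 1)
    (hm : ∀ w ∈ A, w ≠ a → w ≠ b → m v w = 0) (y : V → ℝ) (hy : y v = 0) :
    Sv m (wt s) y A v = zz * (Sv m (wt s) y (A.erase v) a + Sv m (wt s) y (A.erase v) b) := by
  rw [Sv_mem h.sys.hv]
  have hw : wt s v = zz := by simp [wt, h.fat v h.sys.hv]
  have hb2 : b ∈ (A.erase v).erase a := Finset.mem_erase.mpr ⟨Ne.symm hab, hb⟩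
  rw [hw, hy, zero_add, ← Finset.add_sum_erase _ _ ha, ← Finset.add_sum_erase _ _ hb2, hma, hmb]
  have : ∑ x ∈ ((A.erase v).erase a).erase b, (m v x : ℝ) * Sv m (wt s) y (A.erase v) x = 0 := by
    apply Finset.sum_eq_zero
    intro x hx
    obtain ⟨h1, h2⟩ := Finset.mem_erase.mp hx
    obtain ⟨h3, h4⟩ := Finset.mem_erase.mp h2
    rw [hm x (Finset.mem_of_mem_erase h4) h3 h1]; simp
  rw [this]; simp

end

end Pool.Agent.TH496
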