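import Pool.Agent.TH496.GM6

set_option autoImplicit false
set_option linter.unusedSectionVars false

/-! The triangle, and sums over walks with arbitrary weights on lists. -/

namespace Pool.Agent.TH496

open Finset

section
variable {V : Type*} [DecidableEq V]

lemma Sv_single {m : V → V → ℕ} {w y : V → ℝ} (b : V) : Sv m w y {b} b = w b * y b := by
  rw [Sv_mem (by simp)]; simp

lemma Sv_pair {m : V → V → ℕ} {w y : V → ℝ} {a b : V} (hab : a ≠ b) :
    Sv m w y {a, b} a = w a * (y a + m a b * (w b * y b)) := by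
  rw [Sv_mem (by simp)]
  have : ({a, b} : Finset V).erase a = {b} := by
    ext x; simp only [Finset.mem_erase, Finset.mem_insert, Finset.mem_singleton]
    constructor
    · rintro ⟨h1, h2 | h2⟩
      · exact absurd h2 h1
      · exact h2
    · rintro rfl; exact ⟨Ne.symm hab, Or.inr rfl⟩
  rw [this, Finset.sum_singleton, Sv_single]

variable {m : V → V → ℕ} {s : V → ℕ} {A : Finset V} {v : V} {P O Q : V → ℕ}

lemma case_triangle {N : ℕ} (h : Strict m s A v P O Q) (hN : N ≤ 2)
    (hbal : ∑ x ∈ A, P x + 1 = ∑ x ∈ A, Q x + N) (hc : A.card = 3) : Concl m s A v P O N := by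
  obtain ⟨a, b, ha, hb, hab, hma, hmb, hm⟩ := h.nbrs
  obtain ⟨hPv, hOv, hQv, _⟩ := h.root
  have haA := Finset.mem_of_mem_erase ha
  have hbA := Finset.mem_of_mem_erase hb
  have hav : a ≠ v := (Finset.mem_erase.mp ha).1
  have hbv : b ≠ v := (Finset.mem_erase.mp hb).1
  have hE : A.erase v = {a, b} := by
    symm
    apply Finset.eq_of_subset_of_card_le
    · intro t ht
      rcases Finset.mem_insert.mp ht with rfl | ht
      · exact ha
      · rw [Finset.mem_singleton.mp ht]; exact hb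
    · rw [Finset.card_erase_of_mem h.sys.hv, hc, Finset.card_pair hab]
  have hAs : ∀ f : V → ℕ, ∑ x ∈ A, f x = f v + (f a + f b) := by
    intro f
    rw [← Finset.add_sum_erase A f h.sys.hv, hE, Finset.sum_pair hab]
  have hst := (h.st {a} (by simpa using haA) (by simp) (by simp [Ne.symm hav])).1
  have e1 : A \ {a} = {v, b} := by
    rw [← Finset.insert_erase h.sys.hv, hE]
    ext t
    simp only [Finset.mem_sdiff, Finset.mem_insert, Finset.mem_singleton]
    constructor
    · rintro ⟨h1 | h1 | h1, h2⟩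
      · exact Or.inl h1
      · exact absurd h1 h2
      · exact Or.inr h1
    · rintro (rfl | rfl)
      · exact ⟨Or.inl rfl, Ne.symm hav⟩
      · exact ⟨Or.inr (Or.inr rfl), Ne.symm hab⟩
  rw [e1, ee_single_left, Finset.sum_pair (Ne.symm hbv), h.sys.symm a v, hma] at hst
  have hmab : m a b = 1 := by
    have := h.simple haA hbA
    omega
  have hla := h.sys.legs a haA
  have hlb := h.sys.legs b hbA
  rw [hAs, h.sys.symm a v, hma, h.sys.loop_free haA, hmab, if_neg hav, h.fat a haA] at hla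
  rw [hAs, h.sys.symm b v, hmb, h.sys.loop_free hbA, h.sys.symm b a, hmab, if_neg hbv,
    h.fat b hbA] at hlb
  rw [hAs, hAs, hPv, hQv] at hbal
  apply Concl.of_fat
  rw [h.first ha hb hab hma hmb hm (yv P O) (by simp [yv, hPv, hOv]), hE, Sv_pair hab,
    Finset.pair_comm a b, Sv_pair (Ne.symm hab), h.sys.symm b a, hmab]
  have hwa : wt s a = zz := by simp [wt, h.fat a haA]
  have hwb : wt s b = zz := by simp [wt, h.fat b hbA]
  rw [hwa, hwb]
  have hz := zz_sq
  have hz1 := zz_gt
  have hz2 := zz_lt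
  have hgoal : zz * (zz * (yv P O a + (1 : ℕ) * (zz * yv P O b)) +
      zz * (yv P O b + (1 : ℕ) * (zz * yv P O a))) = zz * (yv P O a + yv P O b) := by
    have : zz * zz * (1 + zz) = zz := by
      have h2 : zz * zz * zz = 2 * zz - 1 := by
        calc zz * zz * zz = (1 - zz) * zz := by rw [hz]
          _ = zz - zz * zz := by ring
          _ = 2 * zz - 1 := by rw [hz]; ring
      calc zz * zz * (1 + zz) = zz * zz + zz * zz * zz := by ring
        _ = zz := by rw [h2, hz]; ring
    push_cast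
    calc _ = (zz * zz * (1 + zz)) * (yv P O a + yv P O b) := by ring
      _ = _ := by rw [this]
  rw [hgoal]
  unfold yv
  have ca : (P a = 1 ∧ O a = 0 ∧ Q a = 0) ∨ (P a = 0 ∧ O a = 1 ∧ Q a = 0) ∨
    (P a = 0 ∧ O a = 0 ∧ Q a = 1) := by omega
  have cb : (P b = 1 ∧ O b = 0 ∧ Q b = 0) ∨ (P b = 0 ∧ O b = 1 ∧ Q b = 0) ∨
    (P b = 0 ∧ O b = 0 ∧ Q b = 1) := by omega
  rcases ca with ⟨p1, o1, q1⟩ | ⟨p1, o1, q1⟩ | ⟨p1, o1, q1⟩ <;>
    rcases cb with ⟨p2, o2, q2⟩ | ⟨p2, o2, q2⟩ | ⟨p2, o2, q2⟩ <;>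
    rw [p1, p2, o1, o2] <;> rw [p1, p2, q1, q2] at hbal <;>
    interval_cases N <;> first | (exfalso; omega) | (push_cast; nlinarith)

end

end Pool.Agent.TH496
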