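import Pool.Agent.TH496.GM7

set_option autoImplicit false
set_option linter.unusedSectionVars false

/-! Sums over walks of functions of the vertex list. -/

namespace Pool.Agent.TH496

open Finset

section
variable {V : Type*} [DecidableEq V]

/-- sum of `g` over self-avoiding walks in `A` from `v` -/
noncomputable def Rw (m : V → V → ℕ) (g : List V → ℝ) (A : Finset V) (v : V) : ℝ :=
  if _h : v ∈ A then
    g [v] + ∑ u ∈ A.erase v, (m v u : ℝ) * Rw m (fun l => g (v :: l)) (A.erase v) u
  else 0
termination_by A.card
decreasing_by exact Finset.card_erase_lt_of_mem _h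

lemma Rw_mem {m : V → V → ℕ} {g : List V → ℝ} {A : Finset V} {v : V} (h : v ∈ A) :
    Rw m g A v = g [v] + ∑ u ∈ A.erase v, (m v u : ℝ) * Rw m (fun l => g (v :: l)) (A.erase v) u := by
  rw [Rw]; simp [h]

lemma Rw_not_mem {m : V → V → ℕ} {g : List V → ℝ} {A : Finset V} {v : V} (h : v ∉ A) :
    Rw m g A v = 0 := by
  rw [Rw]; simp [h]

/-- walks -/
inductive Valid (m : V → V → ℕ) : Finset V → V → List V → Prop
  | single {A : Finset V} {v : V} : v ∈ A → Valid m A v [v]
  | cons {A : Finset V} {v u : V} {l : List V} : v ∈ A → u ∈ A.erase v → m v u ≠ 0 →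
      Valid m (A.erase v) u l → Valid m A v (v :: l)

lemma Valid.head {m : V → V → ℕ} {A : Finset V} {v : V} {l : List V} (h : Valid m A v l) :
    ∃ t, l = v :: t := by
  cases h with
  | single => exact ⟨[], rfl⟩
  | cons => exact ⟨_, rfl⟩

lemma Rw_mono {m : V → V → ℕ} (A : Finset V) (v : V) {g g' : List V → ℝ}
    (h : ∀ l, Valid m A v l → g l ≤ g' l) : Rw m g A v ≤ Rw m g' A v := by
  induction A using set_induct generalizing v g g' with
  | H A ih =>
    by_cases hv : v ∈ A
    · rw [Rw_mem hv, Rw_mem hv]
      apply add_le_add (h _ (Valid.single hv))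
      apply Finset.sum_le_sum
      intro u hu
      by_cases h0 : m v u = 0
      · rw [h0]; simp
      · apply mul_le_mul_of_nonneg_left _ (Nat.cast_nonneg _)
        exact ih v hv u fun l hl => h _ (Valid.cons hv hu h0 hl)
    · rw [Rw_not_mem hv, Rw_not_mem hv]

lemma Rw_congr {m : V → V → ℕ} (A : Finset V) (v : V) {g g' : List V → ℝ}
    (h : ∀ l, Valid m A v l → g l = g' l) : Rw m g A v = Rw m g' A v :=
  le_antisymm (Rw_mono A v fun l hl => (h l hl).le) (Rw_mono A v fun l hl => (h l hl).ge)

lemma Rw_smul {m : V → V → ℕ} (A : Finset V) (v : V) (c : ℝ) (g : List V → ℝ) :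
    Rw m (fun l => c * g l) A v = c * Rw m g A v := by
  induction A using set_induct generalizing v g with
  | H A ih =>
    by_cases hv : v ∈ A
    · rw [Rw_mem hv, Rw_mem hv, mul_add, Finset.mul_sum]
      congr 1
      apply Finset.sum_congr rfl
      intro u _
      rw [ih v hv u (fun l => g (v :: l))]
      ring
    · rw [Rw_not_mem hv, Rw_not_mem hv, mul_zero]

lemma Rw_add {m : V → V → ℕ} (A : Finset V) (v : V) (g g' : List V → ℝ) :
    Rw m (fun l => g l + g' l) A v = Rw m g A v + Rw m g' A v := by
  induction A using set_induct generalizing v g g' with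
  | H A ih =>
    by_cases hv : v ∈ A
    · rw [Rw_mem hv, Rw_mem hv, Rw_mem hv]
      have : ∑ u ∈ A.erase v, (m v u : ℝ) * Rw m (fun l => g (v :: l) + g' (v :: l)) (A.erase v) u
          = ∑ u ∈ A.erase v, (m v u : ℝ) * Rw m (fun l => g (v :: l)) (A.erase v) u +
            ∑ u ∈ A.erase v, (m v u : ℝ) * Rw m (fun l => g' (v :: l)) (A.erase v) u := by
        rw [← Finset.sum_add_distrib]
        apply Finset.sum_congr rfl
        intro u _
        rw [ih v hv u (fun l => g (v :: l)) (fun l => g' (v :: l))]
        ring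
      rw [this]
      ring
    · rw [Rw_not_mem hv, Rw_not_mem hv, Rw_not_mem hv, add_zero]

lemma Rw_zero {m : V → V → ℕ} (A : Finset V) (v : V) : Rw m (fun _ => 0) A v = 0 := by
  have := Rw_smul (m := m) A v 0 (fun _ => 0)
  simpa using this

lemma Rw_sum {m : V → V → ℕ} (A : Finset V) (v : V) {ι : Type*} (T : Finset ι)
    (g : ι → List V → ℝ) :
    Rw m (fun l => ∑ i ∈ T, g i l) A v = ∑ i ∈ T, Rw m (g i) A v := by
  classical
  induction T using Finset.induction_on with
  | empty => simp [Rw_zero]
  | insert a T ha ih =>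
    rw [Finset.sum_insert ha, ← ih, ← Rw_add]
    congr 1
    funext l
    rw [Finset.sum_insert ha]

/-- weight of a walk -/
noncomputable def val (τ : V → V → ℝ) (w y : V → ℝ) : List V → ℝ
  | [] => 0
  | [v] => w v * y v
  | v :: u :: t => w v * τ v u * val τ w y (u :: t)

lemma Sv_eq_Rw {m m' : V → V → ℕ} {τ : V → V → ℝ} {w y : V → ℝ} (A : Finset V) (v : V)
    (h : ∀ x ∈ A, ∀ u ∈ A, (m' x u : ℝ) = τ x u * m x u) :
    Sv m' w y A v = Rw m (val τ w y) A v := by
  induction A using set_induct generalizing v with
  | H A ih =>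
    by_cases hv : v ∈ A
    · rw [Sv_mem hv, Rw_mem hv, mul_add, Finset.mul_sum]
      congr 1
      apply Finset.sum_congr rfl
      intro u hu
      have e : Rw m (fun l => val τ w y (v :: l)) (A.erase v) u =
          (w v * τ v u) * Rw m (val τ w y) (A.erase v) u := by
        rw [← Rw_smul]
        apply Rw_congr
        intro l hl
        obtain ⟨t, rfl⟩ := hl.head
        rfl
      rw [e, ← ih v hv u fun x hx u hu => h x (Finset.mem_of_mem_erase hx) u
        (Finset.mem_of_mem_erase hu), h v hv u (Finset.mem_of_mem_erase hu)]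
      ring
    · rw [Sv_not_mem hv, Rw_not_mem hv]

/-- chains -/
def chn (m : V → V → ℕ) : List V → Prop
  | [] => True
  | [_] => True
  | v :: u :: t => m v u ≠ 0 ∧ chn m (u :: t)

lemma Valid.facts {m : V → V → ℕ} {A : Finset V} {v : V} {l : List V} (h : Valid m A v l) :
    l.Nodup ∧ (∀ x ∈ l, x ∈ A) ∧ chn m l := by
  induction h with
  | single hv =>
    refine ⟨by simp, ?_, trivial⟩
    intro x hx
    rw [List.mem_singleton.mp hx]; exact hv
  | @cons A v u l hv hu hm hl ih =>
    obtain ⟨h1, h2, h3⟩ := ih
    refine ⟨?_, ?_, ?_⟩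
    · rw [List.nodup_cons]
      refine ⟨fun hh => ?_, h1⟩
      exact (Finset.mem_erase.mp (h2 v hh)).1 rfl
    · intro x hx
      rcases List.mem_cons.mp hx with rfl | hx
      · exact hv
      · exact Finset.mem_of_mem_erase (h2 x hx)
    · obtain ⟨t, rfl⟩ := hl.head
      exact ⟨hm, h3⟩

/-- vertex factor of a deleted pair -/
noncomputable def gf (p q x : V) : ℝ := if x = p ∨ x = q then 1 + zz else 1

/-- edge factor of a deleted pair -/
noncomputable def tf (p q x u : V) : ℝ := if (x = p ∧ u = q) ∨ (x = q ∧ u = p) then 0 else 1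

/-- relative weight of a walk after deletion -/
noncomputable def cc (p q : V) : List V → ℝ
  | [] => 1
  | [v] => gf p q v
  | v :: u :: t => gf p q v * tf p q v u * cc p q (u :: t)

lemma gf_comm (p q x : V) : gf p q x = gf q p x := by
  unfold gf; simp only [or_comm]

lemma tf_comm (p q x u : V) : tf p q x u = tf q p x u := by
  unfold tf; simp only [or_comm]

lemma cc_comm (p q : V) (l : List V) : cc p q l = cc q p l := by
  induction l with
  | nil => rfl
  | cons v l ih =>
    cases l with
    | nil => exact gf_comm p q v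
    | cons u t =>
      simp only [cc] at ih ⊢
      rw [ih, gf_comm, tf_comm]

lemma cc_not_mem {v q : V} (l : List V) (hv : v ∉ l) (hn : l.Nodup) (hq : q ≠ v) :
    cc v q l = 1 + zz * (if q ∈ l then 1 else 0) := by
  induction l with
  | nil => simp [cc]
  | cons x l ih =>
    have hxv : x ≠ v := fun hh => hv (by rw [hh]; simp)
    have hvl : v ∉ l := fun hh => hv (List.mem_cons_of_mem _ hh)
    obtain ⟨hxl, hnl⟩ := List.nodup_cons.mp hn
    cases l with
    | nil =>
      simp only [cc, gf, List.mem_singleton]
      by_cases hxq : x = q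
      · simp [hxq]
      · simp [hxv, hxq, Ne.symm hxq]
    | cons u t =>
      have huv : u ≠ v := fun hh => hvl (by rw [hh]; simp)
      have e1 : tf v q x u = 1 := by
        unfold tf; rw [if_neg]
        rintro (⟨h1, _⟩ | ⟨_, h2⟩)
        · exact hxv h1
        · exact huv h2
      simp only [cc]
      rw [e1, ih hvl hnl]
      unfold gf
      by_cases hxq : x = q
      · subst hxq
        rw [if_neg hxl]; simp
      · have h2 : q ∈ x :: u :: t ↔ q ∈ u :: t := by
          rw [List.mem_cons]
          constructor
          · rintro (h | h)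
            · exact absurd h.symm hxq
            · exact h
          · exact Or.inr
        rw [if_neg (by rintro (h | h); exacts [hxv h, hxq h])]
        simp only [h2]; ring

lemma cc_cons_other {p q v : V} (l : List V) (hp : p ≠ v) (hq : q ≠ v) :
    cc p q (v :: l) = cc p q l := by
  have h1 : gf p q v = 1 := by
    unfold gf; rw [if_neg]; rintro (h | h)
    · exact hp h.symm
    · exact hq h.symm
  cases l with
  | nil => simp [cc, h1]
  | cons u t =>
    have h2 : tf p q v u = 1 := by
      unfold tf; rw [if_neg]; rintro (⟨h, _⟩ | ⟨h, _⟩)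
      · exact hp h.symm
      · exact hq h.symm
    simp only [cc]; rw [h1, h2]; ring

lemma cc_cons_same {q v u : V} (t : List V) (hv : v ∉ u :: t) (hn : (u :: t).Nodup)
    (hq : q ≠ v) : cc v q (u :: t) - cc v q (v :: u :: t) =
      -zz - zz * zz * (if q ∈ u :: t then 1 else 0) + (if q = u then (1 + zz) * (1 + zz) else 0) := by
  have e0 := cc_not_mem (u :: t) hv hn hq
  have e1 : gf v q v = 1 + zz := by simp [gf]
  simp only [cc] at e0 ⊢
  rw [e1, e0]
  by_cases hqu : q = u
  · have e2 : tf v q v u = 0 := by simp [tf, hqu]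
    have h3 : q ∈ u :: t := by rw [hqu]; simp
    rw [e2, if_pos h3, if_pos hqu]; ring
  · have e2 : tf v q v u = 1 := by
      unfold tf; rw [if_neg]
      rintro (⟨_, h⟩ | ⟨h, _⟩)
      · exact hqu h.symm
      · exact hq h.symm
    rw [e2, if_neg hqu]; ring

/-- double sums of functions supported on a cross -/
lemma cross_sum {A : Finset V} {v : V} (hv : v ∈ A) (f : V → V → ℝ)
    (hs : ∀ p ∈ A, ∀ q ∈ A, f p q = f q p) (h0 : ∀ p ∈ A, ∀ q ∈ A, p ≠ v → q ≠ v → f p q = 0)
    (hvv : f v v = 0) : ∑ p ∈ A, ∑ q ∈ A, f p q = 2 * ∑ q ∈ A, f v q := by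
  rw [← Finset.add_sum_erase A _ hv]
  have : ∑ p ∈ A.erase v, ∑ q ∈ A, f p q = ∑ p ∈ A.erase v, f v p := by
    apply Finset.sum_congr rfl
    intro p hp
    obtain ⟨hpv, hpA⟩ := Finset.mem_erase.mp hp
    rw [Finset.sum_eq_single v]
    · exact hs p hpA v hv
    · intro q hq hqv; exact h0 p hpA q hq hpv hqv
    · intro h; exact absurd hv h
  rw [this]
  have e := Finset.add_sum_erase A (fun q => f v q) hv
  simp only [hvv, zero_add] at e
  rw [e]; ring

/-- the deletion sum of a walk -/
noncomputable def DD (m : V → V → ℕ) (A : Finset V) (l : List V) : ℝ :=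
  ∑ p ∈ A, ∑ q ∈ A, (m p q : ℝ) * (1 - cc p q l)

lemma DD_formula {m : V → V → ℕ} (hs : ∀ x y, m x y = m y x) (A : Finset V)
    (hl : ∀ x ∈ A, m x x = 0) (h1 : ∀ x ∈ A, ∀ y ∈ A, m x y ≤ 1)
    (l : List V) (hn : l.Nodup) (hA : ∀ x ∈ l, x ∈ A) (hc : chn m l) (hne : l ≠ []) :
    DD m A l = 2 * ((1 + zz) * (1 + zz)) * ((l.length : ℝ) - 1) -
      2 * zz * (ee m l.toFinset A : ℝ) - zz * zz * (ee m l.toFinset l.toFinset : ℝ) := by
  induction l with
  | nil => exact absurd rfl hne
  | cons v l ih =>
    obtain ⟨hvl, hnl⟩ := List.nodup_cons.mp hn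
    have hvA : v ∈ A := hA v (by simp)
    have hAl : ∀ x ∈ l, x ∈ A := fun x hx => hA x (List.mem_cons_of_mem _ hx)
    cases l with
    | nil =>
      have e1 : DD m A [v] = 2 * ∑ q ∈ A, (m v q : ℝ) * (-zz) := by
        unfold DD
        rw [cross_sum hvA (fun p q => (m p q : ℝ) * (1 - cc p q [v]))]
        · congr 1
          apply Finset.sum_congr rfl
          intro q _
          have : cc v q [v] = 1 + zz := by simp [cc, gf]
          rw [this]; ring
        · intro p _ q _
          rw [hs p q, cc_comm]
        · intro p _ q _ hp hq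
          have : cc p q [v] = 1 := by
            simp only [cc, gf]; rw [if_neg]
            rintro (h | h)
            · exact hp h.symm
            · exact hq h.symm
          rw [this]; ring
        · rw [hl v hvA]; simp
      have e2 : (ee m [v].toFinset A : ℝ) = ∑ q ∈ A, (m v q : ℝ) := by
        have : [v].toFinset = {v} := by simp
        rw [this, ee_single_left]; push_cast; rfl
      have e3 : (ee m [v].toFinset [v].toFinset : ℝ) = 0 := by
        have : [v].toFinset = {v} := by simp
        rw [this, ee_single, hl v hvA]; simp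
      rw [e1, e2, e3, ← Finset.sum_mul]
      simp only [List.length_singleton, Nat.cast_one]
      ring
    | cons u t =>
      have ih' := ih hnl hAl hc.2 (by simp)
      have hstep : DD m A (v :: u :: t) - DD m A (u :: t) =
          2 * ∑ q ∈ A, (m v q : ℝ) * (-zz - zz * zz * (if q ∈ u :: t then 1 else 0) +
            (if q = u then (1 + zz) * (1 + zz) else 0)) := by
        have e0 : DD m A (v :: u :: t) - DD m A (u :: t) = ∑ p ∈ A, ∑ q ∈ A,
            (m p q : ℝ) * (cc p q (u :: t) - cc p q (v :: u :: t)) := by
          unfold DD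
          rw [← Finset.sum_sub_distrib]
          apply Finset.sum_congr rfl; intro p _
          rw [← Finset.sum_sub_distrib]
          apply Finset.sum_congr rfl; intro q _
          ring
        rw [e0, cross_sum hvA (fun p q => (m p q : ℝ) *
          (cc p q (u :: t) - cc p q (v :: u :: t)))]
        · congr 1
          apply Finset.sum_congr rfl
          intro q hq
          by_cases hqv : q = v
          · rw [hqv, hl v hvA]; simp
          · rw [cc_cons_same t hvl hnl hqv]
        · intro p _ q _
          rw [hs p q, cc_comm p q (u :: t), cc_comm p q (v :: u :: t)]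
        · intro p _ q _ hp hq
          rw [cc_cons_other (u :: t) hp hq]; ring
        · rw [hl v hvA]; simp
      have huA : u ∈ A := hAl u (by simp)
      have hmvu : (m v u : ℝ) = 1 := by
        have h2 := h1 v hvA u huA
        have h3 := hc.1
        have : m v u = 1 := by omega
        rw [this]; simp
      have hsumstep : ∑ q ∈ A, (m v q : ℝ) * (-zz - zz * zz * (if q ∈ u :: t then 1 else 0) +
            (if q = u then (1 + zz) * (1 + zz) else 0)) =
          -zz * ∑ q ∈ A, (m v q : ℝ) - zz * zz * ∑ q ∈ (u :: t).toFinset, (m v q : ℝ) +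
            (1 + zz) * (1 + zz) := by
        have a1 : ∑ q ∈ (u :: t).toFinset, (m v q : ℝ) =
            ∑ q ∈ A, (m v q : ℝ) * (if q ∈ u :: t then 1 else 0) := by
          have : (u :: t).toFinset = A.filter (fun q => q ∈ u :: t) := by
            ext x; simp only [List.mem_toFinset, Finset.mem_filter]
            exact ⟨fun h => ⟨hAl x h, h⟩, fun h => h.2⟩
          rw [this, Finset.sum_filter]
          apply Finset.sum_congr rfl; intro q _
          split_ifs <;> simp
        have a2 : ∑ q ∈ A, (m v q : ℝ) * (if q = u then (1 + zz) * (1 + zz) else 0) =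
            (1 + zz) * (1 + zz) := by
          rw [Finset.sum_eq_single u]
          · simp [hmvu]
          · intro q _ hq; rw [if_neg hq]; simp
          · intro h; exact absurd huA h
        calc _ = -zz * ∑ q ∈ A, (m v q : ℝ) -
              zz * zz * ∑ q ∈ A, (m v q : ℝ) * (if q ∈ u :: t then 1 else 0) +
              ∑ q ∈ A, (m v q : ℝ) * (if q = u then (1 + zz) * (1 + zz) else 0) := by
              rw [Finset.mul_sum, Finset.mul_sum, ← Finset.sum_sub_distrib,
                ← Finset.sum_add_distrib]
              apply Finset.sum_congr rfl; intro q _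
              ring
          _ = _ := by rw [a2, a1]
      have f1 : (v :: u :: t).toFinset = {v} ∪ (u :: t).toFinset := by
        ext x; simp only [List.mem_toFinset, List.mem_cons, Finset.mem_union,
          Finset.mem_singleton]
      have f2 : Disjoint ({v} : Finset V) (u :: t).toFinset := by
        rw [Finset.disjoint_singleton_left, List.mem_toFinset]; exact hvl
      have f3 : ee m (v :: u :: t).toFinset A =
          ∑ q ∈ A, m v q + ee m (u :: t).toFinset A := by
        rw [f1, ee_union_left f2, ee_single_left]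
      have f4 : ee m (v :: u :: t).toFinset (v :: u :: t).toFinset =
          2 * ∑ q ∈ (u :: t).toFinset, m v q + ee m (u :: t).toFinset (u :: t).toFinset := by
        rw [f1, ee_union_left f2, ee_union_right f2, ee_union_right f2, ee_single, hl v hvA,
          ee_comm hs (u :: t).toFinset {v}, ee_single_left]
        omega
      rw [f3, f4]
      have f5 : ((v :: u :: t).length : ℝ) = ((u :: t).length : ℝ) + 1 := by
        simp
      rw [f5]
      rw [hsumstep] at hstep
      push_cast
      have : DD m A (v :: u :: t) = DD m A (u :: t) + 2 * (-zz * ∑ q ∈ A, (m v q : ℝ) -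
          zz * zz * ∑ q ∈ (u :: t).toFinset, (m v q : ℝ) + (1 + zz) * (1 + zz)) := by
        linarith
      rw [this, ih']
      ring

lemma even_ee {m : V → V → ℕ} (hs : ∀ x y, m x y = m y x) (X : Finset V)
    (hl : ∀ x ∈ X, m x x = 0) : ∃ k, ee m X X = 2 * k := by
  induction X using Finset.induction_on with
  | empty => exact ⟨0, by simp [ee]⟩
  | insert a T ha ih =>
    obtain ⟨k, hk⟩ := ih fun x hx => hl x (Finset.mem_insert_of_mem hx)
    have d : Disjoint ({a} : Finset V) T := by simpa using ha
    refine ⟨k + ee m {a} T, ?_⟩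
    rw [Finset.insert_eq, ee_union_left d, ee_union_right d, ee_union_right d, ee_single,
      hl a (Finset.mem_insert_self _ _), ee_comm hs T {a}, hk]
    omega

end

end Pool.Agent.TH496
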