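import Pool.Agent.TH496.GM8

set_option autoImplicit false
set_option linter.unusedSectionVars false

/-! The averaging inequality over all edge deletions. -/

namespace Pool.Agent.TH496

open Finset

section
variable {V : Type*} [DecidableEq V]

/-- deleted multiplicities -/
def dm (m : V → V → ℕ) (p q x u : V) : ℕ :=
  if (x = p ∧ u = q) ∨ (x = q ∧ u = p) then 0 else m x u

/-- slots after deletion -/
def ds (s : V → ℕ) (p q x : V) : ℕ := if x = p ∨ x = q then 2 else s x

/-- constant edge factor -/
noncomputable def t1 (_ _ : V) : ℝ := 1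

lemma val_nonneg {w y : V → ℝ} (hw : ∀ x, 0 ≤ w x) (hy : ∀ x, 0 ≤ y x) (l : List V) :
    0 ≤ val t1 w y l := by
  induction l with
  | nil => simp [val]
  | cons v l ih =>
    cases l with
    | nil => exact mul_nonneg (hw v) (hy v)
    | cons u t =>
      simp only [val, t1, mul_one]
      exact mul_nonneg (hw v) ih

lemma val_ne_zero {w y : V → ℝ} (l : List V) (h : val t1 w y l ≠ 0) : ∃ x ∈ l, y x ≠ 0 := by
  induction l with
  | nil => simp [val] at h
  | cons v l ih =>
    cases l with
    | nil =>
      refine ⟨v, by simp, ?_⟩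
      intro h0; apply h; simp [val, h0]
    | cons u t =>
      have : val t1 w y (u :: t) ≠ 0 := by
        intro h0; apply h; simp only [val, h0, mul_zero]
      obtain ⟨x, hx, hx'⟩ := ih this
      exact ⟨x, List.mem_cons_of_mem _ hx, hx'⟩

/-- lower bound function -/
noncomputable def hh (w y ε : V → ℝ) : List V → ℝ
  | [] => 0
  | [_] => 0
  | [_, u] => zz * zz * ((2 - 4 * zz) * y u)
  | _ :: u :: x :: t => zz * zz * ((4 - 6 * zz + 2 * zz * ε u) * val t1 w y (x :: t))

lemma Rw_hh {m : V → V → ℕ} {w y ε : V → ℝ} {A : Finset V} {v : V} (hv : v ∈ A) :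
    Rw m (hh w y ε) A v = ∑ u ∈ A.erase v, (m v u : ℝ) * (zz * zz * ((2 - 4 * zz) * y u +
      (4 - 6 * zz + 2 * zz * ε u) *
        ∑ x ∈ (A.erase v).erase u, (m u x : ℝ) * Sv m w y ((A.erase v).erase u) x)) := by
  rw [Rw_mem hv]
  have e0 : hh w y ε [v] = 0 := rfl
  rw [e0, zero_add]
  apply Finset.sum_congr rfl
  intro u hu
  congr 1
  rw [Rw_mem hu]
  have e1 : hh w y ε (v :: [u]) = zz * zz * ((2 - 4 * zz) * y u) := rfl
  rw [e1, mul_add (zz * zz), mul_left_comm (zz * zz) (4 - 6 * zz + 2 * zz * ε u), Finset.mul_sum,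
    Finset.mul_sum]
  congr 1
  apply Finset.sum_congr rfl
  intro x hx
  have e2 : Rw m (fun l => hh w y ε (v :: u :: l)) ((A.erase v).erase u) x =
      Rw m (fun l => (zz * zz * (4 - 6 * zz + 2 * zz * ε u)) * val t1 w y l)
        ((A.erase v).erase u) x := by
    apply Rw_congr
    intro l hl
    obtain ⟨t, rfl⟩ := hl.head
    simp only [hh]; ring
  rw [e2, Rw_smul, ← Sv_eq_Rw (m := m) (m' := m) (τ := t1)]
  · ring
  · intro a _ b _; simp [t1]

variable {m : V → V → ℕ} {s : V → ℕ} {A : Finset V} {v : V} {P O Q : V → ℕ}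

lemma Strict.wt_eq (h : Strict m s A v P O Q) {x : V} (hx : x ∈ A) : wt s x = zz := by
  simp [wt, h.fat x hx]

lemma val_del (h : Strict m s A v P O Q) (p q : V) (y : V → ℝ) (l : List V)
    (hl : ∀ x ∈ l, x ∈ A) :
    val (tf p q) (wt (ds s p q)) y l = val t1 (wt s) y l * cc p q l := by
  have hw : ∀ x ∈ A, wt (ds s p q) x = zz * gf p q x := by
    intro x hx
    unfold wt ds gf
    by_cases hxp : x = p ∨ x = q
    · rw [if_pos hxp, if_pos hxp]
      have := zz_sq
      simp; linarith
    · rw [if_neg hxp, if_neg hxp, h.fat x hx]; simp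
  induction l with
  | nil => simp [val]
  | cons a l ih =>
    have ha : a ∈ A := hl a (by simp)
    cases l with
    | nil =>
      simp only [val, cc]
      rw [hw a ha, h.wt_eq ha]; ring
    | cons u t =>
      have := ih fun x hx => hl x (List.mem_cons_of_mem _ hx)
      simp only [val, cc] at this ⊢
      rw [this, hw a ha, h.wt_eq ha]
      simp only [t1]
      ring

lemma del_eq (h : Strict m s A v P O Q) (p q : V) (y : V → ℝ) :
    Sv (dm m p q) (wt (ds s p q)) y A v = Rw m (fun l => val t1 (wt s) y l * cc p q l) A v := by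
  rw [Sv_eq_Rw (m := m) (m' := dm m p q) (τ := tf p q)]
  · apply Rw_congr
    intro l hl
    exact val_del h p q y l hl.facts.2.1
  · intro x _ u _
    unfold dm tf
    split_ifs <;> simp

lemma yv_ne_zero {P O : V → ℕ} {x : V} (h : yv P O x ≠ 0) : 1 ≤ P x + O x := by
  by_contra hcon
  apply h
  have h1 : P x = 0 := by omega
  have h2 : O x = 0 := by omega
  unfold yv; rw [h1, h2]; simp

/-- pointwise bound -/
lemma hh_le (h : Strict m s A v P O Q) (hc4 : 4 ≤ A.card) (l : List V) (hl : Valid m A v l) :
    hh (wt s) (yv P O) (fun u => ((P u + O u + Q u : ℕ) : ℝ)) l ≤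
      val t1 (wt s) (yv P O) l * DD m A l := by
  obtain ⟨hPv, hOv, hQv, hdv⟩ := h.root
  obtain ⟨hn, hlA, hch⟩ := hl.facts
  obtain ⟨t, rfl⟩ := hl.head
  have hsym := h.sys.symm
  have hz := zz_sq
  have hz1 := zz_gt
  have hz2 := zz_lt
  have hform := DD_formula hsym A (fun x hx => h.sys.loop_free hx)
    (fun x hx y hy => h.simple hx hy) (v :: t) hn hlA hch (by simp)
  have hXA : (v :: t).toFinset ⊆ A := by
    intro x hx; exact hlA x (List.mem_toFinset.mp hx)
  have hcardX : (v :: t).toFinset.card = (v :: t).length := List.toFinset_card_of_nodup hn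
  -- degree count
  have hF : ee m (v :: t).toFinset A + ∑ x ∈ (v :: t).toFinset, (P x + O x + Q x) + 1 =
      3 * (v :: t).length := by
    have h1 : ∑ x ∈ (v :: t).toFinset, ((∑ u ∈ A, m x u) + (P x + O x + Q x) +
        (if x = v then 1 else 0)) = ∑ x ∈ (v :: t).toFinset, 3 := by
      apply Finset.sum_congr rfl
      intro x hx
      rw [h.sys.legs x (hXA hx), h.fat x (hXA hx)]
    rw [Finset.sum_add_distrib, Finset.sum_add_distrib, Finset.sum_const, hcardX,
      smul_eq_mul] at h1
    have h2 : ∑ x ∈ (v :: t).toFinset, (if x = v then 1 else 0) = 1 := by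
      rw [Finset.sum_ite_eq']; simp
    rw [h2] at h1
    unfold ee
    omega
  cases t with
  | nil =>
    have : val t1 (wt s) (yv P O) [v] = 0 := by
      simp [val, yv, hPv, hOv]
    rw [this]; simp [hh]
  | cons u t =>
    have huA : u ∈ A := hlA u (by simp)
    have huv : u ≠ v := by
      rintro rfl
      exact (List.nodup_cons.mp hn).1 (by simp)
    have hmvu : m v u = 1 := by
      have h1 := h.simple h.sys.hv huA
      have h2 := hch.1
      omega
    cases t with
    | nil =>
      have hX : [v, u].toFinset = {v, u} := by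
        ext x; simp
      have hE : ee m [v, u].toFinset [v, u].toFinset = 2 := by
        rw [hX, ee_pair hsym (Ne.symm huv) (h.sys.loop_free h.sys.hv) (h.sys.loop_free huA), hmvu]
      have hK : ∑ x ∈ [v, u].toFinset, (P x + O x + Q x) = P u + O u + Q u := by
        rw [hX, Finset.sum_pair (Ne.symm huv), hPv, hOv, hQv]; omega
      have hval : val t1 (wt s) (yv P O) [v, u] = zz * zz * yv P O u := by
        simp only [val, t1, h.wt_eq h.sys.hv, h.wt_eq huA]; ring
      have hhv : hh (wt s) (yv P O) (fun u => ((P u + O u + Q u : ℕ) : ℝ)) [v, u] =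
        zz * zz * ((2 - 4 * zz) * yv P O u) := rfl
      rw [hhv, hval]
      by_cases hy : yv P O u = 0
      · rw [hy]; simp
      · have hk := yv_ne_zero hy
        have hk1 := h.leg_le huA huv
        rw [hK] at hF
        have hF2 : ee m [v, u].toFinset A = 4 := by
          simp only [List.length_cons, List.length_nil] at hF
          omega
        rw [hform, hE, hF2]
        apply le_of_eq
        simp only [List.length_cons, List.length_nil]
        push_cast
        rw [hz]
        have : (1 + zz) * (1 + zz) = 2 + zz := by linarith [hz, mul_self_nonneg zz]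
        rw [this]
        ring
    | cons x t =>
      set l := v :: u :: x :: t with hldef
      set X := l.toFinset with hXdef
      set W := val t1 (wt s) (yv P O) (x :: t) with hWdef
      have hW0 : 0 ≤ W := val_nonneg (wt_nonneg s) (yv_nonneg P O) _
      have hval : val t1 (wt s) (yv P O) l = zz * zz * W := by
        simp only [hldef, val, t1, h.wt_eq h.sys.hv, h.wt_eq huA]
        rw [hWdef]; ring
      have hhv : hh (wt s) (yv P O) (fun u => ((P u + O u + Q u : ℕ) : ℝ)) l =
        zz * zz * ((4 - 6 * zz + 2 * zz * ((P u + O u + Q u : ℕ) : ℝ)) * W) := rfl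
      rw [hhv, hval]
      by_cases hW : W = 0
      · rw [hW]; simp
      · obtain ⟨x', hx', hy'⟩ := val_ne_zero _ hW
        have hk := yv_ne_zero hy'
        have hxX : x' ∈ X := by
          rw [hXdef, List.mem_toFinset, hldef]
          exact List.mem_cons_of_mem _ (List.mem_cons_of_mem _ hx')
        have huX : u ∈ X := by
          rw [hXdef, List.mem_toFinset, hldef]; simp
        have hxu : u ≠ x' := by
          rintro rfl
          have := (List.nodup_cons.mp (List.nodup_cons.mp hn).2).1
          exact this hx'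
        have hK : P u + O u + Q u + 1 ≤ ∑ a ∈ X, (P a + O a + Q a) := by
          have hsub : ({u, x'} : Finset V) ⊆ X := by
            intro a ha
            rcases Finset.mem_insert.mp ha with rfl | ha
            · exact huX
            · rw [Finset.mem_singleton.mp ha]; exact hxX
          have h1 : ∑ a ∈ ({u, x'} : Finset V), (P a + O a + Q a) ≤ ∑ a ∈ X, (P a + O a + Q a) :=
            Finset.sum_le_sum_of_subset hsub
          rw [Finset.sum_pair hxu] at h1
          omega
        have hL3 : 3 ≤ l.length := by simp [hldef]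
        have hE8 : ee m X X + 8 ≤ 4 * l.length := by
          obtain ⟨k, hk2⟩ := even_ee hsym X (fun a ha => h.sys.loop_free (hXA ha))
          have hle : ee m X X ≤ ee m X A := ee_le_right hXA X
          have hd3 : ee m X X + 3 ≤ 3 * l.length := by
            have := h.sys.a3 X hXA ⟨u, huX, h.fat u huA⟩
            have h5 : ∑ a ∈ X, s a = 3 * X.card := by
              rw [Finset.sum_congr rfl (fun a ha => h.fat a (hXA ha))]
              simp [mul_comm]
            rw [h5, hcardX] at this
            omega
          by_cases hXe : X = A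
          · have hc : l.length = A.card := by rw [← hXe, hcardX]
            omega
          · have := h.d4 X hXA hXe (by rw [hcardX]; omega)
            rw [hcardX] at this
            omega
        set L : ℝ := (l.length : ℝ) with hLdef
        have hF' : (ee m X A : ℝ) ≤ 3 * L - 2 - ((P u + O u + Q u : ℕ) : ℝ) := by
          have h1 : ee m X A + (P u + O u + Q u) + 2 ≤ 3 * l.length := by omega
          have h2 : ((ee m X A + (P u + O u + Q u) + 2 : ℕ) : ℝ) ≤ ((3 * l.length : ℕ) : ℝ) := by
            exact_mod_cast h1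
          push_cast at h2 ⊢
          rw [hLdef]
          linarith
        have hE' : (ee m X X : ℝ) ≤ 4 * L - 8 := by
          have h2 : ((ee m X X + 8 : ℕ) : ℝ) ≤ ((4 * l.length : ℕ) : ℝ) := by
            exact_mod_cast hE8
          push_cast at h2
          rw [hLdef]
          linarith
        have hD : 4 - 6 * zz + 2 * zz * ((P u + O u + Q u : ℕ) : ℝ) ≤ DD m A l := by
          rw [hform]
          have g1 : zz * (ee m X A : ℝ) ≤ zz * (3 * L - 2 - ((P u + O u + Q u : ℕ) : ℝ)) :=
            mul_le_mul_of_nonneg_left hF' (by linarith)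
          have g2 : zz * zz * (ee m X X : ℝ) ≤ zz * zz * (4 * L - 8) :=
            mul_le_mul_of_nonneg_left hE' (by nlinarith)
          have g3 : (1 + zz) * (1 + zz) = 2 + zz := by linarith [hz, mul_self_nonneg zz]
          rw [g3]
          rw [hz] at g2 ⊢
          nlinarith
        have : zz * zz * ((4 - 6 * zz + 2 * zz * ((P u + O u + Q u : ℕ) : ℝ)) * W) ≤
            zz * zz * (DD m A l * W) := by
          apply mul_le_mul_of_nonneg_left _ (by nlinarith)
          exact mul_le_mul_of_nonneg_right hD hW0
        linarith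

/-- the averaging inequality -/
lemma T_ineq (h : Strict m s A v P O Q) (hc4 : 4 ≤ A.card) :
    ∑ u ∈ A.erase v, (m v u : ℝ) * (zz * zz * ((2 - 4 * zz) * yv P O u +
      (4 - 6 * zz + 2 * zz * ((P u + O u + Q u : ℕ) : ℝ)) *
        ∑ x ∈ (A.erase v).erase u,
          (m u x : ℝ) * Sv m (wt s) (yv P O) ((A.erase v).erase u) x)) ≤
    ∑ p ∈ A, ∑ q ∈ A, (m p q : ℝ) * (Sv m (wt s) (yv P O) A v -
      Sv (dm m p q) (wt (ds s p q)) (yv P O) A v) := by
  rw [← Rw_hh (m := m) (w := wt s) (y := yv P O) (ε := fun u => ((P u + O u + Q u : ℕ) : ℝ))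
    h.sys.hv]
  have e1 : Sv m (wt s) (yv P O) A v = Rw m (val t1 (wt s) (yv P O)) A v := by
    apply Sv_eq_Rw; intro a _ b _; simp [t1]
  have e2 : ∑ p ∈ A, ∑ q ∈ A, (m p q : ℝ) * (Sv m (wt s) (yv P O) A v -
      Sv (dm m p q) (wt (ds s p q)) (yv P O) A v) =
      Rw m (fun l => ∑ p ∈ A, ∑ q ∈ A, (m p q : ℝ) *
        (val t1 (wt s) (yv P O) l + (-1) * (val t1 (wt s) (yv P O) l * cc p q l))) A v := by
    rw [Rw_sum]
    apply Finset.sum_congr rfl; intro p _
    rw [Rw_sum]
    apply Finset.sum_congr rfl; intro q _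
    rw [Rw_smul, Rw_add, Rw_smul, ← del_eq h p q, ← e1]
    ring
  rw [e2]
  apply Rw_mono
  intro l hl
  refine (hh_le h hc4 l hl).trans (le_of_eq ?_)
  unfold DD
  rw [Finset.mul_sum]
  apply Finset.sum_congr rfl; intro p _
  rw [Finset.mul_sum]
  apply Finset.sum_congr rfl; intro q _
  ring

end

end Pool.Agent.TH496
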