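import Pool.Agent.TH614.HS.Base

/-! Job 3874 (project HS of helper614, MP_7aba51_co): structure at a multiple root. -/

set_option autoImplicit false

namespace Pool.Agent.TH496.J3874

open Polynomial Pool.Agent.TH614.HS

variable {L : Type} [Field L]

/-- factorization of the quartic at a triple root -/
theorem phi_fac [IsAlgClosed L] (hCUB : S_CUB) (D : HD L) {x s mu eta : L} (hx : D.isL x)
    (hR : D.RD x s mu eta) (hm : mu + D.th * eta = 0) :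
    D.Phi x = C (x ^ 2) * (X - C s) ^ 3 * (X - C (s * (1 - 4 * eta ^ 2))) := by
  have hs : s ≠ 0 := hR.1
  apply Polynomial.funext
  intro r
  have h := hCUB L D x s mu eta hx hR (r / s - 1)
  have e1 : s * (1 + (r / s - 1)) = r := by field_simp; ring
  rw [e1, hm] at h
  rw [h]
  simp only [eval_mul, eval_pow, eval_sub, eval_X, eval_C]
  field_simp
  ring

theorem phi_eval (D : HD L) (x z : L) : (D.Phi x).eval z =
    x ^ 2 * z ^ 4 - 4 * x ^ (D.q ^ 5) * x ^ D.q * z ^ 3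
    - 2 * D.th * (x ^ (D.q ^ 2) * x ^ (D.q ^ 5) - x ^ (D.q ^ 4) * x ^ D.q) * z ^ 2
    + 4 * x ^ (D.q ^ 2) * x ^ (D.q ^ 4) * z - (x ^ (D.q ^ 3)) ^ 2 := by
  unfold HD.Phi
  simp only [eval_mul, eval_pow, eval_sub, eval_add, eval_X, eval_C]

/-- self-reciprocity of the quartic -/
theorem phi_rec (D : HD L) {x : L} (hx : D.isL x) {z : L} (hz : z ≠ 0) :
    (D.Phi x).eval ((z ^ (D.q ^ 3))⁻¹)
      = -((z ^ (D.q ^ 3))⁻¹) ^ 4 * ((D.Phi x).eval z) ^ (D.q ^ 3) := by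
  have hx6 := hx.p6
  have hS : z ^ (D.q ^ 3) ≠ 0 := pow_ne_zero _ hz
  have e : ((D.Phi x).eval z) ^ (D.q ^ 3)
      = D.frn 3 ((D.Phi x).eval z) := rfl
  rw [e, phi_eval, phi_eval]
  have f2 : D.frn 3 (x ^ (D.q ^ 2)) = x ^ (D.q ^ 5) := by rw [HD.frn_def, D.pp]
  have f5 : D.frn 3 (x ^ (D.q ^ 5)) = x ^ (D.q ^ 2) := by rw [HD.frn_def, D.pp]; exact D.p8 hx6
  have f1 : D.frn 3 (x ^ D.q) = x ^ (D.q ^ 4) := by rw [HD.frn_def, D.qp]
  have f4 : D.frn 3 (x ^ (D.q ^ 4)) = x ^ D.q := by rw [HD.frn_def, D.pp]; exact D.p7 hx6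
  have f3 : D.frn 3 (x ^ (D.q ^ 3)) = x := by rw [HD.frn_def, D.pp]; exact hx6
  have f0 : D.frn 3 x = x ^ (D.q ^ 3) := rfl
  have ft : D.frn 3 D.th = - D.th := D.th_q3
  have fz : D.frn 3 z = z ^ (D.q ^ 3) := rfl
  have g2 : D.frn 3 (x ^ 2) = (D.frn 3 x) ^ 2 := map_pow _ _ _
  have g2' : D.frn 3 ((x ^ (D.q ^ 3)) ^ 2) = (D.frn 3 (x ^ (D.q ^ 3))) ^ 2 := map_pow _ _ _
  have z2 : D.frn 3 (z ^ 2) = (D.frn 3 z) ^ 2 := map_pow _ _ _
  have z3 : D.frn 3 (z ^ 3) = (D.frn 3 z) ^ 3 := map_pow _ _ _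
  have z4 : D.frn 3 (z ^ 4) = (D.frn 3 z) ^ 4 := map_pow _ _ _
  rw [map_sub, map_add, map_sub, map_sub, map_mul, map_mul, map_mul, map_mul, map_mul, map_mul,
    map_mul, map_sub, map_mul, map_mul, map_mul, map_mul, map_mul, map_ofNat, map_ofNat, g2, g2',
    z2, z3, z4, fz, f1, f2, f4, f5, f3, f0, ft]
  field_simp
  ring

/-- algebraic core of the circle property -/
theorem circ_core [IsAlgClosed L] {a b s c S c' : L} (ha : a ≠ 0) (hS : S ≠ 0)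
    (h : ∀ w : L, a * (w - s) ^ 3 * (w - c) = -b * (1 - w * S) ^ 3 * (1 - w * c')) : S⁻¹ = s := by
  have hpoly : C a * (X - C s) ^ 3 * (X - C c)
      = C (-b) * (1 - X * C S) ^ 3 * (1 - X * C c') := by
    apply Polynomial.funext
    intro r
    simp only [eval_mul, eval_pow, eval_sub, eval_X, eval_C, eval_one]
    exact h r
  have hd := congrArg (fun p => (derivative p).eval S⁻¹) hpoly
  simp only [derivative_mul, derivative_pow, derivative_sub, derivative_X, derivative_C,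
    derivative_one, eval_mul, eval_add, eval_pow, eval_sub, eval_X, eval_C, eval_one,
    eval_zero] at hd
  have h1 : S⁻¹ * S = 1 := inv_mul_cancel₀ hS
  rw [h1] at hd
  have h0 := h S⁻¹
  rw [h1] at h0
  have h0' : a * (S⁻¹ - s) ^ 3 * (S⁻¹ - c) = 0 := by rw [h0]; ring
  rcases mul_eq_zero.mp h0' with h2 | h2
  · rcases mul_eq_zero.mp h2 with h3 | h3
    · exact absurd h3 ha
    · exact sub_eq_zero.mp (pow_eq_zero_iff (by norm_num) |>.mp h3)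
  · rw [h2] at hd
    have hd' : a * (S⁻¹ - s) ^ 3 = 0 := by
      simp at hd
      rcases hd with h4 | h4
      · exact absurd h4 ha
      · rw [h4]; ring
    rcases mul_eq_zero.mp hd' with h3 | h3
    · exact absurd h3 ha
    · exact sub_eq_zero.mp (pow_eq_zero_iff (by norm_num) |>.mp h3)

/-- a triple root is on the circle -/
theorem circ_of [IsAlgClosed L] (D : HD L) {x s c : L} (hx : D.isL x) (hs : s ≠ 0)
    (hPhi : D.Phi x = C (x ^ 2) * (X - C s) ^ 3 * (X - C c)) : D.circ s := by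
  have hS : s ^ (D.q ^ 3) ≠ 0 := pow_ne_zero _ hs
  have hev : ∀ r, (D.Phi x).eval r = x ^ 2 * (r - s) ^ 3 * (r - c) := by
    intro r
    rw [hPhi]
    simp only [eval_mul, eval_pow, eval_sub, eval_X, eval_C]
  have key : (s ^ (D.q ^ 3))⁻¹ = s := by
    apply circ_core (a := x ^ 2) (b := (x ^ (D.q ^ 3)) ^ 2) (c := c) (c' := c ^ (D.q ^ 3))
      (pow_ne_zero _ hx.ne) hS
    intro w
    rw [← hev w]
    by_cases hw : w = 0
    · subst hw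
      rw [phi_eval]
      ring
    · obtain ⟨z, hz⟩ := D.surjn 3 w⁻¹
      have hz0 : z ≠ 0 := by
        rintro rfl
        rw [zero_pow (pow_ne_zero 3 D.q_ne)] at hz
        exact (inv_ne_zero hw) hz.symm
      have h := phi_rec D hx hz0
      rw [hz, inv_inv, hev z] at h
      rw [h]
      have e : (x ^ 2 * (z - s) ^ 3 * (z - c)) ^ (D.q ^ 3)
          = (x ^ (D.q ^ 3)) ^ 2 * (w⁻¹ - s ^ (D.q ^ 3)) ^ 3 * (w⁻¹ - c ^ (D.q ^ 3)) := by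
        have e1 : (x ^ 2 * (z - s) ^ 3 * (z - c)) ^ (D.q ^ 3)
          = D.frn 3 (x ^ 2 * (z - s) ^ 3 * (z - c)) := rfl
        rw [e1, map_mul, map_mul, map_pow, map_pow, map_sub, map_sub, HD.frn_def, HD.frn_def,
          HD.frn_def, HD.frn_def, hz]
      rw [e]
      field_simp
  unfold HD.circ
  rw [pow_succ]
  nth_rewrite 2 [← key]
  exact mul_inv_cancel₀ hS

/-- algebraic: two quadratic forms in two variables -/
theorem form_sign (h2 : (2 : L) ≠ 0) {a b c e : L}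
    (h : ∀ P Y : L, (a * P + b * Y) ^ 2 = (c * P + e * Y) ^ 2) :
    ∃ d : L, (d = 1 ∨ d = -1) ∧ a = d * c ∧ b = d * e := by
  have hA := h 1 0
  have hB := h 0 1
  have hC := h 1 1
  have hA' : (a - c) * (a + c) = 0 := by linear_combination hA
  have hB' : (b - e) * (b + e) = 0 := by linear_combination hB
  have hC' : a * b = c * e := by
    have : 2 * (a * b - c * e) = 0 := by linear_combination hC - hA - hB
    rcases mul_eq_zero.mp this with h | h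
    · exact absurd h h2
    · exact sub_eq_zero.mp h
  rcases mul_eq_zero.mp hA' with h1 | h1
  · have h1' : a = c := sub_eq_zero.mp h1
    by_cases hc : c = 0
    · rcases mul_eq_zero.mp hB' with h3 | h3
      · exact ⟨1, Or.inl rfl, by rw [h1', one_mul], by rw [one_mul]; exact sub_eq_zero.mp h3⟩
      · exact ⟨-1, Or.inr rfl, by rw [h1', hc]; ring, by linear_combination h3⟩
    · refine ⟨1, Or.inl rfl, by rw [h1', one_mul], ?_⟩
      rw [h1'] at hC'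
      have := mul_left_cancel₀ hc hC'
      rw [this, one_mul]
  · have h1' : a = -c := eq_neg_of_add_eq_zero_left h1
    by_cases hc : c = 0
    · rcases mul_eq_zero.mp hB' with h3 | h3
      · exact ⟨1, Or.inl rfl, by rw [h1', hc]; ring, by rw [one_mul]; exact sub_eq_zero.mp h3⟩
      · exact ⟨-1, Or.inr rfl, by rw [h1', hc]; ring, by linear_combination h3⟩
    · refine ⟨-1, Or.inr rfl, by rw [h1']; ring, ?_⟩
      rw [h1'] at hC'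
      have h4 : c * b = c * (-e) := by linear_combination -hC'
      have := mul_left_cancel₀ hc h4
      rw [this]; ring

/-- `q^2`-power of a linear relation on the line -/
theorem step2 [IsAlgClosed L] (D : HD L) {x : L} (hx : D.isL x) {A B C' E : L}
    (h : ∀ P0 P1 P2 Y, OnL x (x ^ (D.q ^ 2)) (x ^ (D.q ^ 4)) (x ^ (D.q ^ 3)) (x ^ (D.q ^ 5)) (x ^ D.q)
        P0 P1 P2 Y → A * P0 + B * P1 + C' * P2 + E * Y = 0) :
    ∀ P0 P1 P2 Y, OnL x (x ^ (D.q ^ 2)) (x ^ (D.q ^ 4)) (x ^ (D.q ^ 3)) (x ^ (D.q ^ 5)) (x ^ D.q)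
        P0 P1 P2 Y →
      C' ^ (D.q ^ 2) * P0 + A ^ (D.q ^ 2) * P1 + B ^ (D.q ^ 2) * P2 + E ^ (D.q ^ 2) * Y = 0 := by
  intro P0 P1 P2 Y hP
  obtain ⟨Q0, Q1, Q2, Z, hQ, h0, h1, h2, h3⟩ := HD.root3 hx hP
  have h4 := congrArg (D.frn 2) (h Q0 Q1 Q2 Z hQ)
  rw [map_add, map_add, map_add, map_mul, map_mul, map_mul, map_mul, map_zero] at h4
  simp only [HD.frn_def] at h4
  rw [h0, h1, h2, h3] at h4
  linear_combination h4

/-- `q^3`-power of a linear relation on the line -/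
theorem step3 [IsAlgClosed L] (D : HD L) {x : L} (hx : D.isL x) {A B C' E : L}
    (h : ∀ P0 P1 P2 Y, OnL x (x ^ (D.q ^ 2)) (x ^ (D.q ^ 4)) (x ^ (D.q ^ 3)) (x ^ (D.q ^ 5)) (x ^ D.q)
        P0 P1 P2 Y → A * P0 + B * P1 + C' * P2 + E * Y = 0) :
    ∀ R0 R1 R2 Z, OnL (x ^ (D.q ^ 3)) (x ^ (D.q ^ 5)) (x ^ D.q) x (x ^ (D.q ^ 2)) (x ^ (D.q ^ 4))
        R0 R1 R2 Z →
      A ^ (D.q ^ 3) * R0 + B ^ (D.q ^ 3) * R1 + C' ^ (D.q ^ 3) * R2 + E ^ (D.q ^ 3) * Z = 0 := by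
  intro R0 R1 R2 Z hR
  obtain ⟨P0, P1, P2, Y, hP, g0, g1, g2, g3⟩ := HD.root2 hx hR
  obtain ⟨Q0, Q1, Q2, W, hQ, h0, h1, h2, h3⟩ := HD.root3 hx hP
  have h4 := congrArg (D.frn 3) (h Q0 Q1 Q2 W hQ)
  rw [map_add, map_add, map_add, map_mul, map_mul, map_mul, map_mul, map_zero] at h4
  simp only [HD.frn_def] at h4
  have k0 : Q0 ^ (D.q ^ 3) = R0 := by rw [← D.pq Q0 2, h0, g1]
  have k1 : Q1 ^ (D.q ^ 3) = R1 := by rw [← D.pq Q1 2, h1, g2]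
  have k2 : Q2 ^ (D.q ^ 3) = R2 := by rw [← D.pq Q2 2, h2, g0]
  have k3 : W ^ (D.q ^ 3) = Z := by rw [← D.pq W 2, h3, g3]
  rw [k0, k1, k2, k3] at h4
  linear_combination h4

/-- the root datum of the next root -/
theorem next_rd [IsAlgClosed L] (hMT : S_MT) (D : HD L) {x s mu eta : L} (hx : D.isL x)
    (hR : D.RD x s mu eta) :
    RDa D.th (x ^ (D.q ^ 4)) x (x ^ (D.q ^ 2)) (x ^ D.q) (x ^ (D.q ^ 3)) (x ^ (D.q ^ 5))
      (D.nt s) (D.mM x s mu eta) (D.mE x s mu eta) := by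
  have h := (hMT L D x s mu eta hx hR).2
  have hx6 := hx.p6
  rw [D.pp, D.pp, D.pp, D.pp, D.pq] at h
  norm_num at h
  rw [hx6, D.p8 hx6, D.p7 hx6, D.p9 hx6] at h
  exact h

theorem next_m (D : HD L) {x s mu eta : L} (hm : mu + D.th * eta = 0) :
    D.mM x s mu eta + D.th * D.mE x s mu eta = 0 := by
  have h : (mu + D.th * eta) ^ D.q = 0 := by rw [hm, zero_pow D.q_ne]
  rw [D.add, mul_pow, D.thq] at h
  unfold HD.mM HD.mE
  have h2 := D.th2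
  linear_combination (-(x ^ D.q * s ^ (2 * D.q) / x ^ (D.q ^ 4))) * h
    - (x ^ D.q * s ^ (2 * D.q) / x ^ (D.q ^ 4)) * mu ^ D.q * h2

/-- consequences of the relation `l2 = 0` on the line, for a circle root -/
theorem l2_facts [IsAlgClosed L] (D : HD L) {x s : L} (hx : D.isL x) (hc : D.circ s)
    (hl : ∀ P0 P1 P2 Y, OnL x (x ^ (D.q ^ 2)) (x ^ (D.q ^ 4)) (x ^ (D.q ^ 3)) (x ^ (D.q ^ 5)) (x ^ D.q)
        P0 P1 P2 Y → l2 D.th s (D.nt s) P0 P1 P2 Y = 0) :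
    s ^ (D.q ^ 6) = s ∧ D.Nm s = -1 ∧ s * D.nt s * s ^ (D.q ^ 2) = -1 ∧
    (∀ g : L, (∀ P0 P1 P2 Y, OnL x (x ^ (D.q ^ 2)) (x ^ (D.q ^ 4)) (x ^ (D.q ^ 3)) (x ^ (D.q ^ 5))
        (x ^ D.q) P0 P1 P2 Y → Y + D.th * (P1 / (s * D.nt s)) = g * l1 s (D.nt s) P0 P2) → g ≠ 0) ∧
    (∃ P0 P1 P2 Y, OnL x (x ^ (D.q ^ 2)) (x ^ (D.q ^ 4)) (x ^ (D.q ^ 3)) (x ^ (D.q ^ 5)) (x ^ D.q)
        P0 P1 P2 Y ∧ l1 s (D.nt s) P0 P2 ≠ 0) ∧
    (∀ R0 R1 R2 Z, OnL (x ^ (D.q ^ 3)) (x ^ (D.q ^ 5)) (x ^ D.q) x (x ^ (D.q ^ 2)) (x ^ (D.q ^ 4))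
        R0 R1 R2 Z → m2 D.th s (D.nt s) R0 R1 R2 Z = 0) := by
  have hs : s ≠ 0 := hc.ne
  have hPL := hx.PL
  have hs3 := hc.inv
  have hs6 : s ^ (D.q ^ 6) = s := by
    rw [← D.pp s 3 3, hs3, inv_pow, hs3, inv_inv]
  have hnt := hc.nt
  obtain ⟨t, ht⟩ : ∃ t, t = D.nt s := ⟨_, rfl⟩
  obtain ⟨u, hu⟩ : ∃ u, u = s ^ (D.q ^ 2) := ⟨_, rfl⟩
  rw [← ht] at hl hnt
  rw [← ht, ← hu]
  have ht0 : t ≠ 0 := by rw [hnt]; exact pow_ne_zero _ hs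
  have hu0 : u ≠ 0 := by rw [hu]; exact pow_ne_zero _ hs
  have hut : u ^ (D.q ^ 2) = t := by rw [hu, D.pp, hnt]
  have hts : t ^ (D.q ^ 2) = s := by rw [hnt, D.pp]; exact hs6
  have ht3 : t ^ (D.q ^ 3) = t⁻¹ := by
    rw [hnt, D.pp]
    have e : s ^ (D.q ^ (4 + 3)) = (s ^ (D.q ^ 3)) ^ (D.q ^ 4) := by rw [D.pp]
    rw [e, hs3, inv_pow]
  -- relations
  have r1 : ∀ P0 P1 P2 Y, OnL x (x ^ (D.q ^ 2)) (x ^ (D.q ^ 4)) (x ^ (D.q ^ 3)) (x ^ (D.q ^ 5))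
      (x ^ D.q) P0 P1 P2 Y → s * P0 + (-(s * t)⁻¹) * P1 + t * P2 + (-D.th) * Y = 0 := by
    intro P0 P1 P2 Y h
    have := hl P0 P1 P2 Y h
    unfold l2 at this
    rw [div_eq_mul_inv] at this
    linear_combination this
  have r2 := step2 D hx r1
  rw [D.negn, D.negn, inv_pow, mul_pow, hts, ← hu, D.th_q2] at r2
  have r3 := step2 D hx r2
  rw [D.negn, D.negn, inv_pow, mul_pow, ← hu, hut, D.th_q2] at r3
  have r4 := step3 D hx r1
  rw [D.negn, D.negn, inv_pow, mul_pow, hs3, ht3, D.th_q3] at r4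
  -- the point
  have hp := OnL.param hPL 0 1
  obtain ⟨hx0, -, -, -, hy1, hy2, -⟩ := hPL
  have e1 := r1 _ _ _ _ hp
  have e2 := r2 _ _ _ _ hp
  have e3 := r3 _ _ _ _ hp
  simp only [mul_zero, zero_add, one_mul, zero_sub, mul_one] at e1 e2 e3 hp
  obtain ⟨p1, hp1⟩ : ∃ p1, p1 = x ^ D.q / x := ⟨_, rfl⟩
  obtain ⟨p2, hp2⟩ : ∃ p2, p2 = -x ^ (D.q ^ 5) / x := ⟨_, rfl⟩
  have hp10 : p1 ≠ 0 := by rw [hp1]; exact div_ne_zero hy2 hx0
  have hp20 : p2 ≠ 0 := by rw [hp2]; exact div_ne_zero (neg_ne_zero.mpr hy1) hx0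
  rw [← hp1, ← hp2] at e1 e2 e3 hp
  have hnu : s * t * u = -1 := by
    have h5 : (u + (s * t)⁻¹) * p1 = 0 := by linear_combination e3 - e1
    rcases mul_eq_zero.mp h5 with h6 | h6
    · field_simp at h6
      linear_combination h6
    · exact absurd h6 hp10
  refine ⟨hs6, ?_, hnu, ?_, ⟨0, p1, p2, 1, hp, ?_⟩, ?_⟩
  · unfold HD.Nm
    rw [pow_add, pow_add, pow_one, ← hu, ← hnt, ← hnu]
    ring
  · rintro g hg rfl
    have q1 : ∀ P0 P1 P2 Y, OnL x (x ^ (D.q ^ 2)) (x ^ (D.q ^ 4)) (x ^ (D.q ^ 3)) (x ^ (D.q ^ 5))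
        (x ^ D.q) P0 P1 P2 Y → 0 * P0 + (D.th * (s * t)⁻¹) * P1 + 0 * P2 + 1 * Y = 0 := by
      intro P0 P1 P2 Y h
      have := hg P0 P1 P2 Y h
      rw [div_eq_mul_inv] at this
      linear_combination this
    have q2 := step2 D hx q1
    have q3 := step2 D hx q2
    have e := q3 _ _ _ _ hp
    simp only [zero_pow (pow_ne_zero 2 D.q_ne), one_pow, mul_zero, zero_mul, zero_add,
      mul_one] at e
    exact one_ne_zero e
  · unfold l1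
    rw [mul_zero, zero_sub]
    exact neg_ne_zero.mpr (mul_ne_zero ht0 hp20)
  · intro R0 R1 R2 Z h
    have h7 := r4 _ _ _ _ h
    unfold m2
    rw [← mul_inv, inv_inv] at h7
    rw [div_eq_mul_inv, div_eq_mul_inv]
    linear_combination h7

/-- on the line of a circle root with `l2 = 0`, the form of the root datum is `q^2`-invariant -/
theorem form_inv [IsAlgClosed L] (D : HD L) {x s mu eta ep : L} (hx : D.isL x) (hc : D.circ s)
    (hR : D.RD x s mu eta) (heta : eta ≠ 0) (hE : D.Ep x s mu eta ep)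
    (hs6 : s ^ (D.q ^ 6) = s) (hnu : s * D.nt s * s ^ (D.q ^ 2) = -1)
    (hl : ∀ P0 P1 P2 Y, OnL x (x ^ (D.q ^ 2)) (x ^ (D.q ^ 4)) (x ^ (D.q ^ 3)) (x ^ (D.q ^ 5)) (x ^ D.q)
        P0 P1 P2 Y → l2 D.th s (D.nt s) P0 P1 P2 Y = 0) :
    ∀ P0 P1 P2 Y, OnL x (x ^ (D.q ^ 2)) (x ^ (D.q ^ 4)) (x ^ (D.q ^ 3)) (x ^ (D.q ^ 5)) (x ^ D.q)
        P0 P1 P2 Y →
      mu ^ (D.q ^ 2) * s ^ (D.q ^ 2) * P1 + eta ^ (D.q ^ 2) * Y = mu * s * P0 + eta * Y := by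
  have hs : s ≠ 0 := hc.ne
  have hPL := hx.PL
  have hx6 := hx.p6
  have hs3 := hc.inv
  have hnt := hc.nt
  obtain ⟨t, ht⟩ : ∃ t, t = D.nt s := ⟨_, rfl⟩
  obtain ⟨u, hu⟩ : ∃ u, u = s ^ (D.q ^ 2) := ⟨_, rfl⟩
  rw [← ht] at hl hnt hnu
  rw [← hu] at hnu
  rw [← hu]
  have ht0 : t ≠ 0 := by rw [hnt]; exact pow_ne_zero _ hs
  have hu0 : u ≠ 0 := by rw [hu]; exact pow_ne_zero _ hs
  have hut : u ^ (D.q ^ 2) = t := by rw [hu, D.pp, hnt]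
  have hts : t ^ (D.q ^ 2) = s := by rw [hnt, D.pp]; exact hs6
  have hst : 1 / (s * t) = -u := by
    field_simp
    linear_combination hnu
  have hs1 : 1 / s = -(t * u) := by
    field_simp
    linear_combination hnu
  -- the square
  have sq : ∀ P0 P1 P2 Y, OnL x (x ^ (D.q ^ 2)) (x ^ (D.q ^ 4)) (x ^ (D.q ^ 3)) (x ^ (D.q ^ 5))
      (x ^ D.q) P0 P1 P2 Y → (mu * s * P0 + eta * Y) ^ 2
        = Y ^ 2 - (s * t * P0 * P2 + s * u * P0 * P1 + t * u * P1 * P2) := by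
    intro P0 P1 P2 Y h
    have h1 := hR.2 P0 P1 P2 Y h
    have h2 := hl P0 P1 P2 Y h
    rw [← h1]
    unfold Dq
    unfold l2 at h2
    have e1 : P1 / (s * t) = -(u * P1) := by
      rw [div_eq_mul_one_div, hst]; ring
    have e2 : P1 * P2 / s = -(t * u) * (P1 * P2) := by
      rw [div_eq_mul_one_div, hs1]; ring
    rw [e1] at h2
    rw [e2]
    linear_combination (s * P0) * h2
  have sq2 : ∀ P0 P1 P2 Y, OnL x (x ^ (D.q ^ 2)) (x ^ (D.q ^ 4)) (x ^ (D.q ^ 3)) (x ^ (D.q ^ 5))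
      (x ^ D.q) P0 P1 P2 Y → (mu ^ (D.q ^ 2) * u * P1 + eta ^ (D.q ^ 2) * Y) ^ 2
        = (mu * s * P0 + eta * Y) ^ 2 := by
    intro P0 P1 P2 Y h
    rw [sq P0 P1 P2 Y h]
    obtain ⟨Q0, Q1, Q2, Z, hQ, h0, h1, h2, h3⟩ := HD.root3 hx h
    have h4 := congrArg (D.frn 2) (sq Q0 Q1 Q2 Z hQ)
    have c0 : D.frn 2 Q0 = P1 := h0
    have c1 : D.frn 2 Q1 = P2 := h1
    have c2 : D.frn 2 Q2 = P0 := h2
    have c3 : D.frn 2 Z = Y := h3
    have c4 : D.frn 2 s = u := hu.symm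
    have c5 : D.frn 2 t = s := hts
    have c6 : D.frn 2 u = t := hut
    have c7 : D.frn 2 mu = mu ^ (D.q ^ 2) := rfl
    have c8 : D.frn 2 eta = eta ^ (D.q ^ 2) := rfl
    simp only [map_pow, map_sub, map_add, map_mul, c0, c1, c2, c3, c4, c5, c6] at h4
    simp only [c7, c8] at h4
    rw [h4]
    ring
  -- sign
  obtain ⟨d, hd, hd1, hd2⟩ := form_sign D.two_ne
    (a := mu ^ (D.q ^ 2) * u * (x ^ (D.q ^ 2) / x))
    (b := mu ^ (D.q ^ 2) * u * (x ^ D.q / x) + eta ^ (D.q ^ 2)) (c := mu * s) (e := eta) (by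
      intro P Y
      have h := sq2 _ _ _ _ (OnL.param hPL P Y)
      rw [← h]
      ring)
  have F1 : ∀ P0 P1 P2 Y, OnL x (x ^ (D.q ^ 2)) (x ^ (D.q ^ 4)) (x ^ (D.q ^ 3)) (x ^ (D.q ^ 5))
      (x ^ D.q) P0 P1 P2 Y → (-d * (mu * s)) * P0 + (mu ^ (D.q ^ 2) * u) * P1 + 0 * P2
        + (eta ^ (D.q ^ 2) - d * eta) * Y = 0 := by
    intro P0 P1 P2 Y h
    have h1 : P1 = (x ^ (D.q ^ 2) * P0 + Y * x ^ D.q) / x := by
      have hx0 := hx.ne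
      field_simp
      linear_combination h.2.2
    rw [h1]
    have e : (-d * (mu * s)) * P0 + (mu ^ (D.q ^ 2) * u) * ((x ^ (D.q ^ 2) * P0 + Y * x ^ D.q) / x)
        + 0 * P2 + (eta ^ (D.q ^ 2) - d * eta) * Y
        = (mu ^ (D.q ^ 2) * u * (x ^ (D.q ^ 2) / x)) * P0
          + (mu ^ (D.q ^ 2) * u * (x ^ D.q / x) + eta ^ (D.q ^ 2)) * Y
          - d * (mu * s) * P0 - d * eta * Y := by ring
    rw [e, hd1, hd2]
    ring
  have F2 := step2 D hx F1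
  have F3 := step2 D hx F2
  have hdd : d ^ 2 = 1 := by rcases hd with h | h <;> rw [h] <;> norm_num
  have dn := D.sgn_n hd 2
  -- eta is fixed
  have heta6 : eta ^ (D.q ^ 6) = eta := by
    obtain ⟨hep, hE1, hE2⟩ := hE
    have hepn := D.sgn_n hep 3
    have hep2 : ep ^ 2 = 1 := by rcases hep with h | h <;> rw [h] <;> norm_num
    have hK : (s ^ 2 * x / x ^ (D.q ^ 3)) ^ (D.q ^ 3) = (s⁻¹) ^ 2 * x ^ (D.q ^ 3) / x := by
      rw [div_pow, mul_pow, D.pp, ← pow_mul, mul_comm 2, pow_mul, hs3]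
      norm_num
      rw [hx6]
    have h1 := congrArg (D.frn 3) hE2
    have c1 : D.frn 3 ep = ep := hepn
    have c2 : D.frn 3 D.th = -D.th := D.th_q3
    have c3 : D.frn 3 mu = mu ^ (D.q ^ 3) := rfl
    have c4 : D.frn 3 eta = eta ^ (D.q ^ 3) := rfl
    have c5 : D.frn 3 (s ^ 2 * x / x ^ (D.q ^ 3)) = (s⁻¹) ^ 2 * x ^ (D.q ^ 3) / x := hK
    have c6 : D.frn 3 (eta ^ (D.q ^ 3)) = eta ^ (D.q ^ 6) := by rw [HD.frn_def, D.pp]
    rw [c6, map_mul, map_mul, map_add, map_mul, map_mul, map_ofNat, c1, c2, c3, c4, c5, hE1, hE2] at h1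
    rw [h1]
    have hx0 := hx.ne
    have hy0 : x ^ (D.q ^ 3) ≠ 0 := pow_ne_zero _ hx0
    have h2 := D.th2
    field_simp
    linear_combination (4 * eta - D.th ^ 2 * eta) * hep2 - eta * h2
  have z2 : (0 : L) ^ (D.q ^ 2) = 0 := zero_pow (pow_ne_zero 2 D.q_ne)
  have hp := OnL.param hPL 0 1
  have G1 := F1 _ _ _ _ hp
  have G2 := F2 _ _ _ _ hp
  have G3 := F3 _ _ _ _ hp
  rw [z2] at G2 G3
  rw [z2] at G3
  have w1 : (-d * (mu * s)) ^ (D.q ^ 2) = -d * (mu ^ (D.q ^ 2) * u) := by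
    rw [mul_pow, D.negn, dn, mul_pow, ← hu]
  have w2 : (mu ^ (D.q ^ 2) * u) ^ (D.q ^ 2) = mu ^ (D.q ^ 4) * t := by
    rw [mul_pow, D.pp, hut]
  have w3 : (eta ^ (D.q ^ 2) - d * eta) ^ (D.q ^ 2) = eta ^ (D.q ^ 4) - d * eta ^ (D.q ^ 2) := by
    rw [D.subn, mul_pow, dn, D.pp]
  have w4 : (mu ^ (D.q ^ 4) * t) ^ (D.q ^ 2) = mu ^ (D.q ^ 6) * s := by
    rw [mul_pow, D.pp, hts]
  have w5 : (-d * (mu ^ (D.q ^ 2) * u)) ^ (D.q ^ 2) = -d * (mu ^ (D.q ^ 4) * t) := by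
    rw [mul_pow, D.negn, dn, mul_pow, D.pp, hut]
  have w6 : (eta ^ (D.q ^ 4) - d * eta ^ (D.q ^ 2)) ^ (D.q ^ 2)
      = eta ^ (D.q ^ 6) - d * eta ^ (D.q ^ 4) := by
    rw [D.subn, mul_pow, dn, D.pp, D.pp]
  rw [w1, w2, w3] at G2 G3
  rw [w4, w5, w6, heta6] at G3
  have hfin : eta = d ^ 3 * eta := by
    linear_combination G3 + d * G2 + d ^ 2 * G1
  have hd1' : d = 1 := by
    have h5 : eta * (1 - d) = 0 := by linear_combination hfin + d * eta * hdd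
    rcases mul_eq_zero.mp h5 with h6 | h6
    · exact absurd h6 heta
    · linear_combination -h6
  intro P0 P1 P2 Y h
  have h5 := F1 P0 P1 P2 Y h
  rw [hd1'] at h5
  linear_combination h5

/-- rational points -/
theorem rat_inv [IsAlgClosed L] (D : HD L) {x s mu eta ep : L} (hx : D.isL x) (hc : D.circ s)
    (hE : D.Ep x s mu eta ep)
    (hf : ∀ P0 P1 P2 Y, OnL x (x ^ (D.q ^ 2)) (x ^ (D.q ^ 4)) (x ^ (D.q ^ 3)) (x ^ (D.q ^ 5)) (x ^ D.q)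
        P0 P1 P2 Y →
      mu ^ (D.q ^ 2) * s ^ (D.q ^ 2) * P1 + eta ^ (D.q ^ 2) * Y = mu * s * P0 + eta * Y)
    {P Y : L} (hP : D.mem x P Y) :
    (mu * s * P + eta * Y) ^ D.q
      = ep * hat D.th s x (x ^ (D.q ^ 3)) mu eta (P ^ (D.q ^ 3)) (Y ^ D.q) := by
  have h1 := hf _ _ _ _ (hP.onL hx)
  obtain ⟨⟨hP6, hY2⟩, -⟩ := hP
  have hs3 := hc.inv
  have h2 : (mu * s * P + eta * Y) ^ (D.q ^ 2) = mu * s * P + eta * Y := by
    rw [D.addn, mul_pow, mul_pow, mul_pow, hY2]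
    exact h1
  have h3 : (mu * s * P + eta * Y) ^ D.q = (mu * s * P + eta * Y) ^ (D.q ^ 3) := by
    rw [← D.pq _ 2, h2]
  have hY3 : Y ^ (D.q ^ 3) = Y ^ D.q := by
    rw [← D.pq _ 2, hY2]
  rw [h3, D.addn, mul_pow, mul_pow, mul_pow, hY3, hs3, hE.2.1, hE.2.2]
  unfold hat
  rw [div_eq_mul_inv _ s]
  ring

theorem RAM : S_HAT → S_MT → S_RT → S_CUB → S_EPS → S_L2R → S_RAMB → S_RAMC → S_RAM := by
  intro _ hMT hRT hCUB hEPS hL2R hRAMB hRAMC L _ _ D x s mu eta hx hR hm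
  have hs : s ≠ 0 := hR.1
  have hx6 := hx.p6
  have heta : eta ≠ 0 := by
    rintro rfl
    rcases ((hRT L D x s hx).2 mu 0 hR).2 with h | h
    · exact h (by simpa using hm)
    · exact h rfl
  have hfac := phi_fac hCUB D hx hR hm
  have hc : D.circ s := circ_of D hx hs hfac
  have hnt0 : D.nt s ≠ 0 := by
    rw [hc.nt]; exact pow_ne_zero _ hs
  have hl := hL2R L D.th x (x ^ (D.q ^ 2)) (x ^ (D.q ^ 4)) (x ^ (D.q ^ 3)) (x ^ (D.q ^ 5)) (x ^ D.q)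
    s (D.nt s) mu eta (D.mM x s mu eta) (D.mE x s mu eta) D.two_ne D.th2 hx.PL hs hnt0 hR.2
    (next_rd hMT D hx hR) hm (next_m D hm)
  obtain ⟨hs6, hNm, hnu, hg, hne, hdual⟩ := l2_facts D hx hc hl
  obtain ⟨be, g, hbe, hbg, hrel⟩ := hRAMB L D.th x (x ^ (D.q ^ 2)) (x ^ (D.q ^ 4)) (x ^ (D.q ^ 3))
    (x ^ (D.q ^ 5)) (x ^ D.q) s (D.nt s) mu eta D.two_ne D.th2 hx.PL hs hnt0 hR.2 heta hm hl hne
  have hg0 : g ≠ 0 := hg g fun P0 P1 P2 Y h => (hrel P0 P1 P2 Y h).1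
  have hD := hRAMC L D.th x (x ^ (D.q ^ 2)) (x ^ (D.q ^ 4)) (x ^ (D.q ^ 3))
    (x ^ (D.q ^ 5)) (x ^ D.q) s (D.nt s) mu eta be g D.two_ne D.th2 hx.PL hs hnt0 hg0 hbe hbg heta hm
    (fun P0 P1 P2 Y h => ⟨hl P0 P1 P2 Y h, hrel P0 P1 P2 Y h⟩) hne hdual
  obtain ⟨ep, hEp⟩ := hEPS L D x s mu eta hx hc hR
  refine ⟨be, g, ep, hR, hm, heta, hc, hNm, hbe, hg0, hbg, hEp,
    fun P0 P1 P2 Y h => ⟨hl P0 P1 P2 Y h, hrel P0 P1 P2 Y h⟩,
    fun R0 R1 R2 Z h => ⟨hdual R0 R1 R2 Z h, (hD R0 R1 R2 Z h).1⟩, ?_, hfac⟩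
  intro P Y hP
  have hf := form_inv D hx hc hR heta hEp hs6 hnu hl
  rw [rat_inv D hx hc hEp hf hP]
  have h1 := (hD _ _ _ _ (hP.onL' hx)).2
  linear_combination ep * h1

end Pool.Agent.TH496.J3874
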