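import Pool.Agent.TH280.LS.Stm

set_option autoImplicit false

/-! # LS-MOD, part 1: the function `Ph` -/

open MeasureTheory Set
open scoped ENNReal

namespace Pool.Agent.TH496.MOD

open Pool.Agent.TH280.LS

/-- Cauchy-Schwarz -/
lemma cs_l {α : Type*} [MeasurableSpace α] (μ : Measure α) (f : α → ℝ≥0∞)
    (hf : AEMeasurable f μ) :
    (∫⁻ x, f x ∂μ) ^ 2 ≤ μ univ * ∫⁻ x, f x ^ 2 ∂μ := by
  have h := ENNReal.lintegral_mul_le_Lp_mul_Lq μ (p := 2) (q := 2)
    (by constructor <;> norm_num) hf (aemeasurable_const (b := (1 : ℝ≥0∞)))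
  simp only [Pi.mul_apply, mul_one, ENNReal.one_rpow, lintegral_const, one_mul] at h
  have h2 := pow_le_pow_left' h 2
  rw [mul_pow, ← ENNReal.rpow_natCast, ← ENNReal.rpow_natCast, ← ENNReal.rpow_mul,
    ← ENNReal.rpow_natCast, ← ENNReal.rpow_mul] at h2
  norm_num at h2
  rw [mul_comm]
  convert h2 using 3
  

lemma int_of_memLp {φ : ℝ → ℂ} (h2 : MemLp φ 2 (volume.restrict (Icc (-2 : ℝ) 2))) :
    IntegrableOn φ (Icc (-2 : ℝ) 2) := by
  exact h2.integrable (by norm_num)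

lemma A_lt_top {φ : ℝ → ℂ} (h2 : MemLp φ 2 (volume.restrict (Icc (-2 : ℝ) 2))) :
    ∫⁻ t in Icc (-2 : ℝ) 2, ‖φ t‖ₑ ^ 2 < ∞ := by
  have h := h2.eLpNorm_lt_top
  rw [eLpNorm_lt_top_iff_lintegral_rpow_enorm_lt_top (by norm_num) (by norm_num)] at h
  simpa using h

/-- sup bound -/
lemma Ph_sup {φ : ℝ → ℂ} (hm : Measurable φ) (s : ℝ) :
    ‖Ph φ s‖ₑ ^ 2 ≤ 4 * ∫⁻ t in Icc (-2 : ℝ) 2, ‖φ t‖ₑ ^ 2 := by
  unfold Ph
  have h1 : ‖∫ t in Icc (-2 : ℝ) 2, φ t * e (t * s)‖ₑ ≤ ∫⁻ t in Icc (-2 : ℝ) 2, ‖φ t‖ₑ := by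
    refine (enorm_integral_le_lintegral_enorm _).trans (le_of_eq ?_)
    refine lintegral_congr fun t => ?_
    rw [enorm_mul]
    have : ‖e (t * s)‖ₑ = 1 := by
      rw [← ofReal_norm, norm_e]; simp
    rw [this, mul_one]
  refine (pow_le_pow_left' h1 2).trans ?_
  refine (cs_l _ _ hm.enorm.aemeasurable).trans ?_
  rw [Measure.restrict_apply_univ, Real.volume_Icc]
  norm_num

lemma Ph_planch {φ : ℝ → ℂ} (hm : Measurable φ)
    (h2 : MemLp φ 2 (volume.restrict (Icc (-2 : ℝ) 2))) :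
    ∫⁻ s : ℝ, ‖Ph φ s‖ₑ ^ 2 = ∫⁻ t in Icc (-2 : ℝ) 2, ‖φ t‖ₑ ^ 2 := by
  have hq1 : Integrable (indicator (Icc (-2 : ℝ) 2) φ) :=
    (integrable_indicator_iff measurableSet_Icc).2 (int_of_memLp h2)
  have hq2 : MemLp (indicator (Icc (-2 : ℝ) 2) φ) 2 :=
    (memLp_indicator_iff_restrict measurableSet_Icc).2 h2
  have h := ift_planch _ hq1 hq2
  have e1 : ∀ s : ℝ, (∫ ξ : ℝ, e (s * ξ) * indicator (Icc (-2 : ℝ) 2) φ ξ) = Ph φ s := by
    intro s
    unfold Ph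
    rw [← integral_indicator measurableSet_Icc]
    refine integral_congr_ae (Filter.Eventually.of_forall fun t => ?_)
    by_cases ht : t ∈ Icc (-2 : ℝ) 2
    · show e (s * t) * indicator (Icc (-2 : ℝ) 2) φ t =
        indicator (Icc (-2 : ℝ) 2) (fun t => φ t * e (t * s)) t
      rw [indicator_of_mem ht, indicator_of_mem ht, mul_comm s t, mul_comm]
    · simp only [indicator_of_notMem ht, mul_zero]
  simp only [e1] at h
  rw [h, ← lintegral_indicator measurableSet_Icc]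
  refine lintegral_congr fun t => ?_
  by_cases ht : t ∈ Icc (-2 : ℝ) 2
  · simp only [indicator_of_mem ht]
  · simp only [indicator_of_notMem ht]; simp

/-- the density of the derivative -/
noncomputable def dp (φ : ℝ → ℂ) (t : ℝ) : ℂ := φ t * (((2 * Real.pi * t : ℝ) : ℂ) * Complex.I)

lemma dp_meas {φ : ℝ → ℂ} (hm : Measurable φ) : Measurable (dp φ) := by
  unfold dp
  exact hm.mul ((Complex.continuous_ofReal.comp (by fun_prop :
    Continuous fun t : ℝ => 2 * Real.pi * t)).measurable.mul measurable_const)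

lemma dp_norm {φ : ℝ → ℂ} {t : ℝ} (ht : t ∈ Icc (-2 : ℝ) 2) :
    ‖dp φ t‖ ≤ 4 * Real.pi * ‖φ t‖ := by
  unfold dp
  rw [norm_mul, norm_mul, Complex.norm_I, mul_one, Complex.norm_real, Real.norm_eq_abs, abs_mul,
    abs_of_pos Real.two_pi_pos, mul_comm]
  have : |t| ≤ 2 := abs_le.2 ⟨by linarith [ht.1], ht.2⟩
  apply mul_le_mul_of_nonneg_right _ (norm_nonneg _)
  nlinarith [Real.pi_pos]

lemma dp_memLp {φ : ℝ → ℂ} (hm : Measurable φ)
    (h2 : MemLp φ 2 (volume.restrict (Icc (-2 : ℝ) 2))) :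
    MemLp (dp φ) 2 (volume.restrict (Icc (-2 : ℝ) 2)) := by
  refine MemLp.of_le_mul (c := 4 * Real.pi) h2 (dp_meas hm).aestronglyMeasurable ?_
  rw [ae_restrict_iff' measurableSet_Icc]
  exact Filter.Eventually.of_forall fun t ht => dp_norm ht

lemma dp_A {φ : ℝ → ℂ} :
    ∫⁻ t in Icc (-2 : ℝ) 2, ‖dp φ t‖ₑ ^ 2 ≤
      ENNReal.ofReal ((4 * Real.pi) ^ 2) * ∫⁻ t in Icc (-2 : ℝ) 2, ‖φ t‖ₑ ^ 2 := by
  rw [← lintegral_const_mul' _ _ ENNReal.ofReal_ne_top]
  refine setLIntegral_mono_ae' measurableSet_Icc (Filter.Eventually.of_forall fun t ht => ?_)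
  have h := dp_norm (φ := φ) ht
  rw [← ofReal_norm, ← ofReal_norm, ← ENNReal.ofReal_pow (norm_nonneg _),
    ← ENNReal.ofReal_pow (norm_nonneg _), ← ENNReal.ofReal_mul (by positivity)]
  apply ENNReal.ofReal_le_ofReal
  rw [← mul_pow]
  exact pow_le_pow_left₀ (norm_nonneg _) h 2

lemma hasDerivAt_e (t s : ℝ) :
    HasDerivAt (fun s : ℝ => e (t * s)) ((((2 * Real.pi * t : ℝ) : ℂ) * Complex.I) * e (t * s)) s := by
  unfold e
  have h1 : HasDerivAt (fun s : ℝ => (((2 * Real.pi * (t * s) : ℝ) : ℂ) * Complex.I))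
      (((2 * Real.pi * t : ℝ) : ℂ) * Complex.I) s := by
    have h0 : HasDerivAt (fun s : ℝ => (2 * Real.pi * (t * s) : ℝ)) (2 * Real.pi * t) s := by
      have h := (hasDerivAt_id s).const_mul (2 * Real.pi * t)
      have e1 : (fun s : ℝ => (2 * Real.pi * (t * s) : ℝ)) =
          fun s : ℝ => 2 * Real.pi * t * id s := by
        funext s; simp only [id]; ring
      rw [e1]
      exact h.congr_deriv (by ring)
    exact (h0.ofReal_comp).mul_const Complex.I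
  exact h1.cexp.congr_deriv (mul_comm _ _)

lemma hasDerivAt_Ph {φ : ℝ → ℂ} (hm : Measurable φ)
    (h2 : MemLp φ 2 (volume.restrict (Icc (-2 : ℝ) 2))) (s : ℝ) :
    HasDerivAt (Ph φ) (Ph (dp φ) s) s := by
  unfold Ph
  have hint := int_of_memLp h2
  refine (hasDerivAt_integral_of_dominated_loc_of_deriv_le
    (F := fun s t => φ t * e (t * s)) (F' := fun s t => dp φ t * e (t * s))
    (bound := fun t => 4 * Real.pi * ‖φ t‖) (s := univ) Filter.univ_mem ?_ ?_ ?_ ?_ ?_ ?_).2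
  · refine Filter.Eventually.of_forall fun s => ?_
    exact (hm.mul (measurable_e.comp (by fun_prop : Measurable fun t : ℝ => t * s))).aestronglyMeasurable
  · refine hint.norm.mono' ?_ ?_
    · exact (hm.mul (measurable_e.comp (by fun_prop :
        Measurable fun t : ℝ => t * s))).aestronglyMeasurable
    · refine Filter.Eventually.of_forall fun t => ?_
      rw [norm_mul, norm_e, mul_one]
  · exact ((dp_meas hm).mul (measurable_e.comp (by fun_prop :
        Measurable fun t : ℝ => t * s))).aestronglyMeasurable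
  · rw [ae_restrict_iff' measurableSet_Icc]
    refine Filter.Eventually.of_forall fun t ht s _ => ?_
    rw [norm_mul, norm_e, mul_one]
    exact dp_norm ht
  · exact hint.norm.const_mul _
  · refine Filter.Eventually.of_forall fun t s _ => ?_
    have h := (hasDerivAt_e t s).const_mul (φ t)
    refine h.congr_deriv ?_
    unfold dp
    ring

lemma continuous_Ph {φ : ℝ → ℂ} (hm : Measurable φ)
    (h2 : MemLp φ 2 (volume.restrict (Icc (-2 : ℝ) 2))) : Continuous (Ph φ) :=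
  continuous_iff_continuousAt.2 fun s => (hasDerivAt_Ph hm h2 s).continuousAt

/-- fundamental theorem and Cauchy-Schwarz -/
lemma Ph_ftc {φ : ℝ → ℂ} (hm : Measurable φ)
    (h2 : MemLp φ 2 (volume.restrict (Icc (-2 : ℝ) 2))) {a b : ℝ} (hab : a ≤ b) :
    ‖Ph φ b - Ph φ a‖ₑ ^ 2 ≤
      ENNReal.ofReal (b - a) * ∫⁻ s in Icc a b, ‖Ph (dp φ) s‖ₑ ^ 2 := by
  have hc := continuous_Ph (dp_meas hm) (dp_memLp hm h2)
  have h := intervalIntegral.integral_eq_sub_of_hasDerivAt (f := Ph φ) (f' := Ph (dp φ))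
    (a := a) (b := b) (fun x _ => hasDerivAt_Ph hm h2 x) (hc.intervalIntegrable a b)
  rw [← h, intervalIntegral.integral_of_le hab, ← integral_Icc_eq_integral_Ioc]
  refine (pow_le_pow_left' (enorm_integral_le_lintegral_enorm _) 2).trans ?_
  refine (cs_l _ _ hc.measurable.enorm.aemeasurable).trans ?_
  rw [Measure.restrict_apply_univ, Real.volume_Icc]

lemma Ph_lip {φ : ℝ → ℂ} (hm : Measurable φ)
    (h2 : MemLp φ 2 (volume.restrict (Icc (-2 : ℝ) 2))) (a b : ℝ) :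
    ‖Ph φ b - Ph φ a‖ₑ ^ 2 ≤ ENNReal.ofReal ((b - a) ^ 2) *
      (ENNReal.ofReal (4 * (4 * Real.pi) ^ 2) * ∫⁻ t in Icc (-2 : ℝ) 2, ‖φ t‖ₑ ^ 2) := by
  wlog hab : a ≤ b with H
  · have := H hm h2 b a (le_of_not_ge hab)
    rw [← enorm_neg, neg_sub, show (b - a) ^ 2 = (a - b) ^ 2 by ring]
    exact this
  refine (Ph_ftc hm h2 hab).trans ?_
  have h1 : ∫⁻ s in Icc a b, ‖Ph (dp φ) s‖ₑ ^ 2 ≤
      (ENNReal.ofReal (4 * (4 * Real.pi) ^ 2) * ∫⁻ t in Icc (-2 : ℝ) 2, ‖φ t‖ₑ ^ 2) *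
        ENNReal.ofReal (b - a) := by
    rw [← Real.volume_Icc, ← setLIntegral_const]
    refine setLIntegral_mono' measurableSet_Icc fun s _ => ?_
    refine (Ph_sup (dp_meas hm) s).trans ?_
    refine (mul_le_mul_right dp_A 4).trans (le_of_eq ?_)
    rw [ENNReal.ofReal_mul (by norm_num), ← mul_assoc]
    norm_num
  calc ENNReal.ofReal (b - a) * ∫⁻ s in Icc a b, ‖Ph (dp φ) s‖ₑ ^ 2
      ≤ ENNReal.ofReal (b - a) * ((ENNReal.ofReal (4 * (4 * Real.pi) ^ 2) *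
        ∫⁻ t in Icc (-2 : ℝ) 2, ‖φ t‖ₑ ^ 2) * ENNReal.ofReal (b - a)) := mul_le_mul_right h1 _
    _ = _ := by
        rw [show (b - a) ^ 2 = (b - a) * (b - a) by ring, ENNReal.ofReal_mul (sub_nonneg.2 hab)]
        ring

end Pool.Agent.TH496.MOD
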