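import Pool.Agent.TH496.LS_MOD1

set_option autoImplicit false

/-! # LS-MOD, part 2: the phase function -/

open MeasureTheory Set
open scoped ENNReal

namespace Pool.Agent.TH496.MOD

open Pool.Agent.TH280.LS

section
variable {g g' : ℝ → ℝ} (h : Ev g g')
include h

lemma g'_zero : g' 0 = 0 := by
  obtain ⟨h1, h2, h3, h4⟩ := h
  have a1 := h1 0
  have a2 : HasDerivAt g (g' (-0) * (-1)) 0 := by
    have e1 : g = g ∘ fun x => -x := by funext x; simp [h4]
    rw [e1]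
    have h0 : HasDerivAt g (g' (-0)) (-0) := h1 (-0)
    exact HasDerivAt.comp (0 : ℝ) h0 (hasDerivAt_neg (0 : ℝ))
  have := a1.unique a2
  simp at this
  linarith

lemma g'_nonneg {ξ : ℝ} (hξ : 0 ≤ ξ) : 0 ≤ g' ξ := by
  rw [← g'_zero h]; exact h.2.1 hξ

lemma g_cont : Continuous g := continuous_iff_continuousAt.2 fun x => (h.1 x).continuousAt

lemma mvt {a b : ℝ} (hab : a < b) : ∃ c ∈ Ioo a b, g b - g a = g' c * (b - a) := by
  obtain ⟨c, hc, hc2⟩ := exists_hasDerivAt_eq_slope g g' hab (g_cont h).continuousOn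
    (fun x _ => h.1 x)
  refine ⟨c, hc, ?_⟩
  rw [hc2]; field_simp [sub_ne_zero.2 hab.ne']

lemma g_mono {a b : ℝ} (ha : 0 ≤ a) (hab : a ≤ b) : g a ≤ g b := by
  rcases hab.eq_or_lt with rfl | hlt
  · exact le_rfl
  · obtain ⟨c, hc, hc2⟩ := mvt h hlt
    have := mul_nonneg (g'_nonneg h (ha.trans hc.1.le)) (sub_nonneg.2 hab)
    linarith

lemma g_lip (a b : ℝ) : |g b - g a| ≤ 2 * |b - a| := by
  rcases lt_trichotomy a b with hlt | rfl | hlt
  · obtain ⟨c, hc, hc2⟩ := mvt h hlt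
    rw [hc2, abs_mul]
    exact mul_le_mul_of_nonneg_right (h.2.2.1 c) (abs_nonneg _)
  · simp
  · obtain ⟨c, hc, hc2⟩ := mvt h hlt
    rw [abs_sub_comm, hc2, abs_mul, abs_sub_comm b a]
    exact mul_le_mul_of_nonneg_right (h.2.2.1 c) (abs_nonneg _)

/-- increments are nondecreasing -/
lemma D_mono {τ : ℝ} (hτ : 0 < τ) : Monotone fun ξ => g (ξ + τ) - g ξ := by
  have hd : ∀ x, HasDerivAt (fun ξ => g (ξ + τ) - g ξ) (g' (x + τ) - g' x) x := by
    intro x
    have h1 : HasDerivAt (fun ξ => g (ξ + τ)) (g' (x + τ)) x := by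
      have := (h.1 (x + τ)).comp_add_const x τ
      exact this
    exact h1.sub (h.1 x)
  apply monotone_of_deriv_nonneg (fun x => (hd x).differentiableAt)
  intro x
  rw [(hd x).deriv]
  have := h.2.1 (by linarith : x ≤ x + τ)
  linarith

/-- the level sets -/
lemma level {τ : ℝ} (hτ : 0 < τ) {s : ℝ} (hs : s ≠ g 0) :
    volume {ξ : ℝ | 0 ≤ ξ ∧ g ξ ≤ s ∧ s ≤ g (ξ + τ)} ≤ ENNReal.ofReal τ := by
  refine (Real.volume_le_diam _).trans ?_
  refine Metric.ediam_le fun x hx y hy => ?_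
  rw [edist_dist]
  apply ENNReal.ofReal_le_ofReal
  wlog hxy : x ≤ y with H
  · rw [dist_comm]; exact H h hτ hs y hy x hx (le_of_not_ge hxy)
  rw [Real.dist_eq, abs_sub_comm, abs_of_nonneg (sub_nonneg.2 hxy)]
  by_contra hcon
  push Not at hcon
  have hlt : x + τ < y := by linarith
  have hx0 : 0 ≤ x + τ := by linarith [hx.1]
  have h1 : g (x + τ) ≤ g y := g_mono h hx0 hlt.le
  have h2 : g y = s := le_antisymm hy.2.1 (hx.2.2.trans h1)
  have h3 : g (x + τ) = s := le_antisymm (h1.trans h2.le) hx.2.2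
  obtain ⟨c, hc, hc2⟩ := mvt h hlt
  rw [h2, h3, sub_self] at hc2
  have hc0 : g' c = 0 := by
    rcases mul_eq_zero.1 hc2.symm with h5 | h5
    · exact h5
    · linarith
  have hcpos : 0 < c := by linarith [hc.1]
  obtain ⟨c', hc', hc2'⟩ := mvt h hcpos
  have hc0' : g' c' = 0 := le_antisymm (hc0 ▸ h.2.1 hc'.2.le) (g'_nonneg h hc'.1.le)
  rw [hc0', zero_mul] at hc2'
  have hgc : g c = g 0 := by linarith
  have h6 : g (x + τ) ≤ g c := g_mono h hx0 hc.1.le
  have h7 : g 0 ≤ g (x + τ) := g_mono h le_rfl hx0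
  exact hs (by rw [← h3]; linarith)

end

end Pool.Agent.TH496.MOD
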