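import Pool.Agent.TH496.LS_MOD2

set_option autoImplicit false

/-! # LS-MOD, part 3: integrals on the half line -/

open MeasureTheory Set
open scoped ENNReal

namespace Pool.Agent.TH496.MOD

open Pool.Agent.TH280.LS

section
variable {g g' : ℝ → ℝ} (h : Ev g g')
include h

lemma meas_g : Measurable g := (g_cont h).measurable

/-- Tonelli over the region between the two curves -/
lemma partA {τ : ℝ} (hτ : 0 < τ) {W : ℝ → ℝ≥0∞} (hW : Measurable W) :
    ∫⁻ ξ in Ici (0 : ℝ), ∫⁻ s in Icc (g ξ) (g (ξ + τ)), W s ≤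
      ENNReal.ofReal τ * ∫⁻ s, W s := by
  set K : Set (ℝ × ℝ) := {p | 0 ≤ p.1 ∧ g p.1 ≤ p.2 ∧ p.2 ≤ g (p.1 + τ)} with hK
  have hKm : MeasurableSet K := by
    have hg := meas_g h
    refine MeasurableSet.inter (measurableSet_le measurable_const measurable_fst) ?_
    refine MeasurableSet.inter (measurableSet_le (hg.comp measurable_fst) measurable_snd) ?_
    exact measurableSet_le measurable_snd (hg.comp (measurable_fst.add_const τ))
  set f : ℝ → ℝ → ℝ≥0∞ := fun ξ s => K.indicator (fun p => W p.2) (ξ, s) with hf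
  have hfm : Measurable (Function.uncurry f) := (hW.comp measurable_snd).indicator hKm
  have e1 : ∫⁻ ξ in Ici (0 : ℝ), ∫⁻ s in Icc (g ξ) (g (ξ + τ)), W s = ∫⁻ ξ, ∫⁻ s, f ξ s := by
    rw [← lintegral_indicator measurableSet_Ici]
    refine lintegral_congr fun ξ => ?_
    by_cases hξ : ξ ∈ Ici (0 : ℝ)
    · rw [indicator_of_mem hξ, ← lintegral_indicator measurableSet_Icc]
      refine lintegral_congr fun s => ?_
      by_cases hs : s ∈ Icc (g ξ) (g (ξ + τ))
      · rw [indicator_of_mem hs, hf]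
        simp only
        rw [indicator_of_mem (show (ξ, s) ∈ K from ⟨hξ, hs.1, hs.2⟩)]
      · rw [indicator_of_notMem hs, hf]
        simp only
        rw [indicator_of_notMem]
        exact fun hh => hs ⟨hh.2.1, hh.2.2⟩
    · rw [indicator_of_notMem hξ]
      symm
      rw [lintegral_eq_zero_iff' (by fun_prop)]
      refine Filter.Eventually.of_forall fun s => ?_
      simp only [hf]
      rw [indicator_of_notMem]
      · rfl
      · exact fun hh => hξ hh.1
  rw [e1, lintegral_lintegral_swap hfm.aemeasurable, mul_comm, ← lintegral_mul_const _ hW]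
  have hae : ∀ᵐ s : ℝ, s ≠ g 0 := by
    rw [ae_iff]; simp
  refine lintegral_mono_ae ?_
  filter_upwards [hae] with s hs
  have e2 : ∀ ξ, f ξ s = {ξ : ℝ | 0 ≤ ξ ∧ g ξ ≤ s ∧ s ≤ g (ξ + τ)}.indicator (fun _ => W s) ξ := by
    intro ξ
    simp only [hf, indicator]
    rfl
  rw [lintegral_congr e2, lintegral_indicator, setLIntegral_const]
  · exact mul_le_mul_right (level h hτ hs) _
  · have hg := meas_g h
    refine MeasurableSet.inter (measurableSet_le measurable_const measurable_id) ?_
    refine MeasurableSet.inter (measurableSet_le hg measurable_const) ?_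
    exact measurableSet_le measurable_const (hg.comp (measurable_id.add_const τ))

/-- the region where the increment is large -/
lemma partB {τ : ℝ} (hτ : 0 < τ) {V : ℝ → ℝ≥0∞} {M : ℝ≥0∞}
    (hM : ∀ s, V s ≤ M) :
    (∫⁻ ξ in {ξ : ℝ | 0 ≤ ξ ∧ 1 < g (ξ + τ) - g ξ}, V (g (ξ + τ)) ≤
      ENNReal.ofReal τ * ∫⁻ s, V s) ∧
    ∫⁻ ξ in {ξ : ℝ | 0 ≤ ξ ∧ 1 < g (ξ + τ) - g ξ}, V (g ξ) ≤
      ENNReal.ofReal τ * (∫⁻ s, V s) + M * ENNReal.ofReal τ := by
  have hg := meas_g h
  set B : Set ℝ := {ξ : ℝ | 0 ≤ ξ ∧ 1 < g (ξ + τ) - g ξ} with hB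
  have hBm : MeasurableSet B := by
    refine MeasurableSet.inter (measurableSet_le measurable_const measurable_id) ?_
    exact measurableSet_lt measurable_const ((hg.comp (measurable_id.add_const τ)).sub hg)
  set B' : Set ℝ := {ζ : ℝ | ζ - τ ∈ B} with hB'
  have hB'm : MeasurableSet B' := (measurable_id.sub_const τ) hBm
  have hup : ∀ ξ ∈ B, ∀ ξ', ξ ≤ ξ' → ξ' ∈ B := by
    intro ξ hξ ξ' hle
    exact ⟨hξ.1.trans hle, hξ.2.trans_le (D_mono h hτ hle)⟩
  have hder : ∀ ζ ∈ B', 1 / τ ≤ g' ζ := by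
    intro ζ hζ
    have h1 : 1 < g (ζ - τ + τ) - g (ζ - τ) := hζ.2
    rw [sub_add_cancel] at h1
    obtain ⟨c, hc, hc2⟩ := mvt h (by linarith : ζ - τ < ζ)
    rw [hc2, sub_sub_cancel] at h1
    have h2 : g' c ≤ g' ζ := h.2.1 hc.2.le
    rw [div_le_iff₀ hτ]
    nlinarith
  have hτinv : 0 < 1 / τ := by positivity
  have hinj : InjOn g B' := by
    intro x hx y hy hxy
    by_contra hne
    rcases lt_or_gt_of_ne hne with hlt | hlt
    · obtain ⟨c, hc, hc2⟩ := mvt h hlt
      have h1 : 0 < g' c := (hτinv.trans_le (hder x hx)).trans_le (h.2.1 hc.1.le)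
      have := mul_pos h1 (sub_pos.2 hlt)
      linarith
    · obtain ⟨c, hc, hc2⟩ := mvt h hlt
      have h1 : 0 < g' c := (hτinv.trans_le (hder y hy)).trans_le (h.2.1 hc.1.le)
      have := mul_pos h1 (sub_pos.2 hlt)
      linarith
  have hmain : ∫⁻ ζ in B', V (g ζ) ≤ ENNReal.ofReal τ * ∫⁻ s, V s := by
    have h1 := lintegral_image_eq_lintegral_abs_deriv_mul hB'm
      (fun x _ => (h.1 x).hasDerivWithinAt) hinj V
    calc ∫⁻ ζ in B', V (g ζ)
        ≤ ∫⁻ ζ in B', ENNReal.ofReal τ * (ENNReal.ofReal |g' ζ| * V (g ζ)) := by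
          refine setLIntegral_mono' hB'm fun ζ hζ => ?_
          rw [← mul_assoc, ← ENNReal.ofReal_mul hτ.le]
          have h2 : 1 ≤ ENNReal.ofReal (τ * |g' ζ|) := by
            rw [ENNReal.one_le_ofReal]
            have h3 := (hder ζ hζ).trans (le_abs_self _)
            rw [div_le_iff₀ hτ] at h3
            linarith
          calc V (g ζ) = 1 * V (g ζ) := (one_mul _).symm
            _ ≤ _ := mul_le_mul_left h2 _
      _ = ENNReal.ofReal τ * ∫⁻ x in g '' B', V x := by
          rw [lintegral_const_mul' _ _ ENNReal.ofReal_ne_top, h1]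
      _ ≤ _ := mul_le_mul_right (setLIntegral_le_lintegral _ _) _
  constructor
  · have e1 : ∫⁻ ξ in B, V (g (ξ + τ)) = ∫⁻ ζ in B', V (g ζ) := by
      rw [← lintegral_indicator hBm, ← lintegral_indicator hB'm,
        ← lintegral_add_right_eq_self (B'.indicator fun ζ => V (g ζ)) τ]
      refine lintegral_congr fun ξ => ?_
      by_cases hξ : ξ ∈ B
      · have h2 : ξ + τ ∈ B' := by
          show ξ + τ - τ ∈ B
          rwa [add_sub_cancel_right]
        rw [indicator_of_mem hξ, indicator_of_mem h2]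
      · have h2 : ξ + τ ∉ B' := by
          show ¬ (ξ + τ - τ ∈ B)
          rwa [add_sub_cancel_right]
        rw [indicator_of_notMem hξ, indicator_of_notMem h2]
    rw [e1]; exact hmain
  · have e1 : ∫⁻ ξ in B, V (g ξ) ≤ (∫⁻ ξ in B', V (g ξ)) + ∫⁻ ξ in B \ B', V (g ξ) := by
      refine (lintegral_mono_set (fun ξ hξ => ?_ : B ⊆ B' ∪ (B \ B'))).trans
        (lintegral_union_le _ _ _)
      by_cases h2 : ξ ∈ B'
      · exact Or.inl h2
      · exact Or.inr ⟨hξ, h2⟩
    refine e1.trans (add_le_add hmain ?_)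
    calc ∫⁻ ξ in B \ B', V (g ξ) ≤ ∫⁻ _ in B \ B', M :=
          lintegral_mono fun ξ => hM _
      _ = M * volume (B \ B') := setLIntegral_const _ _
      _ ≤ M * ENNReal.ofReal τ := by
          refine mul_le_mul_right ?_ _
          refine (Real.volume_le_diam _).trans ?_
          refine Metric.ediam_le fun x hx y hy => ?_
          rw [edist_dist]
          apply ENNReal.ofReal_le_ofReal
          rw [Real.dist_eq]
          by_contra hcon
          push Not at hcon
          rcases le_total x y with hxy | hxy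
          · rw [abs_sub_comm, abs_of_nonneg (sub_nonneg.2 hxy)] at hcon
            exact hy.2 (hup x hx.1 _ (by linarith))
          · rw [abs_of_nonneg (sub_nonneg.2 hxy)] at hcon
            exact hx.2 (hup y hy.1 _ (by linarith))

end

end Pool.Agent.TH496.MOD
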